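import Pool.Agent.H87.SA2.SCAL

/-! # [SA2-SCAM] Separability of the fibres at `t = a / N` -/

namespace Pool.Agent.H87.SA2

open Finset Polynomial Pool.Agent.H87.SA Pool.Agent.H97.GA

/-- a nonzero polynomial has no zero close to `0` -/
theorem near_zero {c : ℤ[X]} (hc : c ≠ 0) : ∃ N0 : ℕ, 1 ≤ N0 ∧ ∀ a N : ℕ, 1 ≤ a → N0 * a ≤ N →
    c.eval₂ (Int.castRingHom ℂ) ((a : ℂ) * ((N : ℂ))⁻¹) ≠ 0 := by
  have hc' : c.map (Int.castRingHom ℝ) ≠ 0 := by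
    rw [Ne, Polynomial.map_eq_zero_iff (Int.cast_injective : Function.Injective
      (Int.castRingHom ℝ))]
    exact hc
  have hfin : {z : ℝ | (c.map (Int.castRingHom ℝ)).IsRoot z ∧ 0 < z}.Finite :=
    (Polynomial.finite_setOf_isRoot hc').subset fun z hz => hz.1
  obtain ⟨δ, hδ, hδ2⟩ : ∃ δ : ℝ, 0 < δ ∧ ∀ z : ℝ, (c.map (Int.castRingHom ℝ)).IsRoot z → 0 < z →
      δ < z := by
    rcases hfin.toFinset.eq_empty_or_nonempty with he | hne
    · refine ⟨1, one_pos, fun z hz hz0 => ?_⟩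
      have h1 : z ∈ hfin.toFinset := by
        rw [Set.Finite.mem_toFinset]
        exact ⟨hz, hz0⟩
      rw [he] at h1
      exact absurd h1 (Finset.notMem_empty z)
    · have hmem := hfin.toFinset.min'_mem hne
      rw [Set.Finite.mem_toFinset] at hmem
      have hpos : 0 < hfin.toFinset.min' hne := hmem.2
      refine ⟨hfin.toFinset.min' hne / 2, by linarith, fun z hz hz0 => ?_⟩
      have h1 : z ∈ hfin.toFinset := by
        rw [Set.Finite.mem_toFinset]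
        exact ⟨hz, hz0⟩
      have h2 := Finset.min'_le _ z h1
      linarith
  obtain ⟨N0, hN0⟩ := exists_nat_ge (1 / δ)
  refine ⟨N0 + 1, by omega, fun a N ha hN h0 => ?_⟩
  have haR : (0 : ℝ) < a := by exact_mod_cast ha
  have hNpos : 0 < N := lt_of_lt_of_le (by positivity) hN
  have hNR : (0 : ℝ) < N := by exact_mod_cast hNpos
  have hNa : ((N0 : ℝ) + 1) * a ≤ N := by exact_mod_cast hN
  have hroot : (c.map (Int.castRingHom ℝ)).IsRoot ((a : ℝ) * ((N : ℝ))⁻¹) := by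
    show (c.map (Int.castRingHom ℝ)).eval ((a : ℝ) * ((N : ℝ))⁻¹) = 0
    rw [eval_map]
    have h1 : ((c.eval₂ (Int.castRingHom ℝ) ((a : ℝ) * ((N : ℝ))⁻¹) : ℝ) : ℂ) =
        c.eval₂ (Int.castRingHom ℂ) ((a : ℂ) * ((N : ℂ))⁻¹) := by
      have h2 := Polynomial.hom_eval₂ c (Int.castRingHom ℝ) Complex.ofRealHom
        ((a : ℝ) * ((N : ℝ))⁻¹)
      have h3 : Complex.ofRealHom.comp (Int.castRingHom ℝ) = Int.castRingHom ℂ :=
        RingHom.ext_int _ _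
      have h4 : Complex.ofRealHom ((a : ℝ) * ((N : ℝ))⁻¹) = (a : ℂ) * ((N : ℂ))⁻¹ := by
        simp
      rw [h3, h4] at h2
      exact h2
    rw [h0] at h1
    exact_mod_cast h1
  have h1 := hδ2 _ hroot (by positivity)
  have h2 : 1 ≤ ((N0 : ℝ) + 1) * δ := by
    have h3 : 1 / δ ≤ (N0 : ℝ) + 1 := by linarith
    rwa [div_le_iff₀ hδ] at h3
  have h4 : (a : ℝ) ≤ δ * N := by
    calc (a : ℝ) = 1 * a := (one_mul _).symm
      _ ≤ (((N0 : ℝ) + 1) * δ) * a := by gcongr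
      _ = δ * (((N0 : ℝ) + 1) * a) := by ring
      _ ≤ δ * N := by gcongr
  rw [← div_eq_mul_inv, lt_div_iff₀ hNR] at h1
  linarith

theorem sep_at {f : ℤ[X][X]} {d m : ℕ} (hf : f.Monic) (hd : f.natDegree = d)
    (hm : ∀ j, (f.coeff j).natDegree ≤ m) (a b : ℤ[X][X]) (c : ℤ[X])
    (hbez : a * f + b * derivative f = C c) {N : ℕ} (hNpos : 0 < N)
    (hcN : c.eval₂ (Int.castRingHom ℂ) ((N : ℂ))⁻¹ ≠ 0) :
    ((gN d m (af f) N).map (Int.castRingHom ℂ)).Separable := by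
  have hNC : (N : ℂ) ≠ 0 := Nat.cast_ne_zero.2 hNpos.ne'
  obtain ⟨t, ht⟩ : ∃ t : ℂ, t = ((N : ℂ))⁻¹ := ⟨_, rfl⟩
  have htN : (N : ℂ) * t = 1 := by rw [ht]; exact mul_inv_cancel₀ hNC
  obtain ⟨φ, hφ⟩ : ∃ φ : ℤ[X] →+* ℂ, φ = eval₂RingHom (Int.castRingHom ℂ) t := ⟨_, rfl⟩
  have hφc : φ c ≠ 0 := by
    rw [hφ, ht]
    exact hcN
  obtain ⟨F, hF⟩ : ∃ F : ℂ[X], F = f.map φ := ⟨_, rfl⟩
  have hcop : IsCoprime F (derivative F) := by
    refine ⟨C (φ c)⁻¹ * a.map φ, C (φ c)⁻¹ * b.map φ, ?_⟩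
    have h2 : (a.map φ) * F + (b.map φ) * derivative F = C (φ c) := by
      rw [hF, Polynomial.derivative_map, ← Polynomial.map_mul, ← Polynomial.map_mul,
        ← Polynomial.map_add, hbez, Polynomial.map_C]
    calc C (φ c)⁻¹ * a.map φ * F + C (φ c)⁻¹ * b.map φ * derivative F
        = C (φ c)⁻¹ * ((a.map φ) * F + (b.map φ) * derivative F) := by ring
      _ = C ((φ c)⁻¹ * φ c) := by rw [h2, ← C_mul]
      _ = 1 := by rw [inv_mul_cancel₀ hφc, C_1]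
  have hl : ((N : ℂ) ^ m)⁻¹ ≠ 0 := inv_ne_zero (pow_ne_zero _ hNC)
  have hG : (gN d m (af f) N).map (Int.castRingHom ℂ) =
      C ((N : ℂ) ^ (m * d)) * F.comp (C ((N : ℂ) ^ m)⁻¹ * X) := by
    refine Polynomial.funext fun x => ?_
    have h3 := weqe_gen d m 1 (af f) N t 0 (((N : ℂ) ^ m)⁻¹ * x) htN
    have h4 : (N : ℂ) ^ m * (((N : ℂ) ^ m)⁻¹ * x) = x := by
      rw [← mul_assoc, mul_inv_cancel₀ (pow_ne_zero _ hNC), one_mul]
    rw [h4] at h3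
    have h5 : ∑ l ∈ range (1 * m), (0 : ℂ) ^ (l + 1) * ei (hNe d m 1 (af f) N l) x = 0 :=
      Finset.sum_eq_zero fun l _ => by rw [zero_pow (Nat.succ_ne_zero l), zero_mul]
    rw [h5, add_zero, add_zero, one_pow, mul_one, fv_af hf hd hm] at h3
    rw [eval_map, eval_mul, eval_C, eval_comp, eval_mul, eval_C, eval_X, hF, eval_map, hφ]
    exact h3
  rw [hG]
  unfold Polynomial.Separable
  rw [derivative_C_mul, derivative_comp, derivative_C_mul, derivative_X, mul_one]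
  have hu1 : IsUnit (C ((N : ℂ) ^ (m * d))) :=
    Polynomial.isUnit_C.2 (isUnit_iff_ne_zero.2 (pow_ne_zero _ hNC))
  have hu2 : IsUnit (C ((N : ℂ) ^ m)⁻¹) :=
    Polynomial.isUnit_C.2 (isUnit_iff_ne_zero.2 hl)
  rw [isCoprime_mul_unit_left_left hu1, isCoprime_mul_unit_left_right hu1,
    isCoprime_mul_unit_left_right hu2]
  exact hcop.map (Polynomial.compRingHom (C ((N : ℂ) ^ m)⁻¹ * X))

theorem exists_sepa {f : ℤ[X][X]} {d m : ℕ} (hf : f.Monic) (hd : f.natDegree = d)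
    (hm : ∀ j, (f.coeff j).natDegree ≤ m) (A B : ℤ[X][X]) (c : ℤ[X]) (hc : c ≠ 0)
    (hbez : A * f + B * derivative f = C c) :
    ∃ N0 : ℕ, 1 ≤ N0 ∧ ∀ a N : ℕ, 1 ≤ a → N0 * a ≤ N →
      ((gN d m (af (fsc f a)) N).map (Int.castRingHom ℂ)).Separable := by
  obtain ⟨N0, h1, hN0⟩ := near_zero hc
  refine ⟨N0, h1, fun a N ha hN => ?_⟩
  have hNpos : 0 < N := lt_of_lt_of_le (Nat.mul_pos (by omega) (by omega)) hN
  refine sep_at (fsc_monic hf a) ((fsc_deg hf a).trans hd) (fsc_mdeg hm a) _ _ _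
    (fsc_bez hbez a) hNpos ?_
  have h2 := hN0 a N ha hN
  have h3 : (sca a c).eval₂ (Int.castRingHom ℂ) ((N : ℂ))⁻¹ =
      c.eval₂ (Int.castRingHom ℂ) ((a : ℂ) * ((N : ℂ))⁻¹) := by
    rw [sca_apply, eval₂_comp, eval₂_mul, eval₂_C, eval₂_X]
    simp
  rw [h3]
  exact h2

end Pool.Agent.H87.SA2
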