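import Pool.Agent.H87.SA2.FINP
import Pool.Agent.H87.SA2.SCAM

/-! # [SA2-FINQ] Effective Siegel theorem over the fibres `t = a / N` of a one-parameter family -/

namespace Pool.Agent.H87.SA2

open Finset Polynomial Pool.Agent.H72.ES Pool.Agent.H8.KF Pool.Agent.H8.NoPt Pool.Agent.H87.SA
  Pool.Agent.H97.GA Pool.Agent.H97.AN

/-- `f(a/N, X)` -/
noncomputable def fiba (f : ℤ[X][X]) (a N : ℕ) : ℚ[X] :=
  f.map ((aeval ((a : ℚ) / (N : ℚ)) : ℤ[X] →ₐ[ℤ] ℚ) : ℤ[X] →+* ℚ)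

theorem fiba_dvd {f g : ℤ[X][X]} (h : f ∣ g) (a N : ℕ) : fiba f a N ∣ fiba g a N := by
  unfold fiba
  obtain ⟨c, rfl⟩ := h
  exact ⟨c.map _, Polynomial.map_mul _⟩

theorem fiba_pow (f : ℤ[X][X]) (k a N : ℕ) : fiba (f ^ k) a N = fiba f a N ^ k := by
  unfold fiba
  rw [Polynomial.map_pow]

/-- the thresholds -/
theorem thr {N0 q T e K C1 a N C0 : ℕ} (hC0 : C0 = N0 + q + T ^ e + (K + 1) * e + 2 + C1)
    (ha : 1 ≤ a) (hN : (C0 * a) ^ C0 ≤ N) :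
    N0 * a ≤ N ∧ q ≤ N ∧ 2 ≤ N ∧ (T * a ^ (K + 1)) ^ e ≤ N := by
  have h2 : 2 ≤ C0 := by omega
  have h3 : C0 * a ≤ (C0 * a) ^ C0 := Nat.le_self_pow (by omega) _
  have h4 : C0 ≤ C0 * a := Nat.le_mul_of_pos_right _ ha
  refine ⟨?_, by omega, by omega, ?_⟩
  · calc N0 * a ≤ C0 * a := Nat.mul_le_mul_right _ (by omega)
      _ ≤ N := h3.trans hN
  · calc (T * a ^ (K + 1)) ^ e = T ^ e * a ^ ((K + 1) * e) := by rw [mul_pow, ← pow_mul]
      _ ≤ C0 ^ C0 * a ^ C0 :=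
          Nat.mul_le_mul ((show T ^ e ≤ C0 by omega).trans (Nat.le_self_pow (by omega) _))
            (Nat.pow_le_pow_right ha (by omega))
      _ = (C0 * a) ^ C0 := by rw [mul_pow]
      _ ≤ N := hN

/-- the case of a squarefree polynomial -/
theorem one_sqfa (f : ℤ[X][X]) (hf : f.Monic) (hd : 1 ≤ f.natDegree) (A B : ℤ[X][X]) (c : ℤ[X])
    (hc : c ≠ 0) (hbez : A * f + B * derivative f = C c) (n nu : ℕ) (hn : 4 ≤ n)
    (hnu : ∀ g : (PowerSeries ℚ)[X], g.Monic → Irreducible g → g ∣ fQ f → RealRoot g →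
      3 * g.natDegree ≤ nu) :
    ∃ C0 : ℕ, ∀ a N : ℕ, 1 ≤ a → (C0 * a) ^ C0 ≤ N → ∀ G : ℕ → ℕ → ℤ, G 0 n ≠ 0 →
      Irreducible (leadQ n G) →
      (∃ γ : AdjoinRoot (leadQ n G), aeval γ (fiba f a N) = 0 ∧ nu ≤ (minpoly ℚ γ).natDegree) →
      ∀ H : ℕ, 1 ≤ H → (∀ i j, i + j ≤ n → |G i j| ≤ (H : ℤ)) →
      ∀ x y : ℤ, ev n G x y = 0 → ((max |x| |y| : ℤ) : ℝ) ≤ ((N : ℝ) * H) ^ C0 := by
  obtain ⟨pd, -⟩ := exists_pdata f hf A B c hc hbez
  set d := f.natDegree with hddef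
  obtain ⟨m, hm⟩ : ∃ m : ℕ, ∀ j, (f.coeff j).natDegree ≤ m := by
    refine ⟨f.support.sup fun j => (f.coeff j).natDegree, fun j => ?_⟩
    by_cases hj : j ∈ f.support
    · exact Finset.le_sup (f := fun j => (f.coeff j).natDegree) hj
    · rw [notMem_support_iff.1 hj]
      simp
  obtain ⟨s0, hs0⟩ := exists_s0 pd.x pd.x_inj
  obtain ⟨N0, hN01, hN0⟩ := exists_sepa hf rfl hm A B c hc hbez
  have he := pd.e_pos
  have hq := pd.q_pos
  have hR := pd.R_ge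
  set K0 := KK (pd.e * d.factorial) (kapR d m pd.e) with hK0
  set gx := gexR d m pd.e s0 with hgx
  obtain ⟨K, hK⟩ : ∃ K : ℕ, K = 10 ^ 5 * n ^ 4 * K0 := ⟨_, rfl⟩
  obtain ⟨T, hT⟩ : ∃ T : ℕ, (4 * pd.R + (d * d.factorial + 1 : ℕ) + (s0 * d.factorial + s0 + 1 : ℕ) +
      (16 * pd.R) ^ K : ℝ) ≤ T := exists_nat_ge _
  obtain ⟨C1, hC1⟩ : ∃ C1 : ℕ, C1 = 2 * (n + 1) + ((2 * gx + 14 * n ^ 2 * (n + 1)) *
    (10 ^ 6 * n ^ 3 * K0) + 2 * (10 ^ 6 * n ^ 6 * K0 ^ 2)) := ⟨_, rfl⟩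
  obtain ⟨C0, hC0⟩ : ∃ C0 : ℕ, C0 = N0 + pd.q + T ^ pd.e + (K + 1) * pd.e + 2 + C1 := ⟨_, rfl⟩
  refine ⟨C0, ?_⟩
  intro a N ha hN G haG hirr hγ H hH1 hGH x y hz
  obtain ⟨γ, hγ0, hγ3⟩ := hγ
  obtain ⟨hN0a, hqN, hN2, hTN⟩ := thr hC0 ha hN
  have hN1 : 1 ≤ N := by omega
  have hN1R : (1 : ℝ) ≤ N := by exact_mod_cast hN1
  have haR : (1 : ℝ) ≤ a := by exact_mod_cast ha
  have hq1R : (1 : ℝ) ≤ pd.q := by exact_mod_cast hq
  obtain ⟨pd', he', hq', hR', hs'⟩ := exists_scale pd ha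
  obtain ⟨X0, hX0def⟩ : ∃ X0 : ℝ, X0 = (pd.q : ℝ) * (N : ℝ) ^ ((pd.e : ℝ)⁻¹) := ⟨_, rfl⟩
  have hroot : (1 : ℝ) ≤ (N : ℝ) ^ ((pd.e : ℝ)⁻¹) := Real.one_le_rpow hN1R (by positivity)
  have hX1 : 1 ≤ X0 := by
    rw [hX0def]
    exact one_le_mul_of_one_le_of_one_le hq1R hroot
  have hpow : X0 ^ pd.e = ((pd.q ^ pd.e * N : ℕ) : ℝ) := by
    rw [hX0def, mul_pow, Real.rpow_inv_natCast_pow (by positivity) (by omega)]
    push_cast
    ring
  have hXT : (T : ℝ) * (a : ℝ) ^ (K + 1) ≤ X0 := by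
    refine le_of_pow_le_pow_left₀ (n := pd.e) (by omega) (by positivity) ?_
    rw [hpow]
    have h1 : (T * a ^ (K + 1)) ^ pd.e ≤ pd.q ^ pd.e * N :=
      hTN.trans (Nat.le_mul_of_pos_left _ (by positivity))
    exact_mod_cast h1
  have hXN : X0 ≤ (N : ℝ) ^ 2 := by
    refine le_of_pow_le_pow_left₀ (n := pd.e) (by omega) (by positivity) ?_
    rw [hpow]
    have h1 : pd.q ^ pd.e * N ≤ (N ^ 2) ^ pd.e := by
      calc pd.q ^ pd.e * N ≤ N ^ pd.e * N ^ pd.e :=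
            Nat.mul_le_mul (Nat.pow_le_pow_left hqN _) (Nat.le_self_pow (by omega) N)
        _ = (N ^ 2) ^ pd.e := by rw [← mul_pow, sq]
    exact_mod_cast h1
  have hR0 : (0 : ℝ) ≤ (16 * pd.R) ^ K := by positivity
  have hn1 : (0 : ℝ) ≤ ((d * d.factorial + 1 : ℕ) : ℝ) := Nat.cast_nonneg _
  have hn2 : (0 : ℝ) ≤ ((s0 * d.factorial + s0 + 1 : ℕ) : ℝ) := Nat.cast_nonneg _
  have haK : (1 : ℝ) ≤ (a : ℝ) ^ (K + 1) := one_le_pow₀ haR
  have hT0 : (0 : ℝ) ≤ T := Nat.cast_nonneg _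
  have hTX : (T : ℝ) ≤ X0 := by
    calc (T : ℝ) = T * 1 := (mul_one _).symm
      _ ≤ T * (a : ℝ) ^ (K + 1) := by gcongr
      _ ≤ X0 := hXT
  have haT : (a : ℝ) * T ≤ X0 := by
    calc (a : ℝ) * T = T * (a : ℝ) ^ 1 := by ring
      _ ≤ T * (a : ℝ) ^ (K + 1) := mul_le_mul_of_nonneg_left (pow_le_pow_right₀ haR (by omega)) hT0
      _ ≤ X0 := hXT
  have haKT : (a : ℝ) ^ K * T ≤ X0 := by
    calc (a : ℝ) ^ K * T = T * (a : ℝ) ^ K := by ring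
      _ ≤ T * (a : ℝ) ^ (K + 1) := mul_le_mul_of_nonneg_left (pow_le_pow_right₀ haR (by omega)) hT0
      _ ≤ X0 := hXT
  have hyp : RHyp (fsc f a) d m pd' N X0 :=
    { monic := fsc_monic hf a
      deg := fsc_deg hf a
      d1 := hd
      mdeg := fsc_mdeg hm a
      N1 := hN1
      X1 := hX1
      pow := by rw [he', hq']; exact hpow
      big := by
        rw [hR']
        have h1 : 4 * pd.R ≤ T := by linarith
        calc 4 * ((a : ℝ) * pd.R) = (a : ℝ) * (4 * pd.R) := by ring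
          _ ≤ (a : ℝ) * T := by gcongr
          _ ≤ X0 := haT
      sep := hN0 a N ha hN0a }
  have hXR' : (16 * pd'.R) ^ (10 ^ 5 * n ^ 4 * KK (pd'.e * d.factorial) (kapR d m pd'.e)) ≤ X0 := by
    rw [he', hR', ← hK0, ← hK]
    have h1 : (16 * pd.R) ^ K ≤ T := by linarith
    calc (16 * ((a : ℝ) * pd.R)) ^ K = (a : ℝ) ^ K * (16 * pd.R) ^ K := by
          rw [← mul_pow]
          congr 1
          ring
      _ ≤ (a : ℝ) ^ K * T := by gcongr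
      _ ≤ X0 := haKT
  set H' := max 2 H with hH'
  have hmain := one_array hn hyp (hs' s0 hs0) (by linarith) (by linarith) hXR' (hnu_fsc hnu ha) G
    haG hirr γ (by rw [fsc_fib]; exact hγ0)
    hγ3 H' (le_max_left _ _) (fun i j hij => (hGH i j hij).trans (by exact_mod_cast le_max_right 2 H))
    x y hz
  rw [he', ← hK0, ← hgx] at hmain
  have hP1 : 1 ≤ N * H := Nat.mul_pos hN1 hH1
  have hH'P : H' ≤ N * H := by
    refine max_le ?_ ?_
    · exact hN2.trans (Nat.le_mul_of_pos_right _ hH1)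
    · exact Nat.le_mul_of_pos_left _ hN1
  have hNP : (N : ℝ) ≤ ((N * H : ℕ) : ℝ) := by exact_mod_cast Nat.le_mul_of_pos_right _ hH1
  have hXP : X0 ≤ (((N * H : ℕ) : ℝ)) ^ 2 := hXN.trans (pow_le_pow_left₀ (by positivity) hNP 2)
  have hnum := one_num (n := n) (K0 := K0) (gx := gx) hX1 hXP hP1 hH'P (le_max_left 2 H)
  refine hmain.trans (hnum.trans ?_)
  rw [← hC1]
  have hP1R : (1 : ℝ) ≤ ((N * H : ℕ) : ℝ) := by exact_mod_cast hP1
  have h3 : ((N * H : ℕ) : ℝ) = (N : ℝ) * H := by push_cast; ring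
  rw [← h3]
  exact pow_le_pow_right₀ hP1R (by omega)

/-- **Effective Siegel theorem over the fibres `t = a / N` of a one-parameter family.** -/
theorem one_polya (f : ℤ[X][X]) (hf : f.Monic) (n nu : ℕ) (hn : 4 ≤ n)
    (hnu : ∀ g : (PowerSeries ℚ)[X], g.Monic → Irreducible g → g ∣ fQ f → RealRoot g →
      3 * g.natDegree ≤ nu) :
    ∃ C0 : ℕ, ∀ a N : ℕ, 1 ≤ a → (C0 * a) ^ C0 ≤ N → ∀ F : MvPolynomial (Fin 2) ℤ,
      F.totalDegree ≤ n →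
      Irreducible (MvPolynomial.map (Int.castRingHom ℚ)
        (MvPolynomial.homogeneousComponent n F)) →
      (∃ γ : AdjoinRoot (MvPolynomial.aeval ![(1 : ℚ[X]), X]
        (MvPolynomial.homogeneousComponent n F)),
        aeval γ (fiba f a N) = 0 ∧ nu ≤ (minpoly ℚ γ).natDegree) →
      ∀ x y : ℤ, MvPolynomial.eval ![x, y] F = 0 →
      max |x| |y| ≤ ((N : ℤ) * ((F.support.sup fun m => (F.coeff m).natAbs : ℕ) : ℤ)) ^ C0 := by
  obtain ⟨f1, k, hf1, hdvd, hdvd2, A, B, c, hc, hbez⟩ := exists_rad f hf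
  by_cases hd : f1.natDegree = 0
  · -- `f1 = 1`
    refine ⟨0, fun a N _ _ F hFdeg hirr hγ => ?_⟩
    exfalso
    have h1 : f1 = 1 := hf1.natDegree_eq_zero.1 hd
    obtain ⟨γ, hγ0, -⟩ := hγ
    rw [h1, one_pow] at hdvd2
    have h2 : fiba f a N ∣ 1 := by
      have := fiba_dvd hdvd2 a N
      have h3 : fiba 1 a N = 1 := by
        unfold fiba
        exact Polynomial.map_one _
      rwa [h3] at this
    obtain ⟨hG0, hirr'⟩ := leadQ_of_irreducible (by omega) hirr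
    rw [← aeval_lead] at hirr'
    exact adj_one hirr' γ h2 hγ0
  · have hnu1 : ∀ g : (PowerSeries ℚ)[X], g.Monic → Irreducible g → g ∣ fQ f1 → RealRoot g →
        3 * g.natDegree ≤ nu := by
      intro g h1 h2 h3 h4
      refine hnu g h1 h2 (h3.trans ?_) h4
      unfold fQ
      obtain ⟨e, rfl⟩ := hdvd
      exact ⟨e.map _, Polynomial.map_mul _⟩
    obtain ⟨C0, hC0⟩ := one_sqfa f1 hf1 (by omega) A B c hc hbez n nu hn hnu1
    refine ⟨C0, fun a N ha hN F hFdeg hirr hγ x y hz => ?_⟩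
    have hbd := coeff_le_sup F
    set H := F.support.sup fun m => (F.coeff m).natAbs with hH
    rw [aeval_lead] at hγ
    obtain ⟨γ, hγ0, hγ3⟩ := hγ
    obtain ⟨hG0, hirr'⟩ := leadQ_of_irreducible (by omega) hirr
    have hz' : ev n (arrM F) x y = 0 := by rw [← eval_arrM hFdeg]; exact hz
    have hγ0' : aeval γ (fiba f1 a N) = 0 := by
      have h1 : fiba f a N ∣ fiba f1 a N ^ k := by
        rw [← fiba_pow]
        exact fiba_dvd hdvd2 a N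
      exact adj_root hirr' γ h1 hγ0
    have hH1 : 1 ≤ H := by
      by_contra hc
      have h0 : H = 0 := by omega
      have h1 := hbd (ex 0 n)
      rw [h0] at h1
      apply hG0
      have h2 : F.coeff (ex 0 n) = 0 := by
        have h3 := abs_nonneg (F.coeff (ex 0 n))
        have h4 : |F.coeff (ex 0 n)| ≤ 0 := by simpa using h1
        exact abs_eq_zero.1 (le_antisymm h4 h3)
      exact h2
    have hfin := hC0 a N ha hN (arrM F) hG0 hirr' ⟨γ, hγ0', hγ3⟩ H hH1 (fun i j _ => hbd _) x y hz'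
    exact_mod_cast hfin

end Pool.Agent.H87.SA2
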