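import Mathlib.RingTheory.Polynomial.GaussLemma
import Mathlib.RingTheory.Radical.Basic
import Mathlib.FieldTheory.Separable
import Mathlib.Algebra.Polynomial.Derivative
import Mathlib.RingTheory.Polynomial.UniqueFactorization
import Mathlib.RingTheory.Localization.Integral
import Mathlib.Algebra.CharZero.Infinite
import Mathlib.FieldTheory.Perfect
import Mathlib.RingTheory.Polynomial.RationalRoot

/-! # [SA2-RAD] Reduction to a squarefree monic polynomial

Proof. `ℤ[X][X]` is a UFD. Let `g = f1` be the product of the distinct normalized (or any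
representatives) prime factors of `f` (`UniqueFactorizationMonoid.radical`, or by induction on the
factorization / on the degree): `f1 ∣ f`, `f ∣ f1 ^ k`, `Squarefree f1`. The leading coefficient
of `f1` divides `1`, so it is `± 1` (a unit of `ℤ[X]`); replace `f1` by its associate which is
monic. Its image over the field `L = FractionRing ℤ[X]` is squarefree (Gauss lemma: `f1` is primitive;
a square factor over `L` gives one over `ℤ[X]`; or use
`Polynomial.IsPrimitive.Int...`/`IsPrimitive.dvd_iff_fraction_map_dvd_fraction_map`, factor `f1` in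
irreducible monic polynomials `p_i`, pairwise non associated, which remain irreducible over `L`:
`Polynomial.Monic.irreducible_iff_irreducible_map_fraction_map`),
hence separable (`PerfectField.separable_iff_squarefree`, characteristic `0`), i.e.
`u f1 + v f1' = 1` over `L`; multiply by a common denominator `c ∈ ℤ[X]` of the coefficients of
`u`, `v` (`IsLocalization.integerNormalization` or `IsLocalization.exist_integer_multiples`). -/

namespace Pool.Agent.H87.SA2

open Polynomial

section gen

variable {R : Type} [CommRing R] [IsDomain R] [UniqueFactorizationMonoid R]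

/-- a monic polynomial different from `1` has a monic irreducible factor -/
theorem rad_factor (f : R[X]) (hf : f.Monic) (h1 : f ≠ 1) :
    ∃ p g : R[X], p.Monic ∧ Irreducible p ∧ g.Monic ∧ f = p * g ∧ g.natDegree < f.natDegree := by
  have hu : ¬ IsUnit f := fun h => h1 (hf.isUnit_iff.1 h)
  obtain ⟨i, hi, j, hj⟩ := WfDvdMonoid.exists_irreducible_factor hu hf.ne_zero
  have hlc : i.leadingCoeff * j.leadingCoeff = 1 := by
    rw [← leadingCoeff_mul, ← hj]
    exact hf
  obtain ⟨u, hu1⟩ : ∃ u, u = i.leadingCoeff := ⟨_, rfl⟩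
  obtain ⟨w, hw1⟩ : ∃ w, w = j.leadingCoeff := ⟨_, rfl⟩
  rw [← hu1, ← hw1] at hlc
  have hCuw : (C u : R[X]) * C w = 1 := by rw [← C_mul, hlc, C_1]
  have hCw : IsUnit (C w : R[X]) := IsUnit.of_mul_eq_one (C u) (by rw [mul_comm]; exact hCuw)
  have hp : (C w * i).Monic := by
    unfold Monic
    rw [leadingCoeff_mul, leadingCoeff_C, ← hu1, mul_comm]
    exact hlc
  have hg : (C u * j).Monic := by
    unfold Monic
    rw [leadingCoeff_mul, leadingCoeff_C, ← hw1]
    exact hlc
  have hfpg : f = (C w * i) * (C u * j) := by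
    rw [hj]
    calc i * j = (C u * C w) * (i * j) := by rw [hCuw, one_mul]
      _ = (C w * i) * (C u * j) := by ring
  have hpi : Irreducible (C w * i) := by
    rw [irreducible_isUnit_mul hCw]
    exact hi
  refine ⟨C w * i, C u * j, hp, hpi, hg, hfpg, ?_⟩
  have h2 : f.natDegree = (C w * i).natDegree + (C u * j).natDegree := by
    conv_lhs => rw [hfpg]
    exact hp.natDegree_mul hg
  have h3 : (C w * i).natDegree ≠ 0 := by
    intro h0
    have h4 : C w * i = 1 := hp.natDegree_eq_zero.1 h0
    exact hpi.not_isUnit (h4 ▸ isUnit_one)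
  omega

theorem rad_aux [CharZero R] (L : Type) [Field L] [Algebra R L] [IsFractionRing R L] (n : ℕ) :
    ∀ f : R[X], f.Monic → f.natDegree = n → ∃ (f1 : R[X]) (k : ℕ), f1.Monic ∧ f1 ∣ f ∧
      f ∣ f1 ^ k ∧ (f1.map (algebraMap R L)).Separable := by
  have hchar : CharZero L := by
    have hinj : Function.Injective (algebraMap R L) := IsFractionRing.injective R L
    exact charZero_of_injective_algebraMap hinj
  induction n using Nat.strong_induction_on with
  | _ n ih =>
    intro f hf hn
    by_cases h1 : f = 1
    · refine ⟨1, 0, monic_one, one_dvd _, by rw [h1, pow_zero], ?_⟩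
      rw [Polynomial.map_one]
      exact separable_one
    · obtain ⟨p, g, hp, hpi, hg, hfpg, hlt⟩ := rad_factor f hf h1
      obtain ⟨g1, k, hg1, hg1g, hgg1, hsep⟩ := ih g.natDegree (by omega) g hg rfl
      by_cases hd : p ∣ g1
      · refine ⟨g1, k + 1, hg1, ?_, ?_, hsep⟩
        · rw [hfpg]
          exact dvd_mul_of_dvd_right hg1g p
        · rw [hfpg, pow_succ, mul_comm (g1 ^ k)]
          exact mul_dvd_mul hd hgg1
      · refine ⟨p * g1, k + 1, hp.mul hg1, ?_, ?_, ?_⟩
        · rw [hfpg]
          exact mul_dvd_mul_left p hg1g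
        · rw [hfpg, mul_pow]
          exact mul_dvd_mul (dvd_pow_self p (Nat.succ_ne_zero k))
            (hgg1.trans (pow_dvd_pow g1 (Nat.le_succ k)))
        · rw [Polynomial.map_mul]
          have hpL : Irreducible (p.map (algebraMap R L)) :=
            (hp.irreducible_iff_irreducible_map_fraction_map).1 hpi
          refine hpL.separable.mul hsep ?_
          rw [hpL.coprime_iff_not_dvd]
          intro h2
          exact hd ((hg1.dvd_iff_fraction_map_dvd_fraction_map (K := L) hp).1 h2)

omit [UniqueFactorizationMonoid R] in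
theorem rad_bez (L : Type) [Field L] [Algebra R L] [IsFractionRing R L] (f1 : R[X])
    (hs : (f1.map (algebraMap R L)).Separable) :
    ∃ (a b : R[X]) (c : R), c ≠ 0 ∧ a * f1 + b * derivative f1 = C c := by
  have hinj : Function.Injective (algebraMap R L) := IsFractionRing.injective R L
  obtain ⟨u, v, huv⟩ := hs
  obtain ⟨b1, hb1, e1⟩ := IsLocalization.integerNormalization_spec (nonZeroDivisors R) u
  obtain ⟨b2, hb2, e2⟩ := IsLocalization.integerNormalization_spec (nonZeroDivisors R) v
  refine ⟨C b2 * IsLocalization.integerNormalization (nonZeroDivisors R) u,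
    C b1 * IsLocalization.integerNormalization (nonZeroDivisors R) v, b1 * b2,
    mul_ne_zero (nonZeroDivisors.ne_zero hb1) (nonZeroDivisors.ne_zero hb2), ?_⟩
  apply Polynomial.map_injective (algebraMap R L) hinj
  rw [Polynomial.map_add, Polynomial.map_mul, Polynomial.map_mul, Polynomial.map_mul,
    Polynomial.map_mul, e1, e2, Polynomial.map_C, Polynomial.map_C, Polynomial.map_C,
    ← derivative_map, map_mul, C_mul, algebra_compatible_smul L, algebra_compatible_smul L b2,
    smul_eq_C_mul, smul_eq_C_mul]
  linear_combination (C (algebraMap R L b1) * C (algebraMap R L b2)) * huv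

end gen

theorem exists_rad (f : ℤ[X][X]) (hf : f.Monic) : ∃ (f1 : ℤ[X][X]) (k : ℕ), f1.Monic ∧ f1 ∣ f ∧
    f ∣ f1 ^ k ∧ ∃ (a b : ℤ[X][X]) (c : ℤ[X]), c ≠ 0 ∧ a * f1 + b * derivative f1 = C c := by
  obtain ⟨f1, k, h1, h2, h3, h4⟩ := rad_aux (FractionRing ℤ[X]) f.natDegree f hf rfl
  exact ⟨f1, k, h1, h2, h3, rad_bez (FractionRing ℤ[X]) f1 h4⟩

end Pool.Agent.H87.SA2
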