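import Pool.Agent.H87.SA2.WEQE

/-! # [SA2-SEPN] For large `N` the polynomial `gN` is separable

Evaluate the relation `a f + b f' = c` at `t = 1/N`: `a(1/N, X) f(1/N, X) + b(1/N, X) f'(1/N, X) =
c(1/N)` in `ℂ[X]`. `c ≠ 0` has finitely many roots, `N ↦ 1/N` is injective, so `c(1/N) ≠ 0` for all
`N ≥ N0`; then `f(1/N, X)` is separable over `ℂ` (`Polynomial.Separable` is `IsCoprime` with the
derivative; divide by the constant `c(1/N)`). `gN d m (af f) N` mapped to `ℂ` is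
`N^(m d) f(1/N, X / N^m)`: `weqe_gen` with `s = 0` (or `gN_val` in `WEqA.lean`) and `fv_af`:
for all `x ∈ ℂ`, `gN (N^m x) = N^(m d) f(1/N, x)`, so
`gN.map .. = C (N^(m d)) * (f(1/N, ·)).comp (C (1/N^m) * X)` (`Polynomial.funext`), and the composition
with a linear polynomial of a separable polynomial is separable (roots distinct:
`Polynomial.nodup_roots_iff_of_splits`, or compose the Bezout relation). -/

namespace Pool.Agent.H87.SA2

open Finset Polynomial Pool.Agent.H87.SA Pool.Agent.H97.GA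

theorem sepn_inj : Function.Injective (fun N : ℕ => ((N : ℂ))⁻¹) := by
  intro a b h
  have h1 : (a : ℂ) = b := inv_injective h
  exact_mod_cast h1

theorem sepn_N0 {c : ℤ[X]} (hc : c ≠ 0) : ∃ N0 : ℕ, 1 ≤ N0 ∧ ∀ N ≥ N0,
    c.eval₂ (Int.castRingHom ℂ) ((N : ℂ))⁻¹ ≠ 0 := by
  have hc' : c.map (Int.castRingHom ℂ) ≠ 0 := by
    rw [Ne, Polynomial.map_eq_zero_iff (Int.cast_injective : Function.Injective
      (Int.castRingHom ℂ))]
    exact hc
  have hfin : {z : ℂ | (c.map (Int.castRingHom ℂ)).IsRoot z}.Finite :=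
    Polynomial.finite_setOf_isRoot hc'
  have hfin2 : ((fun N : ℕ => ((N : ℂ))⁻¹) ⁻¹' {z : ℂ | (c.map (Int.castRingHom ℂ)).IsRoot z}).Finite :=
    hfin.preimage (sepn_inj.injOn)
  obtain ⟨M, hM⟩ := hfin2.bddAbove
  refine ⟨M + 1, by omega, fun N hN h0 => ?_⟩
  have h1 : N ∈ ((fun N : ℕ => ((N : ℂ))⁻¹) ⁻¹' {z : ℂ | (c.map (Int.castRingHom ℂ)).IsRoot z}) := by
    show (c.map (Int.castRingHom ℂ)).eval ((N : ℂ))⁻¹ = 0
    rw [eval_map]
    exact h0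
  have h2 := hM h1
  omega

theorem exists_sep {f : ℤ[X][X]} {d m : ℕ} (hf : f.Monic) (hd : f.natDegree = d)
    (hm : ∀ j, (f.coeff j).natDegree ≤ m) (a b : ℤ[X][X]) (c : ℤ[X]) (hc : c ≠ 0)
    (hbez : a * f + b * derivative f = C c) :
    ∃ N0 : ℕ, 1 ≤ N0 ∧ ∀ N ≥ N0, ((gN d m (af f) N).map (Int.castRingHom ℂ)).Separable := by
  obtain ⟨N0, h1, hN0⟩ := sepn_N0 hc
  refine ⟨N0, h1, fun N hN => ?_⟩
  have hNpos : 0 < N := by omega
  have hNC : (N : ℂ) ≠ 0 := Nat.cast_ne_zero.2 hNpos.ne'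
  obtain ⟨t, ht⟩ : ∃ t : ℂ, t = ((N : ℂ))⁻¹ := ⟨_, rfl⟩
  have htN : (N : ℂ) * t = 1 := by rw [ht]; exact mul_inv_cancel₀ hNC
  obtain ⟨φ, hφ⟩ : ∃ φ : ℤ[X] →+* ℂ, φ = eval₂RingHom (Int.castRingHom ℂ) t := ⟨_, rfl⟩
  have hφc : φ c ≠ 0 := by
    rw [hφ, ht]
    exact hN0 N hN
  obtain ⟨F, hF⟩ : ∃ F : ℂ[X], F = f.map φ := ⟨_, rfl⟩
  have hcop : IsCoprime F (derivative F) := by
    refine ⟨C (φ c)⁻¹ * a.map φ, C (φ c)⁻¹ * b.map φ, ?_⟩
    have h2 : (a.map φ) * F + (b.map φ) * derivative F = C (φ c) := by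
      rw [hF, Polynomial.derivative_map, ← Polynomial.map_mul, ← Polynomial.map_mul,
        ← Polynomial.map_add, hbez, Polynomial.map_C]
    calc C (φ c)⁻¹ * a.map φ * F + C (φ c)⁻¹ * b.map φ * derivative F
        = C (φ c)⁻¹ * ((a.map φ) * F + (b.map φ) * derivative F) := by ring
      _ = C ((φ c)⁻¹ * φ c) := by rw [h2, ← C_mul]
      _ = 1 := by rw [inv_mul_cancel₀ hφc, C_1]
  have hl : ((N : ℂ) ^ m)⁻¹ ≠ 0 := inv_ne_zero (pow_ne_zero _ hNC)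
  have hG : (gN d m (af f) N).map (Int.castRingHom ℂ) =
      C ((N : ℂ) ^ (m * d)) * F.comp (C ((N : ℂ) ^ m)⁻¹ * X) := by
    refine Polynomial.funext fun x => ?_
    have h3 := weqe_gen d m 1 (af f) N t 0 (((N : ℂ) ^ m)⁻¹ * x) htN
    have h4 : (N : ℂ) ^ m * (((N : ℂ) ^ m)⁻¹ * x) = x := by
      rw [← mul_assoc, mul_inv_cancel₀ (pow_ne_zero _ hNC), one_mul]
    rw [h4] at h3
    have h5 : ∑ l ∈ range (1 * m), (0 : ℂ) ^ (l + 1) * ei (hNe d m 1 (af f) N l) x = 0 :=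
      Finset.sum_eq_zero fun l _ => by rw [zero_pow (Nat.succ_ne_zero l), zero_mul]
    rw [h5, add_zero, add_zero, one_pow, mul_one, fv_af hf hd hm] at h3
    rw [eval_map, eval_mul, eval_C, eval_comp, eval_mul, eval_C, eval_X, hF, eval_map, hφ]
    exact h3
  rw [hG]
  unfold Polynomial.Separable
  rw [derivative_C_mul, derivative_comp, derivative_C_mul, derivative_X, mul_one]
  have hu1 : IsUnit (C ((N : ℂ) ^ (m * d))) :=
    Polynomial.isUnit_C.2 (isUnit_iff_ne_zero.2 (pow_ne_zero _ hNC))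
  have hu2 : IsUnit (C ((N : ℂ) ^ m)⁻¹) :=
    Polynomial.isUnit_C.2 (isUnit_iff_ne_zero.2 hl)
  rw [isCoprime_mul_unit_left_left hu1, isCoprime_mul_unit_left_right hu1,
    isCoprime_mul_unit_left_right hu2]
  exact hcop.map (Polynomial.compRingHom (C ((N : ℂ) ^ m)⁻¹ * X))

end Pool.Agent.H87.SA2
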