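import Pool.Agent.H97.GA.Gal
import Mathlib.FieldTheory.AlgebraicClosure

/-! # [SA2-GALA] Membership in a real field by embeddings of the algebraic numbers

`galA_mem`: the proof of `Pool.Agent.H97.GA.gal_mem` (`Pool/Agent/H97/GA/Gal.lean`, proved) with
`Ω = algebraicClosure ℚ ℂ` instead of a number field (only integrality over `ℚ` of the elements is
used there), `ι0 = algebraMap Ω ℂ`.
`realA_mem`: `f : ℝ →ₐ[ℚ] ℂ`; apply `galA_mem` to `s = {z}` (as an element of `Ω`), map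
`adjoin ℚ {z} ⊆ Ω` to `ℂ` and pull back to `ℝ` (`IntermediateField.adjoin_map`, as in `real_mem` of the
same file).
`extA`: `k = adjoin ℚ {z} ⊆ ℝ`, `z` integral. The inclusion `k → ℝ → ℂ` has image in
`Ω = algebraicClosure ℚ ℂ` (`k/ℚ` is algebraic), so it gives `j : k →+* Ω` with
`(j a : ℂ) = (a : ℝ)`. Make `ℂ` a `k`-algebra through `σ'` and `Ω` a `k`-algebra through `j`; `Ω` is
algebraic over `k`; `IsAlgClosed.lift : Ω →ₐ[k] ℂ`. -/

namespace Pool.Agent.H87.SA2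

open Polynomial

theorem algC_int (x : algebraicClosure ℚ ℂ) : IsIntegral ℚ x := by
  have h1 : IsIntegral ℚ ((x : algebraicClosure ℚ ℂ) : ℂ) := mem_algebraicClosure_iff'.1 x.2
  obtain ⟨p, hp, hx⟩ := h1
  refine ⟨p, hp, ?_⟩
  have h2 := Polynomial.hom_eval₂ p (algebraMap ℚ (algebraicClosure ℚ ℂ))
    (algebraMap (algebraicClosure ℚ ℂ) ℂ) x
  apply (algebraMap (algebraicClosure ℚ ℂ) ℂ).injective
  rw [h2, map_zero, ← hx]
  congr 1

theorem galA_mem (s : Set (algebraicClosure ℚ ℂ)) (y : algebraicClosure ℚ ℂ)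
    (h : ∀ σ : algebraicClosure ℚ ℂ →+* ℂ, (∀ x ∈ s, σ x = (x : ℂ)) → σ y = (y : ℂ)) :
    y ∈ IntermediateField.adjoin ℚ s := by
  classical
  have hΩ : ∀ z : algebraicClosure ℚ ℂ, IsIntegral ℚ z := algC_int
  obtain ⟨ι0, hι0⟩ : ∃ ι0 : algebraicClosure ℚ ℂ →+* ℂ, ∀ x, ι0 x = (x : ℂ) :=
    ⟨algebraMap (algebraicClosure ℚ ℂ) ℂ, fun x => rfl⟩
  set L := IntermediateField.adjoin ℚ s with hL
  let algLC : Algebra L ℂ := (ι0.comp (algebraMap L (algebraicClosure ℚ ℂ))).toAlgebra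
  have hintall : ∀ z : algebraicClosure ℚ ℂ, IsIntegral L z := fun z => (hΩ z).tower_top
  have hint : IsIntegral L y := hintall y
  -- each root of the minimal polynomial equals `ι0 y`
  have hroot : ∀ y' : ℂ, aeval y' (minpoly L y) = 0 → y' = ι0 y := by
    intro y' hy'
    obtain ⟨φ, hφ⟩ := IntermediateField.exists_algHom_of_splits_of_aeval (F := L)
      (E := algebraicClosure ℚ ℂ) (K := ℂ) (fun z => ⟨hintall z, IsAlgClosed.splits _⟩) hy'
    have h1 : ∀ x ∈ s, (φ : algebraicClosure ℚ ℂ →+* ℂ) x = (x : ℂ) := by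
      intro x hx
      have hxL : x ∈ L := IntermediateField.subset_adjoin ℚ s hx
      have := φ.commutes ⟨x, hxL⟩
      exact this.trans (hι0 x)
    have h2 := h (φ : algebraicClosure ℚ ℂ →+* ℂ) h1
    rw [← hφ, hι0]
    exact h2
  by_contra hy
  have hsep : ((minpoly L y).map (algebraMap L ℂ)).Separable :=
    (Irreducible.separable (minpoly.irreducible hint)).map
  have hcard : ((minpoly L y).map (algebraMap L ℂ)).roots.card = (minpoly L y).natDegree := by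
    rw [(IsAlgClosed.splits ((minpoly L y).map (algebraMap L ℂ))).natDegree_eq_card_roots.symm,
      natDegree_map]
  have hnd : ((minpoly L y).map (algebraMap L ℂ)).roots.Nodup := nodup_roots hsep
  have hne : (minpoly L y).map (algebraMap L ℂ) ≠ 0 := (hsep.ne_zero)
  have hsub : ((minpoly L y).map (algebraMap L ℂ)).roots.toFinset ⊆ {ι0 y} := by
    intro y' hy'
    rw [Multiset.mem_toFinset, mem_roots hne, IsRoot.def, eval_map_algebraMap] at hy'
    rw [Finset.mem_singleton]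
    exact hroot y' hy'
  have hle : (minpoly L y).natDegree ≤ 1 := by
    rw [← hcard, ← Multiset.toFinset_card_of_nodup hnd]
    exact (Finset.card_le_card hsub).trans (by simp)
  have hpos : 0 < (minpoly L y).natDegree := minpoly.natDegree_pos hint
  have h1 : (minpoly L y).natDegree = 1 := le_antisymm hle hpos
  obtain ⟨w, hw⟩ := minpoly.natDegree_eq_one_iff.mp h1
  apply hy
  rw [← hw]
  exact w.2

theorem algC_mem (z : ℝ) (hz : IsAlgebraic ℚ z) : (z : ℂ) ∈ algebraicClosure ℚ ℂ := by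
  rw [mem_algebraicClosure_iff]
  exact (isAlgebraic_algHom_iff (Complex.ofRealHom.toRatAlgHom) Complex.ofReal_injective).2 hz

theorem realA_mem (z y : ℝ) (hz : IsAlgebraic ℚ z) (hy : IsAlgebraic ℚ y)
    (h : ∀ σ : algebraicClosure ℚ ℂ →+* ℂ,
      (∀ a : algebraicClosure ℚ ℂ, (a : ℂ) = (z : ℂ) → σ a = (z : ℂ)) →
      ∀ a : algebraicClosure ℚ ℂ, (a : ℂ) = (y : ℂ) → σ a = (y : ℂ)) :
    y ∈ IntermediateField.adjoin ℚ {z} := by
  classical
  obtain ⟨Z, hZ⟩ : ∃ Z : algebraicClosure ℚ ℂ, (Z : ℂ) = (z : ℂ) := ⟨⟨(z : ℂ), algC_mem z hz⟩, rfl⟩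
  obtain ⟨Y, hY⟩ : ∃ Y : algebraicClosure ℚ ℂ, (Y : ℂ) = (y : ℂ) := ⟨⟨(y : ℂ), algC_mem y hy⟩, rfl⟩
  have h0 : Y ∈ IntermediateField.adjoin ℚ ({Z} : Set (algebraicClosure ℚ ℂ)) := by
    refine galA_mem {Z} Y fun σ hσ => ?_
    rw [hY]
    refine h σ (fun a ha => ?_) Y hY
    have h1 : a = Z := Subtype.ext (ha.trans hZ.symm)
    rw [h1, hσ Z rfl, hZ]
  let f : ℝ →ₐ[ℚ] ℂ := Complex.ofRealHom.toRatAlgHom
  let g : algebraicClosure ℚ ℂ →ₐ[ℚ] ℂ := (algebraicClosure ℚ ℂ).val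
  have hf : ∀ x : ℝ, f x = (x : ℂ) := fun x => rfl
  have hg : ∀ x : algebraicClosure ℚ ℂ, g x = (x : ℂ) := fun x => rfl
  have h1 : (IntermediateField.adjoin ℚ ({Z} : Set (algebraicClosure ℚ ℂ))).map g
      = (IntermediateField.adjoin ℚ ({z} : Set ℝ)).map f := by
    rw [IntermediateField.adjoin_map, IntermediateField.adjoin_map, Set.image_singleton,
      Set.image_singleton, hf, hg, hZ]
  have h2 : g Y ∈ (IntermediateField.adjoin ℚ ({Z} : Set (algebraicClosure ℚ ℂ))).map g :=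
    ⟨Y, h0, rfl⟩
  rw [h1] at h2
  obtain ⟨x, hx, hxy⟩ := h2
  have h3 : x = y := by
    have : (x : ℂ) = (y : ℂ) := by
      rw [← hY, ← hg Y, ← hxy]
      rfl
    exact_mod_cast this
  rw [← h3]
  exact hx

theorem extA (z : ℝ) (hz : IsAlgebraic ℚ z) (σ' : IntermediateField.adjoin ℚ {z} →+* ℂ) :
    ∃ σ : algebraicClosure ℚ ℂ →+* ℂ, ∀ (b : IntermediateField.adjoin ℚ {z})
      (a : algebraicClosure ℚ ℂ), (a : ℂ) = ((b : ℝ) : ℂ) → σ a = σ' b := by
  have hk : Algebra.IsAlgebraic ℚ (IntermediateField.adjoin ℚ {z}) :=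
    IntermediateField.isAlgebraic_adjoin_simple hz.isIntegral
  have hb : ∀ b : IntermediateField.adjoin ℚ {z}, ((b : ℝ) : ℂ) ∈ algebraicClosure ℚ ℂ := by
    intro b
    refine algC_mem _ ?_
    have h1 := hk.isAlgebraic b
    exact (isAlgebraic_algHom_iff (IntermediateField.val _) Subtype.val_injective).2 h1
  obtain ⟨j, hj⟩ : ∃ j : IntermediateField.adjoin ℚ {z} →+* algebraicClosure ℚ ℂ,
      ∀ b, ((j b : algebraicClosure ℚ ℂ) : ℂ) = ((b : ℝ) : ℂ) := by
    refine ⟨(Complex.ofRealHom.comp (algebraMap (IntermediateField.adjoin ℚ {z}) ℝ)).codRestrict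
      (algebraicClosure ℚ ℂ) hb, fun b => rfl⟩
  let a1 : Algebra (IntermediateField.adjoin ℚ {z}) ℂ := σ'.toAlgebra
  let a2 : Algebra (IntermediateField.adjoin ℚ {z}) (algebraicClosure ℚ ℂ) := j.toAlgebra
  have h1 : Algebra.IsAlgebraic (IntermediateField.adjoin ℚ {z}) (algebraicClosure ℚ ℂ) := by
    refine ⟨fun x => ?_⟩
    have h2 : IsIntegral ℚ x := algC_int x
    exact (h2.tower_top).isAlgebraic
  refine ⟨(IsAlgClosed.lift : algebraicClosure ℚ ℂ →ₐ[IntermediateField.adjoin ℚ {z}] ℂ), ?_⟩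
  intro b a hab
  have h3 : a = j b := Subtype.ext (hab.trans (hj b).symm)
  rw [h3]
  exact (IsAlgClosed.lift : algebraicClosure ℚ ℂ →ₐ[IntermediateField.adjoin ℚ {z}] ℂ).commutes b

end Pool.Agent.H87.SA2
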