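import Pool.Agent.H97.GA.Defs

/-! # [SA2-SEPR] Small weights separating all pairings

`exists_s0`: for `i ≠ j` the series differ at some coefficient `k_{ij}`; `s0` is the maximum.
`exists_weightR`: (as `[GA-SEPW]`, `Pool/Agent/H97/GA/SepW.lean`) for a permutation `τ ≠ 1` there is
`i` with `τ⁻¹ i ≠ i`, so some `k ≤ s0` with `coeff k (x (τ⁻¹ i)) ≠ coeff k (x i)`. For this `k` let
`P = ∑_{l<d} T^l (∑_i (y (τ i)^l - y i^l) coeff k (x i)) ∈ ℂ[T]`, so
`P (w) = ∑ wv d w (y (τ i)) coeff k (x i) - ∑ wv d w (y i) coeff k (x i)`. `P ≠ 0`: otherwise for all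
`l < d`: `∑_i y i^l (coeff k (x (τ⁻¹ i)) - coeff k (x i)) = 0` (reindex by `τ`), and by the Vandermonde
determinant of the distinct `y i` (`Matrix.eq_zero_of_forall_pow_sum_mul_pow_eq_zero`, in
`Mathlib/LinearAlgebra/Vandermonde.lean`) all `coeff k (x (τ⁻¹ i)) = coeff k (x i)`, contradiction.
So each `τ ≠ 1` excludes at most `d - 1` values of `w`, in total at most `(d! - 1) (d - 1)`; one of
`0, ..., d * d!` is left (count with `Finset.card_biUnion_le` and `Polynomial.card_roots'`, or take the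
product polynomial).
`exists_lam`: the polynomials `∑_{k ≤ s0} T^k (c k τ - c k 1)`, `τ ≠ 1`, are not `0`, of degree at
most `s0`: the same count. -/

namespace Pool.Agent.H87.SA2

open Finset Polynomial Pool.Agent.H97.GA

theorem exists_s0 {d : ℕ} (x : Fin d → PowerSeries ℂ) (hx : Function.Injective x) :
    ∃ s0 : ℕ, ∀ i j, (∀ k ≤ s0, PowerSeries.coeff k (x i) = PowerSeries.coeff k (x j)) → i = j := by
  have h1 : ∀ i j : Fin d, ∃ k : ℕ, i ≠ j →
      PowerSeries.coeff k (x i) ≠ PowerSeries.coeff k (x j) := by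
    intro i j
    by_cases hij : i = j
    · exact ⟨0, fun h => absurd hij h⟩
    · by_contra hcon
      push Not at hcon
      apply hij
      apply hx
      ext k
      exact (hcon k).2
  choose K hK using h1
  refine ⟨∑ i, ∑ j, K i j, fun i j h => ?_⟩
  by_contra hij
  apply hK i j hij
  apply h
  calc K i j ≤ ∑ j, K i j := single_le_sum (f := fun j => K i j) (fun _ _ => Nat.zero_le _)
        (mem_univ j)
    _ ≤ ∑ i, ∑ j, K i j := single_le_sum (f := fun i => ∑ j, K i j) (fun _ _ => Nat.zero_le _)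
        (mem_univ i)

/-- if more than `d` weights do not separate the pairing with `τ`, then `c` is invariant -/
theorem sepr_inv {d : ℕ} {y : Fin d → ℂ} (hy : Function.Injective y) (c : Fin d → ℂ)
    (τ : Equiv.Perm (Fin d)) (S : Finset ℕ) (hS : d < S.card)
    (hSm : ∀ w ∈ S, ∑ i, wv d w (y (τ i)) * c i = ∑ i, wv d w (y i) * c i) (i : Fin d) :
    c (τ⁻¹ i) = c i := by
  classical
  have hd : 0 < d := i.pos
  set P : ℂ[X] := ∑ l ∈ range d, C (∑ i, (y (τ i) ^ l - y i ^ l) * c i) * X ^ l with hP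
  have hPev : ∀ w : ℕ, P.eval (w : ℂ) =
      ∑ i, wv d w (y (τ i)) * c i - ∑ i, wv d w (y i) * c i := by
    intro w
    rw [hP, eval_finsetSum]
    simp only [eval_mul, eval_C, eval_pow, eval_X]
    unfold wv
    simp only [Finset.sum_mul]
    rw [Finset.sum_comm, ← Finset.sum_sub_distrib]
    refine Finset.sum_congr rfl fun i _ => ?_
    rw [← Finset.sum_sub_distrib]
    refine Finset.sum_congr rfl fun l _ => ?_
    ring
  have hPdeg : P.natDegree < d := by
    have : P.natDegree ≤ d - 1 := by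
      rw [hP]
      apply natDegree_sum_le_of_forall_le
      intro l hl
      rw [mem_range] at hl
      refine (natDegree_C_mul_X_pow_le _ _).trans ?_
      omega
    omega
  have hP0 : P = 0 := by
    apply eq_zero_of_natDegree_lt_card_of_eval_eq_zero' P (S.image (fun w : ℕ => (w : ℂ)))
    · intro z hz
      rw [Finset.mem_image] at hz
      obtain ⟨w, hw, rfl⟩ := hz
      rw [hPev, hSm w hw, sub_self]
    · rw [Finset.card_image_of_injective _ Nat.cast_injective]
      omega
  have hco : ∀ l < d, ∑ i, (y (τ i) ^ l - y i ^ l) * c i = 0 := by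
    intro l hl
    have h1 : P.coeff l = ∑ i, (y (τ i) ^ l - y i ^ l) * c i := by
      rw [hP, finsetSum_coeff]
      simp only [coeff_C_mul, coeff_X_pow]
      rw [Finset.sum_eq_single l]
      · simp
      · intro b _ hb
        rw [if_neg (Ne.symm hb), mul_zero]
      · intro h
        exact absurd (Finset.mem_range.2 hl) h
    rw [← h1, hP0, coeff_zero]
  have hv : (fun i => c (τ⁻¹ i) - c i) = 0 := by
    apply Matrix.eq_zero_of_forall_pow_sum_mul_pow_eq_zero hy
    intro l
    have h1 := hco l l.2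
    have h2 : ∑ i, y (τ i) ^ (l : ℕ) * c i = ∑ i, y i ^ (l : ℕ) * c (τ⁻¹ i) := by
      rw [← Equiv.sum_comp τ (fun i => y i ^ (l : ℕ) * c (τ⁻¹ i))]
      refine Finset.sum_congr rfl fun i _ => ?_
      simp
    simp only [sub_mul] at h1 ⊢
    rw [Finset.sum_sub_distrib] at h1 ⊢
    rw [h2] at h1
    rw [← h1]
    congr 1
    · exact Finset.sum_congr rfl fun i _ => mul_comm _ _
    · exact Finset.sum_congr rfl fun i _ => mul_comm _ _
  exact sub_eq_zero.1 (congrFun hv i)

theorem exists_weightR {d : ℕ} (x : Fin d → PowerSeries ℂ) {s0 : ℕ}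
    (hx : ∀ i j, (∀ k ≤ s0, PowerSeries.coeff k (x i) = PowerSeries.coeff k (x j)) → i = j)
    {y : Fin d → ℂ} (hy : Function.Injective y) :
    ∃ w : ℕ, w ≤ d * d.factorial ∧ ∀ τ : Equiv.Perm (Fin d),
      (∀ k ≤ s0, ∑ i, wv d w (y (τ i)) * PowerSeries.coeff k (x i) =
        ∑ i, wv d w (y i) * PowerSeries.coeff k (x i)) → τ = 1 := by
  classical
  by_contra hcon
  push Not at hcon
  have hcon' : ∀ w : ℕ, ∃ τ : Equiv.Perm (Fin d), w ≤ d * d.factorial →
      ((∀ k ≤ s0, ∑ i, wv d w (y (τ i)) * PowerSeries.coeff k (x i) =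
        ∑ i, wv d w (y i) * PowerSeries.coeff k (x i)) ∧ τ ≠ 1) := by
    intro w
    by_cases hw : w ≤ d * d.factorial
    · obtain ⟨τ, h1, h2⟩ := hcon w hw
      exact ⟨τ, fun _ => ⟨h1, h2⟩⟩
    · exact ⟨1, fun h => absurd h hw⟩
  choose F hF using hcon'
  have hcard : (Finset.univ : Finset (Equiv.Perm (Fin d))).card * d <
      (Finset.range (d * d.factorial + 1)).card := by
    rw [Finset.card_univ, Fintype.card_perm, Fintype.card_fin, Finset.card_range]
    rw [mul_comm]
    omega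
  obtain ⟨τ, -, hτ⟩ := Finset.exists_lt_card_fiber_of_mul_lt_card_of_maps_to
    (s := Finset.range (d * d.factorial + 1)) (f := F) (fun a _ => Finset.mem_univ _) hcard
  set S := {x ∈ Finset.range (d * d.factorial + 1) | F x = τ} with hS
  have hSm : ∀ w ∈ S, ((∀ k ≤ s0, ∑ i, wv d w (y (τ i)) * PowerSeries.coeff k (x i) =
        ∑ i, wv d w (y i) * PowerSeries.coeff k (x i)) ∧ τ ≠ 1) := by
    intro w hw
    rw [hS, Finset.mem_filter, Finset.mem_range] at hw
    have := hF w (by omega)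
    rw [hw.2] at this
    exact this
  have hne : S.Nonempty := by
    rw [← Finset.card_pos]
    omega
  obtain ⟨w0, hw0⟩ := hne
  apply (hSm w0 hw0).2
  have hinv : ∀ i, τ⁻¹ i = i := by
    intro i
    apply hx
    intro k hk
    exact sepr_inv hy (fun i => PowerSeries.coeff k (x i)) τ S hτ
      (fun w hw => (hSm w hw).1 k hk) i
  ext i
  have h3 := hinv (τ i)
  have h5 : τ⁻¹ (τ i) = i := by simp
  rw [h5] at h3
  rw [← h3]
  simp

theorem exists_lam {d : ℕ} (s0 : ℕ) (c : ℕ → Equiv.Perm (Fin d) → ℂ)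
    (hc : ∀ τ, (∀ k ≤ s0, c k τ = c k 1) → τ = 1) :
    ∃ la : ℕ, la ≤ s0 * d.factorial ∧ ∀ τ : Equiv.Perm (Fin d),
      ∑ k ∈ range (s0 + 1), (la : ℂ) ^ k * c k τ = ∑ k ∈ range (s0 + 1), (la : ℂ) ^ k * c k 1 →
        τ = 1 := by
  classical
  by_contra hcon
  push Not at hcon
  have hcon' : ∀ w : ℕ, ∃ τ : Equiv.Perm (Fin d), w ≤ s0 * d.factorial →
      (∑ k ∈ range (s0 + 1), (w : ℂ) ^ k * c k τ = ∑ k ∈ range (s0 + 1), (w : ℂ) ^ k * c k 1 ∧
        τ ≠ 1) := by
    intro w
    by_cases hw : w ≤ s0 * d.factorial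
    · obtain ⟨τ, h1, h2⟩ := hcon w hw
      exact ⟨τ, fun _ => ⟨h1, h2⟩⟩
    · exact ⟨1, fun h => absurd h hw⟩
  choose F hF using hcon'
  have hcard : (Finset.univ : Finset (Equiv.Perm (Fin d))).card * s0 <
      (Finset.range (s0 * d.factorial + 1)).card := by
    rw [Finset.card_univ, Fintype.card_perm, Fintype.card_fin, Finset.card_range]
    rw [mul_comm]
    omega
  obtain ⟨τ, -, hτ⟩ := Finset.exists_lt_card_fiber_of_mul_lt_card_of_maps_to
    (s := Finset.range (s0 * d.factorial + 1)) (f := F) (fun a _ => Finset.mem_univ _) hcard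
  set S := {x ∈ Finset.range (s0 * d.factorial + 1) | F x = τ} with hS
  have hSm : ∀ w ∈ S, (∑ k ∈ range (s0 + 1), (w : ℂ) ^ k * c k τ =
      ∑ k ∈ range (s0 + 1), (w : ℂ) ^ k * c k 1 ∧ τ ≠ 1) := by
    intro w hw
    rw [hS, Finset.mem_filter, Finset.mem_range] at hw
    have := hF w (by omega)
    rw [hw.2] at this
    exact this
  have hne : S.Nonempty := by
    rw [← Finset.card_pos]
    omega
  obtain ⟨w0, hw0⟩ := hne
  apply (hSm w0 hw0).2
  set P : ℂ[X] := ∑ k ∈ range (s0 + 1), C (c k τ - c k 1) * X ^ k with hP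
  have hPev : ∀ w : ℕ, P.eval (w : ℂ) = ∑ k ∈ range (s0 + 1), (w : ℂ) ^ k * c k τ -
      ∑ k ∈ range (s0 + 1), (w : ℂ) ^ k * c k 1 := by
    intro w
    rw [hP, eval_finsetSum, ← Finset.sum_sub_distrib]
    refine Finset.sum_congr rfl fun k _ => ?_
    simp only [eval_mul, eval_C, eval_pow, eval_X]
    ring
  have hPdeg : P.natDegree ≤ s0 := by
    rw [hP]
    apply natDegree_sum_le_of_forall_le
    intro l hl
    rw [mem_range] at hl
    refine (natDegree_C_mul_X_pow_le _ _).trans ?_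
    omega
  have hP0 : P = 0 := by
    apply eq_zero_of_natDegree_lt_card_of_eval_eq_zero' P (S.image (fun w : ℕ => (w : ℂ)))
    · intro z hz
      rw [Finset.mem_image] at hz
      obtain ⟨w, hw, rfl⟩ := hz
      rw [hPev, (hSm w hw).1, sub_self]
    · rw [Finset.card_image_of_injective _ Nat.cast_injective]
      omega
  apply hc
  intro k hk
  have h1 : P.coeff k = c k τ - c k 1 := by
    rw [hP, finsetSum_coeff]
    simp only [coeff_C_mul, coeff_X_pow]
    rw [Finset.sum_eq_single k]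
    · simp
    · intro b _ hb
      rw [if_neg (Ne.symm hb), mul_zero]
    · intro h
      exact absurd (Finset.mem_range.2 (by omega)) h
  rw [hP0, coeff_zero] at h1
  exact sub_eq_zero.1 h1.symm

end Pool.Agent.H87.SA2
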