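import Pool.Agent.H87.SA2.LOCR
import Pool.Agent.H87.SA2.GALA
import Pool.Agent.H87.SA2.SEPR
import Pool.Agent.H87.SA.House

/-! # [SA2-TWR] The twisted field of a ramified one-parameter family -/

namespace Pool.Agent.H87.SA2

open Finset Polynomial NumberField Pool.Agent.H72.ES Pool.Agent.H87.SA Pool.Agent.H97.GA

variable {f : ℤ[X][X]} {d m N : ℕ} {pd : PData f d} {X0 : ℝ}

/-- the twisted coefficients -/
noncomputable def zC (pd : PData f d) (m N : ℕ) (X0 : ℝ) (w : ℕ) (τ : Equiv.Perm (Fin d))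
    (j : ℕ) : ℂ := ∑ i, wv d w (yR pd m N X0 (τ i)) * xu pd X0 i j

/-- the integer `X0 ^ e` -/
def MR (pd : PData f d) (N : ℕ) : ℕ := pd.q ^ pd.e * N

/-- the generator -/
noncomputable def zG (pd : PData f d) (m N : ℕ) (X0 : ℝ) (w la s0 : ℕ)
    (τ : Equiv.Perm (Fin d)) : ℂ :=
  ∑ l ∈ range (s0 + 1), (la : ℂ) ^ l * ((MR pd N : ℂ) ^ l * zC pd m N X0 w τ l)

/-- the twisted field with its power series -/
structure TwR (pd : PData f d) (m N : ℕ) (X0 : ℝ) (w la s0 : ℕ) (k : Type) [Field k]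
    [NumberField k] where
  ι : k →+* ℝ
  ζ : ℕ → k
  z : 𝓞 k
  hι : ∀ j, ((ι (ζ j) : ℝ) : ℂ) = zC pd m N X0 w 1 j
  hz : (z : k) = ∑ l ∈ range (s0 + 1), (la : k) ^ l * ((MR pd N : k) ^ l * ζ l)
  hσ : ∀ σ : k →+* ℂ, ∃ τ : Equiv.Perm (Fin d), ∀ j, σ (ζ j) = zC pd m N X0 w τ j
  top : IntermediateField.adjoin ℚ {(z : k)} = ⊤
  fr : Module.finrank ℚ k ≤ d.factorial
  loc : ∀ (i : Fin d) (ξ : ℝ), yR pd m N X0 i = ξ → ∃ (g : (PowerSeries ℚ)[X]) (p : k[X]),
    g.Monic ∧ Irreducible g ∧ g ∣ fQ f ∧ RealRoot g ∧ p.Monic ∧ p.natDegree ≤ g.natDegree ∧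
    p.eval₂ ι ξ = 0

theorem X0_ne (H : RHyp f d m pd N X0) : (X0 : ℂ) ≠ 0 := by
  have := H.X1
  exact_mod_cast (by linarith : X0 ≠ 0)

/-- the numbers `X0^j z_j` -/
theorem zC_val (H : RHyp f d m pd N X0) (w : ℕ) (τ : Equiv.Perm (Fin d)) (j : ℕ) :
    (X0 : ℂ) ^ j * zC pd m N X0 w τ j =
      ∑ i, wv d w (yR pd m N X0 (τ i)) * PowerSeries.coeff j (pd.x i) := by
  have hX := X0_ne H
  unfold zC xu
  rw [mul_sum]
  refine sum_congr rfl fun i _ => ?_
  push_cast
  rw [one_div, inv_pow]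
  field_simp

/-- the numbers `X0^j z_j` are algebraic integers -/
theorem zC_int (H : RHyp f d m pd N X0) (w : ℕ) (τ : Equiv.Perm (Fin d)) (j : ℕ) :
    IsIntegral ℤ ((X0 : ℂ) ^ j * zC pd m N X0 w τ j) := by
  rw [zC_val H]
  refine IsIntegral.sum _ fun i _ => ?_
  refine IsIntegral.mul ?_ (pd.integral i j)
  unfold wv
  refine IsIntegral.sum _ fun l _ => ?_
  have hw : IsIntegral ℤ (w : ℂ) := by
    have := isIntegral_algebraMap (R := ℤ) (A := ℂ) (x := (w : ℤ))
    simpa using this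
  exact IsIntegral.mul (hw.pow l) ((y_alg H _).pow l)

theorem X0_powC (H : RHyp f d m pd N X0) : (X0 : ℂ) ^ pd.e = (MR pd N : ℂ) := by
  have := H.pow
  unfold MR
  exact_mod_cast congrArg (fun r : ℝ => (r : ℂ)) this

theorem X0_int (H : RHyp f d m pd N X0) : IsIntegral ℤ (X0 : ℂ) := by
  have h1 : IsIntegral ℤ ((X0 : ℂ) ^ pd.e) := by
    rw [X0_powC H]
    have := isIntegral_algebraMap (R := ℤ) (A := ℂ) (x := ((MR pd N : ℕ) : ℤ))
    simpa using this
  exact IsIntegral.of_pow (by have := pd.e_pos; omega) h1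

theorem zG_int (H : RHyp f d m pd N X0) (w la s0 : ℕ) (τ : Equiv.Perm (Fin d)) :
    IsIntegral ℤ (zG pd m N X0 w la s0 τ) := by
  unfold zG
  refine IsIntegral.sum _ fun l _ => ?_
  have hla : IsIntegral ℤ (la : ℂ) := by
    have := isIntegral_algebraMap (R := ℤ) (A := ℂ) (x := (la : ℤ))
    simpa using this
  refine IsIntegral.mul (hla.pow l) ?_
  have h1 : (MR pd N : ℂ) ^ l * zC pd m N X0 w τ l =
      (X0 : ℂ) ^ ((pd.e - 1) * l) * ((X0 : ℂ) ^ l * zC pd m N X0 w τ l) := by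
    rw [← X0_powC H, ← mul_assoc, ← pow_add, ← pow_mul]
    congr 2
    have := pd.e_pos
    obtain ⟨e, he⟩ : ∃ e, pd.e = e + 1 := ⟨pd.e - 1, by omega⟩
    rw [he, Nat.add_sub_cancel]
    ring
  rw [h1]
  exact ((X0_int H).pow _).mul (zC_int H w τ l)

theorem mem_AA {z : ℂ} (hz : IsIntegral ℤ z) : z ∈ AA := by
  rw [mem_algebraicClosure_iff]
  exact (hz.tower_top (A := ℚ)).isAlgebraic

/-- the value at the rational point as an algebraic number -/
noncomputable def yA (H : RHyp f d m pd N X0) (i : Fin d) : AA :=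
  ⟨yR pd m N X0 i, mem_AA (y_alg H i)⟩

/-- the coefficient as an algebraic number -/
noncomputable def xA (H : RHyp f d m pd N X0) (i : Fin d) (j : ℕ) : AA :=
  ⟨xu pd X0 i j, xu_alg H i j⟩

/-- the twisted coefficient as an algebraic number -/
noncomputable def zA (H : RHyp f d m pd N X0) (w j : ℕ) : AA :=
  ∑ i, wv d w (yA H i) * xA H i j

theorem zA_val (H : RHyp f d m pd N X0) (w j : ℕ) :
    ((zA H w j : AA) : ℂ) = zC pd m N X0 w 1 j := by
  have h1 : (algebraMap AA ℂ) (zA H w j) = zC pd m N X0 w 1 j := by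
    unfold zA zC
    rw [map_sum]
    refine sum_congr rfl fun i _ => ?_
    rw [map_mul, map_wv]
    rfl
  exact h1

theorem zA_act (H : RHyp f d m pd N X0) (w j : ℕ) (σ : AA →+* ℂ) (π0 π : Equiv.Perm (Fin d))
    (h0 : ∀ (i : Fin d) (k : ℕ) (a : AA), (a : ℂ) = xu pd X0 i k → σ a = xu pd X0 (π0 i) k)
    (h1 : ∀ (i : Fin d) (a : AA), (a : ℂ) = yR pd m N X0 i → σ a = yR pd m N X0 (π i)) :
    σ (zA H w j) = zC pd m N X0 w (π * π0⁻¹) j := by
  unfold zA zC
  rw [map_sum]
  have h2 : ∀ i, σ (wv d w (yA H i) * xA H i j) =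
      wv d w (yR pd m N X0 (π i)) * xu pd X0 (π0 i) j := by
    intro i
    rw [map_mul, map_wv, h1 i _ rfl, h0 i j _ rfl]
  rw [sum_congr rfl fun i _ => h2 i]
  rw [← Equiv.sum_comp π0 (fun i => wv d w (yR pd m N X0 ((π * π0⁻¹) i)) * xu pd X0 i j)]
  refine sum_congr rfl fun i _ => ?_
  have h3 : (π * π0⁻¹) (π0 i) = π i := by
    rw [Equiv.Perm.mul_apply]
    exact congrArg π (π0.symm_apply_apply i)
  rw [h3]

/-- the generator as an algebraic number -/
noncomputable def gA (H : RHyp f d m pd N X0) (w la s0 : ℕ) : AA :=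
  ∑ l ∈ range (s0 + 1), (la : AA) ^ l * ((MR pd N : AA) ^ l * zA H w l)

theorem gA_val (H : RHyp f d m pd N X0) (w la s0 : ℕ) :
    ((gA H w la s0 : AA) : ℂ) = zG pd m N X0 w la s0 1 := by
  have h1 : (algebraMap AA ℂ) (gA H w la s0) = zG pd m N X0 w la s0 1 := by
    unfold gA zG
    rw [map_sum]
    refine sum_congr rfl fun l _ => ?_
    rw [map_mul, map_mul, map_pow, map_pow, map_natCast, map_natCast]
    have h2 : (algebraMap AA ℂ) (zA H w l) = zC pd m N X0 w 1 l := zA_val H w l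
    rw [h2]
  exact h1

theorem gA_act (H : RHyp f d m pd N X0) (w la s0 : ℕ) (σ : AA →+* ℂ)
    (π0 π : Equiv.Perm (Fin d))
    (h0 : ∀ (i : Fin d) (k : ℕ) (a : AA), (a : ℂ) = xu pd X0 i k → σ a = xu pd X0 (π0 i) k)
    (h1 : ∀ (i : Fin d) (a : AA), (a : ℂ) = yR pd m N X0 i → σ a = yR pd m N X0 (π i)) :
    σ (gA H w la s0) = zG pd m N X0 w la s0 (π * π0⁻¹) := by
  unfold gA zG
  rw [map_sum]
  refine sum_congr rfl fun l _ => ?_
  rw [map_mul, map_mul, map_pow, map_pow, map_natCast, map_natCast, zA_act H w l σ π0 π h0 h1]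

/-- complex conjugation on the algebraic numbers -/
theorem conj_act (H : RHyp f d m pd N X0) : ∃ (σ : AA →+* ℂ) (π : Equiv.Perm (Fin d)),
    (∀ a : AA, σ a = starRingEnd ℂ (a : ℂ)) ∧
    (∀ (i : Fin d) (k : ℕ) (a : AA), (a : ℂ) = xu pd X0 i k → σ a = xu pd X0 (π i) k) ∧
    (∀ (i : Fin d) (a : AA), (a : ℂ) = yR pd m N X0 i → σ a = yR pd m N X0 (π i)) := by
  obtain ⟨π, h1, h2⟩ := conj_R H
  refine ⟨(starRingEnd ℂ).comp (algebraMap AA ℂ), π, fun a => rfl, ?_, ?_⟩
  · intro i k a ha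
    change starRingEnd ℂ (a : ℂ) = _
    rw [ha]
    unfold xu
    rw [map_mul, map_pow, Complex.conj_ofReal, ← h1 i, PowerSeries.coeff_map]
  · intro i a ha
    change starRingEnd ℂ (a : ℂ) = _
    rw [ha, h2]

theorem real_of_conj {z : ℂ} (h : starRingEnd ℂ z = z) : ∃ r : ℝ, (r : ℂ) = z :=
  ⟨z.re, Complex.conj_eq_iff_re.1 h⟩

theorem zC_real (H : RHyp f d m pd N X0) (w j : ℕ) : ∃ r : ℝ, (r : ℂ) = zC pd m N X0 w 1 j := by
  obtain ⟨σ, π, hσ, h0, h1⟩ := conj_act H
  refine real_of_conj ?_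
  have h2 := zA_act H w j σ π π h0 h1
  rw [hσ, zA_val, mul_inv_cancel] at h2
  exact h2

theorem zG_real (H : RHyp f d m pd N X0) (w la s0 : ℕ) :
    ∃ r : ℝ, (r : ℂ) = zG pd m N X0 w la s0 1 := by
  obtain ⟨σ, π, hσ, h0, h1⟩ := conj_act H
  refine real_of_conj ?_
  have h2 := gA_act H w la s0 σ π π h0 h1
  rw [hσ, gA_val, mul_inv_cancel] at h2
  exact h2

/-- a real number in the field generated by the twisted generator -/
theorem mem_kG (H : RHyp f d m pd N X0) {w la s0 : ℕ}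
    (hsep : ∀ τ : Equiv.Perm (Fin d),
      zG pd m N X0 w la s0 τ = zG pd m N X0 w la s0 1 → τ = 1)
    {g y : ℝ} (hg : (g : ℂ) = zG pd m N X0 w la s0 1) (hy : (y : ℂ) ∈ AA)
    (h : ∀ (σ : AA →+* ℂ) (π : Equiv.Perm (Fin d)),
      (∀ (i : Fin d) (k : ℕ) (a : AA), (a : ℂ) = xu pd X0 i k → σ a = xu pd X0 (π i) k) →
      (∀ (i : Fin d) (a : AA), (a : ℂ) = yR pd m N X0 i → σ a = yR pd m N X0 (π i)) →
      ∀ a : AA, (a : ℂ) = y → σ a = (y : ℂ)) :
    y ∈ IntermediateField.adjoin ℚ {g} := by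
  have hgA : IsAlgebraic ℚ g := by
    have h1 : IsIntegral ℤ (g : ℂ) := by
      rw [hg]
      exact zG_int H _ _ _ _
    have h2 : IsAlgebraic ℚ ((algebraMap ℝ ℂ) g) := (h1.tower_top (A := ℚ)).isAlgebraic
    exact (isAlgebraic_algebraMap_iff (algebraMap ℝ ℂ).injective).1 h2
  have hyA : IsAlgebraic ℚ y := by
    have h2 : IsAlgebraic ℚ ((algebraMap ℝ ℂ) y) := mem_algebraicClosure_iff.1 hy
    exact (isAlgebraic_algebraMap_iff (algebraMap ℝ ℂ).injective).1 h2
  refine realA_mem g y hgA hyA fun σ hσ a ha => ?_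
  obtain ⟨π0, π, h0, h1⟩ := perm_R H σ
  have h2 := gA_act H w la s0 σ π0 π h0 h1
  rw [hσ (gA H w la s0) (by rw [gA_val, hg]), hg] at h2
  have h3 := hsep _ h2.symm
  have h4 : π = π0 := by
    rw [mul_inv_eq_one] at h3
    exact h3
  exact h σ π0 h0 (fun i a ha => by rw [← h4]; exact h1 i a ha) a ha

theorem exists_twR (H : RHyp f d m pd N X0) {w la s0 : ℕ}
    (hsep : ∀ τ : Equiv.Perm (Fin d),
      zG pd m N X0 w la s0 τ = zG pd m N X0 w la s0 1 → τ = 1) :
    ∃ (k : Type) (_ : Field k) (_ : NumberField k), Nonempty (TwR pd m N X0 w la s0 k) := by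
  classical
  obtain ⟨g, hg⟩ := zG_real H w la s0
  have hgZ : IsIntegral ℤ g := by
    have h1 : IsIntegral ℤ ((algebraMap ℝ ℂ) g) := by
      change IsIntegral ℤ (g : ℂ)
      rw [hg]
      exact zG_int H _ _ _ _
    exact (isIntegral_algebraMap_iff (algebraMap ℝ ℂ).injective).1 h1
  have hgQ : IsIntegral ℚ g := hgZ.tower_top
  have hgA : IsAlgebraic ℚ g := hgQ.isAlgebraic
  let k := IntermediateField.adjoin ℚ {g}
  haveI : FiniteDimensional ℚ k := IntermediateField.adjoin.finiteDimensional hgQ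
  haveI : NumberField k := ⟨⟩
  have hgk : g ∈ k := IntermediateField.mem_adjoin_simple_self ℚ g
  -- the coefficients
  choose r hr using fun j => zC_real H w j
  have hrk : ∀ j, r j ∈ k := by
    intro j
    refine mem_kG H hsep hg ?_ ?_
    · rw [hr, ← zA_val H]
      exact (zA H w j).2
    · intro σ π h0 h1 a ha
      have h2 : a = zA H w j := by
        apply Subtype.ext
        rw [ha, hr, zA_val]
      rw [h2, zA_act H w j σ π π h0 h1, mul_inv_cancel, hr]
  let ζ : ℕ → k := fun j => ⟨r j, hrk j⟩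
  have hgint : IsIntegral ℤ (⟨g, hgk⟩ : k) := by
    have h1 : IsIntegral ℤ ((algebraMap k ℝ) ⟨g, hgk⟩) := hgZ
    exact (isIntegral_algebraMap_iff (algebraMap k ℝ).injective).1 h1
  let z : 𝓞 k := ⟨⟨g, hgk⟩, hgint⟩
  let ι : k →+* ℝ := algebraMap k ℝ
  have hzval : ((z : k) : ℝ) = g := rfl
  -- embeddings
  have hemb : ∀ σ' : k →+* ℂ, ∃ (σ : AA →+* ℂ) (π0 π : Equiv.Perm (Fin d)),
      (∀ (b : k) (a : AA), (a : ℂ) = ((b : ℝ) : ℂ) → σ a = σ' b) ∧
      (∀ (i : Fin d) (k : ℕ) (a : AA), (a : ℂ) = xu pd X0 i k → σ a = xu pd X0 (π0 i) k) ∧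
      (∀ (i : Fin d) (a : AA), (a : ℂ) = yR pd m N X0 i → σ a = yR pd m N X0 (π i)) := by
    intro σ'
    obtain ⟨σ, hσ⟩ := extA g hgA σ'
    obtain ⟨π0, π, h0, h1⟩ := perm_R H σ
    exact ⟨σ, π0, π, hσ, h0, h1⟩
  have hσ' : ∀ σ' : k →+* ℂ, ∃ τ : Equiv.Perm (Fin d), (∀ j, σ' (ζ j) = zC pd m N X0 w τ j) ∧
      σ' (z : k) = zG pd m N X0 w la s0 τ := by
    intro σ'
    obtain ⟨σ, π0, π, hσ, h0, h1⟩ := hemb σ'
    refine ⟨π * π0⁻¹, fun j => ?_, ?_⟩
    · rw [← zA_act H w j σ π0 π h0 h1]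
      refine (hσ (ζ j) (zA H w j) ?_).symm
      rw [zA_val, ← hr]
    · rw [← gA_act H w la s0 σ π0 π h0 h1]
      refine (hσ (z : k) (gA H w la s0) ?_).symm
      rw [gA_val, ← hg]
      rfl
  have hext : ∀ σ τ : k →+* ℂ, σ (z : k) = τ (z : k) → σ = τ := by
    intro σ τ h
    have h1 : σ.toRatAlgHom = τ.toRatAlgHom := by
      refine IntermediateField.adjoin_algHom_ext ℚ fun x hx => ?_
      have hx' : x = g := hx
      subst hx'
      exact h
    refine RingHom.ext fun x => ?_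
    exact congrArg (fun φ : k →ₐ[ℚ] ℂ => φ x) h1
  refine ⟨k, inferInstance, inferInstance, ⟨?_⟩⟩
  exact
    { ι := ι
      ζ := ζ
      z := z
      hι := fun j => hr j
      hz := by
        apply ι.injective
        have h1 : (((ι (z : k) : ℝ)) : ℂ) = (((∑ l ∈ range (s0 + 1), (la : ℝ) ^ l *
            ((MR pd N : ℝ) ^ l * r l)) : ℝ) : ℂ) := by
          change (g : ℂ) = _
          rw [hg]
          unfold zG
          push_cast
          refine sum_congr rfl fun l _ => ?_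
          rw [hr]
        have h2 : ι (z : k) = ∑ l ∈ range (s0 + 1), (la : ℝ) ^ l * ((MR pd N : ℝ) ^ l * r l) := by
          exact_mod_cast h1
        rw [h2, map_sum]
        refine sum_congr rfl fun l _ => ?_
        rw [map_mul, map_mul, map_pow, map_pow, map_natCast, map_natCast]
        rfl
      hσ := fun σ' => by
        obtain ⟨τ, h, -⟩ := hσ' σ'
        exact ⟨τ, h⟩
      top := by
        refine prim_top ι (z : k) fun σ' h => ?_
        exact hext _ _ (by rw [h]; rfl)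
      fr := by
        rw [← NumberField.Embeddings.card k ℂ]
        choose τ hτ1 hτ2 using hσ'
        have hinj : Function.Injective τ := by
          intro σ σ' h
          refine hext _ _ ?_
          rw [hτ2, hτ2, h]
        have h1 := Fintype.card_le_of_injective τ hinj
        rw [Fintype.card_perm, Fintype.card_fin] at h1
        exact h1
      loc := by
        intro i ξ hξ
        obtain ⟨g', R, hg1, hg2, hg3, hg4, hiR, hRc, hst⟩ := loc_R H i ξ hξ
        obtain ⟨P, hP⟩ : ∃ P : ℂ[X], P = ∏ j ∈ R, (X - C (yR pd m N X0 j)) := ⟨_, rfl⟩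
        have hPm : P.Monic := by
          rw [hP]
          exact monic_prod_of_monic _ _ fun j _ => monic_X_sub_C _
        have hPd : P.natDegree = R.card := by
          rw [hP, natDegree_prod_of_monic _ _ fun j _ => monic_X_sub_C _]
          simp
        have hPA : (∏ j ∈ R, (X - C (yA H j)) : AA[X]).map (algebraMap AA ℂ) = P := by
          rw [hP, Polynomial.map_prod]
          refine prod_congr rfl fun j _ => ?_
          rw [Polynomial.map_sub, Polynomial.map_X, Polynomial.map_C]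
          rfl
        -- stability under an embedding which acts in the same way on both sides
        have hfix : ∀ (σ : AA →+* ℂ) (π : Equiv.Perm (Fin d)),
            (∀ (i : Fin d) (k : ℕ) (a : AA), (a : ℂ) = xu pd X0 i k → σ a = xu pd X0 (π i) k) →
            (∀ (i : Fin d) (a : AA), (a : ℂ) = yR pd m N X0 i → σ a = yR pd m N X0 (π i)) →
            (∏ j ∈ R, (X - C (yA H j)) : AA[X]).map σ = P := by
          intro σ π h0 h1
          have hRR : R.map π.toEmbedding = R := by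
            refine Finset.eq_of_subset_of_card_le ?_ (by rw [card_map])
            intro x hx
            obtain ⟨j, hj, rfl⟩ := mem_map.1 hx
            exact hst σ π h0 j hj
          rw [hP, Polynomial.map_prod]
          conv_rhs => rw [← hRR]
          rw [prod_map]
          refine prod_congr rfl fun j _ => ?_
          rw [Polynomial.map_sub, Polynomial.map_X, Polynomial.map_C, h1 j (yA H j) rfl]
          rfl
        have hcoefA : ∀ l, ((((∏ j ∈ R, (X - C (yA H j)) : AA[X]).coeff l : AA)) : ℂ) =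
            P.coeff l := by
          intro l
          rw [← hPA, coeff_map]
          rfl
        have hreal : ∀ l, ∃ c : ℝ, (c : ℂ) = P.coeff l := by
          intro l
          obtain ⟨σ, π, hσ, h0, h1⟩ := conj_act H
          refine real_of_conj ?_
          have h2 := congrArg (fun q : ℂ[X] => q.coeff l) (hfix σ π h0 h1)
          simp only [coeff_map] at h2
          rw [hσ, hcoefA] at h2
          exact h2
        choose c hc using hreal
        have hck : ∀ l, c l ∈ k := by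
          intro l
          refine mem_kG H hsep hg ?_ ?_
          · rw [hc, ← hcoefA]
            exact ((∏ j ∈ R, (X - C (yA H j)) : AA[X]).coeff l).2
          · intro σ π h0 h1 a ha
            have h2 : a = (∏ j ∈ R, (X - C (yA H j)) : AA[X]).coeff l := by
              apply Subtype.ext
              rw [ha, hc, hcoefA]
            have h3 := congrArg (fun q : ℂ[X] => q.coeff l) (hfix σ π h0 h1)
            simp only [coeff_map] at h3
            rw [h2, h3, hc]
        have hlift : P ∈ lifts (Complex.ofRealHom.comp ι) := by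
          rw [lifts_iff_coeff_lifts]
          intro l
          exact ⟨⟨c l, hck l⟩, hc l⟩
        obtain ⟨p, hp1, hp2, hp3⟩ := lifts_and_natDegree_eq_and_monic hlift hPm
        refine ⟨g', p, hg1, hg2, hg3, hg4, hp3, by rw [hp2, hPd]; exact hRc, ?_⟩
        have h1 : P.eval ((ξ : ℝ) : ℂ) = 0 := by
          rw [hP, ← hξ, eval_prod]
          exact Finset.prod_eq_zero hiR (by simp)
        rw [← hp1, eval_map] at h1
        have h2 : ((p.eval₂ ι ξ : ℝ) : ℂ) = 0 := by
          have h3 := Polynomial.hom_eval₂ p ι Complex.ofRealHom ξ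
          have h4 : Complex.ofRealHom (p.eval₂ ι ξ) = ((p.eval₂ ι ξ : ℝ) : ℂ) := rfl
          rw [← h4, h3]
          exact h1
        exact_mod_cast h2 }

end Pool.Agent.H87.SA2
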