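import Pool.Agent.H87.SA.Core

/-!
# MP_821da1_nt: effective Siegel theorem over one-parameter families -- definitions

`X0` real, `X0^e = M` an integer, `h = 1 / X0`; `T = h u`, `u = 1` is the rational point.
`DnR h c Δ w`: the numbers `c Δ^k h^k w_k` are integers.
`zcR`, `usR`: the functions `x0^(s mod e) X^s Z^j` (`x0` has real value `X0`).
`AnchR`: anchor data used in the core of the proof.
`PData f`: the Puiseux expansions at `t = 0` of the roots of a monic `f ∈ ℤ[t][X]`, `t = (q T)^e`.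
-/

namespace Pool.Agent.H87.SA2

open Finset Polynomial Pool.Agent.H72.ES Pool.Agent.H8.KF Pool.Agent.H97.AN Pool.Agent.H87.SA

/-- the numbers `c Δ^k h^k w_k` are integers -/
def DnR (h : ℝ) (c Δ : ℤ) (w : PowerSeries ℝ) : Prop :=
  ∀ k, ∃ z : ℤ, (z : ℝ) = c * (Δ : ℝ) ^ k * (h ^ k * PowerSeries.coeff k w)

/-- the coefficient of `X^k` in `x0^(s mod e) X^s Z^j` -/
noncomputable def zcR {S : Type*} [CommRing S] (x0 : S) (e : ℕ) (Z : PowerSeries S) (k s j : ℕ) :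
    S := x0 ^ (s % e) * PowerSeries.coeff k (PowerSeries.X ^ s * Z ^ j)

/-- the series `∑_{s ≤ J, j < D} c s j x0^(s mod e) X^s Z^j` -/
noncomputable def usR {S : Type*} [CommRing S] (x0 : S) (e J D : ℕ) (c : ℕ → ℕ → ℤ)
    (Z : PowerSeries S) : PowerSeries S :=
  ∑ s ∈ range (J + 1), ∑ j ∈ range D,
    (c s j : PowerSeries S) * (PowerSeries.C (x0 ^ (s % e)) * (PowerSeries.X ^ s * Z ^ j))

/-- Anchor data over the order `O` (of the root field, real place `O.φ`): `D` the number of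
functions, `Dl` the Liouville exponent, `m` the number of integer coordinates. -/
structure AnchR {n Q : ℕ} {f : ℤ[X]} {θ : ℝ} (O : Ord ℝ n Q f θ) (D Dl m κ e M : ℕ)
    (X0 R G : ℝ) where
  E : Type
  [cr : CommRing E]
  [dom : IsDomain E]
  ψ : E →+* ℝ
  ν : E → ℝ
  sub : SubMul ν
  ψ_le : ∀ a, |ψ a| ≤ ν a
  liou : ∀ a, a ≠ 0 → 1 ≤ |ψ a| * ν a ^ Dl
  x0 : E
  ψ_x0 : ψ x0 = X0
  x0_pow : x0 ^ e = (M : E)
  ν_x0 : ∀ r < e, ν (x0 ^ r) ≤ X0 ^ κ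
  Z : PowerSeries E
  Z_le : ∀ k, ν (PowerSeries.coeff k Z) ≤ X0 ^ κ * R ^ k
  indep : ∀ (J : ℕ) (c : ℕ → ℕ → ℤ), usR x0 e J D c Z = 0 → ∀ s ≤ J, ∀ j < D, c s j = 0
  ce : ℤ
  Δ : ℤ
  ce_pos : 1 ≤ ce
  Δ_pos : 1 ≤ Δ
  ce_le : (ce : ℝ) ≤ X0 ^ κ
  Δ_le : (Δ : ℝ) ≤ X0 ^ κ
  dn : DnR (1 / X0) ce Δ (tay (1 / X0) (Z.map ψ))
  L : Type
  [crL : CommRing L]
  JE : E →+* L
  JO : O.R →+* L
  φ : L →+* ℝ
  coord : ℕ → L →+ (Fin m → ℤ)
  coord_inj : ∀ k, ∀ v ∈ AddSubgroup.closure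
    (Set.range fun p : ℕ × ℕ × O.R => JE (zcR x0 e Z k p.1 p.2.1) * JO p.2.2),
      coord k v = 0 → v = 0
  φ_JE : ∀ a, φ (JE a) = ψ a
  φ_JO : ∀ a, φ (JO a) = O.φ a
  size : ∀ k a b i, |((coord k (JE a * JO b) i : ℤ) : ℝ)| ≤ G * (ν a * O.ν b)

attribute [instance] AnchR.cr AnchR.dom AnchR.crL

/-- the substitution `t = (q T)^e` -/
noncomputable def tq (e q : ℕ) : ℤ[X] →+* PowerSeries ℂ :=
  eval₂RingHom (Int.castRingHom (PowerSeries ℂ)) ((PowerSeries.C (q : ℂ) * PowerSeries.X) ^ e)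

/-- The Puiseux expansions of the roots of the monic `f ∈ ℤ[t][X]` of degree `d`. -/
structure PData (f : ℤ[X][X]) (d : ℕ) where
  e : ℕ
  q : ℕ
  e_pos : 1 ≤ e
  q_pos : 1 ≤ q
  x : Fin d → PowerSeries ℂ
  x_inj : Function.Injective x
  split : f.map (tq e q) = ∏ i, (X - C (x i))
  integral : ∀ i k, IsIntegral ℤ (PowerSeries.coeff k (x i))
  R : ℝ
  R_ge : 2 ≤ R
  growth : ∀ i k, ‖PowerSeries.coeff k (x i)‖ ≤ R ^ (k + 1)

end Pool.Agent.H87.SA2
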