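import Pool.Agent.H87.SA2.EISA
import Pool.Agent.H87.SA2.Defs

/-! # [SA2-EISB] Eisenstein's theorem for a simple root in `ℂ⟦T⟧`

`tq 1 1 : ℤ[X] →+* ℂ⟦X⟧` is the substitution `t ↦ (C 1 * X) ^ 1` (`Defs.lean`).

Proof. Let `S = integralClosure ℤ ℂ`. Let `s` be the order of `P_X(T, x) ≠ 0`. Choose `q1 ≥ 1` in
`ℕ` such that `q1 ^ k x_k` is integral for `1 ≤ k ≤ s` (each algebraic number has a positive
integer multiple which is integral: `exists_integral_multiple`, or `IsAlgebraic.exists_integral_multiple`;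
take the product). Replace `T` by `q1 T`: `x1 = rescale q1 x`, `P1(T, X) = P(q1 T, X) ∈ ℤ[T][X]`,
`P1(T, x1) = 0`, `P1_X(T, x1)` has order `s` (coefficients multiplied by `q1 ^ k`). Let
`p = ∑_{k ≤ s} q1^k x_k T^k ∈ S[T]` and `v = ∑_{k ≥ 1} (x1)_{s+k} T^k`, so `x1 = p + T^s v`,
`v(0) = 0`. Taylor expansion at `p` (`Polynomial.taylor`, `Polynomial.sum_taylor_eq` or
`Polynomial.taylor_eval`): `0 = P1(T, p + T^s v) = ∑_j P_j T^(s j) v^j` with `P_j ∈ S[T]`.
`P_1 = P1_X(T, p) ≡ P1_X(T, x1) mod T^(s+1)` (`Polynomial.sub_dvd_eval_sub`), so `P_1 = T^s U` with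
`U ∈ S[T]`, `U(0) ≠ 0`. All terms with `j ≥ 1` are divisible by `T^(2s+1)` (`T ∣ v`), so
`P_0 = T^(2s) A`, `A ∈ S[T]`, `A(0) = 0`. Dividing by `T^(2s)`:
`A + U v + ∑_{j ≥ 2} T^(s (j - 2)) P_j v^j = 0`. Apply `eis_hens` with `c i j` the coefficient of
`T^i` in `A`, `U`, `T^(s (j - 2)) P_j` for `j = 0`, `j = 1`, `j ≥ 2` (`n` large, all these are
polynomials): with `δ = U(0)`, `δ^(2k) (x1)_{s+k}` is integral and `‖(x1)_{s+k}‖ ≤ R1^(k+1)`.
Choose `q2 ≥ 1` in `ℕ` such that `q2 / δ^2` is integral (`δ^2` is a nonzero algebraic integer; the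
constant coefficient of its minimal polynomial over `ℤ` does it up to sign). `q = q1 q2`:
for `k ≤ s` `q^k x_k = q2^k (q1^k x_k)`, for `k = s + j` `q^k x_k = q2^s (q2/δ²)^j (δ^(2j) v_j)`.
`‖x_k‖ ≤ ‖(x1)_k‖` as `q1 ≥ 1`; `R` is the maximum of `R1` and `1 + ∑_{k ≤ s} ‖x_k‖`. -/

namespace Pool.Agent.H87.SA2

open Finset Polynomial

/-- the ring of algebraic integers in `ℂ` -/
abbrev eisb_S : Type := integralClosure ℤ ℂ

/-- the map from the polynomials over the algebraic integers to the complex series -/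
noncomputable def eisb_i : eisb_S[X] →+* PowerSeries ℂ :=
  (Polynomial.coeToPowerSeries.ringHom (R := ℂ)).comp
    (Polynomial.mapRingHom (algebraMap eisb_S ℂ))

theorem eisb_coeff (a : eisb_S[X]) (k : ℕ) :
    PowerSeries.coeff k (eisb_i a) = ((a.coeff k : eisb_S) : ℂ) := by
  unfold eisb_i
  rw [RingHom.comp_apply, Polynomial.coeToPowerSeries.ringHom_apply, Polynomial.coeff_coe,
    Polynomial.coe_mapRingHom, Polynomial.coeff_map]
  rfl

theorem eisb_X : eisb_i X = PowerSeries.X := by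
  ext k
  rw [eisb_coeff, Polynomial.coeff_X, PowerSeries.coeff_X]
  by_cases h : k = 1
  · subst h
    simp
  · rw [if_neg h, if_neg (fun h' => h h'.symm)]
    rfl

theorem eisb_C (a : eisb_S) : eisb_i (C a) = PowerSeries.C (a : ℂ) := by
  ext k
  rw [eisb_coeff, Polynomial.coeff_C, PowerSeries.coeff_C]
  split_ifs <;> rfl

/-- the substitution `t ↦ q T` -/
noncomputable def eisb_s (q : ℕ) : ℤ[X] →+* eisb_S[X] :=
  eval₂RingHom (Int.castRingHom eisb_S[X]) (C (q : eisb_S) * X)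

theorem eisb_comp (q : ℕ) : eisb_i.comp (eisb_s q) = tq 1 q := by
  apply Polynomial.ringHom_ext
  · intro a
    simp
  · unfold eisb_s tq
    rw [RingHom.comp_apply, coe_eval₂RingHom, coe_eval₂RingHom, eval₂_X, eval₂_X, map_mul, eisb_X,
      eisb_C, pow_one]
    simp

theorem eisb_rescale (q : ℕ) : (PowerSeries.rescale (q : ℂ)).comp (tq 1 1) = tq 1 q := by
  apply Polynomial.ringHom_ext
  · intro a
    simp
  · unfold tq
    rw [RingHom.comp_apply, coe_eval₂RingHom, coe_eval₂RingHom, eval₂_X, eval₂_X, pow_one, pow_one,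
      Nat.cast_one, map_one, one_mul, PowerSeries.rescale_X]

theorem eisb_dvd (a : eisb_S[X]) (n : ℕ) (h : PowerSeries.X ^ n ∣ eisb_i a) : X ^ n ∣ a := by
  rw [Polynomial.X_pow_dvd_iff]
  intro d hd
  have h1 := PowerSeries.X_pow_dvd_iff.1 h d hd
  rw [eisb_coeff] at h1
  exact Subtype.ext h1

theorem eisb_core (P1 : eisb_S[X][X]) (p : eisb_S[X]) (s : ℕ) (v : PowerSeries ℂ)
    (hv0 : PowerSeries.constantCoeff v = 0)
    (hx : (P1.map eisb_i).eval (PowerSeries.X ^ s * v + eisb_i p) = 0)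
    (hD : ∀ k < s, PowerSeries.coeff k
      ((derivative (P1.map eisb_i)).eval (PowerSeries.X ^ s * v + eisb_i p)) = 0)
    (hDs : PowerSeries.coeff s
      ((derivative (P1.map eisb_i)).eval (PowerSeries.X ^ s * v + eisb_i p)) ≠ 0) :
    ∃ δ : ℂ, IsIntegral ℤ δ ∧ δ ≠ 0 ∧
      (∀ k, IsIntegral ℤ (δ ^ (2 * k) * PowerSeries.coeff k v)) ∧
      ∃ R : ℝ, 1 ≤ R ∧ ∀ k, ‖PowerSeries.coeff k v‖ ≤ R ^ (k + 1) := by
  obtain ⟨Q, hQ⟩ : ∃ Q : eisb_S[X][X], Q = taylor p P1 := ⟨_, rfl⟩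
  have hQmap : Q.map eisb_i = taylor (eisb_i p) (P1.map eisb_i) := by
    rw [hQ, taylor_apply, taylor_apply, Polynomial.map_comp, Polynomial.map_add, Polynomial.map_X,
      Polynomial.map_C]
  have hQeval : ∑ j ∈ range (Q.natDegree + 2),
      eisb_i (Q.coeff j) * (PowerSeries.X ^ s * v) ^ j = 0 := by
    have h1 : (Q.map eisb_i).eval (PowerSeries.X ^ s * v) = 0 := by
      rw [hQmap, taylor_eval, hx]
    rw [eval_eq_sum_range' (n := Q.natDegree + 2)
      (lt_of_le_of_lt natDegree_map_le (by omega))] at h1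
    rw [← h1]
    refine sum_congr rfl fun j _ => ?_
    rw [Polynomial.coeff_map]
  have hvX : PowerSeries.X ∣ v := PowerSeries.X_dvd_iff.2 hv0
  have hP1 : eisb_i (Q.coeff 1) = (derivative (P1.map eisb_i)).eval (eisb_i p) := by
    rw [← Polynomial.coeff_map, hQmap, taylor_coeff_one]
  have hdiff : PowerSeries.X ^ (s + 1) ∣
      (derivative (P1.map eisb_i)).eval (PowerSeries.X ^ s * v + eisb_i p) -
        (derivative (P1.map eisb_i)).eval (eisb_i p) := by
    refine Dvd.dvd.trans ?_ (Polynomial.sub_dvd_eval_sub _ _ _)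
    rw [add_sub_cancel_right, pow_succ]
    exact mul_dvd_mul_left _ hvX
  have hc : ∀ k ≤ s, PowerSeries.coeff k (eisb_i (Q.coeff 1)) =
      PowerSeries.coeff k
        ((derivative (P1.map eisb_i)).eval (PowerSeries.X ^ s * v + eisb_i p)) := by
    intro k hk
    have h1 := PowerSeries.X_pow_dvd_iff.1 hdiff k (by omega)
    rw [map_sub, sub_eq_zero] at h1
    rw [hP1, h1]
  obtain ⟨U, hU⟩ : X ^ s ∣ Q.coeff 1 := by
    rw [Polynomial.X_pow_dvd_iff]
    intro d hd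
    have h1 := hc d hd.le
    rw [hD d hd, eisb_coeff] at h1
    exact Subtype.ext h1
  have hU0 : ((U.coeff 0 : eisb_S) : ℂ) ≠ 0 := by
    have h1 := hc s le_rfl
    rw [eisb_coeff, hU] at h1
    have h2 := Polynomial.coeff_X_pow_mul U s 0
    rw [zero_add] at h2
    rw [h2] at h1
    rw [h1]
    exact hDs
  obtain ⟨A, hA⟩ : X ^ (2 * s + 1) ∣ Q.coeff 0 := by
    apply eisb_dvd
    rw [sum_range_succ'] at hQeval
    rw [pow_zero, mul_one] at hQeval
    have h1 : PowerSeries.X ^ (2 * s + 1) ∣ ∑ j ∈ range (Q.natDegree + 1),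
        eisb_i (Q.coeff (j + 1)) * (PowerSeries.X ^ s * v) ^ (j + 1) := by
      refine dvd_sum fun j _ => ?_
      rcases j with _ | j
      · rw [hU, map_mul, map_pow, eisb_X]
        have h2 : (PowerSeries.X : PowerSeries ℂ) ^ (2 * s + 1) =
            PowerSeries.X ^ s * (PowerSeries.X ^ s * PowerSeries.X) := by ring
        rw [h2, zero_add, pow_one]
        exact mul_dvd_mul (dvd_mul_right _ _) (mul_dvd_mul_left _ hvX)
      · refine Dvd.dvd.mul_left ?_ _
        have h2 : (PowerSeries.X ^ s * v) ^ (j + 1 + 1) =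
            (PowerSeries.X ^ (2 * s) * (v * v)) * (PowerSeries.X ^ s * v) ^ j := by ring
        rw [h2, pow_succ]
        exact (mul_dvd_mul_left _ (hvX.mul_right _)).mul_right _
    exact (dvd_add_right h1).1 (hQeval ▸ dvd_zero _)
  obtain ⟨B, hB0, hB1, hB2⟩ : ∃ B : ℕ → eisb_S[X], B 0 = X * A ∧ B 1 = U ∧
      ∀ j, B (j + 2) = X ^ (s * j) * Q.coeff (j + 2) :=
    ⟨fun j => match j with
      | 0 => X * A
      | 1 => U
      | (j + 2) => X ^ (s * j) * Q.coeff (j + 2), rfl, rfl, fun _ => rfl⟩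
  have hB : ∀ j, PowerSeries.X ^ (2 * s) * (eisb_i (B j) * v ^ j) =
      eisb_i (Q.coeff j) * (PowerSeries.X ^ s * v) ^ j := by
    intro j
    rcases j with _ | _ | j
    · rw [hB0, hA, map_mul, map_mul, map_pow, eisb_X]
      ring
    · rw [zero_add, hB1, hU, map_mul, map_pow, eisb_X]
      ring
    · have h2 : j + 1 + 1 = j + 2 := rfl
      rw [h2, hB2, map_mul, map_pow, eisb_X]
      ring
  have hsum : ∑ j ∈ range (Q.natDegree + 2), eisb_i (B j) * v ^ j = 0 := by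
    have h1 : (PowerSeries.X : PowerSeries ℂ) ^ (2 * s) ≠ 0 := pow_ne_zero _ PowerSeries.X_ne_zero
    apply mul_left_cancel₀ h1
    rw [mul_sum, mul_zero, ← hQeval]
    exact sum_congr rfl fun j _ => hB j
  obtain ⟨n, hn⟩ : ∃ n : ℕ, n = Q.natDegree + 2 +
    ∑ j ∈ range (Q.natDegree + 2), (B j).natDegree := ⟨_, rfl⟩
  have hBz : ∀ j, Q.natDegree + 2 ≤ j → B j = 0 := by
    intro j hj
    obtain ⟨i, rfl⟩ : ∃ i, j = i + 2 := ⟨j - 2, by omega⟩
    rw [hB2, coeff_eq_zero_of_natDegree_lt (by omega), mul_zero]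
  have hBn : ∀ j, (B j).natDegree < n + 1 := by
    intro j
    by_cases hj : j < Q.natDegree + 2
    · have h1 := single_le_sum (f := fun j => (B j).natDegree) (fun i _ => Nat.zero_le _)
        (mem_range.2 hj)
      omega
    · rw [hBz j (by omega), natDegree_zero]
      omega
  have hiB : ∀ j, eisb_i (B j) = ∑ i ∈ range (n + 1),
      PowerSeries.C (((B j).coeff i : eisb_S) : ℂ) * PowerSeries.X ^ i := by
    intro j
    conv_lhs => rw [Polynomial.as_sum_range_C_mul_X_pow' (B j) (hBn j)]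
    rw [map_sum]
    refine sum_congr rfl fun i _ => ?_
    rw [map_mul, map_pow, eisb_X, eisb_C]
  have hfin : ∑ i ∈ range (n + 1), ∑ j ∈ range (n + 1),
      PowerSeries.C (((B j).coeff i : eisb_S) : ℂ) * PowerSeries.X ^ i * v ^ j = 0 := by
    rw [sum_comm]
    have h1 : ∑ j ∈ range (n + 1), ∑ i ∈ range (n + 1),
        PowerSeries.C (((B j).coeff i : eisb_S) : ℂ) * PowerSeries.X ^ i * v ^ j =
        ∑ j ∈ range (n + 1), eisb_i (B j) * v ^ j := by
      refine sum_congr rfl fun j _ => ?_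
      rw [hiB, sum_mul]
    rw [h1, ← hsum]
    symm
    refine sum_subset (fun j hj => ?_) fun j _ hj => ?_
    · rw [mem_range] at hj ⊢
      omega
    · rw [mem_range, not_lt] at hj
      rw [hBz j hj, map_zero, zero_mul]
  obtain ⟨h1, h2⟩ := eis_hens n (by omega) (fun i j => (((B j).coeff i : eisb_S) : ℂ))
    (fun i j => ((B j).coeff i).2) (by
      change (((B 0).coeff 0 : eisb_S) : ℂ) = 0
      rw [hB0, Polynomial.mul_coeff_zero, Polynomial.coeff_X_zero, zero_mul]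
      rfl) (by
      change (((B 1).coeff 0 : eisb_S) : ℂ) ≠ 0
      rw [hB1]
      exact hU0) v hv0 hfin
  refine ⟨((U.coeff 0 : eisb_S) : ℂ), (U.coeff 0).2, hU0, ?_, h2⟩
  intro k
  have h3 := h1 k
  simp only [hB1] at h3
  exact h3

theorem eisb_mult {z : ℂ} (h : IsAlgebraic ℤ z) : ∃ q : ℕ, 1 ≤ q ∧ IsIntegral ℤ ((q : ℂ) * z) := by
  obtain ⟨y, hy, hz⟩ := h.exists_integral_multiple
  refine ⟨y.natAbs, by omega, ?_⟩
  rw [zsmul_eq_mul] at hz
  rcases Int.natAbs_eq y with h1 | h1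
  · have h3 : ((y.natAbs : ℤ) : ℂ) = (y : ℂ) := by rw [← h1]
    rw [← Int.cast_natCast, h3]
    exact hz
  · have h3 : (y : ℂ) = ((-(y.natAbs : ℤ) : ℤ) : ℂ) := by rw [← h1]
    have h2 : ((y.natAbs : ℕ) : ℂ) = -(y : ℂ) := by
      rw [h3, Int.cast_neg, Int.cast_natCast, neg_neg]
    rw [h2, neg_mul]
    exact hz.neg

theorem eisb_nat (q : ℕ) : IsIntegral ℤ (q : ℂ) := by
  have := isIntegral_algebraMap (R := ℤ) (A := ℂ) (x := (q : ℤ))
  simpa using this

theorem eisenstein (P : ℤ[X][X]) (x : PowerSeries ℂ) (hx : (P.map (tq 1 1)).eval x = 0)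
    (hx' : (derivative (P.map (tq 1 1))).eval x ≠ 0)
    (halg : ∀ k, IsAlgebraic ℤ (PowerSeries.coeff k x))
    (h0 : IsIntegral ℤ (PowerSeries.constantCoeff x)) :
    ∃ q : ℕ, 1 ≤ q ∧ (∀ k, IsIntegral ℤ ((q : ℂ) ^ k * PowerSeries.coeff k x)) ∧
      ∃ R : ℝ, 1 ≤ R ∧ ∀ k, ‖PowerSeries.coeff k x‖ ≤ R ^ (k + 1) := by
  obtain ⟨D, hDdef⟩ : ∃ D, D = (derivative (P.map (tq 1 1))).eval x := ⟨_, rfl⟩
  rw [← hDdef] at hx'
  have hex : ∃ n, PowerSeries.coeff n D ≠ 0 := by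
    by_contra hcon
    push Not at hcon
    apply hx'
    ext n
    rw [hcon n, map_zero]
  classical
  obtain ⟨s, hs⟩ : ∃ s, s = Nat.find hex := ⟨_, rfl⟩
  have hs1 : PowerSeries.coeff s D ≠ 0 := by
    rw [hs]
    exact Nat.find_spec hex
  have hs2 : ∀ k < s, PowerSeries.coeff k D = 0 := by
    intro k hk
    rw [hs] at hk
    by_contra hcon
    exact Nat.find_min hex hk hcon
  choose qq hqq1 hqq2 using fun k => eisb_mult (halg k)
  obtain ⟨q1, hq1⟩ : ∃ q1 : ℕ, q1 = ∏ k ∈ range (s + 1), qq k := ⟨_, rfl⟩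
  have hq1pos : 1 ≤ q1 := by
    rw [hq1]
    exact Nat.one_le_iff_ne_zero.2 (prod_ne_zero_iff.2 fun k _ => by have := hqq1 k; omega)
  have hint : ∀ k ≤ s, IsIntegral ℤ ((q1 : ℂ) ^ k * PowerSeries.coeff k x) := by
    intro k hk
    rcases k with _ | k
    · rw [pow_zero, one_mul, PowerSeries.coeff_zero_eq_constantCoeff_apply]
      exact h0
    · obtain ⟨m, hm⟩ : qq (k + 1) ∣ q1 := by
        rw [hq1]
        exact dvd_prod_of_mem qq (mem_range.2 (by omega))
      have h1 : (q1 : ℂ) ^ (k + 1) * PowerSeries.coeff (k + 1) x =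
          ((q1 ^ k * m : ℕ) : ℂ) * ((qq (k + 1) : ℂ) * PowerSeries.coeff (k + 1) x) := by
        have h2 : (q1 : ℂ) = (qq (k + 1) : ℂ) * (m : ℂ) := by exact_mod_cast hm
        rw [Nat.cast_mul, Nat.cast_pow, pow_succ]
        calc (q1 : ℂ) ^ k * (q1 : ℂ) * PowerSeries.coeff (k + 1) x =
            (q1 : ℂ) ^ k * ((qq (k + 1) : ℂ) * (m : ℂ)) * PowerSeries.coeff (k + 1) x := by
              rw [← h2]
          _ = _ := by ring
      rw [h1]
      exact (eisb_nat _).mul (hqq2 (k + 1))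
  have hyex : ∀ k, ∃ y : eisb_S, (y : ℂ) =
      if k ≤ s then (q1 : ℂ) ^ k * PowerSeries.coeff k x else 0 := by
    intro k
    by_cases hk : k ≤ s
    · rw [if_pos hk]
      exact ⟨⟨_, hint k hk⟩, rfl⟩
    · rw [if_neg hk]
      exact ⟨0, rfl⟩
  choose y hy using hyex
  obtain ⟨p, hp⟩ : ∃ p : eisb_S[X], p = ∑ k ∈ range (s + 1), C (y k) * X ^ k := ⟨_, rfl⟩
  have hpc : ∀ k, ((p.coeff k : eisb_S) : ℂ) =
      if k ≤ s then (q1 : ℂ) ^ k * PowerSeries.coeff k x else 0 := by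
    intro k
    have h1 : p.coeff k = if k ≤ s then y k else 0 := by
      rw [hp, finsetSum_coeff]
      simp only [coeff_C_mul, coeff_X_pow]
      by_cases hk : k ≤ s
      · rw [if_pos hk, sum_eq_single k]
        · rw [if_pos rfl, mul_one]
        · intro b _ hb
          rw [if_neg (fun h => hb h.symm), mul_zero]
        · intro h
          exact absurd (mem_range.2 (by omega)) h
      · rw [if_neg hk]
        refine sum_eq_zero fun b hb => ?_
        rw [mem_range] at hb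
        rw [if_neg (by omega), mul_zero]
    rw [h1]
    by_cases hk : k ≤ s
    · rw [if_pos hk, hy, if_pos hk]
    · rw [if_neg hk, if_neg hk]
      rfl
  obtain ⟨x1, hx1⟩ : ∃ x1, x1 = PowerSeries.rescale (q1 : ℂ) x := ⟨_, rfl⟩
  have hx1c : ∀ k, PowerSeries.coeff k x1 = (q1 : ℂ) ^ k * PowerSeries.coeff k x := by
    intro k
    rw [hx1, PowerSeries.coeff_rescale]
  obtain ⟨v, hv⟩ : ∃ v : PowerSeries ℂ, v = PowerSeries.mk fun k =>
    if k = 0 then 0 else PowerSeries.coeff (s + k) x1 := ⟨_, rfl⟩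
  have hvc : ∀ k, PowerSeries.coeff k v = if k = 0 then 0 else PowerSeries.coeff (s + k) x1 := by
    intro k
    rw [hv, PowerSeries.coeff_mk]
  have hv0 : PowerSeries.constantCoeff v = 0 := by
    rw [← PowerSeries.coeff_zero_eq_constantCoeff_apply, hvc, if_pos rfl]
  have hxe : PowerSeries.X ^ s * v + eisb_i p = x1 := by
    ext k
    rw [map_add, PowerSeries.coeff_X_pow_mul', eisb_coeff, hpc, hx1c]
    rcases lt_trichotomy k s with hk | hk | hk
    · rw [if_neg (by omega), if_pos (by omega), zero_add]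
    · rw [if_pos (by omega), if_pos (by omega), hvc, if_pos (by omega), zero_add]
    · rw [if_pos (by omega), if_neg (by omega), hvc, if_neg (by omega), hx1c, add_zero]
      have h1 : s + (k - s) = k := by omega
      rw [h1]
  have hPm : (P.map (eisb_s q1)).map eisb_i = (P.map (tq 1 1)).map
      (PowerSeries.rescale (q1 : ℂ)) := by
    rw [Polynomial.map_map, Polynomial.map_map, eisb_comp, eisb_rescale]
  have hx2 : ((P.map (eisb_s q1)).map eisb_i).eval (PowerSeries.X ^ s * v + eisb_i p) = 0 := by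
    rw [hxe, hPm, hx1, eval_map, eval₂_at_apply, hx, map_zero]
  have hD1 : (derivative ((P.map (eisb_s q1)).map eisb_i)).eval
      (PowerSeries.X ^ s * v + eisb_i p) = PowerSeries.rescale (q1 : ℂ) D := by
    rw [hxe, hPm, hx1, derivative_map, eval_map, eval₂_at_apply, ← hDdef]
  have hq1C : (q1 : ℂ) ≠ 0 := by
    have : q1 ≠ 0 := by omega
    exact_mod_cast this
  obtain ⟨δ, hδi, hδ0, hδv, R1, hR1, hR1v⟩ := eisb_core (P.map (eisb_s q1)) p s v hv0 hx2 (by
    intro k hk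
    rw [hD1, PowerSeries.coeff_rescale, hs2 k hk, mul_zero]) (by
    rw [hD1, PowerSeries.coeff_rescale]
    exact mul_ne_zero (pow_ne_zero _ hq1C) hs1)
  have halgδ : IsAlgebraic ℤ ((δ ^ 2)⁻¹ : ℂ) := by
    have h1 : IsAlgebraic ℤ (δ ^ 2) := (hδi.pow 2).isAlgebraic
    exact h1.inv
  obtain ⟨q2, hq2, hq2i⟩ := eisb_mult halgδ
  refine ⟨q1 * q2, Nat.mul_pos hq1pos hq2, ?_, R1 + ∑ k ∈ range (s + 1), ‖PowerSeries.coeff k x‖,
    ?_, ?_⟩
  · intro k
    rw [Nat.cast_mul, mul_pow]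
    by_cases hk : k ≤ s
    · have h1 : (q1 : ℂ) ^ k * (q2 : ℂ) ^ k * PowerSeries.coeff k x =
          (q2 : ℂ) ^ k * ((q1 : ℂ) ^ k * PowerSeries.coeff k x) := by ring
      rw [h1]
      exact ((eisb_nat q2).pow k).mul (hint k hk)
    · obtain ⟨j, hj, rfl⟩ : ∃ j, j ≠ 0 ∧ k = s + j := ⟨k - s, by omega, by omega⟩
      have h1 : (q1 : ℂ) ^ (s + j) * PowerSeries.coeff (s + j) x = PowerSeries.coeff j v := by
        rw [hvc, if_neg hj, hx1c]
      have h2 : (q1 : ℂ) ^ (s + j) * (q2 : ℂ) ^ (s + j) * PowerSeries.coeff (s + j) x =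
          (q2 : ℂ) ^ s * (((q2 : ℂ) * (δ ^ 2)⁻¹) ^ j * (δ ^ (2 * j) * PowerSeries.coeff j v)) := by
        rw [← h1, mul_pow, inv_pow, ← pow_mul]
        have h3 : δ ^ (2 * j) ≠ 0 := pow_ne_zero _ hδ0
        field_simp
        ring
      rw [h2]
      exact ((eisb_nat q2).pow s).mul ((hq2i.pow j).mul (hδv j))
  · have : 0 ≤ ∑ k ∈ range (s + 1), ‖PowerSeries.coeff k x‖ := sum_nonneg fun k _ => norm_nonneg _
    linarith
  · intro k
    have hS0 : 0 ≤ ∑ k ∈ range (s + 1), ‖PowerSeries.coeff k x‖ :=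
      sum_nonneg fun k _ => norm_nonneg _
    have hR : 1 ≤ R1 + ∑ k ∈ range (s + 1), ‖PowerSeries.coeff k x‖ := by linarith
    by_cases hk : k ≤ s
    · have h1 := single_le_sum (f := fun k => ‖PowerSeries.coeff k x‖) (fun i _ => norm_nonneg _)
        (mem_range.2 (show k < s + 1 by omega))
      calc ‖PowerSeries.coeff k x‖ ≤ R1 + ∑ k ∈ range (s + 1), ‖PowerSeries.coeff k x‖ := by
            linarith
        _ ≤ _ := le_self_pow₀ hR (by omega)
    · obtain ⟨j, hj, rfl⟩ : ∃ j, j ≠ 0 ∧ k = s + j := ⟨k - s, by omega, by omega⟩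
      have h1 : (q1 : ℂ) ^ (s + j) * PowerSeries.coeff (s + j) x = PowerSeries.coeff j v := by
        rw [hvc, if_neg hj, hx1c]
      have h2 : ‖PowerSeries.coeff (s + j) x‖ ≤ ‖PowerSeries.coeff j v‖ := by
        rw [← h1, norm_mul, norm_pow, Complex.norm_natCast]
        have h3 : (1 : ℝ) ≤ (q1 : ℝ) ^ (s + j) := one_le_pow₀ (by exact_mod_cast hq1pos)
        nlinarith [norm_nonneg (PowerSeries.coeff (s + j) x)]
      calc ‖PowerSeries.coeff (s + j) x‖ ≤ ‖PowerSeries.coeff j v‖ := h2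
        _ ≤ R1 ^ (j + 1) := hR1v j
        _ ≤ (R1 + ∑ k ∈ range (s + 1), ‖PowerSeries.coeff k x‖) ^ (j + 1) :=
            pow_le_pow_left₀ (by linarith) (by linarith) _
        _ ≤ _ := pow_le_pow_right₀ hR (by omega)

end Pool.Agent.H87.SA2
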