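import Pool.Agent.H87.SA2.NPC
import Pool.Agent.H87.SA2.EISB
import Mathlib.FieldTheory.IsAlgClosed.AlgebraicClosure

/-! # [SA2-PDE] Existence of the Puiseux data

Proof. Let `K = AlgebraicClosure ℚ` and `σ : K →+* ℂ` (`IsAlgClosed.lift`), `d = f.natDegree`.
Apply `newton_puiseux` to `PK = f.map (ℤ[X] → K⟦T⟧, t ↦ T)` (monic of degree `d`): `e ≠ 0`,
`e ≤ d!`, `PK.map (exr K e)` splits. Mapping to `ℂ` (`PowerSeries.map σ`): `f.map (tq e 1)` splits,
with roots `y_i = (PowerSeries.map σ) ξ_i`, `i : Fin d` (`Splits.eq_prod_roots_of_monic`, turn the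
multiset of roots of cardinality `d` into a function on `Fin d`: `Multiset.toList`, `List.get`,
`List.prod_ofFn`), whose coefficients are algebraic over `ℤ`.
The `y_i` are distinct: if `y_i = y_j`, `i ≠ j`, then `y_i` is a root of `f.map (tq e 1)` and of its
derivative, so by `hbez` (mapped by `tq e 1`, evaluated at `y_i`) `tq e 1 c = 0`, but `tq e q` is
injective for `e, q ≥ 1` (`c` has a lowest nonzero coefficient `c_k`, the coefficient of `T^(e k)`
in `tq e q c` is `q^(e k) c_k`).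
The constant coefficient of `y_i` is a root of the monic integer polynomial `f(0, X)`, so it is
integral. `eisenstein` for `P = f.map (Polynomial.expand ℤ e)` (ring hom `t ↦ t^e` of `ℤ[X]`;
`P.map (tq 1 1) = f.map (tq e 1)`) and `x = y_i` (simple root: the derivative at `y_i` is
`∏_{j ≠ i} (y_i - y_j) ≠ 0`): `q_i`, `R_i`. Put `q = ∏ q_i`, `x_i = PowerSeries.rescale q y_i`:
coefficients `q^k (y_i)_k`, integral since `q_i ∣ q`. `f.map (tq e q) =
(f.map (tq e 1)).map (rescale q)`. `R = 2 + q ∑ R_i`. -/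

namespace Pool.Agent.H87.SA2

open Finset Polynomial

theorem tq_coeff (e q : ℕ) (he : 1 ≤ e) (p : ℤ[X]) (k : ℕ) :
    PowerSeries.coeff (e * k) (tq e q p) = (q : ℂ) ^ (e * k) * (p.coeff k : ℂ) := by
  have h1 : tq e q p = ∑ i ∈ range (p.natDegree + 1),
      (Int.castRingHom (PowerSeries ℂ)) (p.coeff i) *
        ((PowerSeries.C (q : ℂ) * PowerSeries.X) ^ e) ^ i :=
    Polynomial.eval₂_eq_sum_range _ _
  have h2 : ∀ i, PowerSeries.coeff (e * k) ((Int.castRingHom (PowerSeries ℂ)) (p.coeff i) *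
        ((PowerSeries.C (q : ℂ) * PowerSeries.X) ^ e) ^ i) =
      if i = k then (q : ℂ) ^ (e * k) * (p.coeff k : ℂ) else 0 := by
    intro i
    have h3 : (Int.castRingHom (PowerSeries ℂ)) (p.coeff i) *
        ((PowerSeries.C (q : ℂ) * PowerSeries.X) ^ e) ^ i =
        PowerSeries.C ((p.coeff i : ℂ) * (q : ℂ) ^ (e * i)) * PowerSeries.X ^ (e * i) := by
      rw [← pow_mul, mul_pow, ← map_pow, ← mul_assoc, map_mul]
      congr 1
      congr 1
      simp
    rw [h3, PowerSeries.coeff_C_mul, PowerSeries.coeff_X_pow]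
    by_cases hik : i = k
    · subst hik
      simp [mul_comm]
    · rw [if_neg hik, if_neg, mul_zero]
      intro h4
      exact hik (Nat.eq_of_mul_eq_mul_left he h4).symm
  rw [h1, map_sum]
  simp only [h2]
  rw [Finset.sum_ite_eq' (range (p.natDegree + 1)) k]
  split_ifs with hk
  · rfl
  · rw [Finset.mem_range] at hk
    rw [coeff_eq_zero_of_natDegree_lt (by omega), Int.cast_zero, mul_zero]

theorem tq_injective {e q : ℕ} (he : 1 ≤ e) (hq : 1 ≤ q) : Function.Injective (tq e q) := by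
  rw [injective_iff_map_eq_zero]
  intro p hp
  ext k
  have h1 := tq_coeff e q he p k
  rw [hp, map_zero] at h1
  have h2 : (q : ℂ) ^ (e * k) ≠ 0 := pow_ne_zero _ (by exact_mod_cast (by omega : q ≠ 0))
  have h3 : (p.coeff k : ℂ) = 0 := by
    rcases mul_eq_zero.mp h1.symm with h | h
    · exact absurd h h2
    · exact h
  rw [coeff_zero]
  exact_mod_cast h3

theorem pd_splits_fin {A : Type*} [CommRing A] [IsDomain A] (P : A[X]) (hP : P.Monic)
    (hs : P.Splits) (d : ℕ) (hd : P.natDegree = d) :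
    ∃ ξ : Fin d → A, P = ∏ i, (X - C (ξ i)) := by
  obtain ⟨L, hL⟩ := Quot.exists_rep P.roots
  have h1 : (L : Multiset A) = P.roots := hL
  have h2 : P = (P.roots.map fun a => X - C a).prod := hs.eq_prod_roots_of_monic hP
  have h3 : P.natDegree = L.length := by
    rw [hs.natDegree_eq_card_roots, ← h1]
    rfl
  rw [← h1] at h2
  obtain rfl : d = L.length := hd.symm.trans h3
  refine ⟨fun i => L[i.1], ?_⟩
  rw [h2, Multiset.map_coe, Multiset.prod_coe]
  exact (Fin.prod_univ_fun_getElem L (fun a => X - C a)).symm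

theorem tq_map_rescale (e q : ℕ) :
    (PowerSeries.rescale (q : ℂ)).comp (tq e 1) = tq e q := by
  apply Polynomial.ringHom_ext
  · intro a
    simp [tq]
  · simp [tq, PowerSeries.rescale_X]

theorem tq_expand (e : ℕ) :
    (tq 1 1).comp (Polynomial.expand ℤ e : ℤ[X] →+* ℤ[X]) = tq e 1 := by
  apply Polynomial.ringHom_ext
  · intro a
    simp [tq]
  · simp [tq]

theorem tq_const (e : ℕ) (he : 1 ≤ e) :
    (PowerSeries.constantCoeff (R := ℂ)).comp (tq e 1) =
      (Int.castRingHom ℂ).comp (evalRingHom (0 : ℤ)) := by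
  apply Polynomial.ringHom_ext
  · intro a
    simp [tq]
  · have : e ≠ 0 := by omega
    simp [tq, this]

theorem pd_qbar_alg : Algebra.IsAlgebraic ℚ (AlgebraicClosure ℚ) := by
  have h := AlgebraicClosure.isAlgebraic ℚ
  convert h
  · rfl
  · exact Subsingleton.elim _ _

theorem exists_pdata (f : ℤ[X][X]) (hf : f.Monic) (a b : ℤ[X][X]) (c : ℤ[X]) (hc : c ≠ 0)
    (hbez : a * f + b * derivative f = C c) :
    ∃ pd : PData f f.natDegree, pd.e ≤ f.natDegree.factorial := by
  classical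
  have := pd_qbar_alg
  obtain ⟨σ⟩ : Nonempty (AlgebraicClosure ℚ →ₐ[ℚ] ℂ) := ⟨IsAlgClosed.lift⟩
  obtain ⟨τ, hτ⟩ : ∃ τ : ℤ[X] →+* PowerSeries (AlgebraicClosure ℚ),
      τ = eval₂RingHom (Int.castRingHom _) PowerSeries.X := ⟨_, rfl⟩
  obtain ⟨e, he, hed, hs⟩ := newton_puiseux f.natDegree (f.map τ) (hf.map τ) (hf.natDegree_map τ)
  have he1 : 1 ≤ e := Nat.one_le_iff_ne_zero.mpr he
  have hcomp : (PowerSeries.map (σ : AlgebraicClosure ℚ →+* ℂ)).comp
      ((exr (AlgebraicClosure ℚ) e he).comp τ) = tq e 1 := by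
    apply Polynomial.ringHom_ext
    · intro a
      simp [tq, hτ]
    · simp [tq, hτ, exr_X]
  obtain ⟨ξ, hξ⟩ := pd_splits_fin ((f.map τ).map (exr (AlgebraicClosure ℚ) e he))
    ((hf.map τ).map _) hs f.natDegree (by rw [(hf.map τ).natDegree_map, hf.natDegree_map])
  obtain ⟨y, hy⟩ : ∃ y : Fin f.natDegree → PowerSeries ℂ,
      ∀ i, y i = PowerSeries.map (σ : AlgebraicClosure ℚ →+* ℂ) (ξ i) := ⟨_, fun i => rfl⟩
  have hP : f.map (tq e 1) = ∏ i, (X - C (y i)) := by
    rw [← hcomp, ← Polynomial.map_map, ← Polynomial.map_map, hξ, Polynomial.map_prod]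
    refine Finset.prod_congr rfl fun i _ => ?_
    rw [Polynomial.map_sub, map_X, map_C, hy]
  -- roots
  have hroot : ∀ i, (f.map (tq e 1)).eval (y i) = 0 := by
    intro i
    rw [hP, eval_prod]
    exact Finset.prod_eq_zero (Finset.mem_univ i) (by simp)
  have hder : ∀ i, (derivative (f.map (tq e 1))).eval (y i) ≠ 0 := by
    intro i h0
    have h1 := congrArg (fun p => (p.map (tq e 1)).eval (y i)) hbez
    simp only [Polynomial.map_add, Polynomial.map_mul, map_C, eval_add, eval_mul, eval_C,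
      ← derivative_map, hroot i, h0, mul_zero, add_zero] at h1
    exact hc (tq_injective he1 le_rfl (by rw [← h1, map_zero]))
  have hyinj : Function.Injective y := by
    intro i j hij
    by_contra hne
    apply hder i
    have h2 : f.map (tq e 1) = (X - C (y i)) * ((X - C (y i)) *
        ∏ k ∈ (Finset.univ.erase i).erase j, (X - C (y k))) := by
      rw [hP, ← Finset.mul_prod_erase Finset.univ _ (Finset.mem_univ i),
        ← Finset.mul_prod_erase (Finset.univ.erase i) _
          (Finset.mem_erase.mpr ⟨fun h => hne h.symm, Finset.mem_univ j⟩), ← hij]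
    rw [h2]
    simp [derivative_mul]
  have halg : ∀ i k, IsAlgebraic ℤ (PowerSeries.coeff k (y i)) := by
    intro i k
    rw [IsFractionRing.isAlgebraic_iff ℤ ℚ ℂ]
    rw [hy, PowerSeries.coeff_map]
    have h1 : IsAlgebraic ℚ (PowerSeries.coeff k (ξ i)) := Algebra.IsAlgebraic.isAlgebraic _
    exact h1.algHom σ
  have hint0 : ∀ i, IsIntegral ℤ (PowerSeries.constantCoeff (y i)) := by
    intro i
    refine ⟨f.map (evalRingHom (0 : ℤ)), hf.map _, ?_⟩
    have h1 := congrArg (PowerSeries.constantCoeff (R := ℂ)) (hroot i)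
    rw [map_zero, eval_map, Polynomial.hom_eval₂, tq_const e he1] at h1
    rw [Polynomial.eval₂_map]
    exact h1
  have heis : ∀ i, ∃ q : ℕ, 1 ≤ q ∧ (∀ k, IsIntegral ℤ ((q : ℂ) ^ k * PowerSeries.coeff k (y i))) ∧
      ∃ R : ℝ, 1 ≤ R ∧ ∀ k, ‖PowerSeries.coeff k (y i)‖ ≤ R ^ (k + 1) := by
    intro i
    have h1 : (f.map (Polynomial.expand ℤ e : ℤ[X] →+* ℤ[X])).map (tq 1 1) = f.map (tq e 1) := by
      rw [Polynomial.map_map, tq_expand]
    refine eisenstein (f.map (Polynomial.expand ℤ e : ℤ[X] →+* ℤ[X])) (y i) ?_ ?_ (halg i) (hint0 i)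
    · rw [h1]
      exact hroot i
    · rw [h1]
      exact hder i
  choose q hq1 hqi R hR1 hR using heis
  obtain ⟨Q, hQ⟩ : ∃ Q : ℕ, Q = ∏ i, q i := ⟨_, rfl⟩
  have hQ1 : 1 ≤ Q := by
    rw [hQ]
    exact Finset.one_le_prod' (fun i _ => hq1 i)
  have hQ0 : (Q : ℂ) ≠ 0 := by exact_mod_cast (by omega : Q ≠ 0)
  obtain ⟨RR, hRR⟩ : ∃ RR : ℝ, RR = 2 + Q * ∑ i, R i := ⟨_, rfl⟩
  have hQ1R : (1 : ℝ) ≤ (Q : ℝ) := by exact_mod_cast hQ1
  have hsum0 : 0 ≤ ∑ i, R i := Finset.sum_nonneg fun i _ => by linarith [hR1 i]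
  refine ⟨{ e := e
            q := Q
            e_pos := he1
            q_pos := hQ1
            x := fun i => PowerSeries.rescale (Q : ℂ) (y i)
            x_inj := ?_
            split := ?_
            integral := ?_
            R := RR
            R_ge := ?_
            growth := ?_ }, hed⟩
  · intro i j hij
    exact hyinj (PowerSeries.rescale_injective hQ0 hij)
  · rw [← tq_map_rescale e Q, ← Polynomial.map_map, hP, Polynomial.map_prod]
    refine Finset.prod_congr rfl fun i _ => ?_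
    rw [Polynomial.map_sub, map_X, map_C]
  · intro i k
    rw [PowerSeries.coeff_rescale]
    obtain ⟨m, hm⟩ : q i ∣ Q := by
      rw [hQ]
      exact Finset.dvd_prod_of_mem q (Finset.mem_univ i)
    have h1 : (Q : ℂ) ^ k * PowerSeries.coeff k (y i) =
        (m : ℂ) ^ k * ((q i : ℂ) ^ k * PowerSeries.coeff k (y i)) := by
      rw [hm]
      push_cast
      ring
    rw [h1]
    refine IsIntegral.mul (IsIntegral.pow ?_ k) (hqi i k)
    have h2 : (m : ℂ) = algebraMap ℤ ℂ (m : ℤ) := by simp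
    rw [h2]
    exact isIntegral_algebraMap
  · rw [hRR]
    nlinarith
  · intro i k
    rw [PowerSeries.coeff_rescale, norm_mul, norm_pow, Complex.norm_natCast]
    have h1 : R i ≤ ∑ i, R i := Finset.single_le_sum (fun j _ => by linarith [hR1 j])
      (Finset.mem_univ i)
    have h2 : (Q : ℝ) * R i ≤ RR := by
      rw [hRR]
      nlinarith
    have hRi := hR1 i
    calc (Q : ℝ) ^ k * ‖PowerSeries.coeff k (y i)‖ ≤ (Q : ℝ) ^ (k + 1) * R i ^ (k + 1) := by
          apply mul_le_mul _ (hR i k) (norm_nonneg _) (by positivity)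
          exact pow_le_pow_right₀ hQ1R (Nat.le_succ k)
      _ = ((Q : ℝ) * R i) ^ (k + 1) := by rw [mul_pow]
      _ ≤ RR ^ (k + 1) := by gcongr

end Pool.Agent.H87.SA2
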