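import Pool.Agent.H87.SA2.YR

/-! # [SA2-PERM] Embeddings permute the Puiseux expansions and the values

`AA = algebraicClosure ℚ ℂ` (an intermediate field of `ℂ/ℚ`).

`xu_alg`: `xu i k = (1/X0)^k x_(i,k)`, `x_(i,k)` an algebraic integer (`pd.integral`), `X0` algebraic
(`X0^e = q^e N`). `y_alg`: `yR i` is a root of the monic integer polynomial `gN` (`y_prodR`).
`perm_R`: let `ξ i : PowerSeries AA` have the coefficients `xu i k`. Let
`P = f.map (ℤ[X] → AA⟦u⟧, t ↦ C (1/N) u^e)`. Then `P = ∏ (X - C (ξ i))` (map to `ℂ⟦u⟧`, injective: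
`u_split`). Apply `σ` coefficientwise (`PowerSeries.map σ`): `P` is mapped to the same polynomial over
`ℂ⟦u⟧` (rational coefficients), so `∏ (X - C (σ ξ i)) = ∏ (X - C (mk (xu i)))`; so
`σ ξ i = mk (xu j)` for a `j` (evaluate at `σ ξ i`, domain), `i ↦ j` is injective since the `ξ i` are
distinct (`pd.x_inj`, `1/X0 ≠ 0`) and `σ` is injective; an injective map of `Fin d` is a permutation
(`Equiv.ofBijective`, `Finite.injective_iff_bijective`). Values: the same with `gN` and `y_prodR`. -/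

namespace Pool.Agent.H87.SA2

open Finset Polynomial Pool.Agent.H72.ES Pool.Agent.H87.SA Pool.Agent.H97.GA

variable {f : ℤ[X][X]} {d m N : ℕ} {pd : PData f d} {X0 : ℝ}

/-- the field of algebraic numbers -/
noncomputable abbrev AA : IntermediateField ℚ ℂ := algebraicClosure ℚ ℂ

theorem perm_aux {Z A B : Type*} [CommRing Z] [CommRing A] [CommRing B] [IsDomain B] {d : ℕ}
    (φ : Z →+* A) (τ ι : A →+* B) (hτι : τ.comp φ = ι.comp φ) (hτ : Function.Injective τ)
    (ξ : Fin d → A) (hξ : Function.Injective ξ) (P : Z[X]) (hP : P.map φ = ∏ i, (X - C (ξ i))) :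
    ∃ π : Equiv.Perm (Fin d), ∀ i, τ (ξ i) = ι (ξ (π i)) := by
  have h1 : ∏ i, (X - C (τ (ξ i))) = ∏ i, (X - C (ι (ξ i))) := by
    have h2 := congrArg (Polynomial.map τ) hP
    have h3 := congrArg (Polynomial.map ι) hP
    rw [Polynomial.map_map] at h2 h3
    rw [hτι, h3] at h2
    rw [Polynomial.map_prod, Polynomial.map_prod] at h2
    simp only [Polynomial.map_sub, Polynomial.map_X, Polynomial.map_C] at h2
    exact h2.symm
  have h2 : ∀ i, ∃ j, τ (ξ i) = ι (ξ j) := by
    intro i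
    have h3 := congrArg (Polynomial.eval (τ (ξ i))) h1
    rw [Polynomial.eval_prod, Polynomial.eval_prod] at h3
    have h4 : ∏ j, Polynomial.eval (τ (ξ i)) (X - C (τ (ξ j))) = 0 := by
      apply Finset.prod_eq_zero (Finset.mem_univ i)
      simp
    rw [h4] at h3
    obtain ⟨j, _, hj⟩ := Finset.prod_eq_zero_iff.1 h3.symm
    refine ⟨j, ?_⟩
    rw [eval_sub, eval_X, eval_C, sub_eq_zero] at hj
    exact hj
  choose π hπ using h2
  have h3 : Function.Injective π := by
    intro i j hij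
    apply hξ
    apply hτ
    rw [hπ i, hπ j, hij]
  exact ⟨Equiv.ofBijective π (Finite.injective_iff_bijective.1 h3), hπ⟩

theorem xu_alg (H : RHyp f d m pd N X0) (i : Fin d) (k : ℕ) : xu pd X0 i k ∈ AA := by
  have h1 : (X0 : ℂ) ∈ AA := by
    rw [mem_algebraicClosure_iff]
    have h2 : IsIntegral ℚ ((X0 : ℂ) ^ pd.e) := by
      have h3 : (X0 : ℂ) ^ pd.e = ((pd.q ^ pd.e * N : ℕ) : ℂ) := by
        have h4 := congrArg (fun r : ℝ => (r : ℂ)) H.pow
        simp only [Complex.ofReal_pow, Complex.ofReal_natCast] at h4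
        exact h4
      rw [h3]
      have := isIntegral_algebraMap (R := ℚ) (A := ℂ) (x := ((pd.q ^ pd.e * N : ℕ) : ℚ))
      simpa using this
    exact (IsIntegral.of_pow pd.e_pos h2).isAlgebraic
  have h2 : PowerSeries.coeff k (pd.x i) ∈ AA := by
    rw [mem_algebraicClosure_iff]
    exact ((pd.integral i k).tower_top (A := ℚ)).isAlgebraic
  have h3 : xu pd X0 i k = ((X0 : ℂ)⁻¹) ^ k * PowerSeries.coeff k (pd.x i) := by
    unfold xu
    rw [one_div, Complex.ofReal_inv]
  rw [h3]
  exact mul_mem (pow_mem (inv_mem h1) k) h2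

theorem y_alg (H : RHyp f d m pd N X0) (i : Fin d) : IsIntegral ℤ (yR pd m N X0 i) := by
  have h1 := y_prodR H
  have hmon : (gN d m (af f) N).Monic := by
    apply Polynomial.monic_of_injective (f := Int.castRingHom ℂ) Int.cast_injective
    rw [h1]
    exact monic_prod_of_monic _ _ fun i _ => monic_X_sub_C _
  refine ⟨gN d m (af f) N, hmon, ?_⟩
  have h2 := congrArg (Polynomial.eval (yR pd m N X0 i)) h1
  rw [Polynomial.eval_map, Polynomial.eval_prod] at h2
  rw [Finset.prod_eq_zero (Finset.mem_univ i) (by simp)] at h2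
  exact h2

theorem perm_R (H : RHyp f d m pd N X0) (σ : AA →+* ℂ) :
    ∃ π0 π : Equiv.Perm (Fin d),
      (∀ (i : Fin d) (k : ℕ) (a : AA), (a : ℂ) = xu pd X0 i k → σ a = xu pd X0 (π0 i) k) ∧
      ∀ (i : Fin d) (a : AA), (a : ℂ) = yR pd m N X0 i → σ a = yR pd m N X0 (π i) := by
  have hX0 : (X0 : ℂ) ≠ 0 := by
    have := H.X1
    exact_mod_cast (by linarith : X0 ≠ 0)
  obtain ⟨ι, hι⟩ : ∃ ι : AA →+* ℂ, ι = algebraMap AA ℂ := ⟨_, rfl⟩
  have hιa : ∀ a : AA, ι a = (a : ℂ) := by
    intro a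
    rw [hι]
    rfl
  obtain ⟨ξ, hξ⟩ : ∃ ξ : Fin d → PowerSeries AA,
    ξ = fun i => PowerSeries.mk fun k => (⟨xu pd X0 i k, xu_alg H i k⟩ : AA) := ⟨_, rfl⟩
  have hξc : ∀ i k, PowerSeries.coeff k (ξ i) = (⟨xu pd X0 i k, xu_alg H i k⟩ : AA) := by
    intro i k
    rw [hξ, PowerSeries.coeff_mk]
  have hξi : ∀ i, PowerSeries.map ι (ξ i) = PowerSeries.mk (xu pd X0 i) := by
    intro i
    ext k
    rw [PowerSeries.coeff_map, hξc, hιa, PowerSeries.coeff_mk]
  have hξinj : Function.Injective ξ := by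
    intro i j hij
    apply pd.x_inj
    ext k
    have h1 := congrArg (PowerSeries.coeff k) hij
    rw [hξc, hξc] at h1
    have h2 := congrArg (fun a : AA => (a : ℂ)) h1
    simp only [xu] at h2
    refine mul_left_cancel₀ (pow_ne_zero k ?_) h2
    rw [one_div, Complex.ofReal_inv]
    exact inv_ne_zero hX0
  have hιinj : Function.Injective (PowerSeries.map ι) := PowerSeries.map_injective ι ι.injective
  have hσinj : Function.Injective (PowerSeries.map σ) := PowerSeries.map_injective σ σ.injective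
  obtain ⟨φ, hφ⟩ : ∃ φ : ℤ[X] →+* PowerSeries AA, φ = eval₂RingHom
    (Int.castRingHom (PowerSeries AA)) (PowerSeries.C (1 / (N : AA)) * PowerSeries.X ^ pd.e) :=
    ⟨_, rfl⟩
  have hcomp : ∀ τ : AA →+* ℂ, (PowerSeries.map τ).comp φ =
      eval₂RingHom (Int.castRingHom (PowerSeries ℂ))
      (PowerSeries.C (1 / (N : ℂ)) * PowerSeries.X ^ pd.e) := by
    intro τ
    apply Polynomial.ringHom_ext
    · intro a
      simp
    · rw [hφ, RingHom.comp_apply, coe_eval₂RingHom, coe_eval₂RingHom, eval₂_X, eval₂_X, map_mul,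
        map_pow, PowerSeries.map_X, PowerSeries.map_C, map_div₀, map_one, map_natCast]
  have hsplit : f.map φ = ∏ i, (X - C (ξ i)) := by
    apply Polynomial.map_injective (PowerSeries.map ι) hιinj
    rw [Polynomial.map_map, hcomp, u_split H, Polynomial.map_prod]
    refine Finset.prod_congr rfl fun i _ => ?_
    rw [Polynomial.map_sub, Polynomial.map_X, Polynomial.map_C, hξi]
  obtain ⟨π0, hπ0⟩ := perm_aux φ (PowerSeries.map σ) (PowerSeries.map ι)
    (by rw [hcomp, hcomp]) hσinj ξ hξinj f hsplit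
  obtain ⟨η, hη⟩ : ∃ η : Fin d → AA, ∀ i, (η i : ℂ) = yR pd m N X0 i := by
    have h1 : ∀ i, yR pd m N X0 i ∈ AA := by
      intro i
      rw [mem_algebraicClosure_iff]
      exact ((y_alg H i).tower_top (A := ℚ)).isAlgebraic
    exact ⟨fun i => ⟨_, h1 i⟩, fun i => rfl⟩
  have hηinj : Function.Injective η := by
    intro i j hij
    apply y_injR H
    rw [← hη, ← hη, hij]
  have hsplit2 : (gN d m (af f) N).map (Int.castRingHom AA) = ∏ i, (X - C (η i)) := by
    apply Polynomial.map_injective ι ι.injective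
    rw [Polynomial.map_map, Polynomial.map_prod]
    have h1 : ι.comp (Int.castRingHom AA) = Int.castRingHom ℂ := RingHom.ext_int _ _
    rw [h1, y_prodR H]
    refine Finset.prod_congr rfl fun i _ => ?_
    rw [Polynomial.map_sub, Polynomial.map_X, Polynomial.map_C, hιa, hη]
  obtain ⟨π, hπ⟩ := perm_aux (Int.castRingHom AA) σ ι (RingHom.ext_int _ _) σ.injective η hηinj
    (gN d m (af f) N) hsplit2
  refine ⟨π0, π, ?_, ?_⟩
  · intro i k a ha
    have h1 := congrArg (PowerSeries.coeff k) (hπ0 i)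
    rw [PowerSeries.coeff_map, PowerSeries.coeff_map, hξc, hξc, hιa] at h1
    have h2 : a = (⟨xu pd X0 i k, xu_alg H i k⟩ : AA) := Subtype.ext ha
    rw [h2]
    exact h1
  · intro i a ha
    have h1 := hπ i
    rw [hιa, hη] at h1
    have h2 : a = η i := Subtype.ext (by rw [hη]; exact ha)
    rw [h2]
    exact h1

end Pool.Agent.H87.SA2
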