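import Pool.Agent.H87.SA2.RDefs
import Mathlib.RingTheory.PowerSeries.Inverse
import Mathlib.RingTheory.Polynomial.UniqueFactorization

/-! # [SA2-LOCF] The irreducible factor over `ℚ⟦t⟧` with a given root

`ℚ⟦t⟧` is a principal ideal domain (a discrete valuation ring), so `ℚ⟦t⟧[X]` is a unique
factorization domain. `P` monic. Factor `P` in irreducible elements
(`UniqueFactorizationMonoid.exists_...`, `WfDvdMonoid.exists_factors`, or
`UniqueFactorizationMonoid.factors_prod`): the image of `P` vanishes at `x`, so one irreducible factor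
`g0` has `(g0.map φ).eval x = 0` (`φ` maps the unit to a unit). The leading coefficient of `g0` divides
`1`, so it is a unit; `g = C (unit⁻¹) * g0` is monic and irreducible (associated to `g0`). -/

namespace Pool.Agent.H87.SA2

open Polynomial

theorem exists_factor (P : (PowerSeries ℚ)[X]) (hP : P.Monic) {S : Type} [CommRing S] [IsDomain S]
    (φ : PowerSeries ℚ →+* S) (x : S) (hx : (P.map φ).eval x = 0) :
    ∃ g : (PowerSeries ℚ)[X], g.Monic ∧ Irreducible g ∧ g ∣ P ∧ (g.map φ).eval x = 0 := by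
  obtain ⟨E, hE⟩ : ∃ E : (PowerSeries ℚ)[X] →+* S, E = eval₂RingHom φ x := ⟨_, rfl⟩
  have hEv : ∀ q : (PowerSeries ℚ)[X], E q = (q.map φ).eval x := by
    intro q
    rw [hE, coe_eval₂RingHom, eval_map]
  obtain ⟨s, hs1, hs2⟩ := WfDvdMonoid.exists_factors P hP.ne_zero
  obtain ⟨u, hu⟩ := hs2
  have h1 : E s.prod * E (u : (PowerSeries ℚ)[X]) = 0 := by
    rw [← map_mul, hu, hEv, hx]
  have h2 : E (u : (PowerSeries ℚ)[X]) ≠ 0 := (u.isUnit.map E).ne_zero
  have h3 : E s.prod = 0 := (mul_eq_zero.1 h1).resolve_right h2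
  rw [map_multiset_prod, Multiset.prod_eq_zero_iff, Multiset.mem_map] at h3
  obtain ⟨g0, hg0, hg1⟩ := h3
  have hdvd : g0 ∣ P := by
    rw [← hu]
    exact (Multiset.dvd_prod hg0).mul_right _
  have hlc : IsUnit g0.leadingCoeff := by
    obtain ⟨h, hh⟩ := hdvd
    have h4 : g0.leadingCoeff * h.leadingCoeff = 1 := by
      rw [← leadingCoeff_mul, ← hh]
      exact hP
    exact IsUnit.of_mul_eq_one _ h4
  obtain ⟨a, ha⟩ := hlc.exists_left_inv
  have haU : IsUnit (C a : (PowerSeries ℚ)[X]) := by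
    rw [isUnit_C]
    exact IsUnit.of_mul_eq_one _ ha
  refine ⟨C a * g0, ?_, ?_, ?_, ?_⟩
  · rw [Monic, leadingCoeff_mul, leadingCoeff_C, ha]
  · exact (irreducible_isUnit_mul haU).2 (hs1 g0 hg0)
  · exact (haU.mul_left_dvd).2 hdvd
  · rw [← hEv, map_mul, hg1, mul_zero]

end Pool.Agent.H87.SA2
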