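import Mathlib.RingTheory.PowerSeries.Expand
import Mathlib.RingTheory.PowerSeries.Inverse
import Mathlib.Algebra.Polynomial.Splits

/-! # The substitution `T ↦ T^e` as a ring homomorphism -/

namespace Pool.Agent.H87.SA2

/-- the substitution `T ↦ T^e` -/
noncomputable def exr (K : Type*) [CommRing K] (e : ℕ) (he : e ≠ 0) :
    PowerSeries K →+* PowerSeries K :=
  (PowerSeries.expand e he : PowerSeries K →ₐ[K] PowerSeries K).toRingHom

theorem exr_apply {K : Type*} [CommRing K] (e : ℕ) (he : e ≠ 0) (a : PowerSeries K) :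
    exr K e he a = PowerSeries.expand e he a := rfl

theorem coeff_exr {K : Type*} [CommRing K] (e : ℕ) (he : e ≠ 0) (a : PowerSeries K) (n : ℕ) :
    PowerSeries.coeff n (exr K e he a) = if e ∣ n then PowerSeries.coeff (n / e) a else 0 := by
  rw [exr_apply, PowerSeries.coeff_expand]

theorem exr_X {K : Type*} [CommRing K] (e : ℕ) (he : e ≠ 0) :
    exr K e he PowerSeries.X = PowerSeries.X ^ e := by
  rw [exr_apply, PowerSeries.expand_X]

theorem exr_C {K : Type*} [CommRing K] (e : ℕ) (he : e ≠ 0) (a : K) :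
    exr K e he (PowerSeries.C a) = PowerSeries.C a := by
  rw [exr_apply, PowerSeries.expand_C]

theorem exr_one {K : Type*} [CommRing K] : exr K 1 one_ne_zero = RingHom.id _ := by
  ext a
  rw [exr_apply, PowerSeries.expand_one_apply]
  rfl

theorem exr_mul {K : Type*} [CommRing K] (p q : ℕ) (hp : p ≠ 0) (hq : q ≠ 0) :
    exr K (p * q) (Nat.mul_ne_zero hp hq) = (exr K p hp).comp (exr K q hq) := by
  refine RingHom.ext fun a => ?_
  rw [RingHom.comp_apply, exr_apply, exr_apply, exr_apply, PowerSeries.expand_mul]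

end Pool.Agent.H87.SA2
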