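import Pool.Agent.H87.SA2.ZeroE
import Pool.Agent.H87.SA.Coef

/-! # [SA2-DNB] The functions `x0^(s mod e) X^s Z^j` -/

namespace Pool.Agent.H87.SA2

open Finset Pool.Agent.H72.ES Pool.Agent.H8.KF Pool.Agent.H87.SA

theorem usR_map {S S' : Type*} [CommRing S] [CommRing S'] (ψ : S →+* S') (x0 : S) (e J D : ℕ)
    (c : ℕ → ℕ → ℤ) (Z : PowerSeries S) :
    (usR x0 e J D c Z).map ψ = usR (ψ x0) e J D c (Z.map ψ) := by
  unfold usR
  simp only [map_sum, map_mul, map_pow, map_intCast, PowerSeries.map_X, PowerSeries.map_C]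

theorem coeff_usR {S : Type*} [CommRing S] (x0 : S) (e J D : ℕ) (c : ℕ → ℕ → ℤ)
    (Z : PowerSeries S) (k : ℕ) :
    PowerSeries.coeff k (usR x0 e J D c Z) =
      ∑ s ∈ range (J + 1), ∑ j ∈ range D, (c s j : S) * zcR x0 e Z k s j := by
  unfold usR zcR
  rw [map_sum]
  refine sum_congr rfl fun s _ => ?_
  rw [map_sum]
  refine sum_congr rfl fun j _ => ?_
  have h1 : (c s j : PowerSeries S) = PowerSeries.C (c s j : S) := (map_intCast _ _).symm
  rw [h1, PowerSeries.coeff_C_mul, PowerSeries.coeff_C_mul]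

theorem zcR_map {S S' : Type*} [CommRing S] [CommRing S'] (ψ : S →+* S') (x0 : S) (e : ℕ)
    (Z : PowerSeries S) (k s j : ℕ) : ψ (zcR x0 e Z k s j) = zcR (ψ x0) e (Z.map ψ) k s j := by
  unfold zcR
  rw [map_mul, map_pow, ← PowerSeries.coeff_map]
  simp only [map_mul, map_pow, PowerSeries.map_X]

theorem zcR_le {E : Type} [CommRing E] {ν : E → ℝ} (hν : SubMul ν) {A R : ℝ} (hA : 1 ≤ A)
    (hR : 1 ≤ R) {x0 : E} {e : ℕ} (he : 1 ≤ e) (hx0 : ∀ r < e, ν (x0 ^ r) ≤ A)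
    {Z : PowerSeries E} (hZ : ∀ k, ν (PowerSeries.coeff k Z) ≤ A * R ^ k) {D Dl : ℕ}
    (hDl : D ≤ Dl) (k s j : ℕ) (hj : j < D) :
    ν (zcR x0 e Z k s j) ≤ A ^ Dl * 2 ^ Dl * (2 * R) ^ k := by
  unfold zcR
  refine (hν.mul _ _).trans ?_
  have h0 := hx0 (s % e) (Nat.mod_lt _ he)
  rw [PowerSeries.coeff_X_pow_mul']
  have h2R : (1 : ℝ) ≤ 2 * R := by linarith
  split_ifs with h
  · have h1 := coeff_pow_le hν hA hR hZ (k - s) j
    have h2 : A ^ j * 2 ^ (k - s + j) * R ^ (k - s) = A ^ j * 2 ^ j * (2 * R) ^ (k - s) := by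
      rw [pow_add, mul_pow]; ring
    rw [h2] at h1
    calc ν (x0 ^ (s % e)) * ν (PowerSeries.coeff (k - s) (Z ^ j))
        ≤ A * (A ^ j * 2 ^ j * (2 * R) ^ (k - s)) :=
          mul_le_mul h0 h1 (hν.nonneg _) (by linarith)
      _ = A ^ (j + 1) * 2 ^ j * (2 * R) ^ (k - s) := by rw [pow_succ]; ring
      _ ≤ A ^ Dl * 2 ^ Dl * (2 * R) ^ k := by
          have e1 : A ^ (j + 1) ≤ A ^ Dl := pow_le_pow_right₀ hA (by omega)
          have e2 : (2 : ℝ) ^ j ≤ 2 ^ Dl := pow_le_pow_right₀ (by norm_num) (by omega)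
          have e3 : (2 * R) ^ (k - s) ≤ (2 * R) ^ k := pow_le_pow_right₀ h2R (by omega)
          gcongr
  · rw [hν.zero, mul_zero]
    positivity

theorem rescale_zsmul' (h : ℝ) (m : ℤ) (a : PowerSeries ℝ) :
    PowerSeries.rescale h ((m : PowerSeries ℝ) * a) = (m : PowerSeries ℝ) *
      PowerSeries.rescale h a := by
  rw [map_mul, map_intCast]

/-- the Taylor expansion of `usR` -/
theorem tay_usR {h : ℝ} (hh : 0 ≤ h) (x0 : ℝ) (e J D : ℕ) (c : ℕ → ℕ → ℤ) {Z : PowerSeries ℝ}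
    (hZ : Cv h Z) :
    Cv h (usR x0 e J D c Z) ∧
    tay h (usR x0 e J D c Z) = ∑ s ∈ range (J + 1), ∑ j ∈ range D,
      (c s j : PowerSeries ℝ) * (PowerSeries.C (x0 ^ (s % e)) *
        ((PowerSeries.C h + PowerSeries.X) ^ s * tay h Z ^ j)) := by
  have h1 : ∀ s j, Cv h ((c s j : PowerSeries ℝ) * (PowerSeries.C (x0 ^ (s % e)) *
      (PowerSeries.X ^ s * Z ^ j))) := fun s j =>
    Cv.mul hh (cv_int hh _) (Cv.mul hh (Cv.C _ _) (Cv.mul hh (cv_pow hh (Cv.X h) s)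
      (cv_pow hh hZ j)))
  unfold usR
  refine ⟨(Pool.Agent.H87.SA.tay_sum hh _ _ fun s _ =>
    (Pool.Agent.H87.SA.tay_sum hh _ _ fun j _ => h1 s j).1).1, ?_⟩
  rw [(Pool.Agent.H87.SA.tay_sum hh _ _ fun s _ =>
    (Pool.Agent.H87.SA.tay_sum hh _ _ fun j _ => h1 s j).1).2]
  refine sum_congr rfl fun s _ => ?_
  rw [(Pool.Agent.H87.SA.tay_sum hh _ _ fun j _ => h1 s j).2]
  refine sum_congr rfl fun j _ => ?_
  rw [tay_mul hh (cv_int hh _) (Cv.mul hh (Cv.C _ _) (Cv.mul hh (cv_pow hh (Cv.X h) s)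
      (cv_pow hh hZ j))), tay_mul hh (Cv.C _ _) (Cv.mul hh (cv_pow hh (Cv.X h) s)
      (cv_pow hh hZ j)),
    tay_mul hh (cv_pow hh (Cv.X h) s) (cv_pow hh hZ j), tay_pow hh (Cv.X h), tay_pow hh hZ,
    tay_int, tay_X, tay_C]

theorem dn_one_add (Δ : ℤ) (c : ℝ) (z : ℤ) (s : ℕ) (hz : (z : ℝ) * c = 1 ∨ ∃ y : ℤ, (z : ℝ) * c = y) :
    Dn z Δ (PowerSeries.C c * (1 + PowerSeries.X) ^ s) := by
  obtain ⟨y, hy⟩ : ∃ y : ℤ, (z : ℝ) * c = y := by
    rcases hz with h | h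
    · exact ⟨1, by rw [h]; norm_num⟩
    · exact h
  have h1 : Dn 1 Δ (1 + PowerSeries.X : PowerSeries ℝ) := by
    refine Dn.add (Dn.one 1 Δ) ?_
    intro k
    rw [PowerSeries.coeff_X]
    split_ifs with h
    · exact ⟨Δ ^ k, by push_cast; ring⟩
    · exact ⟨0, by simp⟩
  have h2 := h1.pow s
  rw [one_pow] at h2
  intro k
  obtain ⟨w, hw⟩ := h2 k
  refine ⟨y * w, ?_⟩
  rw [PowerSeries.coeff_C_mul]
  push_cast
  rw [hw, ← hy]
  push_cast
  ring

theorem dnr_usR {X0 : ℝ} (hX0 : 0 < X0) {e M : ℕ} (he : 1 ≤ e) (hM : X0 ^ e = M) (J D : ℕ)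
    (c : ℕ → ℕ → ℤ) {Z : PowerSeries ℝ} (hZ : Cv (1 / X0) Z) {ce Δ : ℤ}
    (hdn : DnR (1 / X0) ce Δ (tay (1 / X0) Z)) :
    DnR (1 / X0) ((M : ℤ) ^ (J / e) * ce ^ D) Δ (tay (1 / X0) (usR X0 e J D c Z)) := by
  rw [dnR_iff, (tay_usR (by positivity) X0 e J D c hZ).2, map_sum]
  rw [dnR_iff] at hdn
  set h : ℝ := 1 / X0 with hh
  have hhX : h * X0 = 1 := by rw [hh]; field_simp
  refine Dn.sum _ _ fun s hs => ?_
  rw [map_sum]
  refine Dn.sum _ _ fun j hj => ?_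
  rw [rescale_zsmul']
  refine Dn.int_mul ?_ _
  rw [mem_range] at hs hj
  have h1 : PowerSeries.rescale h (PowerSeries.C (X0 ^ (s % e)) *
      ((PowerSeries.C h + PowerSeries.X) ^ s * tay h Z ^ j)) =
      (PowerSeries.C (h ^ (e * (s / e))) * (1 + PowerSeries.X) ^ s) *
        PowerSeries.rescale h (tay h Z) ^ j := by
    rw [map_mul, map_mul, map_pow (PowerSeries.rescale h) (PowerSeries.C h + PowerSeries.X),
      map_pow (PowerSeries.rescale h) (tay h Z), map_add, PowerSeries.rescale_X]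
    have e1 : PowerSeries.rescale h (PowerSeries.C (X0 ^ (s % e)) : PowerSeries ℝ) =
        PowerSeries.C (X0 ^ (s % e)) := by
      ext k
      rw [PowerSeries.coeff_rescale, PowerSeries.coeff_C]
      split_ifs with hk
      · rw [hk, pow_zero, one_mul]
      · rw [mul_zero]
    have e2 : PowerSeries.rescale h (PowerSeries.C h : PowerSeries ℝ) = PowerSeries.C h := by
      ext k
      rw [PowerSeries.coeff_rescale, PowerSeries.coeff_C]
      split_ifs with hk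
      · rw [hk, pow_zero, one_mul]
      · rw [mul_zero]
    rw [e1, e2]
    have e3 : (PowerSeries.C h + PowerSeries.C h * PowerSeries.X : PowerSeries ℝ) =
        PowerSeries.C h * (1 + PowerSeries.X) := by ring
    have e4 : X0 ^ (s % e) * h ^ s = h ^ (e * (s / e)) := by
      have e5 : s = s % e + e * (s / e) := (Nat.mod_add_div s e).symm
      calc X0 ^ (s % e) * h ^ s = X0 ^ (s % e) * h ^ (s % e + e * (s / e)) := by rw [← e5]
        _ = (h * X0) ^ (s % e) * h ^ (e * (s / e)) := by rw [pow_add, mul_pow]; ring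
        _ = h ^ (e * (s / e)) := by rw [hhX, one_pow, one_mul]
    rw [e3, mul_pow, ← e4, map_mul, ← map_pow]
    ring
  rw [h1]
  have h2 : Dn ((M : ℤ) ^ (s / e)) Δ
      (PowerSeries.C (h ^ (e * (s / e))) * (1 + PowerSeries.X) ^ s) := by
    refine dn_one_add Δ _ _ s (Or.inl ?_)
    push_cast
    rw [← hM, ← pow_mul, ← mul_pow, mul_comm X0 h, hhX, one_pow]
  refine (h2.mul (hdn.pow j)).mono ?_
  exact mul_dvd_mul (pow_dvd_pow _ (Nat.div_le_div_right (by omega))) (pow_dvd_pow _ hj.le)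

end Pool.Agent.H87.SA2
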