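import Pool.Agent.H87.SA2.ZeD

/-! # [SA2-ZERO] The zero estimate, real base -/

namespace Pool.Agent.H87.SA2

open Finset Pool.Agent.H72.ES Pool.Agent.H8.KF Pool.Agent.H87.SA

theorem dnR_iff (h : ℝ) (c Δ : ℤ) (w : PowerSeries ℝ) :
    DnR h c Δ w ↔ Dn c Δ (PowerSeries.rescale h w) := by
  unfold DnR Dn
  simp only [PowerSeries.coeff_rescale]

theorem derivative_rescale (h : ℝ) (a : PowerSeries ℝ) :
    PowerSeries.derivative ℝ (PowerSeries.rescale h a) =
      PowerSeries.C h * PowerSeries.rescale h (PowerSeries.derivative ℝ a) := by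
  ext k
  rw [PowerSeries.coeff_derivative, PowerSeries.coeff_rescale, PowerSeries.coeff_C_mul,
    PowerSeries.coeff_rescale, PowerSeries.coeff_derivative, pow_succ]
  ring

theorem derivative_iter_rescale (h : ℝ) (a : PowerSeries ℝ) (i : ℕ) :
    (⇑(PowerSeries.derivative ℝ))^[i] (PowerSeries.rescale h a) =
      PowerSeries.C (h ^ i) * PowerSeries.rescale h ((⇑(PowerSeries.derivative ℝ))^[i] a) := by
  induction i with
  | zero => simp
  | succ i ih =>
    rw [Function.iterate_succ_apply', ih, Function.iterate_succ_apply']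
    have h1 : PowerSeries.derivative ℝ (PowerSeries.C (h ^ i) *
        PowerSeries.rescale h ((⇑(PowerSeries.derivative ℝ))^[i] a)) =
        PowerSeries.C (h ^ i) * PowerSeries.derivative ℝ
          (PowerSeries.rescale h ((⇑(PowerSeries.derivative ℝ))^[i] a)) := by
      ext k
      simp only [PowerSeries.coeff_derivative, PowerSeries.coeff_C_mul]
      ring
    rw [h1, derivative_rescale, ← mul_assoc, ← map_mul, pow_succ]

theorem det_rescale (h : ℝ) {r : ℕ} (w : Fin r → PowerSeries ℝ) :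
    (Matrix.of fun (i l : Fin r) =>
      (⇑(PowerSeries.derivative ℝ))^[(i : ℕ)] (PowerSeries.rescale h (w l))).det =
    PowerSeries.C (∏ i : Fin r, h ^ (i : ℕ)) * PowerSeries.rescale h
      (Matrix.of fun (i l : Fin r) => (⇑(PowerSeries.derivative ℝ))^[(i : ℕ)] (w l)).det := by
  have h1 : (Matrix.of fun (i l : Fin r) =>
      (⇑(PowerSeries.derivative ℝ))^[(i : ℕ)] (PowerSeries.rescale h (w l))) =
      Matrix.of fun (i l : Fin r) => PowerSeries.C (h ^ (i : ℕ)) *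
        ((PowerSeries.rescale h).mapMatrix (Matrix.of fun (i l : Fin r) =>
          (⇑(PowerSeries.derivative ℝ))^[(i : ℕ)] (w l))) i l := by
    ext i l : 2
    rw [Matrix.of_apply, Matrix.of_apply, derivative_iter_rescale]
    rfl
  rw [h1, Matrix.det_mul_column, ← RingHom.map_det, map_prod]

/-- **The zero estimate.** -/
theorem zeroEstR {E : Type} [CommRing E] (ψ : E →+* ℝ) {ν : E → ℝ} (hν : SubMul ν)
    (hψ : ∀ a, |ψ a| ≤ ν a) {D : ℕ} (liou : ∀ a, a ≠ 0 → 1 ≤ |ψ a| * ν a ^ D) {M A R : ℝ}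
    (hA : 1 ≤ A) (hR : 1 ≤ R) (hM : 32 * R ≤ M) {ι : Type} [Fintype ι] (r0 : ℕ)
    (hr0 : Fintype.card ι = r0) (g : ι → PowerSeries E)
    (hg : ∀ m k, ν (PowerSeries.coeff k (g m)) ≤ A * R ^ k) {c Δ : ℤ} (hc : 1 ≤ c) (hΔ : 1 ≤ Δ)
    (hdn : ∀ m, DnR (1 / (M : ℝ)) c Δ (tay (1 / (M : ℝ)) ((g m).map ψ))) (μ : ι → ℤ)
    (hne : ∑ m, μ m • g m ≠ 0) (K : ℕ)
    (hK : PowerSeries.X ^ K ∣ tay (1 / (M : ℝ)) ((∑ m, μ m • g m).map ψ)) :
    ∃ k0 K' : ℕ, K ≤ K' + r0 ∧
      (M : ℝ) ^ K' ≤ (8 * R) ^ K' * ((r0.factorial * (2 * (r0.factorial * (2 * R) ^ r0 * A)) ^ r0) *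
        (4 * R) ^ k0) ^ (D + 1) ∧
      (M : ℝ) ^ k0 ≤ 2 * ((c : ℝ) ^ r0 * (Δ : ℝ) ^ (r0 ^ 2 + K')) * ((8 * R) ^ K' *
        ((r0.factorial * (2 * (r0.factorial * (2 * R) ^ r0 * A)) ^ r0) * (4 * R) ^ k0)) := by
  have hM0 : (0 : ℝ) < M := by linarith
  set h : ℝ := 1 / (M : ℝ) with hh
  have hh0 : 0 < h := by positivity
  have hRh : 32 * R * h ≤ 1 := by
    rw [hh, mul_one_div]
    exact (div_le_one hM0).2 hM
  have hinj : Function.Injective ψ := by
    rw [injective_iff_map_eq_zero]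
    intro a ha
    by_contra hcon
    have := liou a hcon
    rw [ha, abs_zero, zero_mul] at this
    linarith
  have hEcz : ∀ (k : ℤ) (v : PowerSeries E), k • v = 0 → k = 0 ∨ v = 0 := by
    intro k v hkv
    by_cases hk : k = 0
    · exact Or.inl hk
    right
    ext m
    have h1 := congrArg (PowerSeries.coeff m) hkv
    rw [map_zsmul, map_zero] at h1
    have h2 := congrArg ψ h1
    rw [map_zsmul, map_zero, smul_eq_zero] at h2
    rw [map_zero]
    apply hinj
    rw [map_zero]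
    exact h2.resolve_left hk
  obtain ⟨r, s, c0, cc, l0, hr, hcl0, hrel, hindep⟩ :=
    MultGAux.exists_min_rel g (∑ m, μ m • g m) hne hEcz μ rfl
  rw [hr0] at hr
  set H := ∑ m, μ m • g m with hH
  -- the series over the reals
  have hcvE : ∀ m, Cv h ((g m).map ψ) := fun m => by
    refine Geo.cv (A := A) (R := R) ?_ (by linarith) (by nlinarith)
    intro k
    rw [PowerSeries.coeff_map]
    exact (hψ _).trans (hg m k)
  set w : Fin r → PowerSeries ℝ := fun l => tay h ((g (s l)).map ψ) with hw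
  have hmapz : ∀ (m : ℤ) (a : PowerSeries E), (m • a).map ψ = m • (a.map ψ) := by
    intro m a
    ext k
    simp [PowerSeries.coeff_map]
  have hmaps : ∀ (e : Fin r → ℤ), (∑ l, e l • g (s l)).map ψ = ∑ l, e l • (g (s l)).map ψ := by
    intro e
    rw [map_sum]
    exact sum_congr rfl fun l _ => hmapz _ _
  have hgeoS : ∀ (e : Fin r → ℤ), Geo ((∑ l, |(e l : ℝ)|) * A) R ((∑ l, e l • g (s l)).map ψ) := by
    intro e k
    rw [PowerSeries.coeff_map, map_sum, map_sum]
    refine (abs_sum_le_sum_abs _ _).trans ?_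
    rw [sum_mul, sum_mul]
    refine sum_le_sum fun l _ => ?_
    rw [map_zsmul, map_zsmul, zsmul_eq_mul, abs_mul, mul_assoc]
    exact mul_le_mul_of_nonneg_left ((hψ _).trans (hg _ _)) (abs_nonneg _)
  have hindw : ∀ e : Fin r → ℤ, ∑ l, e l • w l = 0 → e = 0 := by
    intro e he
    apply hindep
    have h1 : tay h ((∑ l, e l • g (s l)).map ψ) = 0 := by
      rw [hmaps, tay_sumZ hh0.le _ _ (fun l _ => Cv.zsmul hh0.le (hcvE _) _), ← he]
      exact sum_congr rfl fun l _ => tay_zsmul hh0.le (hcvE _) _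
    have h2 := tay_inj hh0 (by linarith) (by nlinarith) (hgeoS e) h1
    ext k
    have h3 := congrArg (PowerSeries.coeff k) h2
    rw [PowerSeries.coeff_map, map_zero] at h3
    rw [map_zero]
    apply hinj
    rw [map_zero]
    exact h3
  -- the Wronskian
  set W : PowerSeries E :=
    (Matrix.of fun (i l : Fin r) => (⇑(PowerSeries.derivative E))^[(i : ℕ)] (g (s l))).det with hW
  have hWmap : W.map ψ =
      (Matrix.of fun (i l : Fin r) =>
        (⇑(PowerSeries.derivative ℝ))^[(i : ℕ)] ((g (s l)).map ψ)).det := by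
    have h1 := RingHom.map_det (PowerSeries.map ψ)
      (Matrix.of fun (i l : Fin r) => (⇑(PowerSeries.derivative E))^[(i : ℕ)] (g (s l)))
    rw [hW, h1]
    congr 1
    ext i l : 2
    rw [RingHom.mapMatrix_apply, Matrix.map_apply, Matrix.of_apply, Matrix.of_apply,
      derivative_iter_map]
  have hWt : tay h (W.map ψ) =
      (Matrix.of fun (i l : Fin r) => (⇑(PowerSeries.derivative ℝ))^[(i : ℕ)] (w l)).det := by
    rw [hWmap]
    have h1 := tay_det hh0.le (fun (i l : Fin r) =>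
        (⇑(PowerSeries.derivative ℝ))^[(i : ℕ)] ((g (s l)).map ψ))
        (fun i l => Cv.deriv_iter hh0.le (hcvE _) _)
    rw [h1]
    congr 1
    ext i l : 2
    rw [Matrix.of_apply, Matrix.of_apply, tay_deriv_iter hh0.le (hcvE _)]
  have hdn' : ∀ l : Fin r, Dn c Δ (PowerSeries.rescale h (w l)) := fun l =>
    (dnR_iff _ _ _ _).1 (hdn _)
  have hindw' : ∀ e : Fin r → ℤ, ∑ l, e l • PowerSeries.rescale h (w l) = 0 → e = 0 := by
    intro e he
    apply hindw
    have h1 : PowerSeries.rescale h (∑ l, e l • w l) = 0 := by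
      rw [map_sum, ← he]
      exact sum_congr rfl fun l _ => map_zsmul _ _ _
    ext k
    have h2 := congrArg (PowerSeries.coeff k) h1
    rw [PowerSeries.coeff_rescale, map_zero] at h2
    rw [map_zero]
    exact (mul_eq_zero.1 h2).resolve_left (pow_ne_zero _ hh0.ne')
  have hscale := det_rescale h w
  have hdetne := wronsk_ne hc hΔ (fun l => PowerSeries.rescale h (w l)) hdn' hindw'
  have hdetdn := wronsk_dn hr (fun l => PowerSeries.rescale h (w l)) hdn'
  rw [hscale, ← hWt] at hdetne hdetdn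
  have hWne : tay h (W.map ψ) ≠ 0 := by
    intro h0
    apply hdetne
    rw [h0, map_zero, mul_zero]
  have hh1 : h ≤ 1 := by nlinarith
  have hprod0 : 0 < ∏ i : Fin r, h ^ (i : ℕ) := prod_pos fun i _ => pow_pos hh0 _
  have hprod1 : ∏ i : Fin r, h ^ (i : ℕ) ≤ 1 :=
    prod_le_one (fun i _ => (pow_pos hh0 _).le) (fun i _ => pow_le_one₀ hh0.le hh1)
  have hcc0 : (1 : ℝ) ≤ ((c ^ r0 * Δ ^ (r0 ^ 2) : ℤ) : ℝ) := by
    have h1 : (1 : ℤ) ≤ c ^ r0 := one_le_pow₀ hc
    have h2 : (1 : ℤ) ≤ Δ ^ (r0 ^ 2) := one_le_pow₀ hΔ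
    exact_mod_cast one_le_mul_of_one_le_of_one_le h1 h2
  have hΔR : (1 : ℝ) ≤ Δ := by exact_mod_cast hΔ
  have hWdn : ∀ k, PowerSeries.coeff k (tay h (W.map ψ)) ≠ 0 →
      1 ≤ ((c ^ r0 * Δ ^ (r0 ^ 2) : ℤ) : ℝ) * (Δ : ℝ) ^ k *
        |PowerSeries.coeff k (tay h (W.map ψ))| := by
    intro k hk
    obtain ⟨z, hz⟩ := hdetdn k
    rw [PowerSeries.coeff_C_mul, PowerSeries.coeff_rescale] at hz
    have hpos : 0 < ((c ^ r0 * Δ ^ (r0 ^ 2) : ℤ) : ℝ) * (Δ : ℝ) ^ k := by positivity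
    have hz0 : z ≠ 0 := by
      intro h0
      rw [h0, Int.cast_zero] at hz
      exact (mul_ne_zero hpos.ne' (mul_ne_zero hprod0.ne' (mul_ne_zero (pow_pos hh0 k).ne' hk)))
        hz.symm
    have hz1 : (1 : ℝ) ≤ |(z : ℝ)| := by
      have : 1 ≤ |z| := Int.one_le_abs hz0
      exact_mod_cast this
    rw [hz, abs_mul, abs_of_pos hpos, abs_mul, abs_mul, abs_of_pos hprod0,
      abs_of_pos (pow_pos hh0 k)] at hz1
    refine hz1.trans (mul_le_mul_of_nonneg_left ?_ hpos.le)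
    calc (∏ i : Fin r, h ^ (i : ℕ)) * (h ^ k * |PowerSeries.coeff k (tay h (W.map ψ))|)
        ≤ 1 * (1 * |PowerSeries.coeff k (tay h (W.map ψ))|) := by
          have h3 : h ^ k ≤ 1 := pow_le_one₀ hh0.le hh1
          gcongr
      _ = _ := by rw [one_mul, one_mul]
  have hWdvd : (PowerSeries.X : PowerSeries ℝ) ^ (K - r) ∣ tay h (W.map ψ) := by
    rw [hWt]
    refine wronsk_dvd w (tay h (H.map ψ)) c0 cc l0 hcl0 ?_ hK
    have h1 : (c0 • H).map ψ = (∑ l, cc l • g (s l)).map ψ := by rw [hrel]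
    have hcvH : Cv h (H.map ψ) := by
      have h2 : H.map ψ = ∑ m, μ m • (g m).map ψ := by
        rw [hH, map_sum]
        exact sum_congr rfl fun l _ => hmapz _ _
      rw [h2]
      exact Cv.sum hh0.le _ _ fun m _ => Cv.zsmul hh0.le (hcvE _) _
    rw [hmapz, hmaps] at h1
    rw [← tay_zsmul hh0.le hcvH, h1,
      tay_sumZ hh0.le _ _ (fun l _ => Cv.zsmul hh0.le (hcvE _) _)]
    exact sum_congr rfl fun l _ => tay_zsmul hh0.le (hcvE _) _
  -- the size of the Wronskian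
  have hfac : (1 : ℝ) ≤ r0.factorial := by exact_mod_cast Nat.factorial_pos r0
  have hp2 : (1 : ℝ) ≤ (2 * R) ^ r0 := one_le_pow₀ (by linarith)
  have hA1 : (1 : ℝ) ≤ r0.factorial * (2 * R) ^ r0 * A :=
    one_le_mul_of_one_le_of_one_le (one_le_mul_of_one_le_of_one_le hfac hp2) hA
  have hWsize := det_le hν hA1 (show (0 : ℝ) ≤ 2 * R by linarith) hr
    (Matrix.of fun (i l : Fin r) => (⇑(PowerSeries.derivative E))^[(i : ℕ)] (g (s l)))
    (fun i l k => by
      rw [Matrix.of_apply]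
      exact deriv_iter_le hν hA hR (hg _) (by have := i.2; omega) k)
  rw [← hW] at hWsize
  have hA2 : (1 : ℝ) ≤ r0.factorial * (2 * (r0.factorial * (2 * R) ^ r0 * A)) ^ r0 :=
    one_le_mul_of_one_le_of_one_le hfac (one_le_pow₀ (by linarith))
  obtain ⟨k0, K', hK', h1, h2⟩ := two_ineqR ψ hν hψ liou hA2 (show (1 : ℝ) ≤ 2 * (2 * R) by linarith)
    (by linarith) W hWsize hcc0 hΔR hWdn hWne (K - r) hWdvd
  refine ⟨k0, K', by omega, ?_, ?_⟩
  · rw [show 8 * R = 2 * (2 * (2 * R)) by ring, show 4 * R = 2 * (2 * R) by ring]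
    exact h1
  · rw [show 8 * R = 2 * (2 * (2 * R)) by ring, show 4 * R = 2 * (2 * R) by ring]
    refine h2.trans (le_of_eq ?_)
    push_cast
    rw [pow_add (Δ : ℝ)]
    ring

end Pool.Agent.H87.SA2
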