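import Pool.Agent.H87.SA2.Van
import Pool.Agent.H87.SA2.ZeroE
import Pool.Agent.H87.SA.Core

/-! # [SA2-CORE] There is no large integer point near an anchored point at infinity,
ramified version -/

namespace Pool.Agent.H87.SA2

open Finset Polynomial Pool.Agent.H72.ES Pool.Agent.H8.KF Pool.Agent.H97.AN Pool.Agent.H87.SA

variable {n Q : ℕ} {f : ℤ[X]} {θ : ℝ}

theorem usR_sum {S : Type*} [CommRing S] {ι : Type*} (t : Finset ι) (x0 : S) (e J D : ℕ)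
    (μ : ι → ℤ) (c : ι → ℕ → ℕ → ℤ) (Z : PowerSeries S) :
    usR x0 e J D (fun s j => ∑ m ∈ t, μ m * c m s j) Z =
      ∑ m ∈ t, μ m • usR x0 e J D (c m) Z := by
  have h1 : ∀ s j, (((∑ m ∈ t, μ m * c m s j : ℤ)) : PowerSeries S) *
      (PowerSeries.C (x0 ^ (s % e)) * (PowerSeries.X ^ s * Z ^ j)) =
      ∑ m ∈ t, μ m • ((c m s j : PowerSeries S) *
        (PowerSeries.C (x0 ^ (s % e)) * (PowerSeries.X ^ s * Z ^ j))) := by
    intro s j
    push_cast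
    rw [sum_mul]
    refine sum_congr rfl fun m _ => ?_
    rw [zsmul_eq_mul]
    ring
  have h2 : ∀ s, ∑ j ∈ range D, ∑ m ∈ t, μ m • ((c m s j : PowerSeries S) *
      (PowerSeries.C (x0 ^ (s % e)) * (PowerSeries.X ^ s * Z ^ j))) =
      ∑ m ∈ t, μ m • ∑ j ∈ range D, ((c m s j : PowerSeries S) *
        (PowerSeries.C (x0 ^ (s % e)) * (PowerSeries.X ^ s * Z ^ j))) := by
    intro s
    rw [sum_comm]
    exact sum_congr rfl fun m _ => (smul_sum).symm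
  unfold usR
  simp only [h1, h2]
  rw [sum_comm]
  exact sum_congr rfl fun m _ => (smul_sum).symm

theorem core_pointR (hf : Irreducible f) (O : Ord ℝ n Q f θ) {F : ℕ → ℕ → ℤ}
    (hF : Norml n Q f F) {D Dl m κ e M : ℕ} {X0 R G : ℝ} (hm : 3 * m ≤ n * D) (hD : 1 ≤ D)
    (hDl : D ≤ Dl) (hκ : 1 ≤ κ) (he : 1 ≤ e) (hXM : X0 ^ e = (M : ℝ))
    (hR : 2 ≤ R) (hG : 1 ≤ G) (an : AnchR O D Dl m κ e M X0 R G)
    (hRM : (16 * R) ^ (10 ^ 5 * n ^ 4 * KK Dl κ) ≤ X0)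
    (x y : ℤ) (h : ev n F x y = 0) (hy : |(y : ℝ) / x - θ| ≤ 1 / bb n Q)
    (hx1 : X0 ^ (10 ^ 6 * n ^ 6 * KK Dl κ ^ 2) ≤ |(x : ℝ)|)
    (hx2 : (G * bb n Q) ^ (10 ^ 6 * n ^ 3 * KK Dl κ) ≤ |(x : ℝ)|) : False := by
  have hn := hF.hn
  have hQ := hF.hQ
  have hB1 := one_le_bb hn hQ
  have hR1 : (1 : ℝ) ≤ R := by linarith
  have h16 : (1 : ℝ) ≤ 16 * R := by linarith
  have hDl1 : 1 ≤ Dl := hD.trans hDl
  have hKD : Dl + 1 ≤ KK Dl κ := by unfold KK; nlinarith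
  have hKK : 1 ≤ KK Dl κ := by omega
  have hn4 : 1 ≤ n ^ 4 := Nat.one_le_pow _ _ (by omega)
  have hn3 : 1 ≤ n ^ 3 := Nat.one_le_pow _ _ (by omega)
  have hn6 : 1 ≤ n ^ 6 := Nat.one_le_pow _ _ (by omega)
  have hW1 : 2 ≤ 10 ^ 5 * n ^ 4 * KK Dl κ := by
    have : 1 ≤ n ^ 4 * KK Dl κ := Nat.mul_pos hn4 hKK
    nlinarith
  have hMR : 64 * R ≤ X0 := by
    refine le_trans ?_ hRM
    calc 64 * R ≤ (16 * R) ^ 2 := by nlinarith
      _ ≤ _ := pow_le_pow_right₀ h16 hW1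
  have hM1 : (1 : ℝ) < X0 := by linarith
  have hM0 : (0 : ℝ) < X0 := by linarith
  have hMr : (1 : ℝ) ≤ M := by
    rw [← hXM]
    exact one_le_pow₀ hM1.le
  have hMN : 1 ≤ M := by exact_mod_cast hMr
  set B := bb n Q with hBd
  have hB0 : 0 < B := by linarith
  -- choice of la
  have hX1 : (1 : ℝ) ≤ |(x : ℝ)| := (one_le_pow₀ hM1.le).trans hx1
  obtain ⟨la, hla1, hla2⟩ := exists_nat_pow_near (x := |(x : ℝ)|) hX1 hM1
  have hla : 10 ^ 6 * n ^ 6 * KK Dl κ ^ 2 ≤ la := by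
    by_contra hc
    have : X0 ^ (la + 1) ≤ X0 ^ (10 ^ 6 * n ^ 6 * KK Dl κ ^ 2) :=
      pow_le_pow_right₀ hM1.le (by omega)
    linarith
  have hla8 : 8 * n ≤ la := by
    have h6 : n ≤ n ^ 6 := Nat.le_self_pow (by norm_num) n
    have h7 : 1 ≤ KK Dl κ ^ 2 := Nat.one_le_pow _ _ hKK
    calc 8 * n ≤ 10 ^ 6 * n ^ 6 := by omega
      _ = 10 ^ 6 * n ^ 6 * 1 := (mul_one _).symm
      _ ≤ 10 ^ 6 * n ^ 6 * KK Dl κ ^ 2 := Nat.mul_le_mul_left _ h7
      _ ≤ la := hla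
  have hlaD : Dl ≤ la := by
    have h7 : KK Dl κ ≤ KK Dl κ ^ 2 := Nat.le_self_pow (by norm_num) _
    calc Dl ≤ KK Dl κ ^ 2 := by omega
      _ = 1 * KK Dl κ ^ 2 := (one_mul _).symm
      _ ≤ 10 ^ 6 * n ^ 6 * KK Dl κ ^ 2 := Nat.mul_le_mul_right _ (by omega)
      _ ≤ la := hla
  have hGB : (G * B) ^ (10 ^ 6 * n ^ 3 * KK Dl κ) ≤ X0 ^ (la + 1) := hx2.trans hla2.le
  -- the auxiliary polynomial
  obtain ⟨br⟩ := exists_branch O hF
  obtain ⟨A, hA0, hAs, hAb, hAv⟩ := siegR O hF br hm hDl he hM1.le hR hG an la hla8 hlaD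
  set ZB := ZSR n Dl κ X0 R G B la with hZB
  have hZ1 : 1 ≤ ZB := by
    unfold ZB ZSR
    refine one_le_pow₀ ?_
    refine one_le_mul_of_one_le_of_one_le ?_ (one_le_pow₀ hR1)
    refine one_le_mul_of_one_le_of_one_le ?_ (one_le_pow₀ hB1)
    exact one_le_mul_of_one_le_of_one_le hG (one_le_pow₀ hM1.le)
  -- sizes at the point
  have hGB1 : 1 ≤ G * B := one_le_mul_of_one_le_of_one_le hG hB1
  have hxB5 : B ^ 5 ≤ |(x : ℝ)| := by
    calc B ^ 5 ≤ (G * B) ^ 5 := pow_le_pow_left₀ hB0.le (by nlinarith) 5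
      _ ≤ (G * B) ^ (10 ^ 6 * n ^ 3 * KK Dl κ) := by
          refine pow_le_pow_right₀ hGB1 ?_
          have : 1 ≤ n ^ 3 * KK Dl κ := Nat.mul_pos hn3 hKK
          nlinarith
      _ ≤ _ := hx2
  have hxne : x ≠ 0 := by
    rintro rfl
    simp only [Int.cast_zero, abs_zero] at hX1
    linarith
  obtain ⟨hκ0, -⟩ := evy_bounds O hF x y hxB5 hy
  -- vanishing
  set K := la / (8 * (κ + 1)) + 1 with hKdef
  have hK8 : la < 8 * (κ + 1) * K := by
    rw [hKdef, mul_add, mul_one]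
    have h1 := Nat.div_add_mod la (8 * (κ + 1))
    have h2 := Nat.mod_lt la (show 0 < 8 * (κ + 1) by positivity)
    omega
  have hvan : ∀ i < K, PowerSeries.coeff i (tay (1 / X0)
      ((usR an.x0 e (3 * n * la) D (spec n A x y) an.Z).map an.ψ)) = 0 := by
    intro i hi
    refine vanR O hF br hD hDl hκ he hXM hR hG an la hRM hla hGB A hAs hAb hAv x y h hy hxB5
      hla1 hla2.le i ?_
    calc 8 * (κ + 1) * i ≤ 8 * (κ + 1) * (la / (8 * (κ + 1))) := Nat.mul_le_mul_left _ (by omega)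
      _ ≤ la := Nat.mul_div_le _ _
  -- the series is not zero
  have hspec : spec n A x y = fun s j => ∑ m : Fin (3 * n + 1) × Fin n,
      (x ^ (m.1 : ℕ) * y ^ (m.2 : ℕ)) * A s j m.1 m.2 := by
    funext s j
    exact spec_eqA A (fun s j p q hh => (hAs s j p q hh).2) x y s j
  obtain ⟨s0, j0, p0, q0, hm0⟩ := hA0
  have hne : usR an.x0 e (3 * n * la) D (spec n A x y) an.Z ≠ 0 := by
    have hji := (hAs s0 j0 p0 q0 hm0).1
    intro h0
    refine absurd (an.indep (3 * n * la) (spec n A x y) h0 s0 hji.1 j0 hji.2) ?_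
    refine nz hF hf x y hxne h hκ0 (3 * n) (A s0 j0) (fun p q hh => (hAs s0 j0 p q hh).2)
      ⟨p0, q0, hm0⟩ ZB (hAb s0 j0) ?_
    have e4 : (((3 * n : ℕ) : ℝ) + 1) * (Q : ℝ) ^ (3 * n + 2) ≤ B := by
      have e2 := n_leR hn hQ
      have e3 := sixteen_leR hn hQ
      have e1 : (((3 * n : ℕ) : ℝ) + 1) ≤ (Q : ℝ) ^ 2 := by
        push_cast
        nlinarith
      calc (((3 * n : ℕ) : ℝ) + 1) * (Q : ℝ) ^ (3 * n + 2) ≤
            (Q : ℝ) ^ 2 * (Q : ℝ) ^ (3 * n + 2) := by gcongr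
        _ = (Q : ℝ) ^ (3 * n + 4) := by rw [← pow_add]; congr 1; ring
        _ ≤ B := Qpow_le_bb hn hQ (by nlinarith)
    have e5 : ((((3 * n : ℕ) : ℝ) + 1) * (Q : ℝ) ^ (3 * n + 2) * ZB) ^ n ≤ (B * ZB) ^ n :=
      pow_le_pow_left₀ (by positivity) (by gcongr) n
    exact lt_of_le_of_lt e5 (lt_of_lt_of_le (num_nz hn hDl1 hκ hR hG hB1 hRM hla hGB) hla1)
  -- the zero estimate
  rw [hspec, usR_sum] at hne
  have hvan' := hvan
  rw [hspec, usR_sum] at hvan'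
  set r0 := (3 * n + 1) * n with hr0
  have hr04 : r0 ≤ 4 * n ^ 2 := by rw [hr0]; nlinarith
  set A1 : ℝ := (3 * n * la + 1) * Dl * 2 ^ Dl * X0 ^ (κ * Dl) * ZB with hA1
  have hDR : (1 : ℝ) ≤ D := by exact_mod_cast hD
  have hDlR : (1 : ℝ) ≤ Dl := by exact_mod_cast hDl1
  have hDDl : (D : ℝ) ≤ Dl := by exact_mod_cast hDl
  have hA11 : 1 ≤ A1 := by
    rw [hA1]
    refine one_le_mul_of_one_le_of_one_le ?_ hZ1
    refine one_le_mul_of_one_le_of_one_le ?_ (one_le_pow₀ hM1.le)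
    refine one_le_mul_of_one_le_of_one_le ?_ (one_le_pow₀ (by norm_num))
    refine one_le_mul_of_one_le_of_one_le ?_ hDlR
    have : (0 : ℝ) ≤ 3 * n * la := by positivity
    linarith
  have hcv : Cv (1 / X0) (an.Z.map an.ψ) := an.cv (by linarith) (by linarith)
  obtain ⟨k0, K', hKK', h1, h2⟩ := zeroEstR an.ψ an.sub an.ψ_le an.liou (M := X0) (A := A1)
    (R := 2 * R) hA11 (by linarith) (by linarith) (ι := Fin (3 * n + 1) × Fin n) r0
    (by rw [Fintype.card_prod, Fintype.card_fin, Fintype.card_fin])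
    (fun m => usR an.x0 e (3 * n * la) D (fun s j => A s j m.1 m.2) an.Z)
    (fun m k => by
      rw [coeff_usR]
      refine (SubMul_sum an.sub _ _).trans ?_
      have e1 : ∀ s ∈ range (3 * n * la + 1), an.ν (∑ j ∈ range D,
          ((A s j m.1 m.2 : ℤ) : an.E) * zcR an.x0 e an.Z k s j) ≤
          Dl * (ZB * ((X0 ^ (κ * Dl) * 2 ^ Dl) * (2 * R) ^ k)) := by
        intro s _
        refine (SubMul_sum an.sub _ _).trans ?_
        have e2 : ∀ j ∈ range D, an.ν (((A s j m.1 m.2 : ℤ) : an.E) * zcR an.x0 e an.Z k s j) ≤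
            ZB * ((X0 ^ (κ * Dl) * 2 ^ Dl) * (2 * R) ^ k) := by
          intro j hj
          have e3 := zcR_le an.sub (A := X0 ^ κ) (R := R) (one_le_pow₀ hM1.le) hR1 he an.ν_x0
            an.Z_le hDl k s j (mem_range.1 hj)
          rw [← pow_mul] at e3
          exact (an.sub.mul _ _).trans (mul_le_mul ((SubMul_int an.sub _).trans (hAb _ _ _ _)) e3
            (an.sub.nonneg _) (by linarith))
        refine (sum_le_sum e2).trans ?_
        rw [sum_const, card_range, nsmul_eq_mul]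
        exact mul_le_mul_of_nonneg_right hDDl (by positivity)
      refine (sum_le_sum e1).trans ?_
      rw [sum_const, card_range, nsmul_eq_mul]
      refine le_of_eq ?_
      rw [hA1]
      push_cast
      ring)
    (c := (M : ℤ) ^ (3 * n * la / e) * an.ce ^ D) (Δ := an.Δ)
    (by
      have e1 : (1 : ℤ) ≤ (M : ℤ) ^ (3 * n * la / e) := one_le_pow₀ (by exact_mod_cast hMN)
      have e2 : (1 : ℤ) ≤ an.ce ^ D := one_le_pow₀ an.ce_pos
      exact one_le_mul_of_one_le_of_one_le e1 e2) an.Δ_pos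
    (fun m => by
      rw [usR_map, an.ψ_x0]
      exact dnr_usR hM0 he hXM (3 * n * la) D (fun s j => A s j m.1 m.2) hcv an.dn)
    (fun m => x ^ (m.1 : ℕ) * y ^ (m.2 : ℕ)) hne K
    (by
      rw [PowerSeries.X_pow_dvd_iff]
      exact hvan')
  have heR : (1 : ℝ) ≤ an.ce := by exact_mod_cast an.ce_pos
  have hΔR : (1 : ℝ) ≤ an.Δ := by exact_mod_cast an.Δ_pos
  rw [show 2 * (2 * R) = 4 * R by ring, show 8 * (2 * R) = 16 * R by ring,
    show 4 * (2 * R) = 8 * R by ring] at h1 h2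
  set A2 : ℝ := r0.factorial * (2 * (r0.factorial * (4 * R) ^ r0 * A1)) ^ r0 with hA2
  have hA21 : 1 ≤ A2 := by
    have hfac : (1 : ℝ) ≤ r0.factorial := by exact_mod_cast Nat.factorial_pos r0
    have hp2 : (1 : ℝ) ≤ (4 * R) ^ r0 := one_le_pow₀ (by linarith)
    have hA1' : (1 : ℝ) ≤ r0.factorial * (4 * R) ^ r0 * A1 :=
      one_le_mul_of_one_le_of_one_le (one_le_mul_of_one_le_of_one_le hfac hp2) hA11
    exact one_le_mul_of_one_le_of_one_le hfac (one_le_pow₀ (by linarith))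
  refine num_end (r0 := r0) (k0 := k0) (K := K) (K' := K') hn hDl1 hκ hR hA21 hRM hla hr04
    (num_A2 hn hDl1 hκ hR hG hB1 hRM hla hGB hr04) hK8 hKK' h1 (h2.trans ?_)
  have hMJ : (M : ℝ) ^ (3 * n * la / e) ≤ X0 ^ (3 * n * la) := by
    rw [← hXM, ← pow_mul]
    exact pow_le_pow_right₀ hM1.le (Nat.mul_div_le _ _)
  have e1 : ((((M : ℤ) ^ (3 * n * la / e) * an.ce ^ D : ℤ) : ℝ)) ^ r0 *
      (an.Δ : ℝ) ^ (r0 ^ 2 + K') ≤
      X0 ^ ((3 * n * la + κ * Dl) * r0 + κ * (r0 ^ 2 + K')) := by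
    have e2 : (an.ce : ℝ) ^ D ≤ (X0 ^ κ) ^ Dl :=
      (pow_le_pow_left₀ (by linarith) an.ce_le D).trans
        (pow_le_pow_right₀ (one_le_pow₀ hM1.le) hDl)
    have e3 : (an.Δ : ℝ) ^ (r0 ^ 2 + K') ≤ (X0 ^ κ) ^ (r0 ^ 2 + K') :=
      pow_le_pow_left₀ (by linarith) an.Δ_le _
    have e4 : X0 ^ ((3 * n * la + κ * Dl) * r0 + κ * (r0 ^ 2 + K')) =
        (X0 ^ (3 * n * la) * (X0 ^ κ) ^ Dl) ^ r0 * (X0 ^ κ) ^ (r0 ^ 2 + K') := by
      rw [pow_add, pow_mul, pow_add, pow_mul X0 κ Dl, pow_mul X0 κ (r0 ^ 2 + K')]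
    rw [e4]
    push_cast
    gcongr
  have hA20 : 0 ≤ A2 := by linarith
  gcongr

end Pool.Agent.H87.SA2
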