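import Pool.Agent.H87.SA2.Defs

/-! # [SA2-TAYW] Weighted bound for the Taylor coefficients at `1/M`, `M` real -/

namespace Pool.Agent.H87.SA2

open Finset Pool.Agent.H72.ES Pool.Agent.H87.SA

theorem tay_coeff_leR {T : ℕ} {M Y r : ℝ} (hr : 1 ≤ r) (hM : 4 * r ≤ M) (hY : 0 ≤ Y)
    (a : PowerSeries ℝ) (ha : ∀ k, |PowerSeries.coeff k a| * (M : ℝ) ^ (T - k) ≤ Y * r ^ k)
    (i : ℕ) (hi : i ≤ T) :
    |PowerSeries.coeff i (tay (1 / (M : ℝ)) a)| * (M : ℝ) ^ T ≤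
      4 * Y * (2 * r) ^ T * (M : ℝ) ^ i := by
  have hM0 : (0 : ℝ) < M := by linarith
  have hMT : (0 : ℝ) < (M : ℝ) ^ T := pow_pos hM0 T
  have h2r : (0 : ℝ) < 2 * r := by linarith
  have hterm : ∀ m : ℕ, ‖((i + m).choose i : ℝ) * PowerSeries.coeff (i + m) a *
      (1 / (M : ℝ)) ^ m‖ ≤
      (Y * (2 * r) ^ T * (M : ℝ) ^ i / (M : ℝ) ^ T) *
        (1 / 2) ^ ((T - i - m) + (m - (T - i))) := by
    intro m
    rw [norm_mul, norm_mul, norm_pow, Real.norm_of_nonneg (Nat.cast_nonneg _),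
      Real.norm_of_nonneg (by positivity : (0 : ℝ) ≤ 1 / (M : ℝ)), Real.norm_eq_abs]
    have hch : ((i + m).choose i : ℝ) ≤ 2 ^ (i + m) := by
      exact_mod_cast Nat.choose_le_two_pow (i + m) i
    have h1 : ((i + m).choose i : ℝ) * |PowerSeries.coeff (i + m) a| * (1 / (M : ℝ)) ^ m ≤
        2 ^ (i + m) * |PowerSeries.coeff (i + m) a| * (1 / (M : ℝ)) ^ m := by
      gcongr
    refine h1.trans ?_
    have h2 := ha (i + m)
    rw [div_mul_eq_mul_div, le_div_iff₀ hMT]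
    rcases le_total (i + m) T with hk | hk
    · -- small index
      have e1 : (M : ℝ) ^ T = (M : ℝ) ^ (T - (i + m)) * (M : ℝ) ^ i * (M : ℝ) ^ m := by
        rw [← pow_add, ← pow_add]; congr 1; omega
      have e2 : T - i - m + (m - (T - i)) = T - (i + m) := by omega
      have e3 : (2 * r) ^ T = (2 * r) ^ (T - (i + m)) * (2 * r) ^ (i + m) := by
        rw [← pow_add]; congr 1; omega
      have e4 : (1 : ℝ) ≤ (2 * r) ^ (T - (i + m)) * (1 / 2) ^ (T - (i + m)) := by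
        rw [← mul_pow]
        exact one_le_pow₀ (by linarith)
      rw [e2]
      calc 2 ^ (i + m) * |PowerSeries.coeff (i + m) a| * (1 / (M : ℝ)) ^ m * (M : ℝ) ^ T
          = 2 ^ (i + m) * (|PowerSeries.coeff (i + m) a| * (M : ℝ) ^ (T - (i + m))) *
              (M : ℝ) ^ i * ((1 / (M : ℝ)) ^ m * (M : ℝ) ^ m) := by rw [e1]; ring
        _ = 2 ^ (i + m) * (|PowerSeries.coeff (i + m) a| * (M : ℝ) ^ (T - (i + m))) *
              (M : ℝ) ^ i := by
            rw [← mul_pow, one_div_mul_cancel hM0.ne', one_pow, mul_one]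
        _ ≤ 2 ^ (i + m) * (Y * r ^ (i + m)) * (M : ℝ) ^ i := by gcongr
        _ = Y * (2 * r) ^ (i + m) * (M : ℝ) ^ i * 1 := by rw [mul_pow]; ring
        _ ≤ Y * (2 * r) ^ (i + m) * (M : ℝ) ^ i *
              ((2 * r) ^ (T - (i + m)) * (1 / 2) ^ (T - (i + m))) := by gcongr
        _ = Y * (2 * r) ^ T * (M : ℝ) ^ i * (1 / 2) ^ (T - (i + m)) := by rw [e3]; ring
    · -- large index
      have e2 : T - i - m + (m - (T - i)) = i + m - T := by omega
      have e0 : T - (i + m) = 0 := by omega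
      rw [e0, pow_zero, mul_one] at h2
      have e3 : (2 * r) ^ (i + m) = (2 * r) ^ T * (2 * r) ^ (i + m - T) := by
        rw [← pow_add]; congr 1; omega
      have e1 : (M : ℝ) ^ T * (M : ℝ) ^ (i + m - T) = (M : ℝ) ^ i * (M : ℝ) ^ m := by
        rw [← pow_add, ← pow_add]; congr 1; omega
      have e5 : (1 / (M : ℝ)) ^ m * (M : ℝ) ^ T = (M : ℝ) ^ i * (1 / (M : ℝ)) ^ (i + m - T) := by
        rw [one_div, inv_pow, inv_pow, inv_mul_eq_div, ← div_eq_mul_inv,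
          div_eq_div_iff (pow_pos hM0 _).ne' (pow_pos hM0 _).ne', e1]
      have e4 : (2 * r) ^ (i + m - T) * (1 / (M : ℝ)) ^ (i + m - T) ≤ (1 / 2) ^ (i + m - T) := by
        rw [← mul_pow]
        apply pow_le_pow_left₀ (by positivity)
        rw [mul_one_div, div_le_iff₀ hM0]
        linarith
      rw [e2]
      calc 2 ^ (i + m) * |PowerSeries.coeff (i + m) a| * (1 / (M : ℝ)) ^ m * (M : ℝ) ^ T
          = 2 ^ (i + m) * |PowerSeries.coeff (i + m) a| * ((1 / (M : ℝ)) ^ m * (M : ℝ) ^ T) := by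
            ring
        _ ≤ 2 ^ (i + m) * (Y * r ^ (i + m)) * ((1 / (M : ℝ)) ^ m * (M : ℝ) ^ T) := by gcongr
        _ = Y * (2 * r) ^ (i + m) * ((1 / (M : ℝ)) ^ m * (M : ℝ) ^ T) := by rw [mul_pow]; ring
        _ = Y * (2 * r) ^ T * (M : ℝ) ^ i *
              ((2 * r) ^ (i + m - T) * (1 / (M : ℝ)) ^ (i + m - T)) := by rw [e5, e3]; ring
        _ ≤ Y * (2 * r) ^ T * (M : ℝ) ^ i * (1 / 2) ^ (i + m - T) := by gcongr
  have hs := (tayW_summable (T - i)).mul_left (Y * (2 * r) ^ T * (M : ℝ) ^ i / (M : ℝ) ^ T)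
  have h3 := tsum_of_norm_bounded hs.hasSum hterm
  rw [tsum_mul_left, Real.norm_eq_abs] at h3
  have h4 : |PowerSeries.coeff i (tay (1 / (M : ℝ)) a)| ≤
      Y * (2 * r) ^ T * (M : ℝ) ^ i / (M : ℝ) ^ T * 4 := by
    unfold tay
    rw [PowerSeries.coeff_mk]
    refine h3.trans (mul_le_mul_of_nonneg_left (tayW_tsum (T - i)) (by positivity))
  calc |PowerSeries.coeff i (tay (1 / (M : ℝ)) a)| * (M : ℝ) ^ T
      ≤ Y * (2 * r) ^ T * (M : ℝ) ^ i / (M : ℝ) ^ T * 4 * (M : ℝ) ^ T :=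
        mul_le_mul_of_nonneg_right h4 hMT.le
    _ = 4 * Y * (2 * r) ^ T * (M : ℝ) ^ i := by field_simp

end Pool.Agent.H87.SA2
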