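import Pool.Agent.H87.SA2.Defs
import Pool.Agent.H87.SA2.NPD
import Pool.Agent.H97.GA.Defs
import Mathlib.FieldTheory.AlgebraicClosure

/-!
# MP_821da1_nt: the anchor of a ramified one-parameter family -- definitions

`f ∈ ℤ[t][X]` monic of degree `d` in `X`, of degree `≤ m` in `t`, Puiseux data `pd` (`t = (q T)^e`).
`X0 ^ e = q^e N`; the rational point is `T = 1/X0`, `t = 1/N`.
`yR i = N^m x_i(1/X0)`: the roots of `gN = N^(m d) f(1/N, X/N^m)`.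
`WR i = N^m x_i((1+w)/X0)`: the roots of `N^(m d) f((1+w)^e/N, X/N^m)`.
-/

namespace Pool.Agent.H87.SA2

open Finset Polynomial Pool.Agent.H87.SA Pool.Agent.H97.GA

/-- the coefficients of `f` -/
noncomputable def af (f : ℤ[X][X]) (i j : ℕ) : ℤ := (f.coeff j).coeff i

/-- the coefficient of `w^(l+1)` in `N^(m d) f((1 + w)^e / N, X / N^m)` -/
noncomputable def hNe (d m e : ℕ) (a : ℕ → ℕ → ℤ) (N l : ℕ) : ℤ[X] :=
  ∑ j ∈ range d, C (∑ i ∈ range (m + 1), a i j * (N : ℤ) ^ (m * (d - j) - i) *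
    ((e * i).choose (l + 1) : ℤ)) * X ^ j

/-- the hypotheses on `f`, `N`, `X0` -/
structure RHyp (f : ℤ[X][X]) (d m : ℕ) (pd : PData f d) (N : ℕ) (X0 : ℝ) : Prop where
  monic : f.Monic
  deg : f.natDegree = d
  d1 : 1 ≤ d
  mdeg : ∀ j, (f.coeff j).natDegree ≤ m
  N1 : 1 ≤ N
  X1 : 1 ≤ X0
  pow : X0 ^ pd.e = ((pd.q ^ pd.e * N : ℕ) : ℝ)
  big : 4 * pd.R ≤ X0
  sep : ((gN d m (af f) N).map (Int.castRingHom ℂ)).Separable

variable {f : ℤ[X][X]} {d : ℕ}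

/-- the roots of `gN` -/
noncomputable def yR (pd : PData f d) (m N : ℕ) (X0 : ℝ) (i : Fin d) : ℂ :=
  (N : ℂ) ^ m * evC (1 / X0) (pd.x i)

/-- the Taylor expansions at the rational point, rescaled -/
noncomputable def WR (pd : PData f d) (m N : ℕ) (X0 : ℝ) (i : Fin d) : PowerSeries ℂ :=
  PowerSeries.C ((N : ℂ) ^ m) *
    PowerSeries.rescale (((1 / X0 : ℝ)) : ℂ) (tayC (1 / X0) (pd.x i))

/-- the coefficients of the expansions at `0` in the variable `u = X0 T` -/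
noncomputable def xu (pd : PData f d) (X0 : ℝ) (i : Fin d) (k : ℕ) : ℂ :=
  (((1 / X0 : ℝ)) : ℂ) ^ k * PowerSeries.coeff k (pd.x i)

/-- `f` with coefficients in `ℚ⟦t⟧` -/
noncomputable def fQ (f : ℤ[X][X]) : (PowerSeries ℚ)[X] :=
  f.map (eval₂RingHom (Int.castRingHom (PowerSeries ℚ)) PowerSeries.X)

/-- `g ∈ ℚ⟦t⟧[X]` has a root in `ℝ⟦t^(1/e)⟧` for some `e ≥ 1` -/
def RealRoot (g : (PowerSeries ℚ)[X]) : Prop :=
  ∃ (e : ℕ) (he : e ≠ 0) (ξ : PowerSeries ℝ),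
    (g.map ((exr ℝ e he).comp (PowerSeries.map (algebraMap ℚ ℝ)))).eval ξ = 0

end Pool.Agent.H87.SA2
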