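import Pool.Agent.H87.SA2.NPD
import Mathlib.Algebra.Polynomial.Taylor

/-! # [SA2-NPB] The slope step of the Newton-Puiseux theorem

`K` a field of characteristic `0`, `P` monic of degree `d ≥ 2` over `K⟦T⟧`, not a `d`-th power of a
linear polynomial. Then after `T ↦ T^e` (`1 ≤ e ≤ d`), translation by `b` and scaling by `T^ρ`
(`ρ ≥ 0`) its reduction modulo `T` is not a `d`-th power of a linear polynomial.

Proof. If the reduction of `P` is not a `d`-th power take `e = 1`, `b = 0`, `ρ = 0`, `P' = P`.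
In general put `b = - coeff (d-1) P / d` (`d` is invertible in `K⟦T⟧`) and
`P1 = P.comp (X + C b) = X^d + ∑_{i ≤ d - 2} a_i X^i` (the coefficient of `X^(d-1)` is `0`:
`P1 = taylor b P`, `taylor_coeff`; or by hand: `coeff (d-1) = coeff (d-1) P + d b`).
Not all `a_i` are `0` since `P ≠ (X - C c) ^ d`. Choose `i0 ≤ d - 2` with `a_{i0} ≠ 0` for which
`ord(a_i) / (d - i)` is minimal, i.e. `ord(a_{i0}) (d - i) ≤ ord(a_i) (d - i0)` for all `i` with
`a_i ≠ 0` (`Finset.exists_min_image` with a rational value). Put `e = d - i0`,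
`ρ = ord(a_{i0})`. Then
`ord (expand e a_i) = e ord(a_i) ≥ ρ (d - i)`, so `expand e a_i = T^(ρ (d - i)) a'_i`, and `a'_{i0}`
has nonzero constant coefficient (`e ord(a_{i0}) = ρ (d - i0)`). Put
`P' = X^d + ∑_{i ≤ d - 2} a'_i X^i`. Then
`(P1.map (expand e)).comp (C (T^ρ) * X) = C (T^(ρ d)) * P'`, and
`(P.map (expand e)).comp (C (T^ρ) * X + C (expand e b)) = C (T^(ρ d)) * P'`.
The reduction of `P'` is `X^d + ∑ α_i X^i` with `α_{d-1} = 0`, `α_{i0} ≠ 0`; if it were
`(X - c)^d` then `- d c = 0`, `c = 0`, so `α_{i0} = 0`: contradiction. -/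

namespace Pool.Agent.H87.SA2

open Polynomial

theorem npb_coeff {R : Type} [CommRing R] (d : ℕ) (f : ℕ → R) (m : ℕ) :
    (∑ i ∈ Finset.range d, C (f i) * X ^ i : R[X]).coeff m = if m < d then f m else 0 := by
  rw [Polynomial.finsetSum_coeff]
  simp only [Polynomial.coeff_C_mul_X_pow]
  rw [Finset.sum_ite_eq (Finset.range d) m f]
  simp only [Finset.mem_range]

theorem npb_deg {R : Type} [CommRing R] (d : ℕ) (f : ℕ → R) :
    (∑ i ∈ Finset.range d, C (f i) * X ^ i : R[X]).degree < d := by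
  rw [Polynomial.degree_lt_iff_coeff_zero]
  intro m hm
  rw [npb_coeff, if_neg (by omega)]

theorem npb_monic {R : Type} [CommRing R] [Nontrivial R] (d : ℕ) (f : ℕ → R) :
    (X ^ d + ∑ i ∈ Finset.range d, C (f i) * X ^ i : R[X]).Monic ∧
      (X ^ d + ∑ i ∈ Finset.range d, C (f i) * X ^ i : R[X]).natDegree = d := by
  refine ⟨monic_X_pow_add (npb_deg d f), ?_⟩
  have h1 : (∑ i ∈ Finset.range d, C (f i) * X ^ i : R[X]).degree < (X ^ d : R[X]).degree := by
    rw [Polynomial.degree_X_pow]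
    exact npb_deg d f
  rw [Polynomial.natDegree, Polynomial.degree_add_eq_left_of_degree_lt h1,
    Polynomial.degree_X_pow]
  rfl

/-- the coefficient `d - 1` of a translate -/
theorem npb_tsch {R : Type} [CommRing R] [Nontrivial R] (P : R[X]) (hP : P.Monic)
    (hd : 1 ≤ P.natDegree) (b : R) :
    (P.comp (X + C b)).coeff (P.natDegree - 1) =
      P.coeff (P.natDegree - 1) + P.natDegree * b := by
  obtain ⟨n, hn⟩ : ∃ n, P.natDegree = n + 1 := ⟨P.natDegree - 1, by omega⟩
  have h1 : P.comp (X + C b) = ∑ i ∈ Finset.range (P.natDegree + 1),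
      C (P.coeff i) * (X + C b) ^ i := by
    rw [Polynomial.comp, Polynomial.eval₂_eq_sum_range]
  rw [h1, Polynomial.finsetSum_coeff]
  simp only [Polynomial.coeff_C_mul, Polynomial.coeff_X_add_C_pow]
  rw [hn, Nat.add_sub_cancel, Finset.sum_range_succ, Finset.sum_range_succ]
  rw [Finset.sum_eq_zero]
  · have h2 : P.coeff (n + 1) = 1 := by rw [← hn]; exact hP.coeff_natDegree
    rw [h2, Nat.choose_self, Nat.choose_succ_self_right]
    simp
    ring
  · intro i hi
    rw [Finset.mem_range] at hi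
    rw [Nat.choose_eq_zero_of_lt hi]
    simp

/-- order and unit part -/
theorem npb_ord {K : Type} [Field K] (a : PowerSeries K) (ha : a ≠ 0) :
    ∃ (n : ℕ) (u : PowerSeries K), a = PowerSeries.X ^ n * u ∧ PowerSeries.constantCoeff u ≠ 0 := by
  obtain ⟨n, u, hu⟩ : ∃ (n : ℕ) (u : PowerSeries K), a = PowerSeries.X ^ n * u ∧
      ¬ PowerSeries.X ∣ u := by
    have hX : (PowerSeries.X : PowerSeries K) ≠ 0 := PowerSeries.X_ne_zero
    have hfin : FiniteMultiplicity (PowerSeries.X : PowerSeries K) a := by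
      refine FiniteMultiplicity.of_prime_left PowerSeries.X_prime ha
    obtain ⟨u, hu, hnu⟩ := hfin.exists_eq_pow_mul_and_not_dvd
    exact ⟨_, u, hu, hnu⟩
  exact ⟨n, u, hu.1, fun h => hu.2 (PowerSeries.X_dvd_iff.2 h)⟩

theorem exr_const {K : Type} [Field K] (e : ℕ) (he : e ≠ 0) (a : PowerSeries K) :
    PowerSeries.constantCoeff (exr K e he a) = PowerSeries.constantCoeff a := by
  rw [← PowerSeries.coeff_zero_eq_constantCoeff_apply, coeff_exr, if_pos (dvd_zero e),
    Nat.zero_div, PowerSeries.coeff_zero_eq_constantCoeff_apply]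

theorem slope_step {K : Type} [Field K] [CharZero K] (P : (PowerSeries K)[X]) (hP : P.Monic)
    (hd : 2 ≤ P.natDegree) (hne : ∀ c, P ≠ (X - C c) ^ P.natDegree) :
    ∃ (e : ℕ) (he : e ≠ 0) (ρ : ℕ) (b : PowerSeries K) (P' : (PowerSeries K)[X]),
      e ≤ P.natDegree ∧ P'.Monic ∧ P'.natDegree = P.natDegree ∧
      (P.map (exr K e he)).comp
        (C (PowerSeries.X ^ ρ) * X + C b) = C (PowerSeries.X ^ (ρ * P.natDegree)) * P' ∧
      ∀ c : K, P'.map PowerSeries.constantCoeff ≠ (X - C c) ^ P.natDegree := by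
  classical
  obtain ⟨d, hdd⟩ : ∃ d, P.natDegree = d := ⟨_, rfl⟩
  rw [hdd] at hd hne ⊢
  have hdK : (d : K) ≠ 0 := by exact_mod_cast (by omega : d ≠ 0)
  -- the translation
  set b0 : PowerSeries K := PowerSeries.C (-(d : K)⁻¹) * P.coeff (d - 1) with hb0
  set P1 := P.comp (X + C b0) with hP1
  have hP1m : P1.Monic := hP.comp_X_add_C b0
  have hP1d : P1.natDegree = d := by
    rw [hP1, Polynomial.natDegree_comp, Polynomial.natDegree_X_add_C, mul_one, hdd]
  have hc : P1.coeff (d - 1) = 0 := by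
    have h1 := npb_tsch P hP (by omega) b0
    rw [hdd] at h1
    rw [hP1, h1, hb0]
    have h2 : ((d : ℕ) : PowerSeries K) = PowerSeries.C (d : K) := by
      rw [map_natCast]
    rw [h2, ← mul_assoc, ← map_mul]
    have h3 : (d : K) * -(d : K)⁻¹ = -1 := by
      rw [mul_neg, mul_inv_cancel₀ hdK]
    rw [h3, map_neg, map_one]
    ring
  have hsum : P1 = X ^ d + ∑ i ∈ Finset.range d, C (P1.coeff i) * X ^ i := by
    have := hP1m.as_sum
    rwa [hP1d] at this
  have hback : P = P1.comp (X - C b0) := by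
    rw [hP1, Polynomial.comp_assoc, Polynomial.add_comp, Polynomial.X_comp, Polynomial.C_comp,
        sub_add_cancel, Polynomial.comp_X]
  have hex : ∃ i ∈ Finset.range d, P1.coeff i ≠ 0 := by
    by_contra hcon
    push Not at hcon
    apply hne b0
    have h1 : P1 = X ^ d := by
      rw [hsum, Finset.sum_eq_zero, add_zero]
      intro i hi
      rw [hcon i hi, map_zero, zero_mul]
    rw [hback, h1, Polynomial.pow_comp, Polynomial.X_comp]
  -- orders and unit parts
  have hou : ∀ i, ∃ (n : ℕ) (u : PowerSeries K), P1.coeff i = PowerSeries.X ^ n * u ∧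
      (P1.coeff i ≠ 0 → PowerSeries.constantCoeff u ≠ 0) := by
    intro i
    by_cases h0 : P1.coeff i = 0
    · exact ⟨0, 0, by rw [h0, mul_zero], fun h => absurd h0 h⟩
    · obtain ⟨n, u, h1, h2⟩ := npb_ord _ h0
      exact ⟨n, u, h1, fun _ => h2⟩
  choose ν u hν hu using hou
  obtain ⟨i0, hi0, hmin⟩ := Finset.exists_min_image
    ((Finset.range d).filter (fun i => P1.coeff i ≠ 0))
    (fun i => (ν i : ℚ) / ((d - i : ℕ) : ℚ)) (by
      obtain ⟨i, hi, h⟩ := hex
      exact ⟨i, Finset.mem_filter.2 ⟨hi, h⟩⟩)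
  rw [Finset.mem_filter, Finset.mem_range] at hi0
  obtain ⟨hi0d, hi0ne⟩ := hi0
  have he : d - i0 ≠ 0 := by omega
  have hmin' : ∀ i < d, P1.coeff i ≠ 0 → ν i0 * (d - i) ≤ (d - i0) * ν i := by
    intro i hi hne'
    have h1 := hmin i (Finset.mem_filter.2 ⟨Finset.mem_range.2 hi, hne'⟩)
    have hp1 : (0 : ℚ) < ((d - i0 : ℕ) : ℚ) := by
      exact_mod_cast (by omega : 0 < d - i0)
    have hp2 : (0 : ℚ) < ((d - i : ℕ) : ℚ) := by
      exact_mod_cast (by omega : 0 < d - i)
    rw [div_le_div_iff₀ hp1 hp2] at h1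
    have h2 : ν i0 * (d - i) ≤ ν i * (d - i0) := by exact_mod_cast h1
    linarith
  -- the new coefficients
  set a' : ℕ → PowerSeries K := fun i => if P1.coeff i = 0 then 0 else
    PowerSeries.X ^ ((d - i0) * ν i - ν i0 * (d - i)) * exr K (d - i0) he (u i) with ha'
  have ha'eq : ∀ i < d, exr K (d - i0) he (P1.coeff i) =
      PowerSeries.X ^ (ν i0 * (d - i)) * a' i := by
    intro i hi
    by_cases h0 : P1.coeff i = 0
    · simp only [ha', if_pos h0]
      rw [h0, map_zero, mul_zero]
    · simp only [ha', if_neg h0]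
      have h1 := hmin' i hi h0
      rw [hν i, map_mul, map_pow, exr_X, ← mul_assoc, ← pow_add, ← pow_mul]
      congr 2
      omega
  have ha'i0 : PowerSeries.constantCoeff (a' i0) ≠ 0 := by
    simp only [ha', if_neg hi0ne]
    have h1 : (d - i0) * ν i0 - ν i0 * (d - i0) = 0 := by
      rw [mul_comm]
      exact Nat.sub_self _
    rw [h1, pow_zero, one_mul, exr_const]
    exact hu i0 hi0ne
  have ha'd : a' (d - 1) = 0 := by
    simp only [ha', if_pos hc]
  obtain ⟨hP'm, hP'd⟩ := npb_monic d a'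
  refine ⟨d - i0, he, ν i0, exr K (d - i0) he b0, X ^ d + ∑ i ∈ Finset.range d, C (a' i) * X ^ i,
    by omega, hP'm, hP'd, ?_, ?_⟩
  · have h1 : (P.map (exr K (d - i0) he)).comp
        (C (PowerSeries.X ^ ν i0) * X + C (exr K (d - i0) he b0)) =
        (P1.map (exr K (d - i0) he)).comp (C (PowerSeries.X ^ ν i0) * X) := by
      rw [hP1, Polynomial.map_comp, Polynomial.comp_assoc, Polynomial.map_add, Polynomial.map_X,
        Polynomial.map_C, Polynomial.add_comp, Polynomial.X_comp, Polynomial.C_comp]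
    rw [h1, hsum]
    rw [Polynomial.map_add, Polynomial.map_pow, Polynomial.map_X, Polynomial.map_sum,
      Polynomial.add_comp, Polynomial.pow_comp, Polynomial.X_comp, Polynomial.sum_comp, mul_add,
      Finset.mul_sum]
    congr 1
    · rw [mul_pow, ← C_pow, ← pow_mul]
    · refine Finset.sum_congr rfl fun i hi => ?_
      rw [Finset.mem_range] at hi
      rw [Polynomial.map_mul, Polynomial.map_C, Polynomial.map_pow, Polynomial.map_X,
        Polynomial.mul_comp, Polynomial.C_comp, Polynomial.pow_comp, Polynomial.X_comp,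
        ha'eq i hi, mul_pow, ← C_pow, ← pow_mul, ← mul_assoc, ← mul_assoc, ← C_mul, ← C_mul]
      congr 2
      have h2 : ν i0 * d = ν i0 * (d - i) + ν i0 * i := by
        rw [← Nat.mul_add]
        congr 1
        omega
      rw [h2, pow_add]
      ring
  · intro c hcc
    have hco : ∀ i < d, ((X ^ d + ∑ i ∈ Finset.range d, C (a' i) * X ^ i :
        (PowerSeries K)[X]).map PowerSeries.constantCoeff).coeff i =
        PowerSeries.constantCoeff (a' i) := by
      intro i hi
      rw [Polynomial.coeff_map, Polynomial.coeff_add, Polynomial.coeff_X_pow, if_neg (by omega),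
        zero_add, npb_coeff, if_pos hi]
    have h1 := hco (d - 1) (by omega)
    rw [hcc, ha'd, map_zero, sub_eq_add_neg, ← map_neg, Polynomial.coeff_X_add_C_pow] at h1
    have h2 : d - (d - 1) = 1 := by omega
    have h3 : d.choose (d - 1) = d := by
      have := Nat.choose_succ_self_right (d - 1)
      have h4 : d - 1 + 1 = d := by omega
      rwa [h4] at this
    rw [h2, pow_one, h3] at h1
    have hc0 : c = 0 := by
      rcases mul_eq_zero.1 h1 with h4 | h4
      · exact neg_eq_zero.1 h4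
      · exact absurd h4 hdK
    have h5 := hco i0 hi0d
    rw [hcc, hc0, map_zero, sub_zero, Polynomial.coeff_X_pow, if_neg (by omega)] at h5
    exact ha'i0 h5.symm

end Pool.Agent.H87.SA2
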