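import Pool.Agent.H87.SA2.NPA
import Pool.Agent.H87.SA2.NPB
import Mathlib.FieldTheory.IsAlgClosed.Basic

/-! # [SA2-NPC] The Newton-Puiseux theorem, by induction on the degree -/

namespace Pool.Agent.H87.SA2

open Polynomial

theorem np_nat {a b : ℕ} (ha : 1 ≤ a) (hb : 1 ≤ b) :
    a.factorial * b.factorial ≤ (a + b - 1).factorial := by
  induction b, hb using Nat.le_induction with
  | base => simp
  | succ b hb ih =>
    have h1 : a + (b + 1) - 1 = (a + b - 1) + 1 := by omega
    rw [h1, Nat.factorial_succ, Nat.factorial_succ]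
    calc a.factorial * ((b + 1) * b.factorial) = (b + 1) * (a.factorial * b.factorial) := by ring
      _ ≤ (a + b - 1 + 1) * (a + b - 1).factorial := Nat.mul_le_mul (by omega) ih

theorem comp_split {A : Type*} [CommRing A] [IsDomain A] (R S : A[X]) (hR : R.Monic)
    (hS : S.Monic) (hSs : S.Splits) (hd : S.natDegree = R.natDegree) (r b : A) (hr : r ≠ 0)
    (h : R.comp (C r * X + C b) = C (r ^ R.natDegree) * S) : R.Splits := by
  set R' : A[X] := (S.roots.map fun s => X - C (b + r * s)).prod with hR'
  have h1 : R'.comp (C r * X + C b) = C (r ^ R.natDegree) * S := by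
    rw [hR', Polynomial.multiset_prod_comp, Multiset.map_map]
    have h2 : ∀ s : A, (X - C (b + r * s)).comp (C r * X + C b) = C r * (X - C s) := by
      intro s
      rw [sub_comp, X_comp, C_comp, map_add, map_mul]
      ring
    simp only [Function.comp_def, h2]
    rw [Multiset.prod_map_mul, Multiset.map_const', Multiset.prod_replicate,
      ← hSs.natDegree_eq_card_roots, hd, ← hSs.eq_prod_roots_of_monic hS, ← C_pow]
  have h3 : (R - R').comp (C r * X + C b) = 0 := by
    rw [sub_comp, h, h1, sub_self]
  rcases comp_eq_zero_iff.1 h3 with h4 | ⟨-, h4⟩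
  · rw [sub_eq_zero.1 h4, hR']
    refine Splits.multisetProd fun f hf => ?_
    obtain ⟨s, -, rfl⟩ := Multiset.mem_map.1 hf
    exact Splits.X_sub_C _
  · exfalso
    apply hr
    have h5 := congrArg (fun q => coeff q 1) h4
    simpa using h5

theorem newton_puiseux {K : Type} [Field K] [CharZero K] [IsAlgClosed K] (d : ℕ) :
    ∀ P : (PowerSeries K)[X], P.Monic → P.natDegree = d →
      ∃ (e : ℕ) (he : e ≠ 0), e ≤ d.factorial ∧ (P.map (exr K e he)).Splits := by
  induction d using Nat.strong_induction_on with
  | _ d ih =>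
    intro P hP hPd
    by_cases hd : d < 2
    · refine ⟨1, one_ne_zero, Nat.factorial_pos d, ?_⟩
      refine Splits.of_natDegree_le_one_of_monic ?_ (hP.map _)
      rw [hP.natDegree_map]
      omega
    push Not at hd
    by_cases hc : ∃ c, P = (X - C c) ^ P.natDegree
    · obtain ⟨c, hc⟩ := hc
      refine ⟨1, one_ne_zero, Nat.factorial_pos d, ?_⟩
      refine Splits.map ?_ _
      rw [hc]
      exact (Splits.X_sub_C c).pow _
    push Not at hc
    obtain ⟨e0, he0, ρ, b, P', he0d, hP'm, hP'd, hcomp, hred⟩ := slope_step P hP (by omega) hc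
    have hdeg : (P'.map PowerSeries.constantCoeff).degree ≠ 0 := by
      have h1 : (P'.map PowerSeries.constantCoeff).natDegree = d := by
        rw [hP'm.natDegree_map, hP'd, hPd]
      intro h2
      rw [degree_eq_natDegree (hP'm.map _).ne_zero, h1] at h2
      have : d = 0 := by exact_mod_cast h2
      omega
    obtain ⟨a, ha⟩ := IsAlgClosed.exists_root _ hdeg
    obtain ⟨D, Q, hD, hQ, hDQ, hD1, hQ1⟩ := split_off P' hP'm a ha
      (by rw [hP'd]; exact hred a)
    have hsum : D.natDegree + Q.natDegree = d := by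
      rw [← hD.natDegree_mul hQ, ← hDQ, hP'd, hPd]
    obtain ⟨e1, he1, he1d, hs1⟩ := ih D.natDegree (by omega) D hD rfl
    obtain ⟨e2, he2, he2d, hs2⟩ := ih Q.natDegree (by omega) Q hQ rfl
    have he12 : e1 * e2 ≠ 0 := Nat.mul_ne_zero he1 he2
    refine ⟨e1 * e2 * e0, Nat.mul_ne_zero he12 he0, ?_, ?_⟩
    · calc e1 * e2 * e0 ≤ (D.natDegree.factorial * Q.natDegree.factorial) * d :=
            Nat.mul_le_mul (Nat.mul_le_mul he1d he2d) (by omega)
        _ ≤ (D.natDegree + Q.natDegree - 1).factorial * d :=
            Nat.mul_le_mul_right _ (np_nat hD1 hQ1)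
        _ = d.factorial := by
            rw [hsum, mul_comm]
            exact Nat.mul_factorial_pred (by omega)
    have hDs : (D.map (exr K (e1 * e2) he12)).Splits := by
      have h1 : exr K (e1 * e2) he12 = (exr K e2 he2).comp (exr K e1 he1) := by
        rw [← exr_mul]
        congr 1
        exact mul_comm _ _
      rw [h1, ← Polynomial.map_map]
      exact hs1.map _
    have hQs : (Q.map (exr K (e1 * e2) he12)).Splits := by
      rw [exr_mul e1 e2 he1 he2, ← Polynomial.map_map]
      exact hs2.map _
    rw [exr_mul (e1 * e2) e0 he12 he0, ← Polynomial.map_map]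
    have h2 := congrArg (Polynomial.map (exr K (e1 * e2) he12)) hcomp
    rw [Polynomial.map_comp, Polynomial.map_mul, hDQ, Polynomial.map_mul] at h2
    simp only [Polynomial.map_add, Polynomial.map_mul, Polynomial.map_C, Polynomial.map_X,
      map_pow, Polynomial.map_pow, exr_X] at h2
    have h3 : ((P.map (exr K e0 he0)).map (exr K (e1 * e2) he12)).natDegree = P.natDegree := by
      rw [(hP.map _).natDegree_map, hP.natDegree_map]
    refine comp_split ((P.map (exr K e0 he0)).map (exr K (e1 * e2) he12))
      (D.map (exr K (e1 * e2) he12) * Q.map (exr K (e1 * e2) he12)) ((hP.map _).map _)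
      ((hD.map _).mul (hQ.map _)) (hDs.mul hQs) ?_ ((PowerSeries.X ^ (e1 * e2)) ^ ρ)
      (exr K (e1 * e2) he12 b) (by simp [PowerSeries.X_ne_zero]) ?_
    · rw [h3, (hD.map _).natDegree_mul (hQ.map _), hD.natDegree_map, hQ.natDegree_map, hsum, hPd]
    · rw [h3]
      simp only [map_pow] at h2 ⊢
      rw [h2]
      congr 1
      exact pow_mul _ _ _

end Pool.Agent.H87.SA2
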