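import Pool.Agent.H87.SA2.Defs

/-! # [SA2-NUM] Numerical lemmas with a real base: adaptation of `Pool/Agent/H87/SA/Num.lean` -/

namespace Pool.Agent.H87.SA2

open Finset Pool.Agent.H8.KF Pool.Agent.H87.SA

/-- bound for the coefficients of the auxiliary polynomial -/
noncomputable def ZSR (n D κ : ℕ) (X0 R G B : ℝ) (la : ℕ) : ℝ :=
  (G * X0 ^ (κ * D) * B ^ (13 * n) * R ^ (5 * n ^ 2 * la)) ^ 4

theorem nu_K {D κ : ℕ} (hD : 1 ≤ D) (hκ : 1 ≤ κ) :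
    4 ≤ KK D κ ∧ κ * D ≤ KK D κ ∧ κ + 1 ≤ KK D κ ∧ D ≤ KK D κ := by
  unfold KK
  refine ⟨by nlinarith, by nlinarith, by nlinarith, by nlinarith⟩

theorem nu_la {n D κ la : ℕ} (hn : 4 ≤ n) (hD : 1 ≤ D) (hκ : 1 ≤ κ)
    (hla : 10 ^ 6 * n ^ 6 * KK D κ ^ 2 ≤ la) :
    10 ^ 6 * n * KK D κ ≤ la ∧ 10 ^ 6 * n ^ 2 * KK D κ ^ 2 ≤ la ∧ 10 ^ 6 * n ^ 4 * KK D κ ≤ la ∧
      10 ^ 6 * n ≤ la := by
  obtain ⟨h4, -⟩ := nu_K hD hκ
  have hn1 : 1 ≤ n := by omega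
  have e1 : KK D κ ≤ KK D κ ^ 2 := Nat.le_self_pow two_ne_zero _
  refine ⟨?_, ?_, ?_, ?_⟩
  · refine le_trans ?_ hla
    have h1 : n ≤ n ^ 6 := Nat.le_self_pow (by norm_num) _
    gcongr
  · refine le_trans ?_ hla
    have h1 : n ^ 2 ≤ n ^ 6 := Nat.pow_le_pow_right hn1 (by norm_num)
    gcongr
  · refine le_trans ?_ hla
    have h1 : n ^ 4 ≤ n ^ 6 := Nat.pow_le_pow_right hn1 (by norm_num)
    gcongr
  · refine le_trans ?_ hla
    have h1 : n ≤ n ^ 6 := Nat.le_self_pow (by norm_num) _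
    calc 10 ^ 6 * n = 10 ^ 6 * n * 1 := by ring
      _ ≤ 10 ^ 6 * n ^ 6 * KK D κ ^ 2 := by
          gcongr
          exact Nat.one_le_pow _ _ (by omega)

theorem nu_M {n D κ : ℕ} {M R : ℝ} (hn : 4 ≤ n) (hD : 1 ≤ D) (hκ : 1 ≤ κ) (hR : 2 ≤ R)
    (hRM : (16 * R) ^ (10 ^ 5 * n ^ 4 * KK D κ) ≤ (M : ℝ)) : 2 < (M : ℝ) := by
  obtain ⟨h4, -⟩ := nu_K hD hκ
  refine lt_of_lt_of_le ?_ hRM
  have h1 : (16 * R) ^ 1 ≤ (16 * R) ^ (10 ^ 5 * n ^ 4 * KK D κ) := by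
    refine pow_le_pow_right₀ (by linarith) ?_
    have : 0 < n ^ 4 := by positivity
    exact Nat.succ_le_of_lt (by positivity)
  rw [pow_one] at h1
  linarith

theorem nu_R {n D κ la e : ℕ} {M R : ℝ} (hR : 2 ≤ R)
    (hRM : (16 * R) ^ (10 ^ 5 * n ^ 4 * KK D κ) ≤ (M : ℝ))
    (he : e ≤ 10 ^ 5 * n ^ 4 * KK D κ * la) : (16 * R) ^ e ≤ (M : ℝ) ^ la := by
  calc (16 * R) ^ e ≤ (16 * R) ^ (10 ^ 5 * n ^ 4 * KK D κ * la) :=
        pow_le_pow_right₀ (by linarith) he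
    _ = ((16 * R) ^ (10 ^ 5 * n ^ 4 * KK D κ)) ^ la := by rw [pow_mul]
    _ ≤ (M : ℝ) ^ la := pow_le_pow_left₀ (by positivity) hRM la

theorem nu_G {n D κ la e : ℕ} {M G B : ℝ} (hG : 1 ≤ G) (hB : 1 ≤ B)
    (hGB : (G * B) ^ (10 ^ 6 * n ^ 3 * KK D κ) ≤ (M : ℝ) ^ (la + 1))
    (he : e ≤ 10 ^ 6 * n ^ 3 * KK D κ) : (G * B) ^ e ≤ (M : ℝ) ^ (la + 1) :=
  (pow_le_pow_right₀ (one_le_mul_of_one_le_of_one_le hG hB) he).trans hGB

theorem nu_small {n D la : ℕ} (hn : 4 ≤ n) (hla : 10 ^ 6 * n ≤ la) (hD : 4 * D ≤ la) :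
    4 * ((3 * n + 1) * ((3 * n * la + 1) * (D * 2 ^ D))) ≤ 2 ^ (4 * la) := by
  have h1 : 4 * (3 * n + 1) ≤ la := by omega
  have h2 : 3 * n * la + 1 ≤ la * la := by nlinarith
  have h3 : la ≤ 2 ^ la := Nat.lt_two_pow_self.le
  have h4 : D ≤ 2 ^ D := Nat.lt_two_pow_self.le
  calc 4 * ((3 * n + 1) * ((3 * n * la + 1) * (D * 2 ^ D))) =
      (4 * (3 * n + 1)) * ((3 * n * la + 1) * (D * 2 ^ D)) := by ring
    _ ≤ la * ((la * la) * (D * 2 ^ D)) := by gcongr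
    _ ≤ 2 ^ la * ((2 ^ la * 2 ^ la) * (2 ^ D * 2 ^ D)) := by gcongr
    _ = 2 ^ (3 * la + 2 * D) := by ring
    _ ≤ 2 ^ (4 * la) := Nat.pow_le_pow_right (by norm_num) (by omega)

theorem num_van {n D κ la i : ℕ} {M R G B : ℝ} (hn : 4 ≤ n) (hD : 1 ≤ D) (hκ : 1 ≤ κ)
    (hR : 2 ≤ R) (hG : 1 ≤ G) (hB : 1 ≤ B)
    (hRM : (16 * R) ^ (10 ^ 5 * n ^ 4 * KK D κ) ≤ (M : ℝ))
    (hla : 10 ^ 6 * n ^ 6 * KK D κ ^ 2 ≤ la)
    (hGB : (G * B) ^ (10 ^ 6 * n ^ 3 * KK D κ) ≤ (M : ℝ) ^ (la + 1))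
    (hi : 8 * (κ + 1) * i ≤ la) :
    4 * ((3 * n + 1) * ((3 * n * la + 1) * (D * (ZSR n D κ M R G B la *
      ((M : ℝ) ^ (κ * D) * 2 ^ D)))) * B ^ (26 * n)) * (4 * R) ^ (TT n la) *
      (M : ℝ) ^ (κ * D + κ * i + i) < (M : ℝ) ^ (ee la) := by
  obtain ⟨hK4, hK1, hK2, hK3⟩ := nu_K hD hκ
  obtain ⟨hl1, hl2, hl3, hl4⟩ := nu_la hn hD hκ hla
  have hM := nu_M hn hD hκ hR hRM
  have hM0 : 0 < (M : ℝ) := by linarith
  set K := KK D κ with hKdef
  have hKla : 10 ^ 6 * K ≤ la := by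
    refine le_trans ?_ hl1
    have : 10 ^ 6 * K = 10 ^ 6 * 1 * K := by ring
    rw [this]
    gcongr
    omega
  have hTT : TT n la ≤ (6 * n + 1) * la := by
    unfold TT ee
    have h1 : 2 * (la / 2) ≤ la := Nat.mul_div_le la 2
    have h2 : (6 * n + 1) * la = 6 * n * la + la := by ring
    rw [h2]
    omega
  have hlhs : 4 * ((3 * n + 1) * ((3 * n * la + 1) * (D * (ZSR n D κ M R G B la *
      ((M : ℝ) ^ (κ * D) * 2 ^ D)))) * B ^ (26 * n)) * (4 * R) ^ (TT n la) *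
      (M : ℝ) ^ (κ * D + κ * i + i) =
      (4 * ((3 * n + 1) * ((3 * n * la + 1) * (D * 2 ^ D)))) * (4 * R) ^ (TT n la) *
        R ^ (20 * n ^ 2 * la) * (G ^ 4 * B ^ (78 * n)) * (M : ℝ) ^ (6 * (κ * D) + κ * i + i) := by
    unfold ZSR
    ring
  rw [hlhs]
  have f1 : 4 * ((3 * (n : ℝ) + 1) * ((3 * n * la + 1) * (D * 2 ^ D))) ≤ (16 * R) ^ (4 * la) := by
    have h1 : 4 * ((3 * (n : ℝ) + 1) * ((3 * n * la + 1) * (D * 2 ^ D))) ≤ 2 ^ (4 * la) := by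
      exact_mod_cast nu_small hn hl4 (by omega)
    exact h1.trans (pow_le_pow_left₀ (by norm_num) (by linarith) _)
  have f2 : (4 * R) ^ (TT n la) ≤ (16 * R) ^ ((6 * n + 1) * la) :=
    (pow_le_pow_left₀ (by linarith) (by linarith) _).trans
      (pow_le_pow_right₀ (by linarith) hTT)
  have f3 : R ^ (20 * n ^ 2 * la) ≤ (16 * R) ^ (20 * n ^ 2 * la) :=
    pow_le_pow_left₀ (by linarith) (by linarith) _
  have f4 : G ^ 4 * B ^ (78 * n) ≤ (G * B) ^ (78 * n) := by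
    rw [mul_pow]
    refine mul_le_mul_of_nonneg_right (pow_le_pow_right₀ hG (by omega)) (by positivity)
  set P : ℝ := (16 * R) ^ (4 * la + (6 * n + 1) * la + 20 * n ^ 2 * la) with hP
  have hP0 : 0 ≤ P := by positivity
  have f5 : (4 * ((3 * (n : ℝ) + 1) * ((3 * n * la + 1) * (D * 2 ^ D)))) * (4 * R) ^ (TT n la) *
        R ^ (20 * n ^ 2 * la) ≤ P := by
    rw [hP, pow_add, pow_add]
    gcongr
  have f6 : P ^ 16 ≤ (M : ℝ) ^ la := by
    rw [hP, ← pow_mul]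
    refine nu_R hR hRM ?_
    have h1 : 4 * la + (6 * n + 1) * la + 20 * n ^ 2 * la ≤ 30 * n ^ 2 * la := by
      have : 4 + (6 * n + 1) ≤ 10 * n ^ 2 := by nlinarith
      nlinarith
    have h2 : n ^ 2 * 1 ≤ n ^ 4 * K := by
      have : n ^ 2 ≤ n ^ 4 := Nat.pow_le_pow_right (by omega) (by norm_num)
      have : 1 ≤ K := by omega
      gcongr
    calc (4 * la + (6 * n + 1) * la + 20 * n ^ 2 * la) * 16 ≤ (30 * n ^ 2 * la) * 16 := by gcongr
      _ = 480 * (n ^ 2 * 1) * la := by ring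
      _ ≤ 10 ^ 5 * (n ^ 4 * K) * la := by
          gcongr
          norm_num
      _ = 10 ^ 5 * n ^ 4 * K * la := by ring
  have f7 : ((G * B) ^ (78 * n)) ^ 16 ≤ (M : ℝ) ^ (la + 1) := by
    rw [← pow_mul]
    refine nu_G hG hB hGB ?_
    have h2 : n * 1 ≤ n ^ 3 * K := by
      have : n ≤ n ^ 3 := Nat.le_self_pow (by norm_num) _
      have : 1 ≤ K := by omega
      gcongr
    calc 78 * n * 16 = 1248 * (n * 1) := by ring
      _ ≤ 10 ^ 6 * (n ^ 3 * K) := by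
          gcongr
          norm_num
      _ = 10 ^ 6 * n ^ 3 * K := by ring
  have f8 : ((4 * ((3 * (n : ℝ) + 1) * ((3 * n * la + 1) * (D * 2 ^ D)))) * (4 * R) ^ (TT n la) *
        R ^ (20 * n ^ 2 * la) * (G ^ 4 * B ^ (78 * n)) * (M : ℝ) ^ (6 * (κ * D) + κ * i + i)) ≤
      P * (G * B) ^ (78 * n) * (M : ℝ) ^ (6 * (κ * D) + κ * i + i) := by
    gcongr
  refine lt_of_le_of_lt f8 ?_
  refine lt_of_pow_lt_pow_left₀ 16 (by positivity) ?_
  calc (P * (G * B) ^ (78 * n) * (M : ℝ) ^ (6 * (κ * D) + κ * i + i)) ^ 16 =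
      P ^ 16 * ((G * B) ^ (78 * n)) ^ 16 * ((M : ℝ) ^ (6 * (κ * D) + κ * i + i)) ^ 16 := by
        rw [mul_pow, mul_pow]
    _ ≤ (M : ℝ) ^ la * (M : ℝ) ^ (la + 1) * ((M : ℝ) ^ (6 * (κ * D) + κ * i + i)) ^ 16 := by
        gcongr
    _ = (M : ℝ) ^ (la + (la + 1) + (6 * (κ * D) + κ * i + i) * 16) := by
        rw [← pow_mul, ← pow_add, ← pow_add]
    _ < (M : ℝ) ^ (ee la * 16) := by
        refine pow_lt_pow_right₀ (by linarith) ?_
        unfold ee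
        have h1 : 8 * (κ + 1) * i = 8 * (κ * i) + 8 * i := by ring
        rw [h1] at hi
        have h2 : la < 2 * (la / 2 + 1) := by omega
        omega
    _ = ((M : ℝ) ^ ee la) ^ 16 := by rw [pow_mul]

theorem num_nz {n D κ la : ℕ} {M R G B : ℝ} (hn : 4 ≤ n) (hD : 1 ≤ D) (hκ : 1 ≤ κ)
    (hR : 2 ≤ R) (hG : 1 ≤ G) (hB : 1 ≤ B)
    (hRM : (16 * R) ^ (10 ^ 5 * n ^ 4 * KK D κ) ≤ (M : ℝ))
    (hla : 10 ^ 6 * n ^ 6 * KK D κ ^ 2 ≤ la)
    (hGB : (G * B) ^ (10 ^ 6 * n ^ 3 * KK D κ) ≤ (M : ℝ) ^ (la + 1)) :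
    (B * ZSR n D κ M R G B la) ^ n < (M : ℝ) ^ la := by
  obtain ⟨hK4, hK1, hK2, hK3⟩ := nu_K hD hκ
  obtain ⟨hl1, hl2, hl3, hl4⟩ := nu_la hn hD hκ hla
  have hM := nu_M hn hD hκ hR hRM
  have hM0 : 0 < (M : ℝ) := by linarith
  set K := KK D κ with hKdef
  have hB0 : 0 < B := by linarith
  have hG0 : 0 < G := by linarith
  have e1 : ((B * ZSR n D κ M R G B la) ^ n) ^ 4 =
      G ^ (16 * n) * B ^ (4 * n + 208 * n ^ 2) * (M : ℝ) ^ (16 * (κ * D * n)) *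
        R ^ (80 * n ^ 3 * la) := by
    unfold ZSR
    ring
  have f1 : R ^ (80 * n ^ 3 * la) ≤ (M : ℝ) ^ la := by
    refine (pow_le_pow_left₀ (by linarith) (by linarith : R ≤ 16 * R) _).trans
      (nu_R hR hRM ?_)
    have h2 : n ^ 3 * 1 ≤ n ^ 4 * K := by
      have : n ^ 3 ≤ n ^ 4 := Nat.pow_le_pow_right (by omega) (by norm_num)
      have : 1 ≤ K := by omega
      gcongr
    calc 80 * n ^ 3 * la = 80 * (n ^ 3 * 1) * la := by ring
      _ ≤ 10 ^ 5 * (n ^ 4 * K) * la := by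
          gcongr
          norm_num
      _ = 10 ^ 5 * n ^ 4 * K * la := by ring
  have f2 : G ^ (16 * n) * B ^ (4 * n + 208 * n ^ 2) ≤ (M : ℝ) ^ (la + 1) := by
    have h1 : G ^ (16 * n) * B ^ (4 * n + 208 * n ^ 2) ≤ (G * B) ^ (220 * n ^ 2) := by
      rw [mul_pow]
      have h3 : 16 * n ≤ 220 * n ^ 2 := by nlinarith
      have h4 : 4 * n + 208 * n ^ 2 ≤ 220 * n ^ 2 := by nlinarith
      exact mul_le_mul (pow_le_pow_right₀ hG h3) (pow_le_pow_right₀ hB h4) (by positivity)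
        (by positivity)
    refine h1.trans (nu_G hG hB hGB ?_)
    have h2 : n ^ 2 * 1 ≤ n ^ 3 * K := by
      have : n ^ 2 ≤ n ^ 3 := Nat.pow_le_pow_right (by omega) (by norm_num)
      have : 1 ≤ K := by omega
      gcongr
    calc 220 * n ^ 2 = 220 * (n ^ 2 * 1) := by ring
      _ ≤ 10 ^ 6 * (n ^ 3 * K) := by
          gcongr
          norm_num
      _ = 10 ^ 6 * n ^ 3 * K := by ring
  refine lt_of_pow_lt_pow_left₀ 4 (by positivity) ?_
  rw [e1, ← pow_mul]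
  calc G ^ (16 * n) * B ^ (4 * n + 208 * n ^ 2) * (M : ℝ) ^ (16 * (κ * D * n)) *
        R ^ (80 * n ^ 3 * la) ≤
      (M : ℝ) ^ (la + 1) * (M : ℝ) ^ (16 * (κ * D * n)) * (M : ℝ) ^ la := by gcongr
    _ = (M : ℝ) ^ (la + 1 + 16 * (κ * D * n) + la) := by rw [← pow_add, ← pow_add]
    _ < (M : ℝ) ^ (la * 4) := by
        refine pow_lt_pow_right₀ (by linarith) ?_
        have h1 : κ * D * n ≤ n * K := by nlinarith
        have h2 : 10 ^ 6 * n * K = 10 ^ 6 * (n * K) := by ring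
        rw [h2] at hl1
        omega

theorem num_A2 {n D κ la r0 : ℕ} {M R G B : ℝ} (hn : 4 ≤ n) (hD : 1 ≤ D) (hκ : 1 ≤ κ)
    (hR : 2 ≤ R) (hG : 1 ≤ G) (hB : 1 ≤ B)
    (hRM : (16 * R) ^ (10 ^ 5 * n ^ 4 * KK D κ) ≤ (M : ℝ))
    (hla : 10 ^ 6 * n ^ 6 * KK D κ ^ 2 ≤ la)
    (hGB : (G * B) ^ (10 ^ 6 * n ^ 3 * KK D κ) ≤ (M : ℝ) ^ (la + 1))
    (hr0 : r0 ≤ 4 * n ^ 2) :
    ((r0.factorial : ℝ) * (2 * (r0.factorial * (4 * R) ^ r0 * ((3 * n * la + 1) * D * 2 ^ D *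
      (M : ℝ) ^ (κ * D) * ZSR n D κ M R G B la))) ^ r0) ^ (128 * KK D κ) ≤ (M : ℝ) ^ la := by
  obtain ⟨hK4, hK1, hK2, hK3⟩ := nu_K hD hκ
  obtain ⟨hl1, hl2, hl3, hl4⟩ := nu_la hn hD hκ hla
  have hM := nu_M hn hD hκ hR hRM
  have hM0 : 0 < (M : ℝ) := by linarith
  set K := KK D κ with hKdef
  have hB0 : 0 < B := by linarith
  have hG0 : 0 < G := by linarith
  have hR0 : 0 < R := by linarith
  have hKla : 10 ^ 6 * K ≤ la := by
    refine le_trans ?_ hl1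
    have : 10 ^ 6 * K = 10 ^ 6 * 1 * K := by ring
    rw [this]
    gcongr
    omega
  have hr1 : r0 * r0 ≤ la := by
    calc r0 * r0 ≤ (4 * n ^ 2) * (4 * n ^ 2) := Nat.mul_le_mul hr0 hr0
      _ = 16 * n ^ 4 * 1 := by ring
      _ ≤ 10 ^ 6 * n ^ 4 * K := by
          gcongr
          · norm_num
          · omega
      _ ≤ la := hl3
  have hr2 : r0 ≤ la := by
    rcases Nat.eq_zero_or_pos r0 with h | h
    · omega
    · exact (Nat.le_mul_of_pos_left r0 h).trans hr1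
  have hfac : (r0.factorial : ℝ) ≤ (16 * R) ^ la := by
    have h1 : r0.factorial ≤ 2 ^ la := by
      calc r0.factorial ≤ r0 ^ r0 := Nat.factorial_le_pow r0
        _ ≤ (2 ^ r0) ^ r0 := Nat.pow_le_pow_left Nat.lt_two_pow_self.le _
        _ = 2 ^ (r0 * r0) := by rw [pow_mul]
        _ ≤ 2 ^ la := Nat.pow_le_pow_right (by norm_num) hr1
    have h2 : (r0.factorial : ℝ) ≤ 2 ^ la := by exact_mod_cast h1
    exact h2.trans (pow_le_pow_left₀ (by norm_num) (by linarith) _)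
  have h16 : (1 : ℝ) ≤ 16 * R := by linarith
  -- the inner bracket
  have f1 : 2 * ((r0.factorial : ℝ) * (4 * R) ^ r0 * ((3 * n * la + 1) * D * 2 ^ D *
      (M : ℝ) ^ (κ * D) * ZSR n D κ M R G B la)) ≤
      (16 * R) ^ (6 * la + 20 * n ^ 2 * la) * (M : ℝ) ^ (5 * (κ * D)) * (G * B) ^ (52 * n) := by
    have e1 : 2 * ((r0.factorial : ℝ) * (4 * R) ^ r0 * ((3 * n * la + 1) * D * 2 ^ D *
        (M : ℝ) ^ (κ * D) * ZSR n D κ M R G B la)) =
        (r0.factorial : ℝ) * (4 * R) ^ r0 * (2 * ((3 * n * la + 1) * (D * 2 ^ D))) *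
          R ^ (20 * n ^ 2 * la) * (M : ℝ) ^ (5 * (κ * D)) * (G ^ 4 * B ^ (52 * n)) := by
      unfold ZSR
      ring
    rw [e1]
    have g1 : (4 * R) ^ r0 ≤ (16 * R) ^ la :=
      (pow_le_pow_left₀ (by linarith) (by linarith) _).trans (pow_le_pow_right₀ h16 hr2)
    have g2 : 2 * ((3 * (n : ℝ) * la + 1) * (D * 2 ^ D)) ≤ (16 * R) ^ (4 * la) := by
      have h1 : 2 * ((3 * n * la + 1) * (D * 2 ^ D)) ≤ 2 ^ (4 * la) := by
        refine le_trans ?_ (nu_small hn hl4 (by omega : 4 * D ≤ la))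
        have : 2 * ((3 * n * la + 1) * (D * 2 ^ D)) ≤
            (4 * (3 * n + 1)) * ((3 * n * la + 1) * (D * 2 ^ D)) :=
          Nat.mul_le_mul_right _ (by omega)
        calc _ ≤ _ := this
          _ = 4 * ((3 * n + 1) * ((3 * n * la + 1) * (D * 2 ^ D))) := by ring
      have h2 : 2 * ((3 * (n : ℝ) * la + 1) * (D * 2 ^ D)) ≤ 2 ^ (4 * la) := by exact_mod_cast h1
      exact h2.trans (pow_le_pow_left₀ (by norm_num) (by linarith) _)
    have g3 : R ^ (20 * n ^ 2 * la) ≤ (16 * R) ^ (20 * n ^ 2 * la) :=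
      pow_le_pow_left₀ (by linarith) (by linarith) _
    have g4 : G ^ 4 * B ^ (52 * n) ≤ (G * B) ^ (52 * n) := by
      rw [mul_pow]
      refine mul_le_mul_of_nonneg_right (pow_le_pow_right₀ hG (by omega)) (by positivity)
    have e2 : (16 * R) ^ (6 * la + 20 * n ^ 2 * la) =
        (16 * R) ^ la * (16 * R) ^ la * (16 * R) ^ (4 * la) * (16 * R) ^ (20 * n ^ 2 * la) := by
      rw [← pow_add, ← pow_add, ← pow_add]
      congr 1
      ring
    rw [e2]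
    gcongr
  -- `A2`
  have hGB1 : 1 ≤ G * B := one_le_mul_of_one_le_of_one_le hG hB
  have f2 : ((r0.factorial : ℝ) * (2 * (r0.factorial * (4 * R) ^ r0 * ((3 * n * la + 1) * D *
      2 ^ D * (M : ℝ) ^ (κ * D) * ZSR n D κ M R G B la))) ^ r0) ≤
      (16 * R) ^ (82 * n ^ 4 * la) * (M : ℝ) ^ (20 * (κ * D * n ^ 2)) *
        (G * B) ^ (208 * n ^ 3) := by
    have hnn : 0 ≤ 2 * ((r0.factorial : ℝ) * (4 * R) ^ r0 * ((3 * n * la + 1) * D * 2 ^ D *
        (M : ℝ) ^ (κ * D) * ZSR n D κ M R G B la)) := by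
      unfold ZSR
      positivity
    have g1 := pow_le_pow_left₀ hnn f1 r0
    have g2 : ((16 * R) ^ (6 * la + 20 * n ^ 2 * la) * (M : ℝ) ^ (5 * (κ * D)) *
        (G * B) ^ (52 * n)) ^ r0 ≤ ((16 * R) ^ (6 * la + 20 * n ^ 2 * la) *
          (M : ℝ) ^ (5 * (κ * D)) * (G * B) ^ (52 * n)) ^ (4 * n ^ 2) := by
      refine pow_le_pow_right₀ ?_ hr0
      have h1 : 1 ≤ (16 * R) ^ (6 * la + 20 * n ^ 2 * la) := one_le_pow₀ h16
      have h2 : 1 ≤ (M : ℝ) ^ (5 * (κ * D)) := one_le_pow₀ (by linarith)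
      have h3 : 1 ≤ (G * B) ^ (52 * n) := one_le_pow₀ hGB1
      exact one_le_mul_of_one_le_of_one_le (one_le_mul_of_one_le_of_one_le h1 h2) h3
    calc ((r0.factorial : ℝ) * (2 * (r0.factorial * (4 * R) ^ r0 * ((3 * n * la + 1) * D *
          2 ^ D * (M : ℝ) ^ (κ * D) * ZSR n D κ M R G B la))) ^ r0) ≤
        (16 * R) ^ la * ((16 * R) ^ (6 * la + 20 * n ^ 2 * la) *
          (M : ℝ) ^ (5 * (κ * D)) * (G * B) ^ (52 * n)) ^ (4 * n ^ 2) :=
          mul_le_mul hfac (g1.trans g2) (pow_nonneg hnn _) (by positivity)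
      _ = (16 * R) ^ (la + 24 * n ^ 2 * la + 80 * n ^ 4 * la) *
          (M : ℝ) ^ (20 * (κ * D * n ^ 2)) * (G * B) ^ (208 * n ^ 3) := by
          generalize 16 * R = T
          generalize G * B = U
          ring
      _ ≤ (16 * R) ^ (82 * n ^ 4 * la) * (M : ℝ) ^ (20 * (κ * D * n ^ 2)) *
          (G * B) ^ (208 * n ^ 3) := by
          have h1 : la + 24 * n ^ 2 * la + 80 * n ^ 4 * la ≤ 82 * n ^ 4 * la := by
            have h2 : 16 ≤ n ^ 2 := by nlinarith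
            have h3 : 1 + 24 * n ^ 2 ≤ 2 * n ^ 4 := by
              have : n ^ 4 = n ^ 2 * n ^ 2 := by ring
              nlinarith
            nlinarith
          have h4 := pow_le_pow_right₀ h16 h1
          gcongr
  have hnn2 : 0 ≤ ((r0.factorial : ℝ) * (2 * (r0.factorial * (4 * R) ^ r0 *
      ((3 * n * la + 1) * D * 2 ^ D * (M : ℝ) ^ (κ * D) * ZSR n D κ M R G B la))) ^ r0) := by
    unfold ZSR
    positivity
  have hA16 : (((16 * R) ^ (82 * n ^ 4 * la)) ^ (128 * K)) ^ 4 ≤ (M : ℝ) ^ la := by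
    rw [← pow_mul, ← pow_mul]
    refine nu_R hR hRM ?_
    calc 82 * n ^ 4 * la * (128 * K * 4) = 41984 * (n ^ 4 * K * la) := by ring
      _ ≤ 10 ^ 5 * (n ^ 4 * K * la) := Nat.mul_le_mul_right _ (by norm_num)
      _ = 10 ^ 5 * n ^ 4 * K * la := by ring
  have hMp : (((M : ℝ) ^ (20 * (κ * D * n ^ 2))) ^ (128 * K)) ^ 4 ≤ (M : ℝ) ^ la := by
    rw [← pow_mul, ← pow_mul]
    refine pow_le_pow_right₀ (by linarith) ?_
    calc 20 * (κ * D * n ^ 2) * (128 * K * 4) = 10240 * (n ^ 2 * (κ * D * K)) := by ring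
      _ ≤ 10 ^ 6 * (n ^ 2 * (K * K)) := by gcongr; norm_num
      _ = 10 ^ 6 * n ^ 2 * K ^ 2 := by ring
      _ ≤ la := hl2
  have hGp : (((G * B) ^ (208 * n ^ 3)) ^ (128 * K)) ^ 4 ≤ (M : ℝ) ^ (la + 1) := by
    rw [← pow_mul, ← pow_mul]
    refine nu_G hG hB hGB ?_
    calc 208 * n ^ 3 * (128 * K * 4) = 106496 * (n ^ 3 * K) := by ring
      _ ≤ 10 ^ 6 * (n ^ 3 * K) := Nat.mul_le_mul_right _ (by norm_num)
      _ = 10 ^ 6 * n ^ 3 * K := by ring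
  refine (pow_le_pow_left₀ hnn2 f2 _).trans ?_
  refine le_of_pow_le_pow_left₀ (by norm_num : (4 : ℕ) ≠ 0) (by positivity) ?_
  rw [mul_pow, mul_pow, mul_pow, mul_pow]
  calc (((16 * R) ^ (82 * n ^ 4 * la)) ^ (128 * K)) ^ 4 *
        (((M : ℝ) ^ (20 * (κ * D * n ^ 2))) ^ (128 * K)) ^ 4 *
        (((G * B) ^ (208 * n ^ 3)) ^ (128 * K)) ^ 4 ≤
      (M : ℝ) ^ la * (M : ℝ) ^ la * (M : ℝ) ^ (la + 1) := by gcongr
    _ = (M : ℝ) ^ (la + la + (la + 1)) := by rw [← pow_add, ← pow_add]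
    _ ≤ (M : ℝ) ^ (la * 4) := pow_le_pow_right₀ (by linarith) (by omega)
    _ = ((M : ℝ) ^ la) ^ 4 := by rw [pow_mul]

/-- the linear algebra behind `num_end` -/
theorem nu_alg {n d q l x y r0 K' k0 κ D : ℝ} (hn : 4 ≤ n) (hd : 1 ≤ d) (hq : 1 ≤ q)
    (hκ0 : 0 ≤ κ) (hκ : κ + 1 = q) (hD0 : 0 ≤ D) (hD : D + 1 = d) (hx : 0 ≤ x) (hy : 0 ≤ y)
    (hr0 : 0 ≤ r0) (hK' : 0 ≤ K') (hk0 : 0 ≤ k0)
    (F1 : 10 ^ 5 * n ^ 4 * (d * q) * x ≤ 1) (F2 : 128 * (d * q) * y ≤ l)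
    (F3 : K' ≤ K' * x + d * (y + k0 * x))
    (F4 : k0 ≤ 1 + ((3 * n * l + κ * D) * r0 + κ * (r0 ^ 2 + K')) + (K' * x + (y + k0 * x)))
    (F5 : r0 ≤ 4 * n ^ 2) (F6 : 10 ^ 6 * n ^ 4 * (d * q) ≤ l) :
    q * (K' + r0) ≤ l / 8 := by
  have hdq : 1 ≤ d * q := one_le_mul_of_one_le_of_one_le hd hq
  have hn0 : 0 < n := by linarith
  have hn2 : 1 ≤ n ^ 2 := one_le_pow₀ (by linarith)
  have hn3 : 1 ≤ n ^ 3 := one_le_pow₀ (by linarith)
  have hn4 : 1 ≤ n ^ 4 := one_le_pow₀ (by linarith)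
  have hl : 0 ≤ l := le_trans (by positivity) F6
  set u : ℝ := d * q * x with hu
  have hu0 : 0 ≤ u := by positivity
  have hxu : x ≤ u := by
    rw [hu]
    exact le_mul_of_one_le_left hx hdq
  have F1' : 10 ^ 5 * n ^ 4 * u ≤ 1 := by
    rw [hu]
    linarith
  have hn4u : u ≤ n ^ 4 * u := le_mul_of_one_le_left hu0 hn4
  have hu5 : 10 ^ 5 * u ≤ 1 := by nlinarith
  have hn3u : 10 ^ 5 * (n ^ 3 * u) ≤ 1 := by
    have h1 : n ^ 3 * u ≤ n ^ 4 * u := by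
      apply mul_le_mul_of_nonneg_right _ hu0
      exact pow_le_pow_right₀ (by linarith) (by norm_num)
    linarith
  -- `q r0` and the like
  have g1 : n ^ 4 * (d * q) ≤ l / 10 ^ 6 := by linarith
  have g2 : q ≤ d * q := le_mul_of_one_le_left (by linarith) hd
  have hqr : q * r0 ≤ l / 1000 := by
    have h1 : q * r0 ≤ (d * q) * (4 * n ^ 2) := mul_le_mul g2 F5 hr0 (by positivity)
    have h2 : (d * q) * n ^ 2 ≤ (d * q) * n ^ 4 :=
      mul_le_mul_of_nonneg_left (pow_le_pow_right₀ (by linarith) (by norm_num)) (by linarith)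
    linarith
  have hκD : κ * D * r0 ≤ l := by
    have h1 : κ * D ≤ d * q := by
      rw [mul_comm d q]
      exact mul_le_mul (by linarith) (by linarith) hD0 (by linarith)
    have h2 : κ * D * r0 ≤ (d * q) * (4 * n ^ 2) := mul_le_mul h1 F5 hr0 (by positivity)
    have h3 : (d * q) * n ^ 2 ≤ (d * q) * n ^ 4 :=
      mul_le_mul_of_nonneg_left (pow_le_pow_right₀ (by linarith) (by norm_num)) (by linarith)
    linarith
  have hκr : κ * r0 ^ 2 ≤ l := by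
    have h1 : κ ≤ d * q := by linarith
    have h2 : r0 ^ 2 ≤ (4 * n ^ 2) ^ 2 := pow_le_pow_left₀ hr0 F5 2
    have h3 : κ * r0 ^ 2 ≤ (d * q) * (4 * n ^ 2) ^ 2 :=
      mul_le_mul h1 h2 (by positivity) (by positivity)
    have h4 : (d * q) * (4 * n ^ 2) ^ 2 = 16 * (n ^ 4 * (d * q)) := by ring
    linarith
  have hyl : y ≤ l := by
    have h1 : y ≤ d * q * y := le_mul_of_one_le_left hy hdq
    nlinarith
  have h3nl : 3 * n * l * r0 ≤ 12 * n ^ 3 * l := by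
    have h1 : 3 * n * l * r0 ≤ 3 * n * l * (4 * n ^ 2) :=
      mul_le_mul_of_nonneg_left F5 (by positivity)
    have h2 : 3 * n * l * (4 * n ^ 2) = 12 * n ^ 3 * l := by ring
    linarith
  have h1l : 1 ≤ l := by
    have h1 : 1 ≤ n ^ 4 * (d * q) := one_le_mul_of_one_le_of_one_le hn4 hdq
    linarith
  set S : ℝ := 1 + (3 * n * l * r0 + κ * D * r0 + κ * r0 ^ 2) + y with hS
  have hS0 : 0 ≤ S := by positivity
  have hSle : S ≤ 16 * (n ^ 3 * l) := by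
    have h1 : l ≤ n ^ 3 * l := le_mul_of_one_le_left hl hn3
    have h2 : 12 * n ^ 3 * l = 12 * (n ^ 3 * l) := by ring
    linarith
  have hx2 : x ≤ 1 / 2 := by linarith
  have hk : k0 ≤ 2 * S + 2 * (q * K') := by
    have h1 : k0 * x ≤ k0 * (1 / 2) := mul_le_mul_of_nonneg_left hx2 hk0
    have h2 : K' * x ≤ K' * 1 := mul_le_mul_of_nonneg_left (by linarith) hK'
    have h3 : q * K' = κ * K' + K' := by rw [← hκ]; ring
    have h4 : ((3 * n * l + κ * D) * r0 + κ * (r0 ^ 2 + K')) =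
      3 * n * l * r0 + κ * D * r0 + κ * r0 ^ 2 + κ * K' := by ring
    rw [h4] at F4
    rw [h3, hS]
    linarith
  have hqK0 : 0 ≤ q * K' := by positivity
  have huk : u * k0 ≤ 2 * (u * S) + 2 * (u * (q * K')) := by
    have h1 := mul_le_mul_of_nonneg_left hk hu0
    linarith
  have huS : u * S ≤ l / 1000 := by
    have h1 : u * S ≤ u * (16 * (n ^ 3 * l)) := mul_le_mul_of_nonneg_left hSle hu0
    have h2 : u * (16 * (n ^ 3 * l)) = 16 * (n ^ 3 * u) * l := by ring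
    have h3 : (n ^ 3 * u) * l ≤ (1 / 10 ^ 5) * l :=
      mul_le_mul_of_nonneg_right (by linarith) hl
    linarith
  have huq : u * (q * K') ≤ (1 / 10 ^ 5) * (q * K') :=
    mul_le_mul_of_nonneg_right (by linarith) hqK0
  have hxq : x * (q * K') ≤ (1 / 10 ^ 5) * (q * K') :=
    mul_le_mul_of_nonneg_right (by linarith) hqK0
  have h3 : q * K' ≤ x * (q * K') + (d * q) * y + u * k0 := by
    have h1 := mul_le_mul_of_nonneg_left F3 (by linarith : (0 : ℝ) ≤ q)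
    have h2 : q * (K' * x + d * (y + k0 * x)) = x * (q * K') + (d * q) * y + u * k0 := by
      rw [hu]
      ring
    linarith
  have h4 : q * (K' + r0) = q * K' + q * r0 := by ring
  rw [h4]
  linarith

theorem nu_log3 {m T T' A : ℝ} {a b c : ℕ} (hm : 0 < m) (hT : 0 < T) (hT' : 0 < T') (hA : 0 < A)
    (h : m ^ a ≤ T ^ a * (A * T' ^ b) ^ c) :
    a * Real.log m ≤ a * Real.log T + c * (Real.log A + b * Real.log T') := by
  have h' := Real.log_le_log (by positivity) h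
  rw [Real.log_pow, Real.log_mul (by positivity) (by positivity), Real.log_pow, Real.log_pow,
    Real.log_mul (by positivity) (by positivity), Real.log_pow] at h'
  exact h'

theorem nu_log4 {m T T' A : ℝ} {a b c : ℕ} (hm : 0 < m) (hT : 0 < T) (hT' : 0 < T') (hA : 0 < A)
    (h : m ^ b ≤ 2 * m ^ c * (T ^ a * (A * T' ^ b))) :
    b * Real.log m ≤ Real.log 2 + c * Real.log m + (a * Real.log T +
      (Real.log A + b * Real.log T')) := by
  have h' := Real.log_le_log (by positivity) h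
  rw [Real.log_pow, Real.log_mul (by positivity) (by positivity),
    Real.log_mul (by positivity) (by positivity), Real.log_mul (by positivity) (by positivity),
    Real.log_mul (by positivity) (by positivity), Real.log_pow, Real.log_pow, Real.log_pow] at h'
  exact h'

theorem num_end {n D κ la r0 k0 K K' : ℕ} {M R A2 : ℝ} (hn : 4 ≤ n) (hD : 1 ≤ D) (hκ : 1 ≤ κ)
    (hR : 2 ≤ R) (hA2 : 1 ≤ A2)
    (hRM : (16 * R) ^ (10 ^ 5 * n ^ 4 * KK D κ) ≤ (M : ℝ))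
    (hla : 10 ^ 6 * n ^ 6 * KK D κ ^ 2 ≤ la) (hr0 : r0 ≤ 4 * n ^ 2)
    (hA : A2 ^ (128 * KK D κ) ≤ (M : ℝ) ^ la)
    (hK : la < 8 * (κ + 1) * K) (hKK : K ≤ K' + r0)
    (h1 : (M : ℝ) ^ K' ≤ (16 * R) ^ K' * (A2 * (8 * R) ^ k0) ^ (D + 1))
    (h2 : (M : ℝ) ^ k0 ≤ 2 * (M : ℝ) ^ ((3 * n * la + κ * D) * r0 + κ * (r0 ^ 2 + K')) *
      ((16 * R) ^ K' * (A2 * (8 * R) ^ k0))) : False := by
  obtain ⟨hK4, hK1, hK2, hK3⟩ := nu_K hD hκ
  obtain ⟨hl1, hl2, hl3, hl4⟩ := nu_la hn hD hκ hla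
  have hM := nu_M hn hD hκ hR hRM
  have hM0 : 0 < (M : ℝ) := by linarith
  have hL : 0 < Real.log M := Real.log_pos (by linarith)
  have hr : 0 < Real.log (16 * R) := Real.log_pos (by linarith)
  have hr8 : Real.log (8 * R) ≤ Real.log (16 * R) := Real.log_le_log (by linarith) (by linarith)
  have ha : 0 ≤ Real.log A2 := Real.log_nonneg hA2
  have hA0 : 0 < A2 := by linarith
  have hR8 : 0 < 8 * R := by linarith
  have hR16 : 0 < 16 * R := by linarith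
  have w1 : (10 ^ 5 * (n : ℝ) ^ 4 * KK D κ) * Real.log (16 * R) ≤ Real.log M := by
    have h := Real.log_le_log (by positivity) hRM
    rw [Real.log_pow] at h
    push_cast at h
    linarith
  have w2 : (128 * (KK D κ : ℝ)) * Real.log A2 ≤ la * Real.log M := by
    have h := Real.log_le_log (by positivity) hA
    rw [Real.log_pow, Real.log_pow] at h
    push_cast at h
    exact h
  have w3 : K' * Real.log M ≤ K' * Real.log (16 * R) +
      ((D : ℝ) + 1) * (Real.log A2 + k0 * Real.log (16 * R)) := by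
    have h := nu_log3 hM0 hR16 hR8 hA0 h1
    push_cast at h
    have h2 : ((D : ℝ) + 1) * (Real.log A2 + k0 * Real.log (8 * R)) ≤
        ((D : ℝ) + 1) * (Real.log A2 + k0 * Real.log (16 * R)) := by
      gcongr
    linarith
  have w4 : k0 * Real.log M ≤ Real.log 2 +
      (((3 * n * la + κ * D : ℕ) : ℝ) * r0 + κ * ((r0 : ℝ) ^ 2 + K')) * Real.log M +
      (K' * Real.log (16 * R) + (Real.log A2 + k0 * Real.log (16 * R))) := by
    have h := nu_log4 hM0 hR16 hR8 hA0 h2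
    push_cast at h ⊢
    have h2 : (k0 : ℝ) * Real.log (8 * R) ≤ k0 * Real.log (16 * R) := by
      gcongr
    linarith
  have hlog2 : Real.log 2 ≤ Real.log M := Real.log_le_log (by norm_num) hM.le
  have hKr : ((KK D κ : ℕ) : ℝ) = ((D : ℝ) + 1) * ((κ : ℝ) + 1) := by
    unfold KK
    push_cast
    ring
  rw [hKr] at w1 w2
  have key := nu_alg (n := n) (d := (D : ℝ) + 1) (q := (κ : ℝ) + 1) (l := la)
    (x := Real.log (16 * R) / Real.log M) (y := Real.log A2 / Real.log M) (r0 := r0) (K' := K')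
    (k0 := k0) (κ := κ) (D := D) (by exact_mod_cast hn) (by linarith [Nat.cast_nonneg (α := ℝ) D])
    (by linarith [Nat.cast_nonneg (α := ℝ) κ]) (Nat.cast_nonneg _) rfl (Nat.cast_nonneg _) rfl
    (by positivity) (by positivity) (Nat.cast_nonneg _) (Nat.cast_nonneg _) (Nat.cast_nonneg _)
    (by
      rw [← mul_div_assoc, div_le_one hL]
      exact w1)
    (by
      rw [← mul_div_assoc, div_le_iff₀ hL]
      exact w2)
    (by
      have h3 : (K' : ℝ) * (Real.log (16 * R) / Real.log M) + ((D : ℝ) + 1) *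
          (Real.log A2 / Real.log M + k0 * (Real.log (16 * R) / Real.log M)) =
          (K' * Real.log (16 * R) + ((D : ℝ) + 1) * (Real.log A2 + k0 * Real.log (16 * R))) /
            Real.log M := by
        field_simp
      rw [h3, le_div_iff₀ hL]
      exact w3)
    (by
      have h3 : 1 + ((3 * (n : ℝ) * la + κ * D) * r0 + κ * ((r0 : ℝ) ^ 2 + K')) +
          ((K' : ℝ) * (Real.log (16 * R) / Real.log M) +
            (Real.log A2 / Real.log M + k0 * (Real.log (16 * R) / Real.log M))) =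
          (Real.log M + ((3 * (n : ℝ) * la + κ * D) * r0 + κ * ((r0 : ℝ) ^ 2 + K')) *
            Real.log M + (K' * Real.log (16 * R) + (Real.log A2 + k0 * Real.log (16 * R)))) /
            Real.log M := by
        field_simp
      rw [h3, le_div_iff₀ hL]
      push_cast at w4
      linarith)
    (by exact_mod_cast hr0)
    (by
      have h3 : 10 ^ 6 * n ^ 4 * KK D κ ≤ la := hl3
      have h4 : ((10 ^ 6 * n ^ 4 * KK D κ : ℕ) : ℝ) ≤ la := by exact_mod_cast h3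
      push_cast at h4
      rw [hKr] at h4
      linarith)
  have h5 : (la : ℝ) < 8 * (κ + 1) * K := by exact_mod_cast hK
  have h6 : (K : ℝ) ≤ K' + r0 := by exact_mod_cast hKK
  have h7 : ((κ : ℝ) + 1) * K ≤ (κ + 1) * (K' + r0) := by gcongr
  linarith

end Pool.Agent.H87.SA2
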