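import Pool.Agent.H87.SA.Coord

/-! # [SA2-CRDR] Integer coordinates relative to a subfield

`exists_coordR`: `c a j = Algebra.trace ℤ (𝓞 F) (a * z'^j)`, `z' ∈ 𝓞 F` the image of `z`
(`algebraMap (𝓞 k) (𝓞 F)` or by hand). Bound: `co_bound` (`Pool/Agent/H87/SA/Coord.lean`, proved) and
`house (algebraMap k F z) ≤ house z` (an embedding of `F` restricts to one of `k`), as in
`exists_coordE` there. Injectivity on `k`: if `a` is the image of `b ∈ k` then
`Tr_{F/ℚ}(a z'^j) = Tr_{k/ℚ}(Tr_{F/k}(b z^j)) = [F : k] Tr_{k/ℚ}(b z^j)` (`Algebra.trace_trace`,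
`Algebra.trace_algebraMap`), so all `Tr_{k/ℚ}(b z^j) = 0`, `j < [k : ℚ]`, and `b = 0` by `co_zero`. -/

namespace Pool.Agent.H87.SA2

open Finset Polynomial NumberField Pool.Agent.H87.SA

theorem house_map_le {k F : Type} [Field k] [NumberField k] [Field F] [NumberField F]
    [Algebra k F] (z : k) : house (algebraMap k F z) ≤ house z := by
  have h0 : ∀ σ : F →+* ℂ, ‖σ (algebraMap k F z)‖ ≤ house z := fun σ =>
    norm_embedding_le_house z (σ.comp (algebraMap k F))
  rw [house]
  refine (pi_norm_le_iff_of_nonneg (house_nonneg z)).2 fun σ => ?_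
  exact h0 σ

theorem exists_coordR {k F : Type} [Field k] [NumberField k] [Field F] [NumberField F]
    [Algebra k F] (z : 𝓞 k) (hz : IntermediateField.adjoin ℚ {(z : k)} = ⊤) {Y : ℝ} (hY : 1 ≤ Y)
    (hzY : house (z : k) ≤ Y) :
    ∃ c : 𝓞 F →+ (Fin (Module.finrank ℚ k) → ℤ),
      (∀ a : 𝓞 F, (∃ b : k, algebraMap k F b = (a : F)) → c a = 0 → a = 0) ∧
      ∀ a i, |((c a i : ℤ) : ℝ)| ≤
        (Module.finrank ℚ F * Y ^ Module.finrank ℚ k) * house (a : F) := by
  have hzi : IsIntegral ℤ (algebraMap k F (z : k)) := by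
    have h1 : IsIntegral ℤ (z : k) := z.2
    exact h1.map ((algebraMap k F).toIntAlgHom)
  obtain ⟨z', hz'⟩ : ∃ z' : 𝓞 F, (z' : F) = algebraMap k F (z : k) := ⟨⟨_, hzi⟩, rfl⟩
  let c : 𝓞 F →+ (Fin (Module.finrank ℚ k) → ℤ) :=
    { toFun := fun a i => Algebra.trace ℤ (𝓞 F) (a * z' ^ (i : ℕ))
      map_zero' := by
        funext i
        simp
      map_add' := by
        intro a b
        funext i
        simp only [Pi.add_apply]
        rw [add_mul, map_add] }
  refine ⟨c, ?_, ?_⟩
  · rintro a ⟨b, hb⟩ ha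
    have h1 : b = 0 := by
      refine co_zero (z : k) hz b fun j hj => ?_
      have h2 : Algebra.trace ℤ (𝓞 F) (a * z' ^ j) = 0 := congrFun ha ⟨j, hj⟩
      have h3 := Algebra.coe_trace_int (a * z' ^ j)
      rw [h2] at h3
      have h4 : ((a * z' ^ j : 𝓞 F) : F) = algebraMap k F (b * (z : k) ^ j) := by
        simp [hb, hz']
      rw [h4] at h3
      have htow : IsScalarTower ℚ k F := IsScalarTower.of_algebraMap_eq fun x => by simp
      have hfin : FiniteDimensional k F := Module.Finite.of_restrictScalars_finite ℚ k F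
      have h5 := Algebra.trace_trace (R := ℚ) (S := k) (T := F) (algebraMap k F (b * (z : k) ^ j))
      rw [Algebra.trace_algebraMap, map_nsmul] at h5
      rw [← h5] at h3
      have h6 : Module.finrank k F ≠ 0 := Module.finrank_pos.ne'
      rw [Int.cast_zero, eq_comm, smul_eq_zero] at h3
      exact h3.resolve_left h6
    have h2 : (a : F) = 0 := by rw [← hb, h1, map_zero]
    exact_mod_cast h2
  · intro a i
    refine (co_bound (a * z' ^ (i : ℕ))).trans ?_
    have h4 : ((a * z' ^ (i : ℕ) : 𝓞 F) : F) = (a : F) * (algebraMap k F (z : k)) ^ (i : ℕ) := by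
      simp [hz']
    rw [h4]
    have h5 : house ((a : F) * (algebraMap k F (z : k)) ^ (i : ℕ)) ≤
        house (a : F) * Y ^ Module.finrank ℚ k := by
      refine (house_mul_le _ _).trans (mul_le_mul_of_nonneg_left ?_ (house_nonneg _))
      refine (house_pow_le _ _).trans ?_
      refine (pow_le_pow_left₀ (house_nonneg _) ((house_map_le (F := F) (z : k)).trans hzY) _).trans ?_
      exact pow_le_pow_right₀ hY i.2.le
    calc (Module.finrank ℚ F : ℝ) * house ((a : F) * (algebraMap k F (z : k)) ^ (i : ℕ))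
        ≤ (Module.finrank ℚ F : ℝ) * (house (a : F) * Y ^ Module.finrank ℚ k) :=
          mul_le_mul_of_nonneg_left h5 (Nat.cast_nonneg _)
      _ = _ := by ring

end Pool.Agent.H87.SA2
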