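import Pool.Agent.H87.SA2.YR
import Pool.Agent.H97.GA.Hens
import Pool.Agent.H97.GA.PeU
import Pool.Agent.H97.GA.FldC
import Pool.Agent.H97.GA.Disc

/-! # [SA2-DNR] The trace series at the rational point has integer coefficients after rescaling

Proof (as `Pool.Agent.H97.GA.Big`, `BigInt`, only the part with the `y`). The `yR i` are algebraic
integers (roots of the monic `gN`, `y_prodR`). `Ω`, `ι0`, `yo` from `exists_fieldC` (`FldC.lean`).
For `σ : Ω →+* ℂ` a permutation `π` with `σ (yo i) = yR (π i)` from `exists_permC`.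
`Δ = ∏ ei gN' (yR i)^2` is a positive integer: `exists_disc` (`Disc.lean`; check its exact form) or
`inv_intC`: the product is invariant under all `σ`, and it is the square of a nonzero real...
(`exists_disc` gives an integer `r` with `(r : ℂ) = ∏ ei p' (c i)`, so `Δ = r^2`).
`u i`: `hens_ex` over `𝓞 Ω` with `p = gN`, `Q = hNe ..`, `m := e m`, `y = yo i`,
`μ = ∏_{j ≠ i} ei gN' (yo j)^2`, so `μ (ei gN' (yo i))^2 = Δ` in `𝓞 Ω` (apply `ι0`, injective).
`σ` maps `coeff k (u i)` to `Δ^k coeff k (WR (π i))`: both `(u i).map σ` and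
`PowerSeries.rescale Δ (WR (π i))` (`W_eqR`, `pe_rescale`, `W_constR`) solve `pe gN hNe (e m) Δ = 0`
with constant coefficient `yR (π i)`; `pe_unique` (`ei gN' (yR j) ≠ 0` since the `yR` are distinct:
`ei_der` in `Disc.lean` or `Polynomial` derivative of a product).
`a_k = ∑_i wv d w (yo i) * coeff k (u i)` is mapped by every `σ` to the same number
(`Equiv.sum_comp`), so it is an integer (`inv_intC`). The bound of `Δ`:
`‖ei gN' (y i)‖ = ∏_{j ≠ i} ‖y i - y j‖ ≤ (4 R N^m)^(d-1)`. -/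

namespace Pool.Agent.H87.SA2

open Finset Polynomial NumberField Pool.Agent.H72.ES Pool.Agent.H87.SA Pool.Agent.H97.GA

variable {f : ℤ[X][X]} {d m N : ℕ} {pd : PData f d} {X0 : ℝ}

theorem dnr_const (i : Fin d) :
    PowerSeries.constantCoeff (WR pd m N X0 i) = yR pd m N X0 i := by
  unfold WR yR evC
  rw [map_mul, PowerSeries.constantCoeff_C, ← PowerSeries.coeff_zero_eq_constantCoeff_apply,
    PowerSeries.coeff_rescale, pow_zero, one_mul, PowerSeries.coeff_zero_eq_constantCoeff_apply]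

theorem dnr_norm (H : RHyp f d m pd N X0) (i : Fin d) :
    ‖yR pd m N X0 i‖ ≤ 2 * pd.R * (N : ℝ) ^ m := by
  have hR := pd.R_ge
  have hX := H.X1
  have hX0 : 0 < X0 := by linarith
  have hbig := H.big
  have h1 : pd.R * (1 / X0) ≤ 1 / 4 := by
    rw [mul_one_div, div_le_iff₀ hX0]
    linarith
  have h2 : ∀ k, ‖PowerSeries.coeff k (pd.x i)‖ ≤ pd.R * pd.R ^ k := by
    intro k
    have := pd.growth i k
    rwa [pow_succ'] at this
  have h3 := evC_near (h := 1 / X0) (by positivity) (by linarith : (0 : ℝ) ≤ pd.R)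
    (by linarith) h2
  have h4 : ‖PowerSeries.constantCoeff (pd.x i)‖ ≤ pd.R := by
    have := h2 0
    rwa [pow_zero, mul_one, PowerSeries.coeff_zero_eq_constantCoeff_apply] at this
  have h5 : ‖evC (1 / X0) (pd.x i)‖ ≤ 2 * pd.R := by
    have e1 : evC (1 / X0) (pd.x i) = (evC (1 / X0) (pd.x i) -
        PowerSeries.constantCoeff (pd.x i)) + PowerSeries.constantCoeff (pd.x i) := by ring
    have e2 := norm_add_le (evC (1 / X0) (pd.x i) - PowerSeries.constantCoeff (pd.x i))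
      (PowerSeries.constantCoeff (pd.x i))
    rw [← e1] at e2
    have e3 : 4 * pd.R * pd.R * (1 / X0) ≤ pd.R := by
      have : 4 * pd.R * (pd.R * (1 / X0)) ≤ 4 * pd.R * (1 / 4) :=
        mul_le_mul_of_nonneg_left h1 (by linarith)
      linarith
    linarith
  unfold yR
  rw [norm_mul, norm_pow, Complex.norm_natCast]
  have h6 : (0 : ℝ) ≤ (N : ℝ) ^ m := by positivity
  calc (N : ℝ) ^ m * ‖evC (1 / X0) (pd.x i)‖ ≤ (N : ℝ) ^ m * (2 * pd.R) :=
        mul_le_mul_of_nonneg_left h5 h6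
    _ = 2 * pd.R * (N : ℝ) ^ m := by ring

theorem dnr_monic (H : RHyp f d m pd N X0) : (gN d m (af f) N).Monic := by
  refine Polynomial.monic_of_injective (f := Int.castRingHom ℂ) (Int.cast_injective) ?_
  rw [y_prodR H]
  exact Polynomial.monic_prod_of_monic _ _ fun i _ => Polynomial.monic_X_sub_C _

theorem dnr_root (H : RHyp f d m pd N X0) (i : Fin d) :
    ei (gN d m (af f) N) (yR pd m N X0 i) = 0 := by
  unfold ei
  rw [← Polynomial.eval_map, y_prodR H, Polynomial.eval_prod]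
  exact Finset.prod_eq_zero (Finset.mem_univ i) (by simp)

theorem dnr_int (H : RHyp f d m pd N X0) (i : Fin d) : IsIntegral ℤ (yR pd m N X0 i) :=
  ⟨gN d m (af f) N, dnr_monic H, dnr_root H i⟩

theorem dnr_der (H : RHyp f d m pd N X0) (i : Fin d) :
    ei (derivative (gN d m (af f) N)) (yR pd m N X0 i) ≠ 0 := by
  rw [ei_der (y_prodR H) i, Finset.prod_ne_zero_iff]
  intro j hj h0
  exact (Finset.ne_of_mem_erase hj) (y_injR H (sub_eq_zero.1 h0)).symm

theorem dnr_one (H : RHyp f d m pd N X0) : 1 ≤ 4 * pd.R * (N : ℝ) ^ m := by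
  have hR := pd.R_ge
  have hN : (1 : ℝ) ≤ N := by exact_mod_cast H.N1
  have h1 : (1 : ℝ) ≤ (N : ℝ) ^ m := one_le_pow₀ hN
  nlinarith

theorem dnr_bd (H : RHyp f d m pd N X0) (i : Fin d) :
    ‖ei (derivative (gN d m (af f) N)) (yR pd m N X0 i)‖ ≤ (4 * pd.R * (N : ℝ) ^ m) ^ d := by
  rw [ei_der (y_prodR H) i, norm_prod]
  have h1 : ∀ j ∈ univ.erase i, ‖yR pd m N X0 i - yR pd m N X0 j‖ ≤ 4 * pd.R * (N : ℝ) ^ m := by
    intro j _
    have h2 := norm_sub_le (yR pd m N X0 i) (yR pd m N X0 j)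
    have h3 := dnr_norm H i
    have h4 := dnr_norm H j
    linarith
  calc ∏ j ∈ univ.erase i, ‖yR pd m N X0 i - yR pd m N X0 j‖
      ≤ ∏ _j ∈ univ.erase i, (4 * pd.R * (N : ℝ) ^ m) :=
        Finset.prod_le_prod (fun _ _ => norm_nonneg _) h1
    _ = (4 * pd.R * (N : ℝ) ^ m) ^ (univ.erase i).card := by rw [Finset.prod_const]
    _ ≤ (4 * pd.R * (N : ℝ) ^ m) ^ d := by
        apply pow_le_pow_right₀ (dnr_one H)
        refine (Finset.card_erase_le).trans (le_of_eq ?_)
        rw [Finset.card_univ, Fintype.card_fin]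

/-- the embedding of the ring of integers -/
private noncomputable def dnrE {k : Type} [Field k] [NumberField k] (σ : k →+* ℂ) : 𝓞 k →+* ℂ :=
  σ.comp (algebraMap (𝓞 k) k)

private theorem dnrE_apply {k : Type} [Field k] [NumberField k] (σ : k →+* ℂ) (a : 𝓞 k) :
    dnrE σ a = σ (a : k) := rfl

private theorem dnrE_inj {k : Type} [Field k] [NumberField k] (σ : k →+* ℂ) :
    Function.Injective (dnrE σ) := by
  intro a b hab
  exact RingOfIntegers.ext (σ.injective hab)

theorem dn_R (H : RHyp f d m pd N X0) :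
    ∃ Δ : ℤ, 1 ≤ Δ ∧ (Δ : ℝ) ≤ (4 * pd.R * (N : ℝ) ^ m) ^ (2 * d ^ 2) ∧
      ∀ w k : ℕ, ∃ z : ℤ, (z : ℂ) = (Δ : ℂ) ^ k *
        ∑ i, wv d w (yR pd m N X0 i) * PowerSeries.coeff k (WR pd m N X0 i) := by
  classical
  obtain ⟨p, hp⟩ : ∃ p : ℤ[X], p = gN d m (af f) N := ⟨_, rfl⟩
  obtain ⟨Q, hQ⟩ : ∃ Q : ℕ → ℤ[X], Q = hNe d m pd.e (af f) N := ⟨_, rfl⟩
  obtain ⟨y, hy⟩ : ∃ y : Fin d → ℂ, y = yR pd m N X0 := ⟨_, rfl⟩
  have hprod : p.map (Int.castRingHom ℂ) = ∏ i, (X - C (y i)) := by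
    rw [hp, hy]; exact y_prodR H
  have hinj : Function.Injective y := by rw [hy]; exact y_injR H
  have hroot : ∀ i, ei p (y i) = 0 := fun i => by rw [hp, hy]; exact dnr_root H i
  have hder : ∀ i, ei (derivative p) (y i) ≠ 0 := fun i => by rw [hp, hy]; exact dnr_der H i
  have hint : ∀ i, IsIntegral ℤ (y i) := fun i => by rw [hy]; exact dnr_int H i
  obtain ⟨r, hr0, hr⟩ := exists_disc hinj hprod
  have hr2 : ((r ^ 2 : ℤ) : ℂ) = ∏ i, ei (derivative p) (y i) ^ 2 := by
    push_cast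
    rw [hr, Finset.prod_pow]
  refine ⟨r ^ 2, ?_, ?_, ?_⟩
  · have : 0 < r ^ 2 := by positivity
    omega
  · have h1 : ((r ^ 2 : ℤ) : ℝ) = ‖((r ^ 2 : ℤ) : ℂ)‖ := by
      rw [Complex.norm_intCast, abs_of_nonneg]
      have : (0 : ℤ) ≤ r ^ 2 := by positivity
      exact_mod_cast this
    rw [h1, hr2, norm_prod]
    have h2 : ∀ i ∈ (univ : Finset (Fin d)), ‖ei (derivative p) (y i) ^ 2‖ ≤
        (4 * pd.R * (N : ℝ) ^ m) ^ (2 * d) := by
      intro i _
      rw [norm_pow, hp, hy, mul_comm 2 d, pow_mul]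
      exact pow_le_pow_left₀ (norm_nonneg _) (dnr_bd H i) 2
    refine (Finset.prod_le_prod (fun _ _ => norm_nonneg _) h2).trans (le_of_eq ?_)
    rw [Finset.prod_const, Finset.card_univ, Fintype.card_fin, ← pow_mul]
    congr 1
    ring
  · intro w n
    obtain ⟨k, _, _, ι0, yo, hyo, -⟩ := exists_fieldC y hint
    have hyo' : ∀ i, dnrE ι0 (yo i) = y i := hyo
    have hrooto : ∀ i, ei p (yo i) = 0 := by
      intro i
      apply dnrE_inj ι0
      rw [map_ei, map_zero, hyo', hroot]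
    have hΔ : ∀ i, (∏ j ∈ univ.erase i, ei (derivative p) (yo j) ^ 2) *
        ei (derivative p) (yo i) ^ 2 = ((r ^ 2 : ℤ) : 𝓞 k) := by
      intro i
      rw [Finset.prod_erase_mul _ _ (Finset.mem_univ i)]
      apply dnrE_inj ι0
      rw [map_prod, map_intCast, hr2]
      refine Finset.prod_congr rfl fun j _ => ?_
      rw [map_pow, map_ei, hyo']
    have hu : ∀ i, ∃ u : PowerSeries (𝓞 k), PowerSeries.constantCoeff u = yo i ∧
        pe p Q (pd.e * m) (((r ^ 2 : ℤ) : 𝓞 k)) u = 0 := by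
      intro i
      obtain ⟨u, hu1, hu2⟩ := hens_ex p Q (pd.e * m) (yo i)
        (∏ j ∈ univ.erase i, ei (derivative p) (yo j) ^ 2) (hrooto i)
      rw [hΔ i] at hu2
      exact ⟨u, hu1, hu2⟩
    choose u hu0 hu1 using hu
    obtain ⟨a, ha⟩ : ∃ a : 𝓞 k, a = ∑ i, wv d w (yo i) * PowerSeries.coeff n (u i) := ⟨_, rfl⟩
    have hσ : ∀ σ : k →+* ℂ, dnrE σ a = (((r ^ 2 : ℤ) : ℂ)) ^ n *
        ∑ i, wv d w (y i) * PowerSeries.coeff n (WR pd m N X0 i) := by
      intro σ
      obtain ⟨π, hπ⟩ := exists_permC hinj hprod ι0 (fun i => (yo i : k)) hyo σ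
      have hπ' : ∀ i, dnrE σ (yo i) = y (π i) := hπ
      have hser : ∀ i, (u i).map (dnrE σ) =
          PowerSeries.rescale (((r ^ 2 : ℤ) : ℂ)) (WR pd m N X0 (π i)) := by
        intro i
        apply pe_unique p Q (pd.e * m) (y (π i)) (((r ^ 2 : ℤ) : ℂ)) (hder (π i))
        · rw [← PowerSeries.coeff_zero_eq_constantCoeff_apply, PowerSeries.coeff_map,
            PowerSeries.coeff_zero_eq_constantCoeff_apply, hu0, hπ']
        · rw [← PowerSeries.coeff_zero_eq_constantCoeff_apply, PowerSeries.coeff_rescale, pow_zero,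
            one_mul, PowerSeries.coeff_zero_eq_constantCoeff_apply, dnr_const, hy]
        · have h1 := map_pe (dnrE σ) p Q (pd.e * m) (((r ^ 2 : ℤ) : 𝓞 k)) (u i)
          rw [hu1 i, map_zero, map_intCast] at h1
          exact h1.symm
        · have h1 := pe_rescale p Q (pd.e * m) 1 (((r ^ 2 : ℤ) : ℂ)) (WR pd m N X0 (π i))
          have h2 : pe p Q (pd.e * m) 1 (WR pd m N X0 (π i)) = 0 := by
            rw [hp, hQ]; exact W_eqR H (π i)
          rw [h2, map_zero, one_mul] at h1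
          exact h1.symm
      have hco : ∀ i, dnrE σ (PowerSeries.coeff n (u i)) =
          (((r ^ 2 : ℤ) : ℂ)) ^ n * PowerSeries.coeff n (WR pd m N X0 (π i)) := by
        intro i
        have h1 := congrArg (PowerSeries.coeff n) (hser i)
        rw [PowerSeries.coeff_map, PowerSeries.coeff_rescale] at h1
        exact h1
      rw [ha, map_sum, ← Equiv.sum_comp π (fun i => wv d w (y i) *
        PowerSeries.coeff n (WR pd m N X0 i)), Finset.mul_sum]
      refine Finset.sum_congr rfl fun i _ => ?_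
      rw [map_mul, map_wv, hπ', hco]
      ring
    obtain ⟨z, hz⟩ := inv_intC ι0 a fun σ => by
      have h1 := hσ σ
      have h2 := hσ ι0
      rw [dnrE_apply] at h1 h2
      rw [h1, h2]
    refine ⟨z, ?_⟩
    rw [← hy, ← hσ ι0, hz, map_intCast]

end Pool.Agent.H87.SA2
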