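import Pool.Agent.H87.SA.Coord

/-! # [SA2-EXT] Adjoining the real number `X0`

`exists_ext`: make `ℝ` a `k`-algebra through `ι` (`RingHom.toAlgebra`), `F = IntermediateField.adjoin k {X0}`,
`x0` its generator (integral over `ℤ`: root of `X^e - M`), `ι'` the inclusion. `NumberField F`:
characteristic `0`, finite over `k` (`X0` integral over `k`) hence over `ℚ`
(`Module.Finite.trans`/`FiniteDimensional.trans`, the `ℚ`-algebra structures on `F` agree:
`Subsingleton` of `ℚ`-algebra structures / `Rat.algebra_rat_subsingleton`). Degree: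
`[F : k] = deg (minpoly k X0) ≤ e` because `X^e - M` kills `X0`. -/

namespace Pool.Agent.H87.SA2

open Finset Polynomial NumberField Pool.Agent.H87.SA

theorem exists_ext {k : Type} [Field k] [NumberField k] (ι : k →+* ℝ) {e M : ℕ} (he : 1 ≤ e)
    {X0 : ℝ} (hM : X0 ^ e = (M : ℝ)) :
    ∃ (F : Type) (_ : Field F) (_ : NumberField F) (_ : Algebra k F) (ι' : F →+* ℝ) (x0 : 𝓞 F),
      (∀ a : k, ι' (algebraMap k F a) = ι a) ∧ ι' (x0 : F) = X0 ∧
      Module.finrank ℚ F ≤ e * Module.finrank ℚ k ∧ Module.finrank ℚ k ≤ Module.finrank ℚ F := by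
  let a1 : Algebra k ℝ := ι.toAlgebra
  have hmon : (X ^ e - C (M : k) : k[X]).Monic := monic_X_pow_sub_C _ (by omega)
  have hroot : aeval X0 (X ^ e - C (M : k) : k[X]) = 0 := by
    rw [map_sub, map_pow, aeval_X, aeval_C, map_natCast, hM, sub_self]
  have hint : IsIntegral k X0 := ⟨_, hmon, hroot⟩
  have hfin : FiniteDimensional k (IntermediateField.adjoin k ({X0} : Set ℝ)) :=
    IntermediateField.adjoin.finiteDimensional hint
  have hdeg : Module.finrank k (IntermediateField.adjoin k ({X0} : Set ℝ)) ≤ e := by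
    rw [IntermediateField.adjoin.finrank hint]
    refine (natDegree_le_of_dvd (minpoly.dvd k X0 hroot) hmon.ne_zero).trans ?_
    rw [natDegree_X_pow_sub_C]
  have hchar : CharZero (IntermediateField.adjoin k ({X0} : Set ℝ)) := inferInstance
  have htow : IsScalarTower ℚ k (IntermediateField.adjoin k ({X0} : Set ℝ)) :=
    IsScalarTower.of_algebraMap_eq fun x => by simp
  have hfinQ : FiniteDimensional ℚ (IntermediateField.adjoin k ({X0} : Set ℝ)) :=
    Module.Finite.trans k _
  have hnf : NumberField (IntermediateField.adjoin k ({X0} : Set ℝ)) := { }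
  have hmul : Module.finrank ℚ k * Module.finrank k (IntermediateField.adjoin k ({X0} : Set ℝ)) =
      Module.finrank ℚ (IntermediateField.adjoin k ({X0} : Set ℝ)) := Module.finrank_mul_finrank _ _ _
  have hgen : IsIntegral ℤ (IntermediateField.AdjoinSimple.gen k X0) := by
    refine ⟨X ^ e - C (M : ℤ), monic_X_pow_sub_C _ (by omega), ?_⟩
    apply (algebraMap (IntermediateField.adjoin k ({X0} : Set ℝ)) ℝ).injective
    rw [map_zero, eval₂_sub, eval₂_X_pow, eval₂_C, map_sub, map_pow]
    have h1 : algebraMap (IntermediateField.adjoin k ({X0} : Set ℝ)) ℝ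
        (IntermediateField.AdjoinSimple.gen k X0) = X0 := IntermediateField.AdjoinSimple.algebraMap_gen k X0
    rw [h1, hM]
    simp
  refine ⟨IntermediateField.adjoin k ({X0} : Set ℝ), inferInstance, hnf, inferInstance,
    algebraMap (IntermediateField.adjoin k ({X0} : Set ℝ)) ℝ,
    ⟨IntermediateField.AdjoinSimple.gen k X0, hgen⟩, fun a => rfl, ?_, ?_, ?_⟩
  · exact IntermediateField.AdjoinSimple.algebraMap_gen k X0
  · rw [← hmul, mul_comm]
    exact Nat.mul_le_mul_right _ hdeg
  · rw [← hmul]
    exact Nat.le_mul_of_pos_right _ Module.finrank_pos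

end Pool.Agent.H87.SA2
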