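import Pool.Agent.H87.SA.NFG
import Pool.Agent.H97.GA.Fac2

/-! # [SA2-FACR] A factor of small degree over the ring of integers of the anchor field

Adapt `Pool.Agent.H87.SA.exists_fac` (`Pool/Agent/H87/SA/NFG.lean`, proved; all of it except the
degree can be copied: `g1 = minpoly (𝓞 k) θ`; see also `Pool/Agent/H97/GA/Fac2.lean`).
Degree: let `A = ι(k)` (a subfield of `ℝ`; or make `ℝ` a `k`-algebra through `ι`), `r = p.natDegree`.
`s = deg (minpoly ℚ(ξ) θ)`: `s deg (minpoly ℚ ξ) ≤ n` (`deg_K0` in that file proves it with `3` in place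
of `deg (minpoly ℚ ξ)`; the proof gives the product). `deg (minpoly A ξ) ≤ r` because
`p(ξ) = 0`, `p` monic over `A`. `deg (minpoly A θ) = [A(θ) : A] ≤ [A(ξ)(θ) : A(ξ)] [A(ξ) : A] ≤ s r`
(`minpoly` over the larger field `A(ξ) ⊇ ℚ(ξ)` divides the one over `ℚ(ξ)`). With
`3 r ≤ deg (minpoly ℚ ξ)`: `3 s r ≤ n`. -/

namespace Pool.Agent.H87.SA2

open Finset Polynomial NumberField Pool.Agent.H87.SA

/-- the degree over `k` is at most the degree over the field generated by `ξ` times the degree
of `ξ` over `k` -/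
theorem facR_deg {k : Type} [Field k] [NumberField k] (ι : k →+* ℝ) {θ : ℝ}
    (hint : IsIntegral ℤ θ) (ξ : ℝ) (p : k[X]) (hp : p.Monic) (hpξ : p.eval₂ ι ξ = 0) :
    (@minpoly k ℝ _ _ ι.toAlgebra θ).natDegree ≤
      (minpoly (IntermediateField.adjoin ℚ {ξ}) θ).natDegree * p.natDegree := by
  let algk : Algebra k ℝ := ι.toAlgebra
  have hintQ : IsIntegral ℚ θ := hint.tower_top
  have hintK : IsIntegral (IntermediateField.adjoin ℚ {ξ}) θ := hintQ.tower_top
  have towerQ : IsScalarTower ℚ k ℝ := inferInstance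
  have hck : IsIntegral k ξ := ⟨p, hp, hpξ⟩
  set F := IntermediateField.adjoin k {ξ} with hF
  have hθF : IsIntegral F θ := hintQ.tower_top
  set E := IntermediateField.adjoin F {θ} with hE
  have e1 : Module.finrank k F = (minpoly k ξ).natDegree := IntermediateField.adjoin.finrank hck
  have e2 : Module.finrank F E = (minpoly F θ).natDegree := IntermediateField.adjoin.finrank hθF
  have e3 : Module.finrank k F * Module.finrank F E = Module.finrank k E :=
    Module.finrank_mul_finrank k F E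
  have e4 : (minpoly k ξ).natDegree ≤ p.natDegree :=
    natDegree_le_of_dvd (minpoly.dvd k ξ hpξ) hp.ne_zero
  have hle : IntermediateField.adjoin ℚ {ξ} ≤ F.restrictScalars ℚ := by
    rw [IntermediateField.adjoin_simple_le_iff]
    exact IntermediateField.mem_adjoin_simple_self k ξ
  let φ : (IntermediateField.adjoin ℚ {ξ}) →+* F :=
    { toFun := fun x => ⟨(x : ℝ), hle x.2⟩
      map_one' := rfl
      map_mul' := fun _ _ => rfl
      map_zero' := rfl
      map_add' := fun _ _ => rfl }
  let algφ : Algebra (IntermediateField.adjoin ℚ {ξ}) F := φ.toAlgebra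
  have tower : IsScalarTower (IntermediateField.adjoin ℚ {ξ}) F ℝ :=
    IsScalarTower.of_algebraMap_eq (fun x => rfl)
  have e5 : (minpoly F θ).natDegree ≤ (minpoly (IntermediateField.adjoin ℚ {ξ}) θ).natDegree := by
    have h1 := minpoly.dvd_map_of_isScalarTower (IntermediateField.adjoin ℚ {ξ}) F θ
    have h2 := natDegree_le_of_dvd h1 ((minpoly.monic hintK).map _).ne_zero
    rw [(minpoly.monic hintK).natDegree_map] at h2
    exact h2
  have fdF : FiniteDimensional k F := IntermediateField.adjoin.finiteDimensional hck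
  have fdE : FiniteDimensional F E := IntermediateField.adjoin.finiteDimensional hθF
  have fdkE : FiniteDimensional k E := FiniteDimensional.trans k F E
  have e6 : (minpoly k θ).natDegree ≤ Module.finrank k E := by
    let θ' : E := ⟨θ, IntermediateField.mem_adjoin_simple_self F θ⟩
    have towerE : IsScalarTower k E ℝ := IsScalarTower.of_algebraMap_eq (fun x => rfl)
    have h1 : minpoly k θ = minpoly k θ' := by
      have := minpoly.algebraMap_eq (A := k) (B := E) (B' := ℝ)
        (FaithfulSMul.algebraMap_injective E ℝ) θ'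
      exact this
    rw [h1]
    exact minpoly.natDegree_le θ'
  rw [← e3, e1, e2] at e6
  calc (minpoly k θ).natDegree ≤ (minpoly k ξ).natDegree * (minpoly F θ).natDegree := e6
    _ ≤ p.natDegree * (minpoly (IntermediateField.adjoin ℚ {ξ}) θ).natDegree :=
        Nat.mul_le_mul e4 e5
    _ = _ := mul_comm _ _

theorem exists_facR {k : Type} [Field k] [NumberField k] (ι : k →+* ℝ) {n : ℕ} {f : ℤ[X]}
    (hm : f.Monic) (hd : f.natDegree = n) (hf : Irreducible f) (θ : ℝ) (hθ : aeval θ f = 0)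
    (ξ : ℝ) (hξ1 : ξ ∈ IntermediateField.adjoin ℚ {θ}) (p : k[X]) (hp : p.Monic)
    (hpξ : p.eval₂ ι ξ = 0) (hξ3 : 3 * p.natDegree ≤ (minpoly ℚ ξ).natDegree) :
    ∃ g1 : (𝓞 k)[X], g1.Monic ∧ 0 < g1.natDegree ∧ 3 * g1.natDegree ≤ n ∧
      g1 ∣ f.map (algebraMap ℤ (𝓞 k)) ∧ eval₂ (ι.comp (algebraMap (𝓞 k) k)) θ g1 = 0 := by
  have hint : IsIntegral ℤ θ := ⟨f, hm, hθ⟩
  have hcpos : 0 < p.natDegree := by
    rcases Nat.eq_zero_or_pos p.natDegree with h | h
    · exfalso
      rw [eq_one_of_monic_natDegree_zero hp h, eval₂_one] at hpξ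
      exact one_ne_zero hpξ
    · exact h
  have hξint : IsIntegral ℚ ξ := by
    by_contra h
    rw [minpoly.eq_zero h, natDegree_zero] at hξ3
    omega
  -- algebra structures
  let algk : Algebra k ℝ := ι.toAlgebra
  let algO : Algebra (𝓞 k) ℝ := (ι.comp (algebraMap (𝓞 k) k)).toAlgebra
  have tower : IsScalarTower (𝓞 k) k ℝ := IsScalarTower.of_algebraMap_eq (fun x => rfl)
  have inj : FaithfulSMul (𝓞 k) ℝ := by
    rw [faithfulSMul_iff_algebraMap_injective]
    exact ι.injective.comp (FaithfulSMul.algebraMap_injective (𝓞 k) k)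
  have hev : aeval θ (f.map (algebraMap ℤ (𝓞 k))) = 0 := by
    rw [aeval_map_algebraMap]
    exact hθ
  have hintO : IsIntegral (𝓞 k) θ := ⟨f.map (algebraMap ℤ (𝓞 k)), hm.map _, hev⟩
  refine ⟨minpoly (𝓞 k) θ, minpoly.monic hintO, minpoly.natDegree_pos hintO, ?_,
    minpoly.isIntegrallyClosed_dvd hintO hev, minpoly.aeval (𝓞 k) θ⟩
  have h1 : minpoly k θ = (minpoly (𝓞 k) θ).map (algebraMap (𝓞 k) k) :=
    minpoly.isIntegrallyClosed_eq_field_fractions' k hintO
  have h2 : (minpoly (𝓞 k) θ).natDegree = (minpoly k θ).natDegree := by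
    rw [h1, (minpoly.monic hintO).natDegree_map]
  rw [h2]
  have h3 := facR_deg ι hint ξ p hp hpξ
  have h4 := Pool.Agent.H97.GA.deg_K0_mul hm hd θ hθ ξ hξ1 hξint
  calc 3 * (minpoly k θ).natDegree ≤ 3 * ((minpoly (IntermediateField.adjoin ℚ {ξ}) θ).natDegree *
        p.natDegree) := Nat.mul_le_mul_left 3 h3
    _ = (3 * p.natDegree) *
        (minpoly (IntermediateField.adjoin ℚ {ξ}) θ).natDegree := by ring
    _ ≤ (minpoly ℚ ξ).natDegree * (minpoly (IntermediateField.adjoin ℚ {ξ}) θ).natDegree :=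
        Nat.mul_le_mul_right _ hξ3
    _ ≤ n := h4

end Pool.Agent.H87.SA2
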