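import Pool.Agent.H87.SA2.Defs
import Mathlib.NumberTheory.NumberField.Basic
import Mathlib.NumberTheory.NumberField.InfinitePlace.Embeddings

/-! # [SA2-INDR] Linear independence of the functions, and the field of their coefficients

`Z` has coefficients `x0^j ζ_j`, `ζ_j ∈ k`, i.e. mapped to `F⟦X⟧` it is
`rescale x0 (map (algebraMap k F) ζs)`, `ζs = PowerSeries.mk ζ`. So for `s ≤ K`
`zcR x0 e Z K s j = x0^(s % e) x0^(K - s) algebraMap (coeff (K - s) (ζs ^ j))` (`PowerSeries.coeff_X_pow_mul'`,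
`coeff_rescale`), and it is `0` for `s > K`. Write `r = (e - K % e) % e`, so `e ∣ K + r`; with
`s = e (s / e) + s % e` the exponent is
`r + s % e + (K - s) = e ((K + r) / e - s / e)`, so with `x0^e = M`:
`x0^r zcR x0 e Z K s j = M^((K + r) / e - s / e) algebraMap (coeff (K - s) (ζs ^ j))`. This is `zk_mem`.

`indepR`: the coefficients of `usR` (`coeff_usR` in `DnB.lean`, or directly) multiplied by `x0^r` give,
`algebraMap k F` being injective, for all `K`:
`∑_{s ≤ min J K, j < D} c s j M^((K + r) / e - s / e) coeff (K - s) (ζs ^ j) = 0` in `k`; dividing by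
`M^((K + r) / e)` (`M ≠ 0`): `∑_{s,j} (c s j / M^(s / e)) X^s ζs^j = 0` in `k⟦X⟧`. So `ζs` is a root of
`P = ∑_{j < D} C (C_j) X^j`, `C_j = ∑_s C (c s j / M^(s/e)) X^s ∈ ℚ⟦X⟧`. Apply the `D = [k : ℚ]` embeddings
`σ : k →+* ℂ` (`NumberField.Embeddings.card`): the `D` distinct (`hsep`) series `σ ζs` are roots of the
same polynomial over `ℂ⟦X⟧`, of degree `< D`, so it is `0`
(`Polynomial.eq_zero_of_natDegree_lt_card_of_eval_eq_zero`), all `C_j = 0` and all `c s j = 0`. -/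

namespace Pool.Agent.H87.SA2

open Finset Polynomial NumberField

theorem indr_map {k F : Type} [Field k] [Field F] [Algebra k F] (x0 : 𝓞 F) (ζ : ℕ → k)
    (Z : PowerSeries (𝓞 F))
    (hZ : ∀ j, ((PowerSeries.coeff j Z : 𝓞 F) : F) = (x0 : F) ^ j * algebraMap k F (ζ j)) :
    PowerSeries.map (algebraMap (𝓞 F) F) Z =
      PowerSeries.rescale (x0 : F) (PowerSeries.map (algebraMap k F) (PowerSeries.mk ζ)) := by
  ext j
  rw [PowerSeries.coeff_map, PowerSeries.coeff_rescale, PowerSeries.coeff_map,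
    PowerSeries.coeff_mk]
  exact hZ j

theorem indr_coeff {k F : Type} [Field k] [Field F] [Algebra k F] (x0 : 𝓞 F) (ζ : ℕ → k)
    (Z : PowerSeries (𝓞 F))
    (hZ : ∀ j, ((PowerSeries.coeff j Z : 𝓞 F) : F) = (x0 : F) ^ j * algebraMap k F (ζ j))
    (n j : ℕ) :
    ((PowerSeries.coeff n (Z ^ j) : 𝓞 F) : F) =
      (x0 : F) ^ n * algebraMap k F (PowerSeries.coeff n ((PowerSeries.mk ζ) ^ j)) := by
  have h1 : ((PowerSeries.coeff n (Z ^ j) : 𝓞 F) : F) =
      PowerSeries.coeff n (PowerSeries.map (algebraMap (𝓞 F) F) (Z ^ j)) := by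
    rw [PowerSeries.coeff_map]
  have h2 : (PowerSeries.map (algebraMap k F) (PowerSeries.mk ζ)) ^ j =
      PowerSeries.map (algebraMap k F) ((PowerSeries.mk ζ) ^ j) := (map_pow _ _ _).symm
  rw [h1, map_pow, indr_map x0 ζ Z hZ, ← map_pow, PowerSeries.coeff_rescale, h2,
    PowerSeries.coeff_map]

theorem indr_zc {k F : Type} [Field k] [Field F] [Algebra k F] {e M : ℕ} (he : 1 ≤ e)
    (x0 : 𝓞 F) (hx0 : (x0 : F) ^ e = (M : F)) (ζ : ℕ → k) (Z : PowerSeries (𝓞 F))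
    (hZ : ∀ j, ((PowerSeries.coeff j Z : 𝓞 F) : F) = (x0 : F) ^ j * algebraMap k F (ζ j))
    (K s j : ℕ) (hs : s ≤ K) :
    s / e ≤ (K + (e - K % e) % e) / e ∧
    algebraMap k F ((M : k) ^ ((K + (e - K % e) % e) / e - s / e) *
        PowerSeries.coeff (K - s) ((PowerSeries.mk ζ) ^ j)) =
      (x0 : F) ^ ((e - K % e) % e) * ((zcR x0 e Z K s j : 𝓞 F) : F) := by
  obtain ⟨r, hr⟩ : ∃ r, r = (e - K % e) % e := ⟨_, rfl⟩
  have hdiv : e ∣ K + r := by
    have h1 : K % e < e := Nat.mod_lt _ he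
    have h2 := Nat.mod_add_div K e
    rcases Nat.eq_zero_or_pos (K % e) with h0 | h0
    · rw [hr, h0, Nat.sub_zero, Nat.mod_self, Nat.add_zero]
      exact Nat.dvd_of_mod_eq_zero h0
    · rw [hr, Nat.mod_eq_of_lt (by omega)]
      refine ⟨K / e + 1, ?_⟩
      rw [mul_add, mul_one]
      omega
  obtain ⟨q, hq⟩ := hdiv
  have hq' : (K + (e - K % e) % e) / e = q := by
    rw [← hr, hq]
    exact Nat.mul_div_cancel_left q (by omega)
  have hse : s / e ≤ q := by
    have h1 : s ≤ e * q := by omega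
    exact Nat.div_le_of_le_mul h1
  have hmd := Nat.mod_add_div s e
  have hexp : r + (s % e + (K - s)) = e * (q - s / e) := by
    have h3 : e * (s / e) ≤ e * q := Nat.mul_le_mul_left e hse
    rw [Nat.mul_sub]
    omega
  refine ⟨by rw [hq']; exact hse, ?_⟩
  rw [hq', ← hr]
  unfold zcR
  rw [PowerSeries.coeff_X_pow_mul', if_pos hs]
  have h5 : (((x0 ^ (s % e) * PowerSeries.coeff (K - s) (Z ^ j) : 𝓞 F)) : F) =
      (x0 : F) ^ (s % e) * ((x0 : F) ^ (K - s) *
        algebraMap k F (PowerSeries.coeff (K - s) ((PowerSeries.mk ζ) ^ j))) := by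
    rw [← indr_coeff x0 ζ Z hZ]
    push_cast
    rfl
  rw [h5, ← mul_assoc, ← mul_assoc, ← pow_add, ← pow_add, add_assoc, hexp, pow_mul, hx0, map_mul,
    map_pow, map_natCast]

theorem indr_zero {F : Type} [Field F] (x0 : 𝓞 F) (e : ℕ) (Z : PowerSeries (𝓞 F))
    (K s j : ℕ) (hs : ¬ s ≤ K) : zcR x0 e Z K s j = 0 := by
  unfold zcR
  rw [PowerSeries.coeff_X_pow_mul', if_neg hs, mul_zero]

theorem zk_mem {k F : Type} [Field k] [Field F] [Algebra k F] {e M : ℕ} (he : 1 ≤ e)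
    (x0 : 𝓞 F) (hx0 : (x0 : F) ^ e = (M : F)) (ζ : ℕ → k) (Z : PowerSeries (𝓞 F))
    (hZ : ∀ j, ((PowerSeries.coeff j Z : 𝓞 F) : F) = (x0 : F) ^ j * algebraMap k F (ζ j))
    (K s j : ℕ) :
    ∃ b : k, algebraMap k F b =
      (x0 : F) ^ ((e - K % e) % e) * ((zcR x0 e Z K s j : 𝓞 F) : F) := by
  by_cases hs : s ≤ K
  · exact ⟨_, (indr_zc he x0 hx0 ζ Z hZ K s j hs).2⟩
  · refine ⟨0, ?_⟩
    rw [indr_zero x0 e Z K s j hs, map_zero]
    simp

theorem indr_T {k F : Type} [Field k] [CharZero k] [Field F] [Algebra k F]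
    {e M : ℕ} (he : 1 ≤ e) (hM : 1 ≤ M) (x0 : 𝓞 F) (hx0 : (x0 : F) ^ e = (M : F)) (ζ : ℕ → k)
    (Z : PowerSeries (𝓞 F))
    (hZ : ∀ j, ((PowerSeries.coeff j Z : 𝓞 F) : F) = (x0 : F) ^ j * algebraMap k F (ζ j))
    (J D : ℕ) (c : ℕ → ℕ → ℤ) (h : usR x0 e J D c Z = 0) :
    ∑ s ∈ range (J + 1), ∑ j ∈ range D, PowerSeries.C ((c s j : k) / (M : k) ^ (s / e)) *
      (PowerSeries.X ^ s * (PowerSeries.mk ζ) ^ j) = 0 := by
  ext K
  rw [map_zero, map_sum]
  have hMk : (M : k) ≠ 0 := by exact_mod_cast (by omega : M ≠ 0)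
  -- the coefficient of `usR`
  have h1 : ∑ s ∈ range (J + 1), ∑ j ∈ range D, (c s j : F) *
      ((zcR x0 e Z K s j : 𝓞 F) : F) = 0 := by
    have h2 : algebraMap (𝓞 F) F (PowerSeries.coeff K (usR x0 e J D c Z)) =
        algebraMap (𝓞 F) F (PowerSeries.coeff K (0 : PowerSeries (𝓞 F))) := by rw [h]
    unfold usR at h2
    rw [map_zero, map_zero, map_sum, map_sum] at h2
    rw [← h2]
    refine sum_congr rfl fun s _ => ?_
    rw [map_sum, map_sum]
    refine sum_congr rfl fun j _ => ?_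
    have h3 : ((c s j : ℤ) : PowerSeries (𝓞 F)) = PowerSeries.C ((c s j : ℤ) : 𝓞 F) :=
      (map_intCast (PowerSeries.C (R := 𝓞 F)) (c s j)).symm
    rw [h3, PowerSeries.coeff_C_mul, PowerSeries.coeff_C_mul, map_mul, map_intCast]
    rfl
  obtain ⟨r, hr⟩ : ∃ r, r = (e - K % e) % e := ⟨_, rfl⟩
  obtain ⟨q, hq⟩ : ∃ q, q = (K + (e - K % e) % e) / e := ⟨_, rfl⟩
  have h4 : ∑ s ∈ range (J + 1), ∑ j ∈ range D, (c s j : k) *
      (if s ≤ K then (M : k) ^ (q - s / e) *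
        PowerSeries.coeff (K - s) ((PowerSeries.mk ζ) ^ j) else 0) = 0 := by
    apply (algebraMap k F).injective
    rw [map_zero, map_sum]
    have h5 : (x0 : F) ^ r * ∑ s ∈ range (J + 1), ∑ j ∈ range D, (c s j : F) *
      ((zcR x0 e Z K s j : 𝓞 F) : F) = 0 := by rw [h1, mul_zero]
    rw [← h5, mul_sum]
    refine sum_congr rfl fun s _ => ?_
    rw [map_sum, mul_sum]
    refine sum_congr rfl fun j _ => ?_
    rw [map_mul, map_intCast]
    by_cases hs : s ≤ K
    · rw [if_pos hs, hq, (indr_zc he x0 hx0 ζ Z hZ K s j hs).2, hr]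
      ring
    · rw [if_neg hs, indr_zero x0 e Z K s j hs, map_zero]
      simp
  have h6 : ∑ s ∈ range (J + 1), ∑ j ∈ range D, (c s j : k) *
      (if s ≤ K then (M : k) ^ (q - s / e) *
        PowerSeries.coeff (K - s) ((PowerSeries.mk ζ) ^ j) else 0) =
      (M : k) ^ q * ∑ s ∈ range (J + 1), PowerSeries.coeff K (∑ j ∈ range D,
        PowerSeries.C ((c s j : k) / (M : k) ^ (s / e)) *
        (PowerSeries.X ^ s * (PowerSeries.mk ζ) ^ j)) := by
    rw [mul_sum]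
    refine sum_congr rfl fun s _ => ?_
    rw [map_sum, mul_sum]
    refine sum_congr rfl fun j _ => ?_
    rw [PowerSeries.coeff_C_mul, PowerSeries.coeff_X_pow_mul']
    by_cases hs : s ≤ K
    · rw [if_pos hs, if_pos hs]
      have h7 := (indr_zc he x0 hx0 ζ Z hZ K s j hs).1
      rw [← hq] at h7
      have h8 : (M : k) ^ q = (M : k) ^ (q - s / e) * (M : k) ^ (s / e) := by
        rw [← pow_add, Nat.sub_add_cancel h7]
      rw [h8]
      have h9 : (M : k) ^ (s / e) ≠ 0 := pow_ne_zero _ hMk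
      field_simp
    · rw [if_neg hs, if_neg hs]
      ring
  rw [h6] at h4
  rcases mul_eq_zero.1 h4 with h7 | h7
  · exact absurd h7 (pow_ne_zero _ hMk)
  · exact h7

theorem indepR {k F : Type} [Field k] [NumberField k] [Field F] [NumberField F] [Algebra k F]
    {e M : ℕ} (he : 1 ≤ e) (hM : 1 ≤ M) (x0 : 𝓞 F) (hx0 : (x0 : F) ^ e = (M : F)) (ζ : ℕ → k)
    (Z : PowerSeries (𝓞 F))
    (hZ : ∀ j, ((PowerSeries.coeff j Z : 𝓞 F) : F) = (x0 : F) ^ j * algebraMap k F (ζ j))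
    (hsep : ∀ σ τ : k →+* ℂ, (∀ j, σ (ζ j) = τ (ζ j)) → σ = τ) (J : ℕ) (c : ℕ → ℕ → ℤ)
    (h : usR x0 e J (Module.finrank ℚ k) c Z = 0) :
    ∀ s ≤ J, ∀ j < Module.finrank ℚ k, c s j = 0 := by
  classical
  obtain ⟨D, hD⟩ : ∃ D, D = Module.finrank ℚ k := ⟨_, rfl⟩
  rw [← hD] at h ⊢
  have hDpos : 0 < D := by
    rw [hD]
    exact Module.finrank_pos
  have hT := indr_T he hM x0 hx0 ζ Z hZ J D c h
  obtain ⟨Cj, hCj⟩ : ∃ Cj : ℕ → PowerSeries ℂ, Cj = fun j => ∑ s ∈ range (J + 1),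
    PowerSeries.C ((c s j : ℂ) / (M : ℂ) ^ (s / e)) * PowerSeries.X ^ s := ⟨_, rfl⟩
  obtain ⟨P, hP⟩ : ∃ P : (PowerSeries ℂ)[X], P = ∑ j ∈ range D, C (Cj j) * X ^ j := ⟨_, rfl⟩
  have heval : ∀ σ : k →+* ℂ, P.eval (PowerSeries.map σ (PowerSeries.mk ζ)) = 0 := by
    intro σ
    have h1 := congrArg (PowerSeries.map σ) hT
    rw [map_zero, map_sum] at h1
    rw [hP, eval_finsetSum, ← h1]
    simp only [eval_mul, eval_C, eval_pow, eval_X, hCj, sum_mul]
    rw [sum_comm]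
    refine sum_congr rfl fun s _ => ?_
    rw [map_sum]
    refine sum_congr rfl fun j _ => ?_
    have hc : σ ((c s j : k) / (M : k) ^ (s / e)) = (c s j : ℂ) / (M : ℂ) ^ (s / e) := by
      rw [map_div₀, map_pow, map_natCast, map_intCast]
    rw [map_mul, map_mul, map_pow, map_pow, PowerSeries.map_C, PowerSeries.map_X, hc]
    ring
  have hinj : Function.Injective (fun σ : k →+* ℂ => PowerSeries.map σ (PowerSeries.mk ζ)) := by
    intro σ τ hst
    refine hsep σ τ fun j => ?_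
    have h1 := congrArg (PowerSeries.coeff j) hst
    simpa only [PowerSeries.coeff_map, PowerSeries.coeff_mk] using h1
  have hdeg : P.natDegree < Fintype.card (k →+* ℂ) := by
    rw [NumberField.Embeddings.card k ℂ, ← hD]
    have h1 : P.natDegree ≤ D - 1 := by
      rw [hP]
      refine natDegree_sum_le_of_forall_le _ _ fun j hj => ?_
      refine (natDegree_C_mul_X_pow_le _ _).trans ?_
      have := mem_range.1 hj
      omega
    omega
  have hP0 : P = 0 := Polynomial.eq_zero_of_natDegree_lt_card_of_eval_eq_zero P hinj heval hdeg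
  intro s hs j hj
  have h1 : Cj j = 0 := by
    have h2 := congrArg (fun p => coeff p j) hP0
    simp only [coeff_zero] at h2
    rw [hP, finsetSum_coeff] at h2
    simp only [coeff_C_mul_X_pow] at h2
    rw [Finset.sum_ite_eq, if_pos (mem_range.2 hj)] at h2
    exact h2
  rw [hCj] at h1
  have h3 := congrArg (PowerSeries.coeff s) h1
  rw [map_zero, map_sum] at h3
  simp only [PowerSeries.coeff_C_mul, PowerSeries.coeff_X_pow, mul_ite, mul_one, mul_zero] at h3
  rw [Finset.sum_ite_eq, if_pos (mem_range.2 (by omega))] at h3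
  have hMc : (M : ℂ) ^ (s / e) ≠ 0 := pow_ne_zero _ (by exact_mod_cast (by omega : M ≠ 0))
  rcases div_eq_zero_iff.1 h3 with h4 | h4
  · exact_mod_cast h4
  · exact absurd h4 hMc

end Pool.Agent.H87.SA2
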