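import Pool.Agent.H87.SA2.ADJR
import Pool.Agent.H87.SA.Coord
import Pool.Agent.H8.KF.JointEx

/-! # [SA2-OVERR] The common overring with integer coordinates, relative version

Adapt `Pool.Agent.H87.SA.exists_over` (`Pool/Agent/H87/SA/Over.lean`, proved). `𝓞 F` is the base,
`gF = g1.map (algebraMap (𝓞 k) (𝓞 F))` (monic, same degree, divides `f.map (algebraMap ℤ (𝓞 F))`),
`coeff_house` for `F`, `adj_normR` gives `ν, c1`, `L = AdjoinRoot gF`, `JE = AdjoinRoot.of gF`,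
`exists_ord_genR` gives `O`, `JO`; `JO b = aeval root p`, so
`c1 (JE a * JO b) i = a * (p.map .. %ₘ gF).coeff i`, and
`p.map (ℤ → 𝓞 F) %ₘ gF = (p.map (ℤ → 𝓞 k) %ₘ g1).map (algebraMap (𝓞 k) (𝓞 F))`
(`Polynomial.map_modByMonic`), so it is `a` times an element of `𝓞 k`: for `a ∈ Sk k'` it is in
`Sk k'` (`hS`). `coord k' s (i, j) = c k' (c1 s i) j` (indexed through `finProdFinEquiv.symm`), so for
`v` in the closure all `c1 v i ∈ Sk k'` (`AddSubgroup.closure_induction`) and `coord k' v = 0` gives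
`c1 v i = 0` for all `i` (`hc0`), `v = 0`. Sizes as in `exists_over`. -/

namespace Pool.Agent.H87.SA2

open Finset Polynomial NumberField Pool.Agent.H72.ES Pool.Agent.H8.KF Pool.Agent.H87.SA

theorem exists_overR {k F : Type} [Field k] [NumberField k] [Field F] [NumberField F]
    [Algebra k F] (ι' : F →+* ℝ) {n Q : ℕ} {f : ℤ[X]}
    (hn : 4 ≤ n) (hQ : 2 ^ n ≤ Q) (hm : f.Monic) (hd : f.natDegree = n)
    (hb : ∀ j, |f.coeff j| ≤ (Q : ℤ)) (hf : Irreducible f) (θ : ℝ) (hθ : aeval θ f = 0)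
    (g1 : (𝓞 k)[X]) (hg1 : g1.Monic) (hg0 : 0 < g1.natDegree) (hg3 : 3 * g1.natDegree ≤ n)
    (hgf : g1 ∣ f.map (algebraMap ℤ (𝓞 k)))
    (hgθ : eval₂ ((ι'.comp (algebraMap k F)).comp (algebraMap (𝓞 k) k)) θ g1 = 0)
    (D : ℕ) {C0 : ℝ} (hC0 : 1 ≤ C0) (c : ℕ → 𝓞 F →+ (Fin D → ℤ)) (Sk : ℕ → AddSubgroup (𝓞 F))
    (hS : ∀ k', ∀ a ∈ Sk k', ∀ b : 𝓞 F, (∃ b' : k, algebraMap k F b' = (b : F)) → a * b ∈ Sk k')
    (hc0 : ∀ k', ∀ a ∈ Sk k', c k' a = 0 → a = 0)
    (hcb : ∀ k' a i, |((c k' a i : ℤ) : ℝ)| ≤ C0 * house (a : F)) :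
    ∃ (O : Ord ℝ n Q f θ) (m : ℕ) (L : Type) (_ : CommRing L) (JE : 𝓞 F →+* L) (JO : O.R →+* L)
      (φ : L →+* ℝ) (coord : ℕ → L →+ (Fin m → ℤ)), 3 * m ≤ n * D ∧
      (∀ k', ∀ v ∈ AddSubgroup.closure {x : L | ∃ a ∈ Sk k', ∃ b, x = JE a * JO b},
        coord k' v = 0 → v = 0) ∧
      (∀ a : 𝓞 F, φ (JE a) = ι' (a : F)) ∧ (∀ a, φ (JO a) = O.φ a) ∧
      ∀ k' a b i, |((coord k' (JE a * JO b) i : ℤ) : ℝ)| ≤
        C0 * bb n Q * (house (a : F) * O.ν b) := by
  have hA := house_subMul F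
  have hQ1' : (1 : ℝ) ≤ Q := by
    have h2 : 1 ≤ 2 ^ n := Nat.one_le_two_pow
    exact_mod_cast h2.trans hQ
  obtain ⟨gF, hgF⟩ : ∃ gF : (𝓞 F)[X], gF = g1.map (algebraMap (𝓞 k) (𝓞 F)) := ⟨_, rfl⟩
  have hgFm : gF.Monic := by
    rw [hgF]
    exact hg1.map _
  have hgFd : gF.natDegree = g1.natDegree := by
    rw [hgF]
    exact hg1.natDegree_map _
  have hgFf : gF ∣ f.map (algebraMap ℤ (𝓞 F)) := by
    have h1 := map_dvd (Polynomial.mapRingHom (algebraMap (𝓞 k) (𝓞 F))) hgf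
    rw [coe_mapRingHom, Polynomial.map_map] at h1
    rw [hgF]
    have h2 : (algebraMap (𝓞 k) (𝓞 F)).comp (algebraMap ℤ (𝓞 k)) = algebraMap ℤ (𝓞 F) :=
      RingHom.ext_int _ _
    rw [h2] at h1
    exact h1
  have hgFθ : eval₂ (ι'.comp (algebraMap (𝓞 F) F)) θ gF = 0 := by
    rw [hgF, eval₂_map]
    exact hgθ
  obtain ⟨ν, hν, hof, hroot, c1, hc1, hcb1, hlin, hcp⟩ := adj_normR hA gF hgFm
    (by rw [hgFd]; exact hg0) ((Q : ℝ) ^ (2 * n + 2)) (one_le_pow₀ hQ1')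
    (coeff_house F hn hQ hm hd hb gF hgFm hgFf)
  have hsr : aeval (AdjoinRoot.root gF) f = 0 :=
    joint_root (AdjoinRoot.of gF) (AdjoinRoot.root gF) f gF hgFf (AdjoinRoot.eval₂_root gF)
  let φ : AdjoinRoot gF →+* ℝ := AdjoinRoot.lift (ι'.comp (algebraMap (𝓞 F) F)) θ hgFθ
  have hφs : φ (AdjoinRoot.root gF) = θ := AdjoinRoot.lift_root _
  obtain ⟨O, hO⟩ := exists_ord_genR hn hQ hm hd hb hf θ hθ
  obtain ⟨J, hJ, hJ', hJp⟩ := hO (AdjoinRoot gF) (AdjoinRoot.root gF) hsr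
  let cc : ℕ → AdjoinRoot gF →+ (Fin (gF.natDegree * D) → ℤ) := fun k' =>
    { toFun := fun s i => c k' (c1 s (finProdFinEquiv.symm i).1) (finProdFinEquiv.symm i).2
      map_zero' := by
        funext i
        simp
      map_add' := by
        intro x y
        funext i
        simp }
  refine ⟨O, gF.natDegree * D, AdjoinRoot gF, inferInstance, AdjoinRoot.of gF,
    J, φ, cc, ?_, ?_, ?_, hJ' φ hφs, ?_⟩
  · rw [← mul_assoc, hgFd]
    exact Nat.mul_le_mul_right _ hg3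
  · intro k' v hv hz
    have hmem : ∀ i, c1 v i ∈ Sk k' := by
      refine AddSubgroup.closure_induction (p := fun v _ => ∀ i, c1 v i ∈ Sk k') ?_ ?_ ?_ ?_ hv
      · rintro x ⟨a, ha, b, rfl⟩ i
        obtain ⟨q, hq⟩ := hJp b
        have h0 := hcp q i
        have key : ∀ r1 r2 : ℤ →+* AdjoinRoot gF,
            c1 (eval₂ r1 (AdjoinRoot.root gF) q) i = c1 (eval₂ r2 (AdjoinRoot.root gF) q) i :=
          fun r1 r2 => by rw [RingHom.ext_int r1 r2]
        have h2 : c1 (J b) i = (q.map (Int.castRingHom (𝓞 F)) %ₘ gF).coeff i := by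
          rw [hq]
          rw [aeval_def] at h0 ⊢
          exact (key _ _).trans h0
        rw [hlin, h2]
        have h1 : (q.map (Int.castRingHom (𝓞 F)) %ₘ gF) =
            (q.map (Int.castRingHom (𝓞 k)) %ₘ g1).map (algebraMap (𝓞 k) (𝓞 F)) := by
          rw [Polynomial.map_modByMonic _ hg1, Polynomial.map_map, hgF]
          congr 2
          exact RingHom.ext_int _ _
        rw [h1, coeff_map]
        exact hS k' a ha _ ⟨_, rfl⟩
      · intro i
        rw [map_zero]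
        exact (Sk k').zero_mem
      · intro x y _ _ hx hy i
        rw [map_add]
        exact (Sk k').add_mem (hx i) (hy i)
      · intro x _ hx i
        rw [map_neg]
        exact (Sk k').neg_mem (hx i)
    apply hc1
    rw [map_zero]
    funext i
    apply hc0 k' _ (hmem i)
    funext l
    have h := congrFun hz (finProdFinEquiv (i, l))
    have e : ∀ s, cc k' s (finProdFinEquiv (i, l)) = c k' (c1 s i) l := by
      intro s
      show c k' (c1 s (finProdFinEquiv.symm (finProdFinEquiv (i, l))).1)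
        (finProdFinEquiv.symm (finProdFinEquiv (i, l))).2 = c k' (c1 s i) l
      rw [Equiv.symm_apply_apply]
    rw [e] at h
    exact h
  · intro a
    exact AdjoinRoot.lift_of _
  · intro k' a b i
    have e1 := hcb k' (c1 (AdjoinRoot.of gF a * J b) (finProdFinEquiv.symm i).1)
      (finProdFinEquiv.symm i).2
    have e2 := hcb1 (AdjoinRoot.of gF a * J b) (finProdFinEquiv.symm i).1
    have e4 := hν.mul (AdjoinRoot.of gF a) (J b)
    have e5 := hof a
    have e6 := hJ ν hν _ (one_le_pow₀ hQ1') hroot b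
    have p1 := joint_pow hn hQ
    have n2 := O.ν_nonneg b
    have e8 : ν (J b) ≤ bb n Q * O.ν b :=
      e6.trans (mul_le_mul_of_nonneg_right p1 n2)
    have hb1 : 0 ≤ house (algebraMap (𝓞 F) F a) := (hν.nonneg _).trans e5
    have hC : 0 ≤ C0 := by linarith
    calc |((cc k' (AdjoinRoot.of gF a * J b) i : ℤ) : ℝ)|
        ≤ C0 * house (algebraMap (𝓞 F) F (c1 (AdjoinRoot.of gF a * J b)
            (finProdFinEquiv.symm i).1)) := e1
      _ ≤ C0 * (house (algebraMap (𝓞 F) F a) * (bb n Q * O.ν b)) := by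
          refine mul_le_mul_of_nonneg_left ?_ hC
          refine e2.trans (e4.trans ?_)
          exact mul_le_mul e5 e8 (hν.nonneg _) hb1
      _ = C0 * bb n Q * (house (algebraMap (𝓞 F) F a) * O.ν b) := by ring

end Pool.Agent.H87.SA2
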