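import Pool.Agent.H87.SA2.TWR
import Pool.Agent.H87.SA2.DNR
import Pool.Agent.H87.SA2.FACR
import Pool.Agent.H87.SA2.EXT
import Pool.Agent.H87.SA2.CRDR
import Pool.Agent.H87.SA2.OVERR
import Pool.Agent.H87.SA2.INDR
import Pool.Agent.H87.SA.ZeroE

/-! # [SA2-ANCHR] Existence of the anchor for a ramified one-parameter family (assembly) -/

namespace Pool.Agent.H87.SA2

open Finset Polynomial NumberField Pool.Agent.H72.ES Pool.Agent.H8.KF Pool.Agent.H87.SA
  Pool.Agent.H97.GA

variable {f : ℤ[X][X]} {d m N : ℕ} {pd : PData f d} {X0 : ℝ}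

/-- the exponent of the cheap quantities -/
def kapR (d m e : ℕ) : ℕ := 10 * d ^ 2 * (e * (m + 1))

/-- the exponent of the coordinates -/
def gexR (d m e s0 : ℕ) : ℕ := (kapR d m e + s0 + e * s0 + 2) * d.factorial + e + e * d.factorial

theorem wv_leR {d w : ℕ} {y : ℂ} {Y : ℝ} (hY : 1 ≤ Y) (hy : ‖y‖ ≤ Y) :
    ‖wv d w y‖ ≤ d * (((w : ℝ) + 1) * Y) ^ d := by
  unfold wv
  have hw0 : (0 : ℝ) ≤ w := Nat.cast_nonneg w
  have h1 : (1 : ℝ) ≤ ((w : ℝ) + 1) * Y := one_le_mul_of_one_le_of_one_le (by linarith) hY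
  refine (norm_sum_le _ _).trans ?_
  have h2 : ∀ l ∈ range d, ‖(w : ℂ) ^ l * y ^ l‖ ≤ (((w : ℝ) + 1) * Y) ^ d := by
    intro l hl
    rw [norm_mul, norm_pow, norm_pow, Complex.norm_natCast, ← mul_pow]
    calc ((w : ℝ) * ‖y‖) ^ l ≤ (((w : ℝ) + 1) * Y) ^ l := by
          refine pow_le_pow_left₀ (by positivity) ?_ l
          exact mul_le_mul (by linarith) hy (norm_nonneg _) (by linarith)
      _ ≤ _ := pow_le_pow_right₀ h1 (mem_range.1 hl).le
  refine (sum_le_sum h2).trans ?_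
  rw [sum_const, card_range, nsmul_eq_mul]

/-- the size of the twisted coefficients -/
theorem zC_le (H : RHyp f d m pd N X0) {w : ℕ} (hw : (w : ℝ) + 1 ≤ X0) (hd : (d : ℝ) ≤ X0)
    (τ : Equiv.Perm (Fin d)) (j : ℕ) :
    X0 ^ j * ‖zC pd m N X0 w τ j‖ ≤ X0 ^ kapR d m pd.e * pd.R ^ j := by
  have hR := pd.R_ge
  have hX1 := H.X1
  have hbig := H.big
  have hN1 : (1 : ℝ) ≤ N := by exact_mod_cast H.N1
  have he := pd.e_pos
  have hd1 := H.d1
  have hX0 : (0 : ℝ) < X0 := by linarith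
  have h1 : X0 ^ j * ‖zC pd m N X0 w τ j‖ = ‖(X0 : ℂ) ^ j * zC pd m N X0 w τ j‖ := by
    rw [norm_mul, norm_pow, Complex.norm_real, Real.norm_eq_abs, abs_of_pos hX0]
  rw [h1, zC_val H]
  have hNX : (N : ℝ) ≤ X0 ^ pd.e := by
    rw [H.pow]
    exact_mod_cast Nat.le_mul_of_pos_left _ (Nat.pos_of_ne_zero (by
      have := pd.q_pos
      positivity))
  have hY1 : (1 : ℝ) ≤ 2 * pd.R * (N : ℝ) ^ m :=
    one_le_mul_of_one_le_of_one_le (by linarith) (one_le_pow₀ hN1)
  have hY2 : 2 * pd.R * (N : ℝ) ^ m ≤ X0 ^ (pd.e * m + 1) := by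
    calc 2 * pd.R * (N : ℝ) ^ m ≤ X0 * (X0 ^ pd.e) ^ m := by
          refine mul_le_mul (by linarith) (pow_le_pow_left₀ (by linarith) hNX m) (by positivity)
            (by positivity)
      _ = X0 ^ (pd.e * m + 1) := by rw [← pow_mul, pow_succ]; ring
  refine (norm_sum_le _ _).trans ?_
  have h2 : ∀ i ∈ (univ : Finset (Fin d)),
      ‖wv d w (yR pd m N X0 (τ i)) * PowerSeries.coeff j (pd.x i)‖ ≤
      (X0 * (X0 ^ (pd.e * m + 2)) ^ d) * (X0 * pd.R ^ j) := by
    intro i _
    rw [norm_mul]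
    refine mul_le_mul ?_ ?_ (norm_nonneg _) (by positivity)
    · refine (wv_leR hY1 (y_leR H _)).trans ?_
      refine mul_le_mul hd (pow_le_pow_left₀ (by positivity) ?_ d) (by positivity) (by positivity)
      calc ((w : ℝ) + 1) * (2 * pd.R * (N : ℝ) ^ m) ≤ X0 * X0 ^ (pd.e * m + 1) :=
            mul_le_mul hw hY2 (by positivity) (by positivity)
        _ = X0 ^ (pd.e * m + 2) := by rw [← pow_succ']
    · refine (pd.growth i j).trans ?_
      rw [pow_succ']
      exact mul_le_mul_of_nonneg_right (by linarith) (by positivity)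
  refine (sum_le_sum h2).trans ?_
  rw [sum_const, card_univ, Fintype.card_fin, nsmul_eq_mul]
  calc (d : ℝ) * ((X0 * (X0 ^ (pd.e * m + 2)) ^ d) * (X0 * pd.R ^ j))
      ≤ X0 * ((X0 * (X0 ^ (pd.e * m + 2)) ^ d) * (X0 * pd.R ^ j)) :=
        mul_le_mul_of_nonneg_right hd (by positivity)
    _ = X0 ^ (3 + (pd.e * m + 2) * d) * pd.R ^ j := by
        rw [pow_add X0 3, pow_mul X0]
        ring
    _ ≤ X0 ^ kapR d m pd.e * pd.R ^ j := by
        refine mul_le_mul_of_nonneg_right (pow_le_pow_right₀ hX1 ?_) (by positivity)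
        unfold kapR
        have e1 : d ≤ d ^ 2 := Nat.le_self_pow (by norm_num) d
        have e2 : 1 ≤ d ^ 2 := Nat.one_le_pow _ _ hd1
        have e3 : pd.e * m * d ≤ pd.e * m * d ^ 2 := Nat.mul_le_mul_left _ e1
        have e4 : d ^ 2 ≤ pd.e * d ^ 2 := Nat.le_mul_of_pos_left _ he
        nlinarith

theorem root_mem (H : RHyp f d m pd N X0) {ξ : ℂ}
    (hξ : eval₂ (eval₂RingHom (Int.castRingHom ℂ) (1 / (N : ℂ))) ξ f = 0) :
    ∃ i, (N : ℂ) ^ m * ξ = yR pd m N X0 i := by
  have hN0 : (N : ℂ) ≠ 0 := by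
    have := H.N1
    exact_mod_cast (by omega : N ≠ 0)
  have h1 := weqe_gen d m pd.e (af f) N (1 / (N : ℂ)) 0 ξ (mul_one_div_cancel hN0)
  have h0 : ∑ l ∈ range (pd.e * m), (0 : ℂ) ^ (l + 1) *
      ei (hNe d m pd.e (af f) N l) ((N : ℂ) ^ m * ξ) = 0 := by
    refine sum_eq_zero fun l _ => ?_
    rw [zero_pow (Nat.succ_ne_zero l), zero_mul]
  rw [h0, add_zero, add_zero, one_pow, mul_one, fv_af H.monic H.deg H.mdeg, hξ, mul_zero] at h1
  have h2 : eval ((N : ℂ) ^ m * ξ) ((gN d m (af f) N).map (Int.castRingHom ℂ)) = 0 := by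
    rw [eval_map]
    exact h1
  rw [y_prodR H, eval_prod, Finset.prod_eq_zero_iff] at h2
  obtain ⟨i, -, hi⟩ := h2
  refine ⟨i, ?_⟩
  rw [eval_sub, eval_X, eval_C] at hi
  exact sub_eq_zero.1 hi

/-- scaling by a nonzero integer does not change the degree -/
theorem deg_scaleR {s : ℕ} (hs : s ≠ 0) (ξ : ℝ) :
    (minpoly ℚ ((s : ℝ) * ξ)).natDegree = (minpoly ℚ ξ).natDegree := by
  have h1 : (s : ℝ) ≠ 0 := by exact_mod_cast hs
  have h2 : IntermediateField.adjoin ℚ {(s : ℝ) * ξ} = IntermediateField.adjoin ℚ {ξ} := by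
    apply le_antisymm
    · rw [IntermediateField.adjoin_simple_le_iff]
      exact mul_mem (natCast_mem _ _) (IntermediateField.mem_adjoin_simple_self ℚ ξ)
    · rw [IntermediateField.adjoin_simple_le_iff]
      have h3 : (s : ℝ)⁻¹ * ((s : ℝ) * ξ) = ξ := by field_simp
      have h4 : (s : ℝ)⁻¹ * ((s : ℝ) * ξ) ∈ IntermediateField.adjoin ℚ {(s : ℝ) * ξ} :=
        mul_mem (inv_mem (natCast_mem _ _)) (IntermediateField.mem_adjoin_simple_self ℚ _)
      rwa [h3] at h4
  by_cases hint : IsIntegral ℚ ξ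
  · have hint2 : IsIntegral ℚ ((s : ℝ) * ξ) := by
      have h4 : IsIntegral ℚ (s : ℝ) := by
        have := isIntegral_algebraMap (R := ℚ) (A := ℝ) (x := (s : ℚ))
        simpa using this
      exact h4.mul hint
    rw [← IntermediateField.adjoin.finrank hint, ← IntermediateField.adjoin.finrank hint2, h2]
  · have hint2 : ¬ IsIntegral ℚ ((s : ℝ) * ξ) := by
      intro h4
      apply hint
      have h5 : IsIntegral ℚ ((s : ℝ)⁻¹) := by
        have := isIntegral_algebraMap (R := ℚ) (A := ℝ) (x := (s : ℚ)⁻¹)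
        simpa using this
      have h6 := h5.mul h4
      have h7 : (s : ℝ)⁻¹ * ((s : ℝ) * ξ) = ξ := by field_simp
      rwa [h7] at h6
    rw [minpoly.eq_zero hint, minpoly.eq_zero hint2]

theorem exists_anchR {n Q : ℕ} (hn : 4 ≤ n) (hQ : 2 ^ n ≤ Q) {ft : ℤ[X]} (hm : ft.Monic)
    (hd : ft.natDegree = n) (hb : ∀ j, |ft.coeff j| ≤ (Q : ℤ)) (hf : Irreducible ft) (θ : ℝ)
    (hθ : aeval θ ft = 0) (H : RHyp f d m pd N X0) {s0 : ℕ}
    (hs0 : ∀ i j, (∀ k ≤ s0, PowerSeries.coeff k (pd.x i) = PowerSeries.coeff k (pd.x j)) → i = j)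
    (hXw : ((d * d.factorial + 1 : ℕ) : ℝ) ≤ X0)
    (hXs : ((s0 * d.factorial + s0 + 1 : ℕ) : ℝ) ≤ X0) (ξ : ℝ)
    (hξ0 : eval₂ (eval₂RingHom (Int.castRingHom ℝ) (1 / (N : ℝ))) ξ f = 0)
    (hξ1 : ξ ∈ IntermediateField.adjoin ℚ {θ}) {nu : ℕ} (hξ3 : nu ≤ (minpoly ℚ ξ).natDegree)
    (hnu : ∀ g : (PowerSeries ℚ)[X], g.Monic → Irreducible g → g ∣ fQ f → RealRoot g →
      3 * g.natDegree ≤ nu) :
    ∃ (O : Ord ℝ n Q ft θ) (D Dl m' : ℕ), 1 ≤ D ∧ D ≤ Dl ∧ Dl ≤ pd.e * d.factorial ∧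
      3 * m' ≤ n * D ∧ Nonempty (AnchR O D Dl m' (kapR d m pd.e) pd.e (MR pd N) X0 pd.R
        (X0 ^ gexR d m pd.e s0 * bb n Q)) := by
  classical
  have hR := pd.R_ge
  have hX1 := H.X1
  have hbig := H.big
  have hN1N := H.N1
  have hN1 : (1 : ℝ) ≤ N := by exact_mod_cast H.N1
  have he := pd.e_pos
  have hd1 := H.d1
  have hX0 : (0 : ℝ) < X0 := by linarith
  have hX2 : (2 : ℝ) ≤ X0 := by linarith
  have hX0C := X0_ne H
  have hfac : 1 ≤ d.factorial := Nat.factorial_pos d
  set M : ℕ := MR pd N with hM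
  have hpow : X0 ^ pd.e = (M : ℝ) := H.pow
  have hM1 : 1 ≤ M := by
    have : (1 : ℝ) ≤ M := by
      rw [← hpow]
      exact one_le_pow₀ hX1
    exact_mod_cast this
  have hNX : (N : ℝ) ≤ X0 ^ pd.e := by
    rw [H.pow]
    exact_mod_cast Nat.le_mul_of_pos_left _ (Nat.pos_of_ne_zero (by
      have := pd.q_pos
      positivity))
  have hXκ : (1 : ℝ) ≤ X0 ^ kapR d m pd.e := one_le_pow₀ hX1
  -- weights
  obtain ⟨w, hw, hwsep⟩ := exists_weightR pd.x hs0 (y_injR H)
  have hwX : (w : ℝ) + 1 ≤ X0 := by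
    refine le_trans ?_ hXw
    exact_mod_cast Nat.succ_le_succ hw
  have hdX : (d : ℝ) ≤ X0 := by
    refine le_trans ?_ hXw
    have : d ≤ d * d.factorial + 1 := (Nat.le_mul_of_pos_right _ hfac).trans (Nat.le_succ _)
    exact_mod_cast this
  obtain ⟨la, hla, hlasep⟩ := exists_lam s0
    (fun l τ => (M : ℂ) ^ l * zC pd m N X0 w τ l) (by
      intro τ hτ
      refine hwsep τ fun k hk => ?_
      have h1 := hτ k hk
      have hMC : (M : ℂ) ≠ 0 := by exact_mod_cast (by omega : M ≠ 0)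
      have h2 := mul_left_cancel₀ (pow_ne_zero k hMC) h1
      have h3 := congrArg (fun z => (X0 : ℂ) ^ k * z) h2
      simp only [zC_val H] at h3
      exact h3)
  have hlaX : (la : ℝ) + s0 + 1 ≤ X0 := by
    refine le_trans ?_ hXs
    exact_mod_cast Nat.succ_le_succ (Nat.add_le_add_right hla s0)
  have hla0 : (0 : ℝ) ≤ la := Nat.cast_nonneg la
  have hs00 : (0 : ℝ) ≤ s0 := Nat.cast_nonneg s0
  have hsep : ∀ τ : Equiv.Perm (Fin d),
      zG pd m N X0 w la s0 τ = zG pd m N X0 w la s0 1 → τ = 1 := by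
    intro τ h
    refine hlasep τ ?_
    unfold zG at h
    rw [← hM] at h
    exact h
  obtain ⟨k, ik, ink, ⟨T⟩⟩ := exists_twR H hsep
  set D := Module.finrank ℚ k with hD
  have hD1 : 1 ≤ D := Module.finrank_pos
  have hDd : D ≤ d.factorial := T.fr
  obtain ⟨F, iF, iFn, iA, ι', x0, hι', hx0, hF1, hF2⟩ := exists_ext T.ι he hpow
  set Dl := Module.finrank ℚ F with hDl
  have hDlD : Dl ≤ pd.e * d.factorial := hF1.trans (Nat.mul_le_mul_left _ hDd)
  have hx0pow : (x0 : F) ^ pd.e = (M : F) := by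
    apply ι'.injective
    rw [map_pow, hx0, hpow, map_natCast]
  have hx00 : (x0 : F) ≠ 0 := by
    intro h
    rw [h, map_zero] at hx0
    linarith
  -- embeddings of `F`
  have hσx0 : ∀ σ : F →+* ℂ, ‖σ (x0 : F)‖ = X0 := by
    intro σ
    have h1 : ‖σ (x0 : F)‖ ^ pd.e = X0 ^ pd.e := by
      rw [← norm_pow, ← map_pow, hx0pow, map_natCast, Complex.norm_natCast, hpow]
    exact (pow_left_inj₀ (norm_nonneg _) hX0.le (by omega)).1 h1
  have hσζ : ∀ σ : k →+* ℂ, ∀ j, X0 ^ j * ‖σ (T.ζ j)‖ ≤ X0 ^ kapR d m pd.e * pd.R ^ j := by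
    intro σ j
    obtain ⟨τ, hτ⟩ := T.hσ σ
    rw [hτ j]
    exact zC_le H hwX hdX τ j
  -- the power series
  have hint : ∀ j, IsIntegral ℤ ((x0 : F) ^ j * algebraMap k F (T.ζ j)) := by
    intro j
    have h1 : IsIntegral ℤ ((Complex.ofRealHom.comp ι') ((x0 : F) ^ j * algebraMap k F (T.ζ j))) := by
      have h2 : (Complex.ofRealHom.comp ι') ((x0 : F) ^ j * algebraMap k F (T.ζ j)) =
          (X0 : ℂ) ^ j * zC pd m N X0 w 1 j := by
        rw [← T.hι j, ← hι', map_mul, map_pow, RingHom.comp_apply, RingHom.comp_apply, hx0]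
        rfl
      rw [h2]
      exact zC_int H w 1 j
    exact (isIntegral_algHom_iff ((Complex.ofRealHom.comp ι').toIntAlgHom)
      (Complex.ofRealHom.comp ι').injective).1 h1
  let Z : PowerSeries (𝓞 F) := PowerSeries.mk fun j => ⟨_, hint j⟩
  have hZ : ∀ j, ((PowerSeries.coeff j Z : 𝓞 F) : F) =
      (x0 : F) ^ j * algebraMap k F (T.ζ j) := by
    intro j
    change ((PowerSeries.coeff j (PowerSeries.mk fun j => (⟨_, hint j⟩ : 𝓞 F)) : 𝓞 F) : F) = _
    rw [PowerSeries.coeff_mk]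
    rfl
  have hZle : ∀ j, house ((PowerSeries.coeff j Z : 𝓞 F) : F) ≤
      X0 ^ kapR d m pd.e * pd.R ^ j := by
    intro j
    refine house_le_of (by positivity) fun σ => ?_
    rw [hZ, map_mul, map_pow, norm_mul, norm_pow, hσx0]
    exact hσζ (σ.comp (algebraMap k F)) j
  -- the generator
  have hzle : house (T.z : k) ≤ X0 ^ (kapR d m pd.e + s0 + pd.e * s0 + 1) := by
    refine house_le_of (by positivity) fun σ => ?_
    rw [T.hz, map_sum]
    refine (norm_sum_le _ _).trans ?_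
    have h1 : ∀ l ∈ range (s0 + 1), ‖σ ((la : k) ^ l * ((MR pd N : k) ^ l * T.ζ l))‖ ≤
        X0 ^ s0 * (X0 ^ (pd.e * s0) * X0 ^ kapR d m pd.e) := by
      intro l hl
      rw [mem_range] at hl
      rw [map_mul, map_mul, map_pow, map_pow, map_natCast, map_natCast, norm_mul, norm_mul,
        norm_pow, norm_pow, Complex.norm_natCast, Complex.norm_natCast, ← hM]
      have h2 : ‖σ (T.ζ l)‖ ≤ X0 ^ kapR d m pd.e := by
        have h3 := hσζ σ l
        have h4 : X0 ^ kapR d m pd.e * pd.R ^ l ≤ X0 ^ kapR d m pd.e * X0 ^ l := by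
          refine mul_le_mul_of_nonneg_left ?_ (by positivity)
          exact pow_le_pow_left₀ (by linarith) (by linarith) l
        have h5 : X0 ^ l * ‖σ (T.ζ l)‖ ≤ X0 ^ l * X0 ^ kapR d m pd.e := by
          refine (h3.trans h4).trans (le_of_eq ?_)
          ring
        exact le_of_mul_le_mul_left h5 (by positivity)
      refine mul_le_mul ?_ (mul_le_mul ?_ h2 (norm_nonneg _) (by positivity)) (by positivity)
        (by positivity)
      · calc (la : ℝ) ^ l ≤ X0 ^ l := pow_le_pow_left₀ hla0 (by linarith) l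
          _ ≤ X0 ^ s0 := pow_le_pow_right₀ hX1 (by omega)
      · rw [← hpow, ← pow_mul]
        exact pow_le_pow_right₀ hX1 (Nat.mul_le_mul_left _ (by omega))
    refine (sum_le_sum h1).trans ?_
    rw [sum_const, card_range, nsmul_eq_mul]
    calc ((s0 + 1 : ℕ) : ℝ) * (X0 ^ s0 * (X0 ^ (pd.e * s0) * X0 ^ kapR d m pd.e))
        ≤ X0 * (X0 ^ s0 * (X0 ^ (pd.e * s0) * X0 ^ kapR d m pd.e)) := by
          refine mul_le_mul_of_nonneg_right ?_ (by positivity)
          push_cast
          linarith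
      _ = X0 ^ (kapR d m pd.e + s0 + pd.e * s0 + 1) := by
          rw [pow_add, pow_add, pow_add]
          ring
  set Yz : ℝ := X0 ^ (kapR d m pd.e + s0 + pd.e * s0 + 1) with hYz
  have hYz1 : (1 : ℝ) ≤ Yz := one_le_pow₀ hX1
  obtain ⟨c0, hc0, hcb⟩ := exists_coordR (F := F) T.z T.top hYz1 hzle
  -- the factor
  have hξC : eval₂ (eval₂RingHom (Int.castRingHom ℂ) (1 / (N : ℂ))) ((ξ : ℝ) : ℂ) f = 0 := by
    have h1 := congrArg Complex.ofRealHom hξ0
    rw [Polynomial.hom_eval₂, map_zero] at h1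
    have h2 : Complex.ofRealHom.comp (eval₂RingHom (Int.castRingHom ℝ) (1 / (N : ℝ))) =
        eval₂RingHom (Int.castRingHom ℂ) (1 / (N : ℂ)) := by
      refine Polynomial.ringHom_ext (fun a => ?_) ?_
      · simp
      · simp
    rw [h2] at h1
    exact h1
  obtain ⟨i0, hi0⟩ := root_mem H hξC
  have hyi : yR pd m N X0 i0 = (((N ^ m : ℕ) : ℝ) * ξ : ℝ) := by
    rw [← hi0]
    push_cast
    ring
  obtain ⟨g, p, hg1, hg2, hg3, hg4, hp1, hp2, hp3⟩ := T.loc i0 _ hyi
  have hNm0 : N ^ m ≠ 0 := by positivity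
  obtain ⟨g1, hg1m, hg10, hg13, hg1f, hg1θ⟩ := exists_facR T.ι hm hd hf θ hθ
    (((N ^ m : ℕ) : ℝ) * ξ) (mul_mem (natCast_mem _ _) hξ1) p hp1 hp3
    (by
      rw [deg_scaleR hNm0]
      refine le_trans ?_ hξ3
      refine le_trans ?_ (hnu g hg1 hg2 hg3 hg4)
      exact Nat.mul_le_mul_left _ hp2)
  -- coordinates
  have hDl1 : 1 ≤ Dl := hD1.trans hF2
  have hDlR : (1 : ℝ) ≤ Dl := by exact_mod_cast hDl1
  set C0 : ℝ := (Dl * Yz ^ D) * X0 ^ pd.e with hC0
  have hC01 : 1 ≤ C0 := one_le_mul_of_one_le_of_one_le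
    (one_le_mul_of_one_le_of_one_le hDlR (one_le_pow₀ hYz1)) (one_le_pow₀ hX1)
  let rr : ℕ → ℕ := fun K => (pd.e - K % pd.e) % pd.e
  have hrr : ∀ K, rr K < pd.e := fun K => Nat.mod_lt _ he
  let ck : ℕ → 𝓞 F →+ (Fin D → ℤ) := fun K => c0.comp (AddMonoidHom.mulLeft (x0 ^ rr K))
  have hck : ∀ K a, ck K a = c0 (x0 ^ rr K * a) := fun K a => rfl
  let Sk : ℕ → AddSubgroup (𝓞 F) := fun K =>
    { carrier := {a | ∃ b : k, algebraMap k F b = (x0 : F) ^ rr K * (a : F)}
      zero_mem' := ⟨0, by simp⟩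
      add_mem' := by
        rintro a b ⟨a', ha⟩ ⟨b', hb⟩
        refine ⟨a' + b', ?_⟩
        rw [map_add, ha, hb]
        push_cast
        ring
      neg_mem' := by
        rintro a ⟨a', ha⟩
        refine ⟨-a', ?_⟩
        rw [map_neg, ha]
        push_cast
        ring }
  have hSk : ∀ K (a : 𝓞 F), a ∈ Sk K ↔ ∃ b : k, algebraMap k F b = (x0 : F) ^ rr K * (a : F) :=
    fun K a => Iff.rfl
  obtain ⟨O, m', L, iL, JE, JO, φ, coord, h3m, hcinj, hφE, hφO, hsize⟩ :=
    exists_overR ι' hn hQ hm hd hb hf θ hθ g1 hg1m hg10 hg13 hg1f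
      (by
        have h1 : (ι'.comp (algebraMap k F)) = T.ι := RingHom.ext hι'
        rw [h1]
        exact hg1θ) D hC01 ck Sk
      (by
        intro K a ha b hb
        obtain ⟨a', ha⟩ := (hSk K a).1 ha
        obtain ⟨b', hb⟩ := hb
        refine (hSk K _).2 ⟨a' * b', ?_⟩
        rw [map_mul, ha, hb]
        push_cast
        ring)
      (by
        intro K a ha h0
        obtain ⟨a', ha⟩ := (hSk K a).1 ha
        rw [hck] at h0
        have h1 : x0 ^ rr K * a = 0 := by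
          refine hc0 _ ⟨a', ?_⟩ h0
          rw [ha]
          push_cast
          ring
        have h2 : (x0 : F) ^ rr K * (a : F) = 0 := by
          have := congrArg (fun x : 𝓞 F => (x : F)) h1
          simpa using this
        have h3 : (a : F) = 0 := (mul_eq_zero.1 h2).resolve_left (pow_ne_zero _ hx00)
        exact_mod_cast h3)
      (by
        intro K a i
        rw [hck]
        refine (hcb _ i).trans ?_
        have h1 : house ((x0 ^ rr K * a : 𝓞 F) : F) ≤ X0 ^ pd.e * house (a : F) := by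
          refine house_le_of (by have := house_nonneg (a : F); positivity) fun σ => ?_
          have h2 : ((x0 ^ rr K * a : 𝓞 F) : F) = (x0 : F) ^ rr K * (a : F) := by
            push_cast
            ring
          rw [h2, map_mul, map_pow, norm_mul, norm_pow, hσx0]
          exact mul_le_mul (pow_le_pow_right₀ hX1 (hrr K).le) (norm_embedding_le_house _ _)
            (norm_nonneg _) (by positivity)
        calc (Dl * Yz ^ D : ℝ) * house ((x0 ^ rr K * a : 𝓞 F) : F)
            ≤ (Dl * Yz ^ D : ℝ) * (X0 ^ pd.e * house (a : F)) :=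
              mul_le_mul_of_nonneg_left h1 (by positivity)
          _ = C0 * house (a : F) := by rw [hC0]; ring)
  let ψ : 𝓞 F →+* ℝ := ι'.comp (algebraMap (𝓞 F) F)
  have hψ : ∀ a : 𝓞 F, ψ a = ι' (a : F) := fun a => rfl
  have hh0 : (0 : ℝ) ≤ 1 / X0 := by positivity
  -- the Taylor expansion
  have hZmap : (Z.map ψ).map Complex.ofRealHom =
      ∑ i, PowerSeries.C (wv d w (yR pd m N X0 i)) * pd.x i := by
    ext j
    rw [PowerSeries.coeff_map, PowerSeries.coeff_map, hψ, hZ, map_mul, map_pow, hx0, hι', map_sum]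
    have h1 : Complex.ofRealHom (X0 ^ j * T.ι (T.ζ j)) = (X0 : ℂ) ^ j * zC pd m N X0 w 1 j := by
      rw [← T.hι j]
      simp
    rw [h1, zC_val H]
    refine sum_congr rfl fun i _ => ?_
    rw [PowerSeries.coeff_C_mul]
    rfl
  have htay : PowerSeries.C ((N : ℂ) ^ m) * PowerSeries.rescale (((1 / X0 : ℝ)) : ℂ)
      ((tay (1 / X0) (Z.map ψ)).map Complex.ofRealHom) =
      ∑ i, PowerSeries.C (wv d w (yR pd m N X0 i)) * WR pd m N X0 i := by
    rw [← tayC_ofReal, hZmap, tayC_sumC hh0 _ _ _ (fun i _ => cvC_R H i), map_sum, mul_sum]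
    refine sum_congr rfl fun i _ => ?_
    unfold WR
    rw [map_mul]
    have h1 : PowerSeries.rescale (((1 / X0 : ℝ)) : ℂ)
        (PowerSeries.C (wv d w (yR pd m N X0 i))) = PowerSeries.C (wv d w (yR pd m N X0 i)) := by
      ext l
      rw [PowerSeries.coeff_rescale, PowerSeries.coeff_C]
      split_ifs with hl
      · rw [hl, pow_zero, one_mul]
      · rw [mul_zero]
    rw [h1]
    ring
  obtain ⟨Δ, hΔ1, hΔle, hdn⟩ := dn_R H
  have hYX : 4 * pd.R * (N : ℝ) ^ m ≤ X0 ^ (pd.e * m + 1) := by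
    calc 4 * pd.R * (N : ℝ) ^ m ≤ X0 * (X0 ^ pd.e) ^ m := by
          refine mul_le_mul (by linarith) (pow_le_pow_left₀ (by linarith) hNX m) (by positivity)
            (by positivity)
      _ = X0 ^ (pd.e * m + 1) := by rw [← pow_mul, pow_succ]; ring
  have hem : pd.e * m + 1 ≤ pd.e * (m + 1) := by
    rw [mul_add, mul_one]
    omega
  have hd2 : 1 ≤ d ^ 2 := Nat.one_le_pow _ _ hd1
  refine ⟨O, D, Dl, m', hD1, hF2, hDlD, h3m, ⟨?_⟩⟩
  exact
    { E := 𝓞 F
      ψ := ψ
      ν := fun a => house (a : F)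
      sub := house_subMul F
      ψ_le := fun a => abs_le_house ι' _
      liou := fun a ha => house_liou ι' a ha
      x0 := x0
      ψ_x0 := hx0
      x0_pow := by
        have h1 : ((x0 ^ pd.e : 𝓞 F) : F) = ((M : 𝓞 F) : F) := by
          push_cast
          exact hx0pow
        exact_mod_cast h1
      ν_x0 := by
        intro r hr
        refine house_le_of (by positivity) fun σ => ?_
        have h2 : ((x0 ^ r : 𝓞 F) : F) = (x0 : F) ^ r := by push_cast; ring
        rw [h2, map_pow, norm_pow, hσx0]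
        refine pow_le_pow_right₀ hX1 ?_
        unfold kapR
        calc r ≤ pd.e * (m + 1) := by nlinarith
          _ ≤ 10 * d ^ 2 * (pd.e * (m + 1)) := Nat.le_mul_of_pos_left _ (by positivity)
      Z := Z
      Z_le := hZle
      indep := by
        intro J c h
        refine indepR he hM1 x0 hx0pow T.ζ Z hZ ?_ J c h
        intro σ τ hστ
        have h1 : σ (T.z : k) = τ (T.z : k) := by
          rw [T.hz, map_sum, map_sum]
          refine sum_congr rfl fun l _ => ?_
          rw [map_mul, map_mul, map_mul, map_mul, map_pow, map_pow, map_pow, map_pow,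
            map_natCast, map_natCast, map_natCast, map_natCast, hστ]
        have h2 : σ.toRatAlgHom = τ.toRatAlgHom := by
          apply (Field.primitive_element_iff_algHom_eq_of_eval ℚ ℂ
            (fun _ => IsAlgClosed.splits _) (T.z : k) σ.toRatAlgHom).1 T.top
          exact h1
        refine RingHom.ext fun x => ?_
        exact congrArg (fun φ : k →ₐ[ℚ] ℂ => φ x) h2
      ce := (N : ℤ) ^ m
      Δ := Δ
      ce_pos := one_le_pow₀ (by exact_mod_cast hN1N)
      Δ_pos := hΔ1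
      ce_le := by
        push_cast
        refine (pow_le_pow_left₀ (by positivity) hNX m).trans ?_
        rw [← pow_mul]
        refine pow_le_pow_right₀ hX1 ?_
        unfold kapR
        calc pd.e * m ≤ pd.e * (m + 1) := Nat.mul_le_mul_left _ (by omega)
          _ ≤ 10 * d ^ 2 * (pd.e * (m + 1)) := Nat.le_mul_of_pos_left _ (by positivity)
      Δ_le := by
        refine hΔle.trans ((pow_le_pow_left₀ (by positivity) hYX _).trans ?_)
        rw [← pow_mul]
        refine pow_le_pow_right₀ hX1 ?_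
        unfold kapR
        calc (pd.e * m + 1) * (2 * d ^ 2) ≤ (pd.e * (m + 1)) * (2 * d ^ 2) :=
              Nat.mul_le_mul_right _ hem
          _ ≤ (pd.e * (m + 1)) * (10 * d ^ 2) := Nat.mul_le_mul_left _ (by omega)
          _ = 10 * d ^ 2 * (pd.e * (m + 1)) := by ring
      dn := by
        intro j
        obtain ⟨v, hv⟩ := hdn w j
        refine ⟨v, ?_⟩
        have h1 := congrArg (PowerSeries.coeff j) htay
        rw [PowerSeries.coeff_C_mul, PowerSeries.coeff_rescale, PowerSeries.coeff_map,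
          map_sum] at h1
        simp only [PowerSeries.coeff_C_mul] at h1
        rw [← h1] at hv
        have h2 : ((v : ℝ) : ℂ) = (((((N : ℤ) ^ m : ℤ) : ℝ) * (Δ : ℝ) ^ j *
            ((1 / X0) ^ j * PowerSeries.coeff j (tay (1 / X0) (Z.map ψ))) : ℝ) : ℂ) := by
          push_cast
          rw [hv, Complex.ofRealHom_eq_coe]
          push_cast
          ring
        exact_mod_cast h2
      L := L
      JE := JE
      JO := JO
      φ := φ
      coord := coord
      coord_inj := by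
        intro K v hv
        refine hcinj K v ?_
        refine AddSubgroup.closure_mono ?_ hv
        rintro x ⟨p, rfl⟩
        refine ⟨zcR x0 pd.e Z K p.1 p.2.1, ?_, p.2.2, rfl⟩
        exact (hSk K _).2 (zk_mem he x0 hx0pow T.ζ Z hZ K p.1 p.2.1)
      φ_JE := hφE
      φ_JO := hφO
      size := by
        intro K a b i
        refine (hsize K a b i).trans ?_
        have hν1 : 0 ≤ house (a : F) := house_nonneg _
        have hν2 : 0 ≤ O.ν b := O.ν_nonneg b
        have hbb : 0 ≤ bb n Q := by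
          have := one_le_bb hn hQ
          linarith
        have hkey : C0 ≤ X0 ^ gexR d m pd.e s0 := by
          have e1 : (Dl : ℝ) ≤ X0 ^ (pd.e * d.factorial) := by
            calc (Dl : ℝ) ≤ (2 : ℝ) ^ Dl := by exact_mod_cast Nat.lt_two_pow_self.le
              _ ≤ X0 ^ Dl := pow_le_pow_left₀ (by norm_num) hX2 _
              _ ≤ X0 ^ (pd.e * d.factorial) := pow_le_pow_right₀ hX1 hDlD
          have e2 : Yz ^ D ≤ X0 ^ ((kapR d m pd.e + s0 + pd.e * s0 + 2) * d.factorial) := by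
            rw [hYz, ← pow_mul]
            refine pow_le_pow_right₀ hX1 ?_
            exact Nat.mul_le_mul (by omega) hDd
          calc C0 = (Dl * Yz ^ D) * X0 ^ pd.e := hC0
            _ ≤ (X0 ^ (pd.e * d.factorial) *
                X0 ^ ((kapR d m pd.e + s0 + pd.e * s0 + 2) * d.factorial)) * X0 ^ pd.e := by
                gcongr
            _ = X0 ^ gexR d m pd.e s0 := by
                unfold gexR
                rw [← pow_add, ← pow_add]
                congr 1
                ring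
        gcongr }

end Pool.Agent.H87.SA2
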