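import Pool.Agent.H87.SA2.FINQ

/-! # [SA2-FINX] The effective theorem over the fibres `t = a / N`, from given Puiseux data -/

namespace Pool.Agent.H87.SA2

open Finset Polynomial Pool.Agent.H72.ES Pool.Agent.H8.KF Pool.Agent.H8.NoPt Pool.Agent.H87.SA
  Pool.Agent.H97.GA Pool.Agent.H97.AN

/-- the exponent of the bound -/
def C1 (n K0 gx : ℕ) : ℕ := 2 * (n + 1) + ((2 * gx + 14 * n ^ 2 * (n + 1)) *
    (10 ^ 6 * n ^ 3 * K0) + 2 * (10 ^ 6 * n ^ 6 * K0 ^ 2))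

/-- the squarefree case, explicit in the Puiseux data -/
theorem one_core {f : ℤ[X][X]} (hf : f.Monic) {d m : ℕ} (hfd : f.natDegree = d) (hd : 1 ≤ d)
    (hm : ∀ j, (f.coeff j).natDegree ≤ m) (pd : PData f d) {s0 : ℕ}
    (hs0 : ∀ i j, (∀ k ≤ s0, PowerSeries.coeff k (pd.x i) = PowerSeries.coeff k (pd.x j)) → i = j)
    {n nu : ℕ} (hn : 4 ≤ n)
    (hnu : ∀ g : (PowerSeries ℚ)[X], g.Monic → Irreducible g → g ∣ fQ f → RealRoot g →
      3 * g.natDegree ≤ nu) {a N K T : ℕ} (ha : 1 ≤ a)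
    (hK : 10 ^ 5 * n ^ 4 * KK (pd.e * d.factorial) (kapR d m pd.e) = K)
    (hT : (4 * pd.R + (d * d.factorial + 1 : ℕ) + (s0 * d.factorial + s0 + 1 : ℕ) +
      (16 * pd.R) ^ K : ℝ) ≤ T)
    (hsep : ((gN d m (af (fsc f a)) N).map (Int.castRingHom ℂ)).Separable)
    (hqN : pd.q ≤ N) (hN2 : 2 ≤ N) (hTN : (T * a ^ (K + 1)) ^ pd.e ≤ N)
    (G : ℕ → ℕ → ℤ) (haG : G 0 n ≠ 0) (hirr : Irreducible (leadQ n G))
    (hγ : ∃ γ : AdjoinRoot (leadQ n G), aeval γ (fiba f a N) = 0 ∧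
      nu ≤ (minpoly ℚ γ).natDegree)
    (H : ℕ) (hH1 : 1 ≤ H) (hGH : ∀ i j, i + j ≤ n → |G i j| ≤ (H : ℤ)) (x y : ℤ)
    (hz : ev n G x y = 0) :
    ((max |x| |y| : ℤ) : ℝ) ≤ ((N * H : ℕ) : ℝ) ^
      C1 n (KK (pd.e * d.factorial) (kapR d m pd.e)) (gexR d m pd.e s0) := by
  have he := pd.e_pos
  have hq := pd.q_pos
  have hR := pd.R_ge
  set K0 := KK (pd.e * d.factorial) (kapR d m pd.e) with hK0
  set gx := gexR d m pd.e s0 with hgx
  obtain ⟨γ, hγ0, hγ3⟩ := hγ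
  have hN1 : 1 ≤ N := by omega
  have hN1R : (1 : ℝ) ≤ N := by exact_mod_cast hN1
  have haR : (1 : ℝ) ≤ a := by exact_mod_cast ha
  have hq1R : (1 : ℝ) ≤ pd.q := by exact_mod_cast hq
  obtain ⟨pd', he', hq', hR', hs'⟩ := exists_scale pd ha
  obtain ⟨X0, hX0def⟩ : ∃ X0 : ℝ, X0 = (pd.q : ℝ) * (N : ℝ) ^ ((pd.e : ℝ)⁻¹) := ⟨_, rfl⟩
  have hroot : (1 : ℝ) ≤ (N : ℝ) ^ ((pd.e : ℝ)⁻¹) := Real.one_le_rpow hN1R (by positivity)
  have hX1 : 1 ≤ X0 := by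
    rw [hX0def]
    exact one_le_mul_of_one_le_of_one_le hq1R hroot
  have hpow : X0 ^ pd.e = ((pd.q ^ pd.e * N : ℕ) : ℝ) := by
    rw [hX0def, mul_pow, Real.rpow_inv_natCast_pow (by positivity) (by omega)]
    push_cast
    ring
  have hXT : (T : ℝ) * (a : ℝ) ^ (K + 1) ≤ X0 := by
    refine le_of_pow_le_pow_left₀ (n := pd.e) (by omega) (by positivity) ?_
    rw [hpow]
    have h1 : (T * a ^ (K + 1)) ^ pd.e ≤ pd.q ^ pd.e * N :=
      hTN.trans (Nat.le_mul_of_pos_left _ (by positivity))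
    exact_mod_cast h1
  have hXN : X0 ≤ (N : ℝ) ^ 2 := by
    refine le_of_pow_le_pow_left₀ (n := pd.e) (by omega) (by positivity) ?_
    rw [hpow]
    have h1 : pd.q ^ pd.e * N ≤ (N ^ 2) ^ pd.e := by
      calc pd.q ^ pd.e * N ≤ N ^ pd.e * N ^ pd.e :=
            Nat.mul_le_mul (Nat.pow_le_pow_left hqN _) (Nat.le_self_pow (by omega) N)
        _ = (N ^ 2) ^ pd.e := by rw [← mul_pow, sq]
    exact_mod_cast h1
  have hR0 : (0 : ℝ) ≤ (16 * pd.R) ^ K := by positivity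
  have hn1 : (0 : ℝ) ≤ ((d * d.factorial + 1 : ℕ) : ℝ) := Nat.cast_nonneg _
  have hn2 : (0 : ℝ) ≤ ((s0 * d.factorial + s0 + 1 : ℕ) : ℝ) := Nat.cast_nonneg _
  have haK : (1 : ℝ) ≤ (a : ℝ) ^ (K + 1) := one_le_pow₀ haR
  have hT0 : (0 : ℝ) ≤ T := Nat.cast_nonneg _
  have hTX : (T : ℝ) ≤ X0 := by
    calc (T : ℝ) = T * 1 := (mul_one _).symm
      _ ≤ T * (a : ℝ) ^ (K + 1) := by gcongr
      _ ≤ X0 := hXT
  have haT : (a : ℝ) * T ≤ X0 := by
    calc (a : ℝ) * T = T * (a : ℝ) ^ 1 := by ring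
      _ ≤ T * (a : ℝ) ^ (K + 1) := mul_le_mul_of_nonneg_left (pow_le_pow_right₀ haR (by omega)) hT0
      _ ≤ X0 := hXT
  have haKT : (a : ℝ) ^ K * T ≤ X0 := by
    calc (a : ℝ) ^ K * T = T * (a : ℝ) ^ K := by ring
      _ ≤ T * (a : ℝ) ^ (K + 1) := mul_le_mul_of_nonneg_left (pow_le_pow_right₀ haR (by omega)) hT0
      _ ≤ X0 := hXT
  have hyp : RHyp (fsc f a) d m pd' N X0 :=
    { monic := fsc_monic hf a
      deg := (fsc_deg hf a).trans hfd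
      d1 := hd
      mdeg := fsc_mdeg hm a
      N1 := hN1
      X1 := hX1
      pow := by rw [he', hq']; exact hpow
      big := by
        rw [hR']
        have h1 : 4 * pd.R ≤ T := by linarith
        calc 4 * ((a : ℝ) * pd.R) = (a : ℝ) * (4 * pd.R) := by ring
          _ ≤ (a : ℝ) * T := by gcongr
          _ ≤ X0 := haT
      sep := hsep }
  have hXR' : (16 * pd'.R) ^ (10 ^ 5 * n ^ 4 * KK (pd'.e * d.factorial) (kapR d m pd'.e)) ≤ X0 := by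
    rw [he', hR', ← hK0, hK]
    have h1 : (16 * pd.R) ^ K ≤ T := by linarith
    calc (16 * ((a : ℝ) * pd.R)) ^ K = (a : ℝ) ^ K * (16 * pd.R) ^ K := by
          rw [← mul_pow]
          congr 1
          ring
      _ ≤ (a : ℝ) ^ K * T := by gcongr
      _ ≤ X0 := haKT
  set H' := max 2 H with hH'
  have hmain := one_array hn hyp (hs' s0 hs0) (by linarith) (by linarith) hXR' (hnu_fsc hnu ha) G
    haG hirr γ (by rw [fsc_fib]; exact hγ0)
    hγ3 H' (le_max_left _ _) (fun i j hij => (hGH i j hij).trans (by exact_mod_cast le_max_right 2 H))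
    x y hz
  rw [he', ← hK0, ← hgx] at hmain
  have hP1 : 1 ≤ N * H := Nat.mul_pos hN1 hH1
  have hH'P : H' ≤ N * H := by
    refine max_le ?_ ?_
    · exact hN2.trans (Nat.le_mul_of_pos_right _ hH1)
    · exact Nat.le_mul_of_pos_left _ hN1
  have hNP : (N : ℝ) ≤ ((N * H : ℕ) : ℝ) := by exact_mod_cast Nat.le_mul_of_pos_right _ hH1
  have hXP : X0 ≤ (((N * H : ℕ) : ℝ)) ^ 2 := hXN.trans (pow_le_pow_left₀ (by positivity) hNP 2)
  have hnum := one_num (n := n) (K0 := K0) (gx := gx) hX1 hXP hP1 hH'P (le_max_left 2 H)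
  exact hmain.trans hnum

end Pool.Agent.H87.SA2
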