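import Pool.Agent.H87.SA2.FINY
import Pool.Agent.H97.XC.Pdx
import Pool.Agent.H97.XC.Disc
import Pool.Agent.H97.XC.Near

/-! # [SA2-FINZ] The explicit effective theorem over the fibres of a one-parameter family -/

namespace Pool.Agent.H87.SA2

open Finset Polynomial Pool.Agent.H72.ES Pool.Agent.H8.KF Pool.Agent.H8.NoPt Pool.Agent.H87.SA
  Pool.Agent.H97.GA Pool.Agent.H97.AN Pool.Agent.H97.XC

theorem four_terms {B Λ K d s D : ℕ} (hB : 2 ≤ B) {R : ℝ} (hR0 : 0 ≤ R)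
    (hR : R ≤ ((B ^ Λ : ℕ) : ℝ)) (h1 : d * D + 2 ≤ (Λ + 4) * (K + 1))
    (h2 : s * D + s + 2 ≤ (Λ + 4) * (K + 1)) :
    (4 * R + (d * D + 1 : ℕ) + (s * D + s + 1 : ℕ) + (16 * R) ^ K : ℝ) ≤
      ((B ^ ((Λ + 4) * (K + 1)) : ℕ) : ℝ) := by
  obtain ⟨M, hM⟩ : ∃ M, M + 2 = (Λ + 4) * (K + 1) := by
    have h0 : 4 * 1 ≤ (Λ + 4) * (K + 1) := Nat.mul_le_mul (by omega) (by omega)
    obtain ⟨W, hW⟩ : ∃ W, W = (Λ + 4) * (K + 1) := ⟨_, rfl⟩
    rw [← hW] at h0 ⊢
    exact ⟨W - 2, by omega⟩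
  have hBR : (2 : ℝ) ≤ B := by exact_mod_cast hB
  have hB1 : (1 : ℝ) ≤ B := by linarith
  have hM0 : (0 : ℝ) ≤ (B : ℝ) ^ M := by positivity
  rw [← hM] at h1 h2 ⊢
  have e1 : 4 * R ≤ (B : ℝ) ^ M := by
    calc 4 * R ≤ (B : ℝ) ^ 2 * (B : ℝ) ^ Λ := by
          push_cast at hR
          have : (4 : ℝ) ≤ (B : ℝ) ^ 2 := by nlinarith
          exact mul_le_mul this hR hR0 (by positivity)
      _ = (B : ℝ) ^ (2 + Λ) := by rw [← pow_add]
      _ ≤ (B : ℝ) ^ M := pow_le_pow_right₀ hB1 (by nlinarith)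
  have e2 : ((d * D + 1 : ℕ) : ℝ) ≤ (B : ℝ) ^ M := by
    exact_mod_cast le_pow_of_two hB (show d * D ≤ M by omega)
  have e3 : ((s * D + s + 1 : ℕ) : ℝ) ≤ (B : ℝ) ^ M := by
    exact_mod_cast le_pow_of_two hB (show s * D + s ≤ M by omega)
  have e4 : (16 * R) ^ K ≤ (B : ℝ) ^ M := by
    calc (16 * R) ^ K ≤ ((B : ℝ) ^ 4 * (B : ℝ) ^ Λ) ^ K := by
          push_cast at hR
          have h16 : (16 : ℝ) ≤ (B : ℝ) ^ 4 := by
            calc (16 : ℝ) = 2 ^ 4 := by norm_num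
              _ ≤ (B : ℝ) ^ 4 := pow_le_pow_left₀ (by norm_num) hBR 4
          exact pow_le_pow_left₀ (by positivity) (mul_le_mul h16 hR hR0 (by positivity)) K
      _ = (B : ℝ) ^ ((4 + Λ) * K) := by rw [← pow_add, ← pow_mul]
      _ ≤ (B : ℝ) ^ M := pow_le_pow_right₀ hB1 (by nlinarith)
  calc (4 * R + (d * D + 1 : ℕ) + (s * D + s + 1 : ℕ) + (16 * R) ^ K : ℝ)
      ≤ 4 * (B : ℝ) ^ M := by linarith
    _ ≤ (B : ℝ) ^ 2 * (B : ℝ) ^ M := by
        have : (4 : ℝ) ≤ (B : ℝ) ^ 2 := by nlinarith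
        exact mul_le_mul_of_nonneg_right this hM0
    _ = ((B ^ (M + 2) : ℕ) : ℝ) := by
        push_cast
        ring

theorem one_le_E1 {n d m : ℕ} (hn : 4 ≤ n) (hd : 1 ≤ d) : 1 ≤ E1 n d m := by
  unfold E1
  have h1 : 1 ≤ d.factorial := Nat.factorial_pos d
  exact Nat.mul_pos (Nat.mul_pos (Nat.mul_pos (Nat.mul_pos (Nat.mul_pos (by norm_num)
    (by positivity)) (by positivity)) (by positivity)) (by positivity)) (by positivity)

theorem Hc_le {n d m B a : ℕ} (hn : 4 ≤ n) (hd : 1 ≤ d) (hB : 2 ≤ B) :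
    ((2 * d).factorial * ((m + 1) * (d * B)) ^ (2 * d) + 2) * a ≤ (B * a) ^ E1 n d m := by
  have hE : 4 * d ^ 2 + 2 * d * (m + d + 1) + 2 ≤ E1 n d m := by
    have h1 := main_le (n := n) (d := d) (m := m) hn hd
      (K := 10 ^ 5 * n ^ 4 * (22 * d ^ 2 * d.factorial ^ 3 * (m + 1))) le_rfl
    refine le_trans ?_ h1
    have hf : 1 ≤ d.factorial := Nat.factorial_pos d
    have h3 : 1 ≤ n ^ 4 := Nat.one_le_pow _ _ (by omega)
    have h4 : 1 ≤ d.factorial ^ 3 := Nat.one_le_pow _ _ hf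
    have g1 : d ≤ d ^ 2 := Nat.le_self_pow (by norm_num) d
    have g2 : d * m ≤ d ^ 2 * m := Nat.mul_le_mul_right m g1
    calc 4 * d ^ 2 + 2 * d * (m + d + 1) + 2 ≤ 22 * d ^ 2 * (m + 1) := by nlinarith
      _ = 1 * (1 * (1 * 1 * (22 * d ^ 2 * 1 * (m + 1)))) := by ring
      _ ≤ d.factorial * ((LamE d m + 4) * (10 ^ 5 * n ^ 4 * (22 * d ^ 2 * d.factorial ^ 3 *
          (m + 1)) + 1)) := by
          refine Nat.mul_le_mul hf (Nat.mul_le_mul (by omega) (le_trans ?_ (Nat.le_succ _)))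
          exact Nat.mul_le_mul (Nat.mul_le_mul (by norm_num) h3) (by gcongr)
  have h1 : (2 * d).factorial ≤ B ^ (4 * d ^ 2) := by
    calc (2 * d).factorial ≤ (2 * d) ^ (2 * d) := Nat.factorial_le_pow _
      _ ≤ (B ^ (2 * d)) ^ (2 * d) :=
          Nat.pow_le_pow_left ((Nat.le_succ _).trans (le_pow_of_two hB le_rfl)) _
      _ = B ^ (4 * d ^ 2) := by
          rw [← pow_mul]
          congr 1
          ring
  have h2 : (m + 1) * (d * B) ≤ B ^ (m + d + 1) := by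
    calc (m + 1) * (d * B) ≤ B ^ m * (B ^ d * B) :=
          Nat.mul_le_mul (le_pow_of_two hB le_rfl) (Nat.mul_le_mul_right _
            ((Nat.le_succ _).trans (le_pow_of_two hB le_rfl)))
      _ = B ^ (m + d + 1) := by ring
  have h3 : (2 * d).factorial * ((m + 1) * (d * B)) ^ (2 * d) ≤
      B ^ (4 * d ^ 2 + 2 * d * (m + d + 1)) := by
    calc (2 * d).factorial * ((m + 1) * (d * B)) ^ (2 * d)
        ≤ B ^ (4 * d ^ 2) * (B ^ (m + d + 1)) ^ (2 * d) :=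
          Nat.mul_le_mul h1 (Nat.pow_le_pow_left h2 _)
      _ = _ := by
          rw [← pow_mul, ← pow_add]
          congr 1
          ring
  obtain ⟨u, hu⟩ : ∃ u, u = B ^ (4 * d ^ 2 + 2 * d * (m + d + 1)) := ⟨_, rfl⟩
  have hu1 : 1 ≤ u := by
    rw [hu]
    exact Nat.one_le_pow _ _ (by omega)
  rw [← hu] at h3
  have h4 : (2 * d).factorial * ((m + 1) * (d * B)) ^ (2 * d) + 2 ≤
      B ^ (4 * d ^ 2 + 2 * d * (m + d + 1) + 2) := by
    rw [pow_add, ← hu]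
    have : 4 ≤ B ^ 2 := by nlinarith
    nlinarith
  calc ((2 * d).factorial * ((m + 1) * (d * B)) ^ (2 * d) + 2) * a
      ≤ B ^ E1 n d m * a ^ E1 n d m :=
        Nat.mul_le_mul (h4.trans (Nat.pow_le_pow_right (by omega) hE))
          (Nat.le_self_pow (by have := one_le_E1 (m := m) hn hd; omega) _)
    _ = (B * a) ^ E1 n d m := by rw [mul_pow]

/-- **Explicit effective Siegel theorem over the fibres `t = a / N` of a one-parameter family.** -/
theorem one_explicit {n d m : ℕ} (hn : 4 ≤ n) {f : ℤ[X][X]} (hf : f.Monic) (hsq : Squarefree f)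
    (hfd : f.natDegree = d) (hm : ∀ j, (f.coeff j).natDegree ≤ m) {B a N : ℕ} (hB : 2 ≤ B)
    (hfB : ∀ j i, |(f.coeff j).coeff i| ≤ (B : ℤ)) {nu : ℕ}
    (hnu : ∀ g : (PowerSeries ℚ)[X], g.Monic → Irreducible g → g ∣ fQ f → RealRoot g →
      3 * g.natDegree ≤ nu)
    (ha : 1 ≤ a) (hN : (B * a) ^ E1 n d m ≤ N) (F : MvPolynomial (Fin 2) ℤ)
    (hFdeg : F.totalDegree ≤ n)
    (hirr : Irreducible (MvPolynomial.map (Int.castRingHom ℚ)
        (MvPolynomial.homogeneousComponent n F)))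
    (hγ : ∃ γ : AdjoinRoot (MvPolynomial.aeval ![(1 : ℚ[X]), X]
        (MvPolynomial.homogeneousComponent n F)),
        aeval γ (fiba f a N) = 0 ∧ nu ≤ (minpoly ℚ γ).natDegree)
    (x y : ℤ) (hz : MvPolynomial.eval ![x, y] F = 0) :
    max |x| |y| ≤ ((N : ℤ) * ((F.support.sup fun m => (F.coeff m).natAbs : ℕ) : ℤ)) ^
      E2 n d m := by
  obtain ⟨hG0, hirr'⟩ := leadQ_of_irreducible (by omega) hirr
  by_cases hd0 : d = 0
  · exfalso
    have h1 : f = 1 := hf.natDegree_eq_zero.1 (hfd.trans hd0)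
    obtain ⟨γ, hγ0, -⟩ := hγ
    rw [← aeval_lead] at hirr'
    refine adj_one hirr' γ ?_ hγ0
    rw [h1]
    unfold fiba
    rw [Polynomial.map_one]
  have hd : 1 ≤ d := Nat.one_le_iff_ne_zero.2 hd0
  have hBd : Bd f m B := ⟨hm, hfB⟩
  obtain ⟨A', B', c, hc, hbez, hcd, hcH⟩ := disc_bd hf hfd hd hBd (by omega) hsq
  have hE := one_le_E1 (m := m) hn hd
  have hs : d.factorial * (c.natDegree + m) ≤ sE d m :=
    Nat.mul_le_mul_left _ (Nat.add_le_add_right hcd m)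
  obtain ⟨pd, hpe, hpq, hpR, hps⟩ := exists_pdata_bd f hf hfd hd hBd (by omega) A' B' c hc hbez hs
  have hsep := exists_sepa_bd hf hfd hm A' B' c hc hbez _ hcH a N ha
    ((Hc_le hn hd hB).trans hN)
  have hCC := CC_le (d := d) (m := m) hB
  obtain ⟨K, hK⟩ : ∃ K, 10 ^ 5 * n ^ 4 * KK (pd.e * d.factorial) (kapR d m pd.e) = K := ⟨_, rfl⟩
  have hK0 := KK_le (m := m) hd hpe
  have hKle : K ≤ 10 ^ 5 * n ^ 4 * (22 * d ^ 2 * d.factorial ^ 3 * (m + 1)) := by
    rw [← hK]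
    exact Nat.mul_le_mul_left _ hK0
  have hmain := main_le hn hd hKle
  have hD1 : 1 ≤ d.factorial := Nat.factorial_pos d
  have he1 := pd.e_pos
  -- lower bounds for `K`
  have hKge : 10 * d ^ 2 * d.factorial ≤ K := by
    rw [← hK]
    unfold KK kapR
    have h1 : 1 ≤ 10 ^ 5 * n ^ 4 := Nat.mul_pos (by norm_num) (by positivity)
    have h2 : d.factorial ≤ pd.e * d.factorial + 1 :=
      (Nat.le_mul_of_pos_left _ he1).trans (Nat.le_succ _)
    have h3 : 10 * d ^ 2 ≤ 10 * d ^ 2 * (pd.e * (m + 1)) + 1 :=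
      (Nat.le_mul_of_pos_right _ (Nat.mul_pos he1 (Nat.succ_pos m))).trans (Nat.le_succ _)
    calc 10 * d ^ 2 * d.factorial = 1 * (d.factorial * (10 * d ^ 2)) := by ring
      _ ≤ _ := Nat.mul_le_mul h1 (Nat.mul_le_mul h2 h3)
  have hLs : sE d m + 1 ≤ LamE d m := by
    unfold LamE
    have h1 : 1 ≤ 600 * d ^ 3 * (sE d m + 1) ^ 2 * (14 * d ^ 2) ^ (sE d m + 1) :=
      Nat.mul_pos (Nat.mul_pos (by positivity) (by positivity)) (by positivity)
    calc sE d m + 1 ≤ (4 + 2 * d + 2 * sE d m) * 1 := by omega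
      _ ≤ _ := Nat.mul_le_mul_left _ h1
  obtain ⟨T, hTdef⟩ : ∃ T : ℕ, T = B ^ ((LamE d m + 4) * (K + 1)) := ⟨_, rfl⟩
  have hT : (4 * pd.R + (d * d.factorial + 1 : ℕ) + (sE d m * d.factorial + sE d m + 1 : ℕ) +
      (16 * pd.R) ^ K : ℝ) ≤ T := by
    rw [hTdef]
    refine four_terms hB (by have := pd.R_ge; linarith)
      (hpR.trans (by exact_mod_cast hCC)) ?_ ?_
    · have h1 : d * d.factorial ≤ K := by
        refine le_trans ?_ hKge
        have : d ≤ 10 * d ^ 2 := by nlinarith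
        exact Nat.mul_le_mul_right _ this
      nlinarith
    · have h1 : d.factorial ≤ K := by
        refine le_trans ?_ hKge
        exact Nat.le_mul_of_pos_left _ (by positivity)
      nlinarith
  have hB1 : 1 ≤ B := by omega
  have hBa : B ≤ B * a := Nat.le_mul_of_pos_right _ ha
  have hqN : pd.q ≤ N := by
    have h1 : pd.q ≤ B ^ LamE d m := by
      have h2 : (pd.q : ℝ) ≤ ((B ^ LamE d m : ℕ) : ℝ) := hpq.trans (by exact_mod_cast hCC)
      exact_mod_cast h2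
    have h2 : LamE d m ≤ E1 n d m := by
      refine le_trans ?_ hmain
      calc LamE d m ≤ 1 * ((LamE d m + 4) * 1) := by omega
        _ ≤ _ := Nat.mul_le_mul hD1 (Nat.mul_le_mul_left _ (by omega))
    calc pd.q ≤ B ^ LamE d m := h1
      _ ≤ B ^ E1 n d m := Nat.pow_le_pow_right hB1 h2
      _ ≤ (B * a) ^ E1 n d m := Nat.pow_le_pow_left hBa _
      _ ≤ N := hN
  have hN2 : 2 ≤ N := by
    calc 2 ≤ B * a := hB.trans hBa
      _ ≤ (B * a) ^ E1 n d m := Nat.le_self_pow (by omega) _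
      _ ≤ N := hN
  have hTN : (T * a ^ (K + 1)) ^ pd.e ≤ N := by
    have h1 : T * a ^ (K + 1) ≤ (B * a) ^ ((LamE d m + 4) * (K + 1)) := by
      rw [hTdef, mul_pow]
      refine Nat.mul_le_mul_left _ (Nat.pow_le_pow_right ha ?_)
      exact Nat.le_mul_of_pos_left _ (by omega)
    calc (T * a ^ (K + 1)) ^ pd.e ≤ ((B * a) ^ ((LamE d m + 4) * (K + 1))) ^ pd.e :=
          Nat.pow_le_pow_left h1 _
      _ = (B * a) ^ (pd.e * ((LamE d m + 4) * (K + 1))) := by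
          rw [← pow_mul]
          congr 1
          ring
      _ ≤ (B * a) ^ E1 n d m := by
          refine Nat.pow_le_pow_right (by omega) (le_trans ?_ hmain)
          exact Nat.mul_le_mul_right _ hpe
      _ ≤ N := hN
  have hbd := coeff_le_sup F
  set H := F.support.sup fun m => (F.coeff m).natAbs with hH
  rw [aeval_lead] at hγ
  have hz' : ev n (arrM F) x y = 0 := by rw [← eval_arrM hFdeg]; exact hz
  have hH1 : 1 ≤ H := by
    by_contra hc
    have h0 : H = 0 := by omega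
    have h1 := hbd (ex 0 n)
    rw [h0] at h1
    apply hG0
    have h2 : F.coeff (ex 0 n) = 0 := by
      have h3 := abs_nonneg (F.coeff (ex 0 n))
      have h4 : |F.coeff (ex 0 n)| ≤ 0 := by simpa using h1
      exact abs_eq_zero.1 (le_antisymm h4 h3)
    exact h2
  have hfin := one_core hf hfd hd hm pd hps hn hnu ha hK hT hsep hqN hN2 hTN (arrM F) hG0 hirr' hγ
    H hH1 (fun i j _ => hbd _) x y hz'
  have hC1 := C1_le hn hd hK0 (gex_le (m := m) hd hpe)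
  have hNH : (1 : ℝ) ≤ ((N * H : ℕ) : ℝ) := by
    exact_mod_cast Nat.mul_pos (by omega : 0 < N) hH1
  have hfin2 := hfin.trans (pow_le_pow_right₀ hNH hC1)
  exact_mod_cast hfin2

end Pool.Agent.H87.SA2
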