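import Pool.Agent.H8.KF.Adj
import Pool.Agent.H8.KF.OrdG

/-! # [SA2-ADJR] Adjoining a root, with the linearity of the coordinates

`adj_normR`: copy `Pool.Agent.H8.KF.adj_norm` (`Pool/Agent/H8/KF/Adj.lean`, proved) and add two more
properties of the coordinates `c s i = (r s).coeff i`, `r = AdjoinRoot.modByMonicHom hg` (which is
`A`-linear): `c (of a * s) i = a * c s i`, and for `p : ℤ[X]`
`c (p(root)) i = (p.map (Int.castRingHom A) %ₘ g).coeff i` (`AdjoinRoot.modByMonicHom_mk`,
`p(root) = mk (p.map ..)`).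
`exists_ord_genR`: copy `Pool.Agent.H8.KF.exists_ord_gen` (`Pool/Agent/H8/KF/OrdG.lean`, proved;
`R = AdjoinRoot f`, `J` is the lift `root ↦ s`) and add: every `J a` is `aeval s p` for a `p : ℤ[X]`
(`a = AdjoinRoot.mk f p`, `AdjoinRoot.lift_mk`). -/

namespace Pool.Agent.H87.SA2

open Finset Polynomial Pool.Agent.H72.ES Pool.Agent.H8.KF

theorem adj_normR {A : Type} [CommRing A] [Nontrivial A] {νA : A → ℝ} (hA : SubMul νA) (g : A[X])
    (hg : g.Monic) (hdeg : 0 < g.natDegree) (ρ : ℝ) (hρ1 : 1 ≤ ρ)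
    (hρ : ∑ i ∈ range g.natDegree, νA (g.coeff i) ≤ ρ) :
    ∃ ν : AdjoinRoot g → ℝ, SubMul ν ∧ (∀ a, ν (AdjoinRoot.of g a) ≤ νA a) ∧
      ν (AdjoinRoot.root g) ≤ ρ ∧
      ∃ c : AdjoinRoot g →+ (Fin g.natDegree → A), Function.Injective c ∧
        (∀ s i, νA (c s i) ≤ ν s) ∧ (∀ a s i, c (AdjoinRoot.of g a * s) i = a * c s i) ∧
        ∀ (p : ℤ[X]) i, c (aeval (AdjoinRoot.root g) p) i =
          (p.map (Int.castRingHom A) %ₘ g).coeff i := by
  have h0 : (0 : ℝ) ≤ ρ := zero_le_one.trans hρ1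
  set r := AdjoinRoot.modByMonicHom hg with hr
  have hmk : ∀ p : A[X], adjW νA ρ (r (AdjoinRoot.mk g p)) ≤ adjW νA ρ p := by
    intro p
    rw [hr, AdjoinRoot.modByMonicHom_mk]
    exact adjW_modByMonic_le hA g hg hdeg ρ hρ1 hρ p
  have hrs : ∀ s, AdjoinRoot.mk g (r s) = s := AdjoinRoot.mk_leftInverse hg
  have hrdeg : ∀ s, (r s).natDegree < g.natDegree := by
    intro s
    have h1 : r s = (r s) %ₘ g := by
      conv_lhs => rw [← hrs s]
      rw [hr, AdjoinRoot.modByMonicHom_mk]
    rw [h1]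
    exact natDegree_modByMonic_lt _ hg (by
      intro h
      rw [h, natDegree_one] at hdeg
      exact lt_irrefl _ hdeg)
  refine ⟨fun s => adjW νA ρ (r s), ⟨fun s => adjW_nonneg hA h0 _, ?_, ?_, ?_, ?_, ?_⟩, ?_, ?_, ?_⟩
  · rw [map_zero, adjW_zero hA]
  · intro s
    rw [map_neg, adjW_neg hA]
  · intro s t
    rw [map_add]
    exact adjW_add_le hA h0 _ _
  · intro s t
    have h1 : s * t = AdjoinRoot.mk g (r s * r t) := by rw [map_mul, hrs, hrs]
    rw [h1]
    exact (hmk _).trans (adjW_mul_le hA h0 _ _)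
  · have h1 : (1 : AdjoinRoot g) = AdjoinRoot.mk g (C 1) := by rw [C_1, map_one]
    rw [h1]
    refine (hmk _).trans ?_
    rw [adjW_C hA]
    exact hA.one
  · intro a
    have h1 : AdjoinRoot.of g a = AdjoinRoot.mk g (C a) := rfl
    rw [h1]
    refine (hmk _).trans ?_
    rw [adjW_C hA]
  · have h1 : AdjoinRoot.root g = AdjoinRoot.mk g (monomial 1 1) := by
      rw [monomial_one_one_eq_X]
      rfl
    rw [h1]
    refine (hmk _).trans ?_
    rw [adjW_monomial hA, pow_one]
    calc νA 1 * ρ ≤ 1 * ρ := mul_le_mul_of_nonneg_right hA.one h0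
      _ = ρ := one_mul _
  · refine ⟨⟨⟨fun s i => (r s).coeff i, ?_⟩, ?_⟩, ?_, ?_, ?_, ?_⟩
    · funext i
      change (r 0).coeff i = 0
      rw [map_zero, coeff_zero]
    · intro s t
      funext i
      change (r (s + t)).coeff i = (r s).coeff i + (r t).coeff i
      rw [map_add, coeff_add]
    · intro s t hst
      have hst' : ∀ i : Fin g.natDegree, (r s).coeff i = (r t).coeff i := fun i => congrFun hst i
      have h1 : r s = r t := by
        ext i
        rcases lt_or_ge i g.natDegree with hi | hi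
        · exact hst' ⟨i, hi⟩
        · rw [coeff_eq_zero_of_natDegree_lt ((hrdeg s).trans_le hi),
            coeff_eq_zero_of_natDegree_lt ((hrdeg t).trans_le hi)]
      rw [← hrs s, ← hrs t, h1]
    · intro s i
      change νA ((r s).coeff i) ≤ adjW νA ρ (r s)
      rw [adjW_eq hA ρ (r s) (hrdeg s).le]
      unfold wn
      calc νA ((r s).coeff i) ≤ νA ((r s).coeff i) * ρ ^ (i : ℕ) :=
            le_mul_of_one_le_right (hA.nonneg _) (one_le_pow₀ hρ1)
        _ = νA (PowerSeries.coeff (i : ℕ) ((r s : A[X]) : PowerSeries A)) * ρ ^ (i : ℕ) := by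
            rw [Polynomial.coeff_coe]
        _ ≤ _ := single_le_sum
            (f := fun k => νA (PowerSeries.coeff k ((r s : A[X]) : PowerSeries A)) * ρ ^ k)
            (fun k _ => mul_nonneg (hA.nonneg _) (pow_nonneg h0 _))
            (mem_range.2 (by omega))
    · intro a s i
      change (r (AdjoinRoot.of g a * s)).coeff i = a * (r s).coeff i
      have h1 : AdjoinRoot.of g a * s = a • s := by
        rw [Algebra.smul_def]
        rfl
      rw [h1, map_smul, coeff_smul, smul_eq_mul]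
    · intro p i
      change (r (aeval (AdjoinRoot.root g) p)).coeff i = _
      have h1 : aeval (AdjoinRoot.root g) p = AdjoinRoot.mk g (p.map (Int.castRingHom A)) := by
        rw [← AdjoinRoot.aeval_eq, aeval_def, aeval_def, eval₂_map]
        congr 1
      rw [h1, hr, AdjoinRoot.modByMonicHom_mk]

theorem exists_ord_genR {n Q : ℕ} {f : ℤ[X]} (hn : 4 ≤ n) (hQ : 2 ^ n ≤ Q)
    (hm : f.Monic) (hd : f.natDegree = n) (hc : ∀ j, |f.coeff j| ≤ (Q : ℤ))
    (hf : Irreducible f) (θ : ℝ) (hθ : aeval θ f = 0) :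
    ∃ O : Ord ℝ n Q f θ, ∀ (S : Type) [CommRing S] (s : S), aeval s f = 0 →
      ∃ J : O.R →+* S,
        (∀ (ν : S → ℝ), SubMul ν → ∀ ρ : ℝ, 1 ≤ ρ → ν s ≤ ρ → ∀ a, ν (J a) ≤ ρ ^ n * O.ν a) ∧
        (∀ ψ : S →+* ℝ, ψ s = θ → ∀ a, ψ (J a) = O.φ a) ∧
        ∀ a, ∃ p : ℤ[X], J a = aeval s p := by
  subst hd
  have hprime : Prime f := hf.prime
  have : IsDomain (AdjoinRoot f) := AdjoinRoot.isDomain_of_prime hprime
  have : NeZero f.natDegree := ⟨by omega⟩
  let B : Module.Basis (Fin f.natDegree) ℤ (AdjoinRoot f) := (AdjoinRoot.powerBasis' hm).basis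
  have hB : ∀ i, B i = AdjoinRoot.root f ^ (i : ℕ) := by
    intro i
    have h := congrFun (AdjoinRoot.powerBasis' hm).coe_basis i
    rw [AdjoinRoot.powerBasis'_gen] at h
    exact h
  have hroot : aeval (AdjoinRoot.root f) f = 0 := by
    rw [AdjoinRoot.aeval_eq, AdjoinRoot.mk_self]
  have hθ' : eval₂ (Int.castRingHom ℝ) θ f = 0 := by
    rw [aeval_def] at hθ
    exact hθ
  have hQ1 : 1 ≤ Q := le_trans Nat.one_le_two_pow hQ
  have hα := nrmN_α B (AdjoinRoot.root f) hB hQ1 hm rfl hc hroot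
  refine ⟨{ R := AdjoinRoot f
            α := AdjoinRoot.root f
            ν := nrmN B
            coord := B.equivFun.toLinearMap.toAddMonoidHom
            φ := AdjoinRoot.lift (Int.castRingHom ℝ) θ hθ'
            root := hroot
            ν_nonneg := nrmN_nonneg B
            ν_zero := nrmN_zero B
            ν_neg := nrmN_neg B
            ν_add := nrmN_add B
            ν_mul := nrmN_mul B
            ν_int := nrmN_int B
            ν_α := hα
            coord_inj := B.equivFun.injective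
            coord_le := fun a k => (abs_le_nrmL B a k).trans
              (nrmL_le_self B (AdjoinRoot.root f) hB a)
            φ_α := AdjoinRoot.lift_root hθ'
            φ_le := nrm_phi_le B (AdjoinRoot.root f) hB _
            liouville := fun a ha => nrm_liouville B (AdjoinRoot.root f) hB _ hn hQ hα ha
            indep := by
              intro p hp h0
              have h1 : aeval (AdjoinRoot.root f) p = 0 := h0
              rw [AdjoinRoot.aeval_eq, AdjoinRoot.mk_eq_zero] at h1
              exact Polynomial.eq_zero_of_dvd_of_natDegree_lt h1 hp }, ?_⟩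
  intro S _ s hs
  have hs' : eval₂ (Int.castRingHom S) s f = 0 := by
    rw [aeval_def] at hs
    exact hs
  refine ⟨AdjoinRoot.lift (Int.castRingHom S) s hs', ?_, ?_, ?_⟩
  · intro ν hν ρ hρ hsρ a
    change ν (AdjoinRoot.lift (Int.castRingHom S) s hs' a) ≤ ρ ^ f.natDegree * nrmN B a
    have h1 : AdjoinRoot.lift (Int.castRingHom S) s hs' a =
        ∑ i, ((B.repr a i : ℤ) : S) * s ^ (i : ℕ) := by
      conv_lhs => rw [← B.sum_repr a]
      rw [map_sum]
      refine Finset.sum_congr rfl fun i _ => ?_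
      rw [zsmul_eq_mul, map_mul, map_intCast, hB i, map_pow, AdjoinRoot.lift_root]
    rw [h1]
    have hρ0 : (0 : ℝ) ≤ ρ := by linarith
    calc ν (∑ i, ((B.repr a i : ℤ) : S) * s ^ (i : ℕ))
        ≤ ∑ i, ν (((B.repr a i : ℤ) : S) * s ^ (i : ℕ)) := SubMul_sum hν _ _
      _ ≤ ∑ i : Fin f.natDegree, |((B.repr a i : ℤ) : ℝ)| * ρ ^ f.natDegree := by
          refine Finset.sum_le_sum fun i _ => ?_
          refine (hν.mul _ _).trans ?_
          refine mul_le_mul (SubMul_int hν _) ?_ (hν.nonneg _) (abs_nonneg _)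
          refine (SubMul_pow hν hρ hsρ _).trans ?_
          exact pow_le_pow_right₀ hρ i.2.le
      _ = ρ ^ f.natDegree * nrmL B a := by
          rw [← Finset.sum_mul, mul_comm]
          rfl
      _ ≤ ρ ^ f.natDegree * nrmN B a :=
          mul_le_mul_of_nonneg_left (nrmL_le_self B (AdjoinRoot.root f) hB a) (by positivity)
  · intro ψ hψ a
    change ψ (AdjoinRoot.lift (Int.castRingHom S) s hs' a) =
      AdjoinRoot.lift (Int.castRingHom ℝ) θ hθ' a
    induction a using AdjoinRoot.induction_on with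
    | ih p =>
      have h1 : ψ.comp (Int.castRingHom S) = Int.castRingHom ℝ := RingHom.ext_int _ _
      rw [AdjoinRoot.lift_mk, AdjoinRoot.lift_mk, Polynomial.hom_eval₂, hψ, h1]
  · intro a
    change ∃ p : ℤ[X], AdjoinRoot.lift (Int.castRingHom S) s hs' a = aeval s p
    induction a using AdjoinRoot.induction_on with
    | ih p =>
      refine ⟨p, ?_⟩
      rw [AdjoinRoot.lift_mk, aeval_def]
      rfl

end Pool.Agent.H87.SA2
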