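import Pool.Agent.H87.SA2.YR

/-! # [SA2-CONJ] Complex conjugation permutes the Puiseux expansions and the values

`conj_R`: `conj` (`starRingEnd ℂ`, applied coefficientwise by `PowerSeries.map`) fixes the polynomial
`f.map (tq e q)` (integer coefficients, `q` real), so `∏ (X - C ((pd.x i).map conj)) = ∏ (X - C (pd.x i))`
(`pd.split`); so `(pd.x i).map conj = pd.x j` for a `j` (evaluate at it, `ℂ⟦T⟧` is a domain); `i ↦ j` is
injective (`pd.x_inj`, `conj` injective), so it is a permutation `π` (`Equiv.ofBijective`,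
`Finite.injective_iff_bijective`). Values: `evC (1/X0) (a.map conj) = conj (evC (1/X0) a)`
(`tayC_conj`, `Pool/Agent/H97/GA/TCB.lean`), and `N^m` is real. -/

namespace Pool.Agent.H87.SA2

open Finset Polynomial Pool.Agent.H72.ES Pool.Agent.H87.SA Pool.Agent.H97.GA

variable {f : ℤ[X][X]} {d m N : ℕ} {pd : PData f d} {X0 : ℝ}

private theorem tq_conj (e q : ℕ) :
    (PowerSeries.map (starRingEnd ℂ)).comp (tq e q) = tq e q := by
  refine Polynomial.ringHom_ext (fun a => ?_) ?_
  · rw [RingHom.comp_apply]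
    unfold tq
    simp
  · rw [RingHom.comp_apply]
    unfold tq
    simp only [coe_eval₂RingHom, eval₂_X, map_pow, map_mul, PowerSeries.map_C, PowerSeries.map_X,
      map_natCast]

private theorem conj_ex (pd : PData f d) (i : Fin d) :
    ∃ j : Fin d, (pd.x i).map (starRingEnd ℂ) = pd.x j := by
  have h1 : (f.map (tq pd.e pd.q)).map (PowerSeries.map (starRingEnd ℂ)) = f.map (tq pd.e pd.q) := by
    rw [Polynomial.map_map, tq_conj]
  have h2 : ∏ i, (X - C ((pd.x i).map (starRingEnd ℂ))) = ∏ i, (X - C (pd.x i)) := by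
    have h3 := h1
    rw [pd.split, Polynomial.map_prod] at h3
    simpa using h3
  have h4 := congrArg (Polynomial.eval ((pd.x i).map (starRingEnd ℂ))) h2
  rw [Polynomial.eval_prod, Polynomial.eval_prod] at h4
  have h5 : ∏ j, Polynomial.eval ((pd.x i).map (starRingEnd ℂ))
      (X - C ((pd.x j).map (starRingEnd ℂ))) = 0 :=
    Finset.prod_eq_zero (Finset.mem_univ i) (by simp)
  rw [h5] at h4
  obtain ⟨j, -, hj⟩ := Finset.prod_eq_zero_iff.mp h4.symm
  refine ⟨j, ?_⟩
  rw [Polynomial.eval_sub, Polynomial.eval_X, Polynomial.eval_C] at hj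
  exact sub_eq_zero.mp hj

theorem conj_R (H : RHyp f d m pd N X0) :
    ∃ π : Equiv.Perm (Fin d),
      (∀ i, (pd.x i).map (starRingEnd ℂ) = pd.x (π i)) ∧
      ∀ i, starRingEnd ℂ (yR pd m N X0 i) = yR pd m N X0 (π i) := by
  choose g hg using conj_ex pd
  have hinj : Function.Injective g := by
    intro i j hij
    apply pd.x_inj
    have h1 : (pd.x i).map (starRingEnd ℂ) = (pd.x j).map (starRingEnd ℂ) := by
      rw [hg i, hg j, hij]
    ext k
    have h2 := congrArg (PowerSeries.coeff k) h1
    rw [PowerSeries.coeff_map, PowerSeries.coeff_map] at h2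
    exact (starRingEnd ℂ).injective h2
  refine ⟨Equiv.ofBijective g (Finite.injective_iff_bijective.mp hinj), fun i => hg i, fun i => ?_⟩
  have h3 : evC (1 / X0) (pd.x (g i)) = starRingEnd ℂ (evC (1 / X0) (pd.x i)) := by
    rw [← hg i]
    unfold evC
    rw [tayC_conj, ← PowerSeries.coeff_zero_eq_constantCoeff_apply, PowerSeries.coeff_map,
      PowerSeries.coeff_zero_eq_constantCoeff_apply]
  show starRingEnd ℂ (yR pd m N X0 i) = yR pd m N X0 (g i)
  unfold yR
  rw [h3, map_mul, map_pow, map_natCast]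

end Pool.Agent.H87.SA2
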