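import Pool.Agent.H87.SA.SerB
import Mathlib.RingTheory.IntegralClosure.IsIntegralClosure.Basic
import Mathlib.Analysis.Complex.Basic

/-! # [SA2-EISA] Hensel series over the algebraic integers: integrality and growth

Proof. Put `δ = c 0 1`. Let `S` be the ring of algebraic integers in `ℂ` (`integralClosure ℤ ℂ`),
`ν a = ‖(a : ℂ)‖` (a `SubMul`). For `(i, j) ≠ (0, 0), (0, 1)` put
`c' i j = - c i j * δ ^ (2 i + j - 2) ∈ S` and `c' 0 0 = c' 0 1 = 0`. By
`Pool.Agent.H87.SA.exists_series_bd` there is `w : PowerSeries S` with constant coefficient `0`,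
`w = ∑ c' i j X^i w^j` and `‖w_k‖ b ≤ (b ^ 2) ^ k`, `b = (n + 1) ^ 2 C`. The series `v'` with
`v'_k = δ w_k / δ ^ (2 k)` (i.e. `rescale (δ ^ 2) v' = C δ * w` mapped to `ℂ`) satisfies the
equation of `v` (rescale it by `δ ^ 2` and divide by `δ ^ 2`; `rescale (δ ^ 2)` is injective) and
has constant coefficient `0`. Uniqueness: for two solutions `v, v'` without constant coefficient
the difference of the equations is `(v - v') * E`, where `E = ∑ c i j X^i ∑_{a + b = j - 1} v^a v'^b`
(`Commute.mul_geom_sum₂` / `mul_geom_sum₂`-type identity, or `sub_dvd_pow_sub_pow`)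
has constant coefficient `c 0 1 = δ ≠ 0`, so `v = v'`. Hence `δ ^ (2 k) v_k = δ w_k` is integral
and `‖v_k‖ ≤ ‖δ‖ (b / ‖δ‖) ^ (2 k)`; take `R = (1 + ‖δ‖) (1 + b / ‖δ‖) ^ 2`, or so. -/

namespace Pool.Agent.H87.SA2

open Finset Pool.Agent.H72.ES

/-- two solutions without constant coefficient coincide -/
theorem hens_unique {n : ℕ} (hn : 1 ≤ n) (c : ℕ → ℕ → ℂ) (h01 : c 0 1 ≠ 0)
    (v v' : PowerSeries ℂ) (hv0 : PowerSeries.constantCoeff v = 0)
    (hv0' : PowerSeries.constantCoeff v' = 0)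
    (hv : ∑ i ∈ range (n + 1), ∑ j ∈ range (n + 1),
      PowerSeries.C (c i j) * PowerSeries.X ^ i * v ^ j = 0)
    (hv' : ∑ i ∈ range (n + 1), ∑ j ∈ range (n + 1),
      PowerSeries.C (c i j) * PowerSeries.X ^ i * v' ^ j = 0) : v = v' := by
  set G : ℕ → PowerSeries ℂ := fun j => ∑ a ∈ range j, v ^ a * v' ^ (j - 1 - a) with hG
  have hGj : ∀ j, v ^ j - v' ^ j = (v - v') * G j := by
    intro j
    rw [mul_comm, hG]
    exact (geom_sum₂_mul v v' j).symm
  set E : PowerSeries ℂ := ∑ i ∈ range (n + 1), ∑ j ∈ range (n + 1),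
      PowerSeries.C (c i j) * PowerSeries.X ^ i * G j with hE
  have h1 : (v - v') * E = 0 := by
    have h2 : ∑ i ∈ range (n + 1), ∑ j ∈ range (n + 1),
        PowerSeries.C (c i j) * PowerSeries.X ^ i * v ^ j -
        ∑ i ∈ range (n + 1), ∑ j ∈ range (n + 1),
        PowerSeries.C (c i j) * PowerSeries.X ^ i * v' ^ j = (v - v') * E := by
      rw [hE, Finset.mul_sum, ← Finset.sum_sub_distrib]
      refine sum_congr rfl fun i _ => ?_
      rw [Finset.mul_sum, ← Finset.sum_sub_distrib]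
      refine sum_congr rfl fun j _ => ?_
      rw [← mul_sub, hGj]
      ring
    rw [← h2, hv, hv', sub_zero]
  have hGc : ∀ j, PowerSeries.constantCoeff (G j) = if j = 1 then 1 else 0 := by
    intro j
    rw [hG]
    simp only [map_sum, map_mul, map_pow, hv0, hv0']
    rcases j with _ | j
    · simp
    · rcases j with _ | j
      · simp
      · rw [if_neg (by omega)]
        apply Finset.sum_eq_zero
        intro a _
        rcases Nat.eq_zero_or_pos a with h | h
        · subst h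
          rw [zero_pow (n := j + 1 + 1 - 1 - 0) (by omega), mul_zero]
        · rw [zero_pow (n := a) (by omega), zero_mul]
  have hE0 : PowerSeries.constantCoeff E = c 0 1 := by
    rw [hE, map_sum]
    rw [Finset.sum_eq_single 0]
    · rw [map_sum, Finset.sum_eq_single 1]
      · simp [hGc]
      · intro b _ hb
        simp [hGc, hb]
      · intro h
        exact absurd (Finset.mem_range.2 (by omega)) h
    · intro b _ hb
      rw [map_sum]
      apply Finset.sum_eq_zero
      intro j _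
      simp [hb]
    · intro h
      exact absurd (Finset.mem_range.2 (by omega)) h
  have hEne : E ≠ 0 := by
    intro h
    rw [h, map_zero] at hE0
    exact h01 hE0.symm
  rcases mul_eq_zero.1 h1 with h | h
  · exact sub_eq_zero.1 h
  · exact absurd h hEne

theorem eis_hens (n : ℕ) (hn : 1 ≤ n) (c : ℕ → ℕ → ℂ) (hc : ∀ i j, IsIntegral ℤ (c i j))
    (h00 : c 0 0 = 0)
    (h01 : c 0 1 ≠ 0) (v : PowerSeries ℂ) (hv0 : PowerSeries.constantCoeff v = 0)
    (hv : ∑ i ∈ range (n + 1), ∑ j ∈ range (n + 1),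
      PowerSeries.C (c i j) * PowerSeries.X ^ i * v ^ j = 0) :
    (∀ k, IsIntegral ℤ (c 0 1 ^ (2 * k) * PowerSeries.coeff k v)) ∧
      ∃ R : ℝ, 1 ≤ R ∧ ∀ k, ‖PowerSeries.coeff k v‖ ≤ R ^ (k + 1) := by
  set δ : ℂ := c 0 1 with hδ
  let S : Type := integralClosure ℤ ℂ
  let ν : S → ℝ := fun a => ‖(a : ℂ)‖
  have hν : SubMul ν :=
    { nonneg := fun a => norm_nonneg _
      zero := by simp [ν]
      neg := fun a => norm_neg (a : ℂ)
      add := fun a b => norm_add_le (a : ℂ) (b : ℂ)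
      mul := fun a b => norm_mul_le (a : ℂ) (b : ℂ)
      one := by simp [ν] }
  let C0 : ℕ → ℕ → S := fun i j => ⟨c i j, hc i j⟩
  let D : S := ⟨δ, hc 0 1⟩
  let c' : ℕ → ℕ → S := fun i j =>
    if i = 0 ∧ j ≤ 1 then 0 else - C0 i j * D ^ (2 * i + j - 2)
  obtain ⟨B, hB1, hB⟩ : ∃ B : ℝ, 1 ≤ B ∧ ∀ i j, i ≤ n → j ≤ n → ν (c' i j) ≤ B := by
    refine ⟨1 + ∑ i ∈ range (n + 1), ∑ j ∈ range (n + 1), ν (c' i j), ?_, ?_⟩
    · have : 0 ≤ ∑ i ∈ range (n + 1), ∑ j ∈ range (n + 1), ν (c' i j) :=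
        Finset.sum_nonneg fun i _ => Finset.sum_nonneg fun j _ => hν.nonneg _
      linarith
    · intro i j hi hj
      have h1 : ν (c' i j) ≤ ∑ j ∈ range (n + 1), ν (c' i j) :=
        Finset.single_le_sum (f := fun j => ν (c' i j)) (fun j _ => hν.nonneg _)
          (Finset.mem_range.2 (by omega))
      have h2 : ∑ j ∈ range (n + 1), ν (c' i j) ≤
          ∑ i ∈ range (n + 1), ∑ j ∈ range (n + 1), ν (c' i j) :=
        Finset.single_le_sum (f := fun i => ∑ j ∈ range (n + 1), ν (c' i j))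
          (fun i _ => Finset.sum_nonneg fun j _ => hν.nonneg _) (Finset.mem_range.2 (by omega))
      linarith
  obtain ⟨w, hw0, hw, hwb⟩ := Pool.Agent.H87.SA.exists_series_bd hν n c'
    (by simp [c']) (by simp [c']) hB1 hB
  -- map to ℂ
  let φ : S →+* ℂ := (integralClosure ℤ ℂ).val.toRingHom
  have hφ : ∀ a : S, φ a = (a : ℂ) := fun a => rfl
  set W : PowerSeries ℂ := w.map φ with hW
  have hWc : ∀ k, PowerSeries.coeff k W = ((PowerSeries.coeff k w : S) : ℂ) := by
    intro k
    rw [hW, PowerSeries.coeff_map, hφ]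
  have hWeq : W = ∑ i ∈ range (n + 1), ∑ j ∈ range (n + 1),
      PowerSeries.C (φ (c' i j)) * PowerSeries.X ^ i * W ^ j := by
    conv_lhs => rw [hW, hw]
    rw [map_sum]
    refine sum_congr rfl fun i _ => ?_
    rw [map_sum]
    refine sum_congr rfl fun j _ => ?_
    rw [map_mul, map_mul, map_pow, map_pow, PowerSeries.map_C, PowerSeries.map_X]
  -- the equation for W
  have hW2 : ∑ i ∈ range (n + 1), ∑ j ∈ range (n + 1),
      PowerSeries.C (c i j * δ ^ (2 * i + j)) * PowerSeries.X ^ i * W ^ j = 0 := by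
    have h1 : ∀ i j, PowerSeries.C (c i j * δ ^ (2 * i + j)) * PowerSeries.X ^ i * W ^ j =
        (if i = 0 then (if j = 1 then PowerSeries.C (δ ^ 2) * W else 0) else 0) -
        PowerSeries.C (δ ^ 2) *
          (PowerSeries.C (φ (c' i j)) * PowerSeries.X ^ i * W ^ j) := by
      intro i j
      by_cases hi : i = 0
      · subst hi
        rcases j with _ | j
        · simp [c', h00]
        · rcases j with _ | j
          · have h2 : c' 0 (0 + 1) = 0 := by simp [c']
            have h3 : c 0 (0 + 1) * δ ^ (2 * 0 + (0 + 1)) = δ ^ 2 := by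
              show δ * δ ^ 1 = δ ^ 2
              ring
            rw [if_pos rfl, if_pos rfl, h2, h3, map_zero, map_zero]
            simp only [pow_zero, zero_add, pow_one, mul_one, zero_mul, mul_zero, sub_zero]
          · rw [if_pos rfl, if_neg (by omega)]
            have h2 : c' 0 (j + 1 + 1) = - C0 0 (j + 1 + 1) * D ^ (2 * 0 + (j + 1 + 1) - 2) := by
              simp only [c']
              rw [if_neg (by omega)]
            rw [h2, hφ]
            have h3 : ((- C0 0 (j + 1 + 1) * D ^ (2 * 0 + (j + 1 + 1) - 2) : S) : ℂ) =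
                - c 0 (j + 1 + 1) * δ ^ j := by
              have h4 : 2 * 0 + (j + 1 + 1) - 2 = j := by omega
              rw [h4]
              rfl
            rw [h3]
            have h5 : c 0 (j + 1 + 1) * δ ^ (2 * 0 + (j + 1 + 1)) =
                - (δ ^ 2 * (- c 0 (j + 1 + 1) * δ ^ j)) := by ring
            rw [h5]
            simp only [map_neg, map_mul, pow_zero]
            ring
      · rw [if_neg hi]
        have h2 : c' i j = - C0 i j * D ^ (2 * i + j - 2) := by
          simp only [c']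
          rw [if_neg (by omega)]
        rw [h2, hφ]
        have h3 : ((- C0 i j * D ^ (2 * i + j - 2) : S) : ℂ) = - c i j * δ ^ (2 * i + j - 2) := rfl
        rw [h3]
        obtain ⟨e, he⟩ : ∃ e, 2 * i + j = e + 2 := ⟨2 * i + j - 2, by omega⟩
        rw [he]
        have h5 : c i j * δ ^ (e + 2) = - (δ ^ 2 * (- c i j * δ ^ (e + 2 - 2))) := by
          rw [Nat.add_sub_cancel]
          ring
        rw [h5]
        simp only [map_neg, map_mul]
        ring
    simp_rw [h1]
    simp_rw [Finset.sum_sub_distrib, ← Finset.mul_sum]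
    rw [← hWeq]
    rw [Finset.sum_eq_single 0]
    · simp only [if_true]
      rw [Finset.sum_eq_single 1]
      · simp
      · intro b _ hb
        rw [if_neg hb]
      · intro h
        exact absurd (Finset.mem_range.2 (by omega)) h
    · intro b _ hb
      simp [hb]
    · intro h
      exact absurd (Finset.mem_range.2 (by omega)) h
  have hδ2 : δ ^ 2 ≠ 0 := pow_ne_zero 2 h01
  -- the series v'
  set v' : PowerSeries ℂ := PowerSeries.rescale ((δ ^ 2)⁻¹) (PowerSeries.C δ * W) with hv'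
  have hv'c : ∀ k, PowerSeries.coeff k v' = ((δ ^ 2)⁻¹) ^ k * (δ * PowerSeries.coeff k W) := by
    intro k
    rw [hv', PowerSeries.coeff_rescale, PowerSeries.coeff_C_mul]
  have hv'0 : PowerSeries.constantCoeff v' = 0 := by
    rw [← PowerSeries.coeff_zero_eq_constantCoeff_apply, hv'c, hWc,
      PowerSeries.coeff_zero_eq_constantCoeff_apply, hw0]
    simp
  have hv'eq : ∑ i ∈ range (n + 1), ∑ j ∈ range (n + 1),
      PowerSeries.C (c i j) * PowerSeries.X ^ i * v' ^ j = 0 := by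
    have h1 := congrArg (PowerSeries.rescale ((δ ^ 2)⁻¹)) hW2
    rw [map_zero, map_sum] at h1
    rw [← h1]
    refine sum_congr rfl fun i _ => ?_
    rw [map_sum]
    refine sum_congr rfl fun j _ => ?_
    have hrC : ∀ a : ℂ, PowerSeries.rescale ((δ ^ 2)⁻¹) (PowerSeries.C a) = PowerSeries.C a := by
      intro a
      ext k
      rw [PowerSeries.coeff_rescale, PowerSeries.coeff_C]
      split_ifs with h
      · subst h; simp
      · simp
    have h2 : c i j * δ ^ (2 * i + j) * ((δ ^ 2)⁻¹) ^ i = c i j * δ ^ j := by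
      rw [pow_add, pow_mul, inv_pow]
      have h3 : (δ ^ 2) ^ i ≠ 0 := pow_ne_zero i hδ2
      field_simp
    set V : PowerSeries ℂ := PowerSeries.rescale ((δ ^ 2)⁻¹) W with hV
    have h4 : v' = PowerSeries.C δ * V := by
      rw [hv', map_mul, hrC]
    have h5 : PowerSeries.rescale ((δ ^ 2)⁻¹)
        (PowerSeries.C (c i j * δ ^ (2 * i + j)) * PowerSeries.X ^ i * W ^ j) =
        PowerSeries.C (c i j * δ ^ (2 * i + j)) *
          (PowerSeries.C ((δ ^ 2)⁻¹) * PowerSeries.X) ^ i * V ^ j := by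
      rw [map_mul, map_mul, map_pow, map_pow, PowerSeries.rescale_X, hrC]
    rw [h5, h4]
    calc PowerSeries.C (c i j) * PowerSeries.X ^ i * (PowerSeries.C δ * V) ^ j
        = PowerSeries.C (c i j * δ ^ j) * PowerSeries.X ^ i * V ^ j := by
          rw [map_mul, map_pow, mul_pow]; ring
      _ = PowerSeries.C (c i j * δ ^ (2 * i + j) * ((δ ^ 2)⁻¹) ^ i) * PowerSeries.X ^ i *
          V ^ j := by rw [h2]
      _ = _ := by
          rw [map_mul PowerSeries.C (c i j * δ ^ (2 * i + j)), map_pow PowerSeries.C ((δ ^ 2)⁻¹) i,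
            mul_pow]
          ring
  have hvv : v = v' := hens_unique hn c h01 v v' hv0 hv'0 hv hv'eq
  have hk : ∀ k, PowerSeries.coeff k v = ((δ ^ 2)⁻¹) ^ k * (δ * PowerSeries.coeff k W) := by
    intro k
    rw [hvv, hv'c]
  refine ⟨?_, ?_⟩
  · intro k
    have h1 : δ ^ (2 * k) * PowerSeries.coeff k v = ((D * PowerSeries.coeff k w : S) : ℂ) := by
      rw [hk, hWc, pow_mul]
      have h2 : (δ ^ 2) ^ k * ((δ ^ 2)⁻¹) ^ k = 1 := by
        rw [← mul_pow, mul_inv_cancel₀ hδ2, one_pow]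
      have h3 : ((D * PowerSeries.coeff k w : S) : ℂ) = δ * ((PowerSeries.coeff k w : S) : ℂ) := rfl
      rw [h3, ← mul_assoc, h2, one_mul]
    rw [h1]
    exact (D * PowerSeries.coeff k w : S).2
  · set b : ℝ := ((n : ℝ) + 1) ^ 2 * B with hb
    have hb1 : 1 ≤ b := by
      have h1 : (1 : ℝ) ≤ (n : ℝ) + 1 := by
        have : (0 : ℝ) ≤ n := Nat.cast_nonneg n
        linarith
      have h2 : (1 : ℝ) ≤ ((n : ℝ) + 1) ^ 2 := one_le_pow₀ h1
      calc (1 : ℝ) = 1 * 1 := by ring
        _ ≤ ((n : ℝ) + 1) ^ 2 * B := mul_le_mul h2 hB1 (by norm_num) (by linarith)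
    have hδpos : 0 < ‖δ‖ := norm_pos_iff.2 h01
    have hq : 0 ≤ b ^ 2 / ‖δ‖ ^ 2 := by positivity
    refine ⟨(1 + ‖δ‖) * (1 + b ^ 2 / ‖δ‖ ^ 2), ?_, ?_⟩
    · calc (1 : ℝ) = 1 * 1 := by ring
        _ ≤ (1 + ‖δ‖) * (1 + b ^ 2 / ‖δ‖ ^ 2) :=
            mul_le_mul (by linarith) (by linarith) (by norm_num) (by linarith)
    · intro k
      have h1 : ‖PowerSeries.coeff k v‖ = (‖δ‖ ^ 2)⁻¹ ^ k * (‖δ‖ * ν (PowerSeries.coeff k w)) := by
        rw [hk, hWc, norm_mul, norm_pow, norm_inv, norm_pow, norm_mul]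
      have h2 : ν (PowerSeries.coeff k w) ≤ (b ^ 2) ^ k := by
        have h3 := hwb k
        have h4 := hν.nonneg (PowerSeries.coeff k w)
        calc ν (PowerSeries.coeff k w) = ν (PowerSeries.coeff k w) * 1 := by ring
          _ ≤ ν (PowerSeries.coeff k w) * b := mul_le_mul_of_nonneg_left hb1 h4
          _ ≤ (b ^ 2) ^ k := h3
      rw [h1]
      calc (‖δ‖ ^ 2)⁻¹ ^ k * (‖δ‖ * ν (PowerSeries.coeff k w))
          ≤ (‖δ‖ ^ 2)⁻¹ ^ k * (‖δ‖ * (b ^ 2) ^ k) := by gcongr
        _ = ‖δ‖ * (b ^ 2 / ‖δ‖ ^ 2) ^ k := by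
            rw [div_pow, inv_pow]
            field_simp
        _ ≤ (1 + ‖δ‖) * (1 + b ^ 2 / ‖δ‖ ^ 2) ^ k := by
            gcongr
            · linarith
            · linarith
        _ ≤ (1 + ‖δ‖) ^ (k + 1) * (1 + b ^ 2 / ‖δ‖ ^ 2) ^ (k + 1) := by
            gcongr
            · calc (1 + ‖δ‖) = (1 + ‖δ‖) ^ 1 := by ring
                _ ≤ (1 + ‖δ‖) ^ (k + 1) := pow_le_pow_right₀ (by linarith) (by omega)
            · linarith
            · omega
        _ = ((1 + ‖δ‖) * (1 + b ^ 2 / ‖δ‖ ^ 2)) ^ (k + 1) := (mul_pow _ _ _).symm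

end Pool.Agent.H87.SA2
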