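import Pool.Agent.H87.SA2.FINR
import Pool.Agent.H87.SA2.PDE
import Pool.Agent.H87.SA2.RAD
import Pool.Agent.H87.SA2.SEPN
import Pool.Agent.H87.SA.FinS

/-! # [SA2-FINP] Effective Siegel theorem over the fibres of a one-parameter family -/

namespace Pool.Agent.H87.SA2

open Finset Polynomial Pool.Agent.H72.ES Pool.Agent.H8.KF Pool.Agent.H8.NoPt Pool.Agent.H87.SA
  Pool.Agent.H97.GA Pool.Agent.H97.AN

/-- `f(1/N, X)` -/
noncomputable def fib (f : ℤ[X][X]) (N : ℕ) : ℚ[X] :=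
  f.map ((aeval (1 / (N : ℚ)) : ℤ[X] →ₐ[ℤ] ℚ) : ℤ[X] →+* ℚ)

theorem one_num {n K0 gx H' P : ℕ} {X0 : ℝ} (hX : 1 ≤ X0) (hX0 : X0 ≤ (P : ℝ) ^ 2) (h1P : 1 ≤ P)
    (hH : H' ≤ P) (hH1 : 2 ≤ H') :
    ((2 * H' ^ n : ℕ) : ℝ) ^ 2 * WWR n K0 gx X0 (2 * H' ^ n) ≤
      (P : ℝ) ^ (2 * (n + 1) + ((2 * gx + 14 * n ^ 2 * (n + 1)) * (10 ^ 6 * n ^ 3 * K0) +
        2 * (10 ^ 6 * n ^ 6 * K0 ^ 2))) := by
  have hP1 : (1 : ℝ) ≤ P := by exact_mod_cast h1P
  have hQ : ((2 * H' ^ n : ℕ) : ℝ) ≤ (P : ℝ) ^ (n + 1) := by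
    have h1 : 2 * H' ^ n ≤ P ^ (n + 1) := by
      rw [pow_succ']
      exact Nat.mul_le_mul (hH1.trans hH) (Nat.pow_le_pow_left hH n)
    exact_mod_cast h1
  have hQ0 : (0 : ℝ) ≤ ((2 * H' ^ n : ℕ) : ℝ) := Nat.cast_nonneg _
  set Q : ℕ := 2 * H' ^ n with hQdef
  have hbb : bb n Q ≤ (P : ℝ) ^ (7 * n ^ 2 * (n + 1)) := by
    unfold bb
    refine (pow_le_pow_left₀ hQ0 hQ _).trans (le_of_eq ?_)
    rw [← pow_mul]
    congr 1
    ring
  have hbb0 : 0 ≤ bb n Q := by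
    unfold bb
    positivity
  have h1 : WWR n K0 gx X0 Q ≤ (((P : ℝ) ^ 2) ^ gx * (P : ℝ) ^ (7 * n ^ 2 * (n + 1)) *
      (P : ℝ) ^ (7 * n ^ 2 * (n + 1))) ^ (10 ^ 6 * n ^ 3 * K0) *
        ((P : ℝ) ^ 2) ^ (10 ^ 6 * n ^ 6 * K0 ^ 2) := by
    unfold WWR
    gcongr
  calc ((2 * H' ^ n : ℕ) : ℝ) ^ 2 * WWR n K0 gx X0 Q
      ≤ ((P : ℝ) ^ (n + 1)) ^ 2 * ((((P : ℝ) ^ 2) ^ gx * (P : ℝ) ^ (7 * n ^ 2 * (n + 1)) *
      (P : ℝ) ^ (7 * n ^ 2 * (n + 1))) ^ (10 ^ 6 * n ^ 3 * K0) *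
        ((P : ℝ) ^ 2) ^ (10 ^ 6 * n ^ 6 * K0 ^ 2)) := by
        have h2 : 0 ≤ WWR n K0 gx X0 Q := by
          unfold WWR
          positivity
        exact mul_le_mul (pow_le_pow_left₀ hQ0 hQ 2) h1 h2 (by positivity)
    _ = _ := by
        rw [← pow_mul, ← pow_mul, ← pow_mul, ← pow_add, ← pow_add, ← pow_mul, ← pow_add, ← pow_add]
        congr 1
        ring

theorem fib_dvd {f g : ℤ[X][X]} (h : f ∣ g) (N : ℕ) : fib f N ∣ fib g N := by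
  unfold fib
  obtain ⟨c, rfl⟩ := h
  exact ⟨c.map _, Polynomial.map_mul _⟩

theorem fib_pow (f : ℤ[X][X]) (k N : ℕ) : fib (f ^ k) N = fib f N ^ k := by
  unfold fib
  rw [Polynomial.map_pow]

theorem adj_root {P : ℚ[X]} (hP : Irreducible P) (γ : AdjoinRoot P) {u v : ℚ[X]} {k : ℕ}
    (h : u ∣ v ^ k) (hu : aeval γ u = 0) : aeval γ v = 0 := by
  haveI : IsDomain (AdjoinRoot P) := AdjoinRoot.isDomain_of_prime hP.prime
  obtain ⟨c, hc⟩ := h
  have h2 := congrArg (aeval γ) hc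
  rw [map_mul, hu, zero_mul, map_pow] at h2
  have hk : k ≠ 0 := by
    intro hk
    rw [hk, pow_zero] at h2
    exact one_ne_zero h2
  exact (pow_eq_zero_iff hk).1 h2

theorem adj_one {P : ℚ[X]} (hP : Irreducible P) (γ : AdjoinRoot P) {u : ℚ[X]}
    (h : u ∣ 1) (hu : aeval γ u = 0) : False := by
  haveI : IsDomain (AdjoinRoot P) := AdjoinRoot.isDomain_of_prime hP.prime
  have h1 : aeval γ (1 : ℚ[X]) = 0 := adj_root (k := 1) hP γ (by rwa [pow_one]) hu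
  rw [map_one] at h1
  exact one_ne_zero h1

/-- the case of a squarefree polynomial -/
theorem one_sqf (f : ℤ[X][X]) (hf : f.Monic) (hd : 1 ≤ f.natDegree) (a b : ℤ[X][X]) (c : ℤ[X])
    (hc : c ≠ 0) (hbez : a * f + b * derivative f = C c) (n nu : ℕ) (hn : 4 ≤ n)
    (hnu : ∀ g : (PowerSeries ℚ)[X], g.Monic → Irreducible g → g ∣ fQ f → RealRoot g →
      3 * g.natDegree ≤ nu) :
    ∃ C0 : ℕ, ∀ N : ℕ, C0 ≤ N → ∀ G : ℕ → ℕ → ℤ, G 0 n ≠ 0 → Irreducible (leadQ n G) →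
      (∃ γ : AdjoinRoot (leadQ n G), aeval γ (fib f N) = 0 ∧ nu ≤ (minpoly ℚ γ).natDegree) →
      ∀ H : ℕ, 1 ≤ H → (∀ i j, i + j ≤ n → |G i j| ≤ (H : ℤ)) →
      ∀ x y : ℤ, ev n G x y = 0 → ((max |x| |y| : ℤ) : ℝ) ≤ ((N : ℝ) * H) ^ C0 := by
  obtain ⟨pd, -⟩ := exists_pdata f hf a b c hc hbez
  set d := f.natDegree with hddef
  obtain ⟨m, hm⟩ : ∃ m : ℕ, ∀ j, (f.coeff j).natDegree ≤ m := by
    refine ⟨f.support.sup fun j => (f.coeff j).natDegree, fun j => ?_⟩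
    by_cases hj : j ∈ f.support
    · exact Finset.le_sup (f := fun j => (f.coeff j).natDegree) hj
    · rw [notMem_support_iff.1 hj]
      simp
  obtain ⟨s0, hs0⟩ := exists_s0 pd.x pd.x_inj
  obtain ⟨N0, hN01, hN0⟩ := exists_sep hf rfl hm a b c hc hbez
  have he := pd.e_pos
  have hq := pd.q_pos
  have hR := pd.R_ge
  set K0 := KK (pd.e * d.factorial) (kapR d m pd.e) with hK0
  set gx := gexR d m pd.e s0 with hgx
  obtain ⟨T, hT⟩ : ∃ T : ℕ, (4 * pd.R + (d * d.factorial + 1 : ℕ) + (s0 * d.factorial + s0 + 1 : ℕ) +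
      (16 * pd.R) ^ (10 ^ 5 * n ^ 4 * K0) : ℝ) ≤ T := exists_nat_ge _
  set C1 := 2 * (n + 1) + ((2 * gx + 14 * n ^ 2 * (n + 1)) * (10 ^ 6 * n ^ 3 * K0) +
        2 * (10 ^ 6 * n ^ 6 * K0 ^ 2)) with hC1
  refine ⟨N0 + pd.q + T ^ pd.e + 2 + C1, ?_⟩
  intro N hN G haG hirr hγ H hH1 hGH x y hz
  obtain ⟨γ, hγ0, hγ3⟩ := hγ
  have hN1 : 1 ≤ N := by omega
  have hN2 : 2 ≤ N := by omega
  have hqN : pd.q ≤ N := by omega
  have hTN : T ^ pd.e ≤ N := by omega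
  have hN1R : (1 : ℝ) ≤ N := by exact_mod_cast hN1
  have hq1R : (1 : ℝ) ≤ pd.q := by exact_mod_cast hq
  obtain ⟨X0, hX0def⟩ : ∃ X0 : ℝ, X0 = (pd.q : ℝ) * (N : ℝ) ^ ((pd.e : ℝ)⁻¹) := ⟨_, rfl⟩
  have hroot : (1 : ℝ) ≤ (N : ℝ) ^ ((pd.e : ℝ)⁻¹) := Real.one_le_rpow hN1R (by positivity)
  have hX1 : 1 ≤ X0 := by
    rw [hX0def]
    exact one_le_mul_of_one_le_of_one_le hq1R hroot
  have hpow : X0 ^ pd.e = ((pd.q ^ pd.e * N : ℕ) : ℝ) := by
    rw [hX0def, mul_pow, Real.rpow_inv_natCast_pow (by positivity) (by omega)]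
    push_cast
    ring
  have hXT : (T : ℝ) ≤ X0 := by
    refine le_of_pow_le_pow_left₀ (n := pd.e) (by omega) (by positivity) ?_
    rw [hpow]
    have h1 : T ^ pd.e ≤ pd.q ^ pd.e * N := hTN.trans (Nat.le_mul_of_pos_left _ (by positivity))
    exact_mod_cast h1
  have hXN : X0 ≤ (N : ℝ) ^ 2 := by
    refine le_of_pow_le_pow_left₀ (n := pd.e) (by omega) (by positivity) ?_
    rw [hpow]
    have h1 : pd.q ^ pd.e * N ≤ (N ^ 2) ^ pd.e := by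
      calc pd.q ^ pd.e * N ≤ N ^ pd.e * N ^ pd.e :=
            Nat.mul_le_mul (Nat.pow_le_pow_left hqN _) (Nat.le_self_pow (by omega) N)
        _ = (N ^ 2) ^ pd.e := by rw [← mul_pow, sq]
    exact_mod_cast h1
  have hR0 : (0 : ℝ) ≤ (16 * pd.R) ^ (10 ^ 5 * n ^ 4 * K0) := by positivity
  have hn1 : (0 : ℝ) ≤ ((d * d.factorial + 1 : ℕ) : ℝ) := Nat.cast_nonneg _
  have hn2 : (0 : ℝ) ≤ ((s0 * d.factorial + s0 + 1 : ℕ) : ℝ) := Nat.cast_nonneg _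
  have hyp : RHyp f d m pd N X0 :=
    { monic := hf
      deg := rfl
      d1 := hd
      mdeg := hm
      N1 := hN1
      X1 := hX1
      pow := hpow
      big := by linarith
      sep := hN0 N (by omega) }
  set H' := max 2 H with hH'
  have hmain := one_array hn hyp hs0 (by linarith) (by linarith) (by linarith) hnu G haG hirr γ hγ0
    hγ3 H' (le_max_left _ _) (fun i j hij => (hGH i j hij).trans (by exact_mod_cast le_max_right 2 H))
    x y hz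
  have hP1 : 1 ≤ N * H := Nat.mul_pos hN1 hH1
  have hH'P : H' ≤ N * H := by
    refine max_le ?_ ?_
    · exact hN2.trans (Nat.le_mul_of_pos_right _ hH1)
    · exact Nat.le_mul_of_pos_left _ hN1
  have hNP : (N : ℝ) ≤ ((N * H : ℕ) : ℝ) := by exact_mod_cast Nat.le_mul_of_pos_right _ hH1
  have hXP : X0 ≤ (((N * H : ℕ) : ℝ)) ^ 2 := hXN.trans (pow_le_pow_left₀ (by positivity) hNP 2)
  have hnum := one_num (n := n) (K0 := K0) (gx := gx) hX1 hXP hP1 hH'P (le_max_left 2 H)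
  refine hmain.trans (hnum.trans ?_)
  rw [← hC1]
  have hP1R : (1 : ℝ) ≤ ((N * H : ℕ) : ℝ) := by exact_mod_cast hP1
  have h3 : ((N * H : ℕ) : ℝ) = (N : ℝ) * H := by push_cast; ring
  rw [← h3]
  exact pow_le_pow_right₀ hP1R (by omega)

/-- **Effective Siegel theorem over the fibres of a one-parameter family.** -/
theorem one_poly (f : ℤ[X][X]) (hf : f.Monic) (n nu : ℕ) (hn : 4 ≤ n)
    (hnu : ∀ g : (PowerSeries ℚ)[X], g.Monic → Irreducible g → g ∣ fQ f → RealRoot g →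
      3 * g.natDegree ≤ nu) :
    ∃ C0 : ℕ, ∀ N : ℕ, C0 ≤ N → ∀ F : MvPolynomial (Fin 2) ℤ, F.totalDegree ≤ n →
      Irreducible (MvPolynomial.map (Int.castRingHom ℚ)
        (MvPolynomial.homogeneousComponent n F)) →
      (∃ γ : AdjoinRoot (MvPolynomial.aeval ![(1 : ℚ[X]), X]
        (MvPolynomial.homogeneousComponent n F)),
        aeval γ (fib f N) = 0 ∧ nu ≤ (minpoly ℚ γ).natDegree) →
      ∀ x y : ℤ, MvPolynomial.eval ![x, y] F = 0 →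
      max |x| |y| ≤ ((N : ℤ) * ((F.support.sup fun m => (F.coeff m).natAbs : ℕ) : ℤ)) ^ C0 := by
  obtain ⟨f1, k, hf1, hdvd, hdvd2, a, b, c, hc, hbez⟩ := exists_rad f hf
  by_cases hd : f1.natDegree = 0
  · -- `f1 = 1`
    refine ⟨0, fun N _ F hFdeg hirr hγ => ?_⟩
    exfalso
    have h1 : f1 = 1 := hf1.natDegree_eq_zero.1 hd
    obtain ⟨γ, hγ0, -⟩ := hγ
    rw [h1, one_pow] at hdvd2
    have h2 : fib f N ∣ 1 := by
      have := fib_dvd hdvd2 N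
      have h3 : fib 1 N = 1 := by
        unfold fib
        exact Polynomial.map_one _
      rwa [h3] at this
    obtain ⟨hG0, hirr'⟩ := leadQ_of_irreducible (by omega) hirr
    rw [← aeval_lead] at hirr'
    exact adj_one hirr' γ h2 hγ0
  · have hnu1 : ∀ g : (PowerSeries ℚ)[X], g.Monic → Irreducible g → g ∣ fQ f1 → RealRoot g →
        3 * g.natDegree ≤ nu := by
      intro g h1 h2 h3 h4
      refine hnu g h1 h2 (h3.trans ?_) h4
      unfold fQ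
      obtain ⟨e, rfl⟩ := hdvd
      exact ⟨e.map _, Polynomial.map_mul _⟩
    obtain ⟨C0, hC0⟩ := one_sqf f1 hf1 (by omega) a b c hc hbez n nu hn hnu1
    refine ⟨C0, fun N hN F hFdeg hirr hγ x y hz => ?_⟩
    have hbd := coeff_le_sup F
    set H := F.support.sup fun m => (F.coeff m).natAbs with hH
    rw [aeval_lead] at hγ
    obtain ⟨γ, hγ0, hγ3⟩ := hγ
    obtain ⟨hG0, hirr'⟩ := leadQ_of_irreducible (by omega) hirr
    have hz' : ev n (arrM F) x y = 0 := by rw [← eval_arrM hFdeg]; exact hz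
    have hγ0' : aeval γ (fib f1 N) = 0 := by
      have h1 : fib f N ∣ fib f1 N ^ k := by
        rw [← fib_pow]
        exact fib_dvd hdvd2 N
      exact adj_root hirr' γ h1 hγ0
    have hH1 : 1 ≤ H := by
      by_contra hc
      have h0 : H = 0 := by omega
      have h1 := hbd (ex 0 n)
      rw [h0] at h1
      apply hG0
      have h2 : F.coeff (ex 0 n) = 0 := by
        have h3 := abs_nonneg (F.coeff (ex 0 n))
        have h4 : |F.coeff (ex 0 n)| ≤ 0 := by simpa using h1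
        exact abs_eq_zero.1 (le_antisymm h4 h3)
      exact h2
    have hfin := hC0 N hN (arrM F) hG0 hirr' ⟨γ, hγ0', hγ3⟩ H hH1 (fun i j _ => hbd _) x y hz'
    exact_mod_cast hfin

end Pool.Agent.H87.SA2
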