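import Pool.Agent.H87.SA2.ANCHR
import Pool.Agent.H87.SA2.Core
import Pool.Agent.H97.AN.Fin

/-! # [SA2-FINR] The effective theorem for integer arrays -/

namespace Pool.Agent.H87.SA2

open Finset Polynomial Pool.Agent.H72.ES Pool.Agent.H8.KF Pool.Agent.H8.NoPt Pool.Agent.H87.SA
  Pool.Agent.H97.GA Pool.Agent.H97.AN

/-- the window -/
noncomputable def WWR (n K0 gx : ℕ) (X0 : ℝ) (Q : ℕ) : ℝ :=
  (X0 ^ gx * bb n Q * bb n Q) ^ (10 ^ 6 * n ^ 3 * K0) * X0 ^ (10 ^ 6 * n ^ 6 * K0 ^ 2)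

theorem one_array {n : ℕ} (hn : 4 ≤ n) {f : ℤ[X][X]} {d m N : ℕ} {pd : PData f d} {X0 : ℝ}
    (H : RHyp f d m pd N X0) {s0 : ℕ}
    (hs0 : ∀ i j, (∀ k ≤ s0, PowerSeries.coeff k (pd.x i) = PowerSeries.coeff k (pd.x j)) → i = j)
    (hXw : ((d * d.factorial + 1 : ℕ) : ℝ) ≤ X0)
    (hXs : ((s0 * d.factorial + s0 + 1 : ℕ) : ℝ) ≤ X0)
    (hXR : (16 * pd.R) ^ (10 ^ 5 * n ^ 4 * KK (pd.e * d.factorial) (kapR d m pd.e)) ≤ X0)
    {nu : ℕ} (hnu : ∀ g : (PowerSeries ℚ)[X], g.Monic → Irreducible g → g ∣ fQ f → RealRoot g →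
      3 * g.natDegree ≤ nu)
    (G : ℕ → ℕ → ℤ) (haG : G 0 n ≠ 0)
    (hirr : Irreducible (leadQ n G)) (γ : AdjoinRoot (leadQ n G))
    (hγ0 : aeval γ (f.map ((aeval (1 / (N : ℚ)) : ℤ[X] →ₐ[ℤ] ℚ) : ℤ[X] →+* ℚ)) = 0)
    (hγ3 : nu ≤ (minpoly ℚ γ).natDegree) (Hh : ℕ) (hH : 2 ≤ Hh)
    (hG : ∀ i j, i + j ≤ n → |G i j| ≤ (Hh : ℤ)) (x y : ℤ) (hz : ev n G x y = 0) :
    ((max |x| |y| : ℤ) : ℝ) ≤ ((2 * Hh ^ n : ℕ) : ℝ) ^ 2 *
      WWR n (KK (pd.e * d.factorial) (kapR d m pd.e)) (gexR d m pd.e s0) X0 (2 * Hh ^ n) := by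
  set f0 := lead n (nrm n G) with hfdef
  have hf : Irreducible f0 := lead_nrm_irreducible (by omega) G haG hirr
  obtain ⟨hmf, hdf⟩ := lead_nrm_monic (n := n) G
  set a := G 0 n with hadef
  set M0 : ℕ := Hh ^ n with hM0
  set Q : ℕ := 2 * M0 with hQ
  have hM2 : 2 ^ n ≤ M0 := Nat.pow_le_pow_left hH n
  have hfam : Fam n Q M0 f0 (nrm n G) :=
    { hn := hn
      hQ := by omega
      hM := le_refl _
      irr := hf
      lead_eq := rfl
      top := by simp [nrm]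
      bound := fun i j hij => nrm_bound (by omega) G Hh (by omega) hG i j hij }
  have hNl := hfam.norml
  have hz' : ev n (nrm n G) x (a * y) = 0 := by
    rw [hadef, ev_nrm (by omega), hz, mul_zero]
  have hy' : |y| ≤ |a * y| := by
    rw [abs_mul]
    have : 1 ≤ |a| := Int.one_le_abs haG
    nlinarith [abs_nonneg y]
  have hmax : max |x| |y| ≤ max |x| |a * y| := max_le_max le_rfl hy'
  have hQ1 := one_le_QR hfam.hn hfam.hQ
  have hb1 := one_le_bb hfam.hn hfam.hQ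
  have hX1 := H.X1
  have he := pd.e_pos
  have hd1 := H.d1
  set κ := kapR d m pd.e with hκdef
  set K0 := KK (pd.e * d.factorial) κ with hK0
  set gx := gexR d m pd.e s0 with hgx
  have hκ1 : 1 ≤ κ := by
    rw [hκdef]
    unfold kapR
    exact Nat.mul_pos (by positivity) (Nat.mul_pos he (Nat.succ_pos _))
  have hK01 : 1 ≤ K0 := by
    rw [hK0]
    unfold KK
    exact Nat.mul_pos (Nat.succ_pos _) (Nat.succ_pos _)
  by_cases hsmall : ((max |x| |a * y| : ℤ) : ℝ) < (Q : ℝ) ^ 2 * WWR n K0 gx X0 Q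
  · have h2 : ((max |x| |y| : ℤ) : ℝ) ≤ ((max |x| |a * y| : ℤ) : ℝ) := by exact_mod_cast hmax
    exact h2.trans hsmall.le
  · exfalso
    push Not at hsmall
    set Bb := bb n Q with hBb
    have hB0 : 0 < Bb := by linarith
    have hMd : (1 : ℝ) ≤ X0 ^ gx := one_le_pow₀ hX1
    have hn3 : n ≤ n ^ 3 := Nat.le_self_pow (by norm_num) n
    have hG1 : (1 : ℝ) ≤ X0 ^ gx * Bb := one_le_mul_of_one_le_of_one_le hMd hb1
    have hGB1 : (1 : ℝ) ≤ X0 ^ gx * Bb * Bb := one_le_mul_of_one_le_of_one_le hG1 hb1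
    have hWW1 : (1 : ℝ) ≤ X0 ^ (10 ^ 6 * n ^ 6 * K0 ^ 2) := one_le_pow₀ hX1
    have hWW2 : (1 : ℝ) ≤ (X0 ^ gx * Bb * Bb) ^ (10 ^ 6 * n ^ 3 * K0) := one_le_pow₀ hGB1
    have hBW : Bb ^ (n + 3) ≤ WWR n K0 gx X0 Q := by
      have e1 : Bb ≤ X0 ^ gx * Bb * Bb := by nlinarith
      have e3 : n + 3 ≤ 10 ^ 6 * n ^ 3 * K0 := by
        calc n + 3 ≤ 10 ^ 6 * n ^ 3 * 1 := by omega
          _ ≤ 10 ^ 6 * n ^ 3 * K0 := Nat.mul_le_mul_left _ hK01
      calc Bb ^ (n + 3) ≤ Bb ^ (10 ^ 6 * n ^ 3 * K0) := pow_le_pow_right₀ hb1 e3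
        _ ≤ (X0 ^ gx * Bb * Bb) ^ (10 ^ 6 * n ^ 3 * K0) := pow_le_pow_left₀ hB0.le e1 _
        _ = (X0 ^ gx * Bb * Bb) ^ (10 ^ 6 * n ^ 3 * K0) * 1 := by ring
        _ ≤ WWR n K0 gx X0 Q := by
            unfold WWR
            exact mul_le_mul_of_nonneg_left hWW1 (by positivity)
    obtain ⟨hxW, θ, hθ, hnear⟩ := far_pointB hNl hf x (a * y)
      (by rw [hz', abs_zero]; exact Int.natCast_nonneg Q) (WWR n K0 gx X0 Q) hBW hsmall
    obtain ⟨hm, hdg, hco⟩ := hNl.lead_props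
    -- the anchor
    have hfact : Fact (Irreducible (leadQ n G)) := ⟨hirr⟩
    have hcR : ((a : ℤ) : ℝ) ≠ 0 := by exact_mod_cast haG
    have hcz : CharZero (AdjoinRoot (leadQ n G)) := algebraRat.charZero _
    have hroot' : eval₂ (algebraMap ℚ ℝ) (θ / ((a : ℤ) : ℝ)) (leadQ n G) = 0 := by
      have h1 := eval_nrm (n := n) (by omega) G (algebraMap ℤ ℝ) (algebraMap ℚ ℝ)
        (θ / ((a : ℤ) : ℝ))
      have h2 : ((G 0 n : ℤ) : ℝ) * (θ / ((a : ℤ) : ℝ)) = θ := by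
        rw [← hadef]
        field_simp
      rw [aeval_def] at hθ
      rw [h2, hθ] at h1
      exact (mul_eq_zero.1 h1.symm).resolve_left (pow_ne_zero _ hcR)
    let ψ : AdjoinRoot (leadQ n G) →ₐ[ℚ] ℝ :=
      AdjoinRoot.liftAlgHom (leadQ n G) (Algebra.ofId ℚ ℝ) (θ / ((a : ℤ) : ℝ)) hroot'
    have hψroot : ψ (AdjoinRoot.root (leadQ n G)) = θ / ((a : ℤ) : ℝ) :=
      AdjoinRoot.liftAlgHom_root _ _ _ _
    have hξ0 : eval₂ (eval₂RingHom (Int.castRingHom ℝ) (1 / (N : ℝ))) (ψ γ) f = 0 := by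
      obtain ⟨P, hP⟩ : ∃ P : ℚ[X], P = f.map ((aeval (1 / (N : ℚ)) : ℤ[X] →ₐ[ℤ] ℚ) : ℤ[X] →+* ℚ) :=
        ⟨_, rfl⟩
      rw [← hP] at hγ0
      have h1 : aeval (ψ γ) P = 0 :=
        (Polynomial.aeval_algHom_apply ψ γ P).trans ((congrArg ψ hγ0).trans (map_zero ψ))
      rw [aeval_def, hP, eval₂_map] at h1
      have h2 : (algebraMap ℚ ℝ).comp ((aeval (1 / (N : ℚ)) : ℤ[X] →ₐ[ℤ] ℚ) : ℤ[X] →+* ℚ) =
          eval₂RingHom (Int.castRingHom ℝ) (1 / (N : ℝ)) := by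
        refine Polynomial.ringHom_ext (fun b => ?_) ?_
        · simp
        · simp
      rw [h2] at h1
      exact h1
    have hξ3 : nu ≤ (minpoly ℚ (ψ γ)).natDegree := by
      rw [minpoly.algHom_eq ψ ψ.toRingHom.injective γ]
      exact hγ3
    have hξ1 : ψ γ ∈ IntermediateField.adjoin ℚ {θ} := by
      obtain ⟨P, rfl⟩ := AdjoinRoot.mk_surjective γ
      have h1 : ψ (AdjoinRoot.mk (leadQ n G) P) = aeval (θ / ((a : ℤ) : ℝ)) P := by
        rw [← AdjoinRoot.aeval_eq, ← hψroot]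
        exact (Polynomial.aeval_algHom_apply ψ (AdjoinRoot.root (leadQ n G)) P).symm
      rw [h1]
      have h2 : θ / ((a : ℤ) : ℝ) ∈ IntermediateField.adjoin ℚ {θ} := by
        refine div_mem (IntermediateField.mem_adjoin_simple_self ℚ θ) ?_
        exact intCast_mem _ _
      have h3 := (aeval (⟨_, h2⟩ : IntermediateField.adjoin ℚ {θ}) P).2
      have h4 : ((aeval (⟨_, h2⟩ : IntermediateField.adjoin ℚ {θ}) P : _) : ℝ) =
          aeval (θ / ((a : ℤ) : ℝ)) P := by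
        have := (Polynomial.aeval_algHom_apply (IntermediateField.adjoin ℚ {θ}).val
          (⟨_, h2⟩ : IntermediateField.adjoin ℚ {θ}) P).symm
        simpa using this
      rw [h4] at h3
      exact h3
    obtain ⟨O, D, Dl, m', hD1, hDDl, hDld, h3m, ⟨an⟩⟩ := exists_anchR hn hNl.hQ hm hdg hco hf θ
      hθ H hs0 hXw hXs (ψ γ) hξ0 hξ1 hξ3 hnu
    have hKK : KK Dl κ ≤ K0 := by
      rw [hK0]
      unfold KK
      exact Nat.mul_le_mul (by omega) le_rfl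
    have hR16 : (1 : ℝ) ≤ 16 * pd.R := by
      have := pd.R_ge
      linarith
    refine core_pointR hf O hNl h3m hD1 hDDl hκ1 he H.pow pd.R_ge hG1 an ?_ x (a * y) hz' hnear
      ?_ ?_
    · refine le_trans (pow_le_pow_right₀ hR16 ?_) hXR
      exact Nat.mul_le_mul_left _ hKK
    · refine le_trans ?_ hxW
      calc X0 ^ (10 ^ 6 * n ^ 6 * KK Dl κ ^ 2) ≤ X0 ^ (10 ^ 6 * n ^ 6 * K0 ^ 2) :=
            pow_le_pow_right₀ hX1 (by gcongr)
        _ = 1 * X0 ^ (10 ^ 6 * n ^ 6 * K0 ^ 2) := by ring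
        _ ≤ WWR n K0 gx X0 Q := by
            unfold WWR
            exact mul_le_mul_of_nonneg_right hWW2 (by positivity)
    · refine le_trans ?_ hxW
      calc (X0 ^ gx * Bb * bb n Q) ^ (10 ^ 6 * n ^ 3 * KK Dl κ) ≤
            (X0 ^ gx * Bb * Bb) ^ (10 ^ 6 * n ^ 3 * K0) :=
            pow_le_pow_right₀ hGB1 (by gcongr)
        _ = (X0 ^ gx * Bb * Bb) ^ (10 ^ 6 * n ^ 3 * K0) * 1 := by ring
        _ ≤ WWR n K0 gx X0 Q := by
            unfold WWR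
            exact mul_le_mul_of_nonneg_left hWW1 (by positivity)

end Pool.Agent.H87.SA2
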