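import Pool.Agent.H87.SA2.FINX
import Pool.Agent.H97.XC.Defs

/-! # [SA2-FINY] The numbers of the explicit effective theorem -/

namespace Pool.Agent.H87.SA2

open Pool.Agent.H87.SA Pool.Agent.H97.XC

/-- the exponent in the condition on `N` -/
def E1 (n d m : ℕ) : ℕ :=
  10 ^ 13 * n ^ 4 * d ^ 11 * (m + 1) ^ 4 * d.factorial ^ 7 *
    (14 * d ^ 2) ^ ((2 * d + 1) * m * d.factorial)

/-- the exponent of the bound -/
def E2 (n d m : ℕ) : ℕ := 10 ^ 10 * n ^ 6 * d ^ 4 * (m + 1) ^ 2 * d.factorial ^ 6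

/-- the order of separation -/
def sE (d m : ℕ) : ℕ := d.factorial * (2 * d * m + m)

/-- exponent of the Puiseux constants -/
def LamE (d m : ℕ) : ℕ := (4 + 2 * d + 2 * sE d m) *
  (600 * d ^ 3 * (sE d m + 1) ^ 2 * (14 * d ^ 2) ^ (sE d m + 1))

theorem KK_le {d m e : ℕ} (hd : 1 ≤ d) (he : e ≤ d.factorial) :
    KK (e * d.factorial) (kapR d m e) ≤ 22 * d ^ 2 * d.factorial ^ 3 * (m + 1) := by
  obtain ⟨D, hD⟩ : ∃ D, D = d.factorial := ⟨_, rfl⟩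
  have hD1 : 1 ≤ D := by rw [hD]; exact Nat.factorial_pos d
  rw [← hD] at he ⊢
  unfold KK kapR
  have h1 : e * D + 1 ≤ 2 * D ^ 2 := by
    have : e * D ≤ D * D := Nat.mul_le_mul_right D he
    nlinarith
  have h2 : 10 * d ^ 2 * (e * (m + 1)) + 1 ≤ 11 * d ^ 2 * D * (m + 1) := by
    have h3 : 10 * d ^ 2 * (e * (m + 1)) ≤ 10 * d ^ 2 * (D * (m + 1)) := by gcongr
    have h4 : 1 ≤ d ^ 2 * D * (m + 1) := Nat.mul_pos (by positivity) (Nat.succ_pos m)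
    calc 10 * d ^ 2 * (e * (m + 1)) + 1 ≤ 10 * d ^ 2 * (D * (m + 1)) + d ^ 2 * D * (m + 1) := by
          omega
      _ = 11 * d ^ 2 * D * (m + 1) := by ring
  calc (e * D + 1) * (10 * d ^ 2 * (e * (m + 1)) + 1)
      ≤ (2 * D ^ 2) * (11 * d ^ 2 * D * (m + 1)) := Nat.mul_le_mul h1 h2
    _ = 22 * d ^ 2 * D ^ 3 * (m + 1) := by ring

theorem gex_le {d m e : ℕ} (hd : 1 ≤ d) (he : e ≤ d.factorial) :
    gexR d m e (sE d m) ≤ 23 * d ^ 2 * d.factorial ^ 3 * (m + 1) := by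
  unfold gexR kapR sE
  obtain ⟨D, hD⟩ : ∃ D, D = d.factorial := ⟨_, rfl⟩
  have hD1 : 1 ≤ D := by rw [hD]; exact Nat.factorial_pos d
  rw [← hD] at he ⊢
  obtain ⟨s, hs⟩ : ∃ s, s = D * (2 * d * m + m) := ⟨_, rfl⟩
  rw [← hs]
  have hs1 : s ≤ 3 * d ^ 2 * D * (m + 1) := by
    rw [hs]
    have h1 : 2 * d * m + m ≤ 3 * d ^ 2 * (m + 1) := by nlinarith [Nat.le_self_pow (n := 2) (by norm_num) d]
    calc D * (2 * d * m + m) ≤ D * (3 * d ^ 2 * (m + 1)) := Nat.mul_le_mul_left _ h1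
      _ = 3 * d ^ 2 * D * (m + 1) := by ring
  have hm1 : 1 ≤ m + 1 := Nat.succ_pos m
  have hd2 : 1 ≤ d ^ 2 := Nat.one_le_pow _ _ hd
  have hD2 : D ≤ D ^ 2 := Nat.le_self_pow (by norm_num) D
  have hD3 : D ^ 2 ≤ D ^ 3 := Nat.pow_le_pow_right hD1 (by norm_num)
  have hu : 1 ≤ d ^ 2 * (m + 1) := Nat.mul_pos hd2 hm1
  have a1 : 10 * d ^ 2 * (e * (m + 1)) * D ≤ 10 * d ^ 2 * D ^ 3 * (m + 1) := by
    calc 10 * d ^ 2 * (e * (m + 1)) * D ≤ 10 * d ^ 2 * (D * (m + 1)) * D := by gcongr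
      _ = 10 * (d ^ 2 * (m + 1)) * D ^ 2 := by ring
      _ ≤ 10 * (d ^ 2 * (m + 1)) * D ^ 3 := by gcongr
      _ = _ := by ring
  have a2 : s * D ≤ 3 * d ^ 2 * D ^ 3 * (m + 1) := by
    calc s * D ≤ (3 * d ^ 2 * D * (m + 1)) * D := Nat.mul_le_mul_right _ hs1
      _ = 3 * (d ^ 2 * (m + 1)) * D ^ 2 := by ring
      _ ≤ 3 * (d ^ 2 * (m + 1)) * D ^ 3 := by gcongr
      _ = _ := by ring
  have a3 : e * s * D ≤ 3 * d ^ 2 * D ^ 3 * (m + 1) := by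
    calc e * s * D ≤ D * (3 * d ^ 2 * D * (m + 1)) * D := by gcongr
      _ = 3 * d ^ 2 * D ^ 3 * (m + 1) := by ring
  have a4 : 2 * D ≤ 2 * d ^ 2 * D ^ 3 * (m + 1) := by
    calc 2 * D = 2 * 1 * D := by ring
      _ ≤ 2 * (d ^ 2 * (m + 1)) * D ^ 3 := by gcongr; exact hD2.trans hD3
      _ = _ := by ring
  have a5 : e ≤ d ^ 2 * D ^ 3 * (m + 1) := by
    calc e ≤ D := he
      _ = 1 * D := by ring
      _ ≤ (d ^ 2 * (m + 1)) * D ^ 3 := by gcongr; exact hD2.trans hD3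
      _ = _ := by ring
  have a6 : e * D ≤ d ^ 2 * D ^ 3 * (m + 1) := by
    calc e * D ≤ D * D := Nat.mul_le_mul_right _ he
      _ = 1 * D ^ 2 := by ring
      _ ≤ (d ^ 2 * (m + 1)) * D ^ 3 := by gcongr
      _ = _ := by ring
  calc (10 * d ^ 2 * (e * (m + 1)) + s + e * s + 2) * D + e + e * D
      = 10 * d ^ 2 * (e * (m + 1)) * D + s * D + e * s * D + 2 * D + e + e * D := by ring
    _ ≤ 10 * d ^ 2 * D ^ 3 * (m + 1) + 3 * d ^ 2 * D ^ 3 * (m + 1) + 3 * d ^ 2 * D ^ 3 * (m + 1) +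
        2 * d ^ 2 * D ^ 3 * (m + 1) + d ^ 2 * D ^ 3 * (m + 1) + d ^ 2 * D ^ 3 * (m + 1) := by omega
    _ ≤ 23 * d ^ 2 * D ^ 3 * (m + 1) := by
        have : 10 * d ^ 2 * D ^ 3 * (m + 1) + 3 * d ^ 2 * D ^ 3 * (m + 1) +
          3 * d ^ 2 * D ^ 3 * (m + 1) + 2 * d ^ 2 * D ^ 3 * (m + 1) + d ^ 2 * D ^ 3 * (m + 1) +
          d ^ 2 * D ^ 3 * (m + 1) = 20 * (d ^ 2 * D ^ 3 * (m + 1)) := by ring
        rw [this]
        have : 23 * d ^ 2 * D ^ 3 * (m + 1) = 23 * (d ^ 2 * D ^ 3 * (m + 1)) := by ring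
        rw [this]
        omega

theorem C1_le {n d m K0 gx : ℕ} (hn : 4 ≤ n) (hd : 1 ≤ d)
    (hK : K0 ≤ 22 * d ^ 2 * d.factorial ^ 3 * (m + 1))
    (hg : gx ≤ 23 * d ^ 2 * d.factorial ^ 3 * (m + 1)) : C1 n K0 gx ≤ E2 n d m := by
  unfold C1 E2
  obtain ⟨D, hD⟩ : ∃ D, D = d.factorial := ⟨_, rfl⟩
  have hD1 : 1 ≤ D := by rw [hD]; exact Nat.factorial_pos d
  rw [← hD] at hK hg ⊢
  obtain ⟨U, hU⟩ : ∃ U, U = d ^ 2 * D ^ 3 * (m + 1) := ⟨_, rfl⟩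
  have hU1 : 1 ≤ U := by
    rw [hU]
    exact Nat.mul_pos (by positivity) (Nat.succ_pos m)
  have hK' : K0 ≤ 22 * U := by rw [hU]; calc K0 ≤ _ := hK
      _ = _ := by ring
  have hg' : gx ≤ 23 * U := by rw [hU]; calc gx ≤ _ := hg
      _ = _ := by ring
  have hE : 10 ^ 10 * n ^ 6 * d ^ 4 * (m + 1) ^ 2 * D ^ 6 = 10 ^ 10 * n ^ 6 * U ^ 2 := by
    rw [hU]; ring
  rw [hE]
  have h1 : 14 * n ^ 2 * (n + 1) ≤ 18 * n ^ 3 := by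
    have : n ^ 3 = n * n ^ 2 := by ring
    nlinarith
  have hn3 : 1 ≤ n ^ 3 := Nat.one_le_pow _ _ (by omega)
  have h2 : 2 * gx + 14 * n ^ 2 * (n + 1) ≤ 64 * n ^ 3 * U := by
    calc 2 * gx + 14 * n ^ 2 * (n + 1) ≤ 46 * U + 18 * n ^ 3 := by omega
      _ ≤ 46 * (n ^ 3 * U) + 18 * (n ^ 3 * U) := by nlinarith
      _ = 64 * n ^ 3 * U := by ring
  have h3 : 2 * (n + 1) ≤ n ^ 6 * U ^ 2 := by
    have h4 : 2 * (n + 1) ≤ n ^ 6 := by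
      have : n ^ 6 = n * n ^ 5 := by ring
      have h5 : 4 ^ 5 ≤ n ^ 5 := Nat.pow_le_pow_left hn 5
      nlinarith
    calc 2 * (n + 1) ≤ n ^ 6 * 1 := by omega
      _ ≤ n ^ 6 * U ^ 2 := by gcongr; exact Nat.one_le_pow _ _ hU1
  calc 2 * (n + 1) + ((2 * gx + 14 * n ^ 2 * (n + 1)) * (10 ^ 6 * n ^ 3 * K0) +
        2 * (10 ^ 6 * n ^ 6 * K0 ^ 2))
      ≤ n ^ 6 * U ^ 2 + ((64 * n ^ 3 * U) * (10 ^ 6 * n ^ 3 * (22 * U)) +
        2 * (10 ^ 6 * n ^ 6 * (22 * U) ^ 2)) := by gcongr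
    _ = (1 + 64 * 10 ^ 6 * 22 + 2 * 10 ^ 6 * 22 ^ 2) * (n ^ 6 * U ^ 2) := by ring
    _ ≤ 10 ^ 10 * (n ^ 6 * U ^ 2) := Nat.mul_le_mul_right _ (by norm_num)
    _ = 10 ^ 10 * n ^ 6 * U ^ 2 := by ring

theorem le_pow_of_two {B : ℕ} (hB : 2 ≤ B) {x k : ℕ} (h : x ≤ k) : x + 1 ≤ B ^ k := by
  have h1 : x < 2 ^ x := Nat.lt_two_pow_self
  calc x + 1 ≤ 2 ^ x := h1
    _ ≤ 2 ^ k := Nat.pow_le_pow_right (by norm_num) h
    _ ≤ B ^ k := Nat.pow_le_pow_left hB k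

theorem CC_le {d m B : ℕ} (hB : 2 ≤ B) : CC d m B (sE d m) ≤ B ^ LamE d m := by
  have hLL : LL d m B d.factorial (sE d m) ≤ B ^ (4 + 2 * d + 2 * sE d m) := by
    unfold LL
    have h1 : 4 ≤ B ^ 2 := by nlinarith
    have h2 : d ≤ B ^ d := (Nat.le_succ d).trans (le_pow_of_two hB le_rfl)
    have h3 : d + 1 ≤ B ^ d := le_pow_of_two hB le_rfl
    have h4 : d.factorial * m + 1 ≤ B ^ sE d m := by
      refine le_pow_of_two hB ?_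
      unfold sE
      exact Nat.mul_le_mul_left _ (Nat.le_add_left _ _)
    have h5 : B + 1 ≤ B ^ 2 := by nlinarith
    have h6 : sE d m + 1 ≤ B ^ sE d m := le_pow_of_two hB le_rfl
    calc 4 * d * (d + 1) * (d.factorial * m + 1) * (B + 1) * (sE d m + 1)
        ≤ B ^ 2 * B ^ d * B ^ d * B ^ sE d m * B ^ 2 * B ^ sE d m := by gcongr
      _ = B ^ (4 + 2 * d + 2 * sE d m) := by
          rw [← pow_add, ← pow_add, ← pow_add, ← pow_add, ← pow_add]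
          congr 1
          ring
  unfold CC LamE
  calc LL d m B d.factorial (sE d m) ^
        (600 * d ^ 3 * (sE d m + 1) ^ 2 * (14 * d ^ 2) ^ (sE d m + 1))
      ≤ (B ^ (4 + 2 * d + 2 * sE d m)) ^
        (600 * d ^ 3 * (sE d m + 1) ^ 2 * (14 * d ^ 2) ^ (sE d m + 1)) :=
        Nat.pow_le_pow_left hLL _
    _ = _ := by rw [← pow_mul]

theorem Lam_le {d m : ℕ} (hd : 1 ≤ d) : LamE d m + 4 ≤ 1362312 * d ^ 9 * d.factorial ^ 3 *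
    (m + 1) ^ 3 * (14 * d ^ 2) ^ ((2 * d + 1) * m * d.factorial) := by
  unfold LamE
  have hsE : sE d m = (2 * d + 1) * m * d.factorial := by unfold sE; ring
  rw [← hsE]
  obtain ⟨D, hD⟩ : ∃ D, D = d.factorial := ⟨_, rfl⟩
  have hD1 : 1 ≤ D := by rw [hD]; exact Nat.factorial_pos d
  obtain ⟨s, hs⟩ : ∃ s, s = sE d m := ⟨_, rfl⟩
  rw [← hs, ← hD]
  rw [← hs, ← hD] at hsE
  have hs1 : s + 1 ≤ 3 * d * D * (m + 1) := by
    rw [hsE]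
    have h1 : (2 * d + 1) * m ≤ 3 * d * m := by nlinarith
    have h2 : 1 ≤ d * D := Nat.mul_pos hd hD1
    calc (2 * d + 1) * m * D + 1 ≤ 3 * d * m * D + 3 * (d * D) := by
          have := Nat.mul_le_mul_right D h1
          omega
      _ = 3 * d * D * (m + 1) := by ring
  have h4 : 4 + 2 * d + 2 * s ≤ 6 * d * (s + 1) := by nlinarith
  obtain ⟨P, hP⟩ : ∃ P, P = (14 * d ^ 2) ^ s := ⟨_, rfl⟩
  have hP1 : 1 ≤ P := by
    rw [hP]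
    exact Nat.one_le_pow _ _ (by positivity)
  have hPs : (14 * d ^ 2) ^ (s + 1) = P * (14 * d ^ 2) := by rw [pow_succ, hP]
  rw [hPs, ← hP]
  have h5 : 4 ≤ 4 * d ^ 4 * (s + 1) ^ 3 * (P * (14 * d ^ 2)) := by
    have : 1 ≤ d ^ 4 * (s + 1) ^ 3 * (P * (14 * d ^ 2)) := by
      refine Nat.mul_pos (Nat.mul_pos (by positivity) (by positivity)) (Nat.mul_pos hP1 ?_)
      positivity
    calc 4 = 4 * 1 := by norm_num
      _ ≤ 4 * (d ^ 4 * (s + 1) ^ 3 * (P * (14 * d ^ 2))) := Nat.mul_le_mul_left _ this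
      _ = _ := by ring
  calc (4 + 2 * d + 2 * s) * (600 * d ^ 3 * (s + 1) ^ 2 * (P * (14 * d ^ 2))) + 4
      ≤ (6 * d * (s + 1)) * (600 * d ^ 3 * (s + 1) ^ 2 * (P * (14 * d ^ 2))) +
        4 * d ^ 4 * (s + 1) ^ 3 * (P * (14 * d ^ 2)) := by
        gcongr
    _ = 3604 * d ^ 4 * (s + 1) ^ 3 * (P * (14 * d ^ 2)) := by ring
    _ ≤ 3604 * d ^ 4 * (3 * d * D * (m + 1)) ^ 3 * (P * (14 * d ^ 2)) := by gcongr
    _ = 1362312 * d ^ 9 * D ^ 3 * (m + 1) ^ 3 * P := by ring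

theorem main_le {n d m : ℕ} (hn : 4 ≤ n) (hd : 1 ≤ d) {K : ℕ}
    (hK : K ≤ 10 ^ 5 * n ^ 4 * (22 * d ^ 2 * d.factorial ^ 3 * (m + 1))) :
    d.factorial * ((LamE d m + 4) * (K + 1)) ≤ E1 n d m := by
  have h1 := Lam_le (m := m) hd
  unfold E1
  obtain ⟨D, hD⟩ : ∃ D, D = d.factorial := ⟨_, rfl⟩
  have hD1 : 1 ≤ D := by rw [hD]; exact Nat.factorial_pos d
  rw [← hD] at h1 hK ⊢
  obtain ⟨P, hP⟩ : ∃ P, P = (14 * d ^ 2) ^ ((2 * d + 1) * m * D) := ⟨_, rfl⟩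
  rw [← hP] at h1 ⊢
  have h2 : K + 1 ≤ 2200001 * n ^ 4 * d ^ 2 * D ^ 3 * (m + 1) := by
    have h3 : 1 ≤ n ^ 4 * d ^ 2 * D ^ 3 * (m + 1) :=
      Nat.mul_pos (by positivity) (Nat.succ_pos m)
    calc K + 1 ≤ 10 ^ 5 * n ^ 4 * (22 * d ^ 2 * D ^ 3 * (m + 1)) +
          n ^ 4 * d ^ 2 * D ^ 3 * (m + 1) := by omega
      _ = _ := by ring
  calc D * ((LamE d m + 4) * (K + 1))
      ≤ D * ((1362312 * d ^ 9 * D ^ 3 * (m + 1) ^ 3 * P) *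
        (2200001 * n ^ 4 * d ^ 2 * D ^ 3 * (m + 1))) := by gcongr
    _ = (1362312 * 2200001) * (n ^ 4 * d ^ 11 * (m + 1) ^ 4 * D ^ 7 * P) := by ring
    _ ≤ 10 ^ 13 * (n ^ 4 * d ^ 11 * (m + 1) ^ 4 * D ^ 7 * P) := Nat.mul_le_mul_right _ (by norm_num)
    _ = 10 ^ 13 * n ^ 4 * d ^ 11 * (m + 1) ^ 4 * D ^ 7 * P := by ring

end Pool.Agent.H87.SA2
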