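import Pool.Agent.H87.SA2.LOCF
import Pool.Agent.H87.SA2.PERM
import Pool.Agent.H87.SA2.CONJ

/-! # [SA2-LOCR] The local factor: a stable set of indices

`φ : ℚ⟦t⟧ →+* ℂ⟦u⟧`, `t ↦ C (1/N) * u^e`, i.e. `PowerSeries.map (algebraMap ℚ ℂ)`, then
`exr ℂ e` (`t ↦ u^e`) and `PowerSeries.rescale` before it (`t ↦ (1/N) t`). `fQ f` mapped by `φ` is
`∏ (X - C (mk (xu i)))` (`u_split`; on the image of `ℤ[t]` `φ` is the map of `u_split`).
`exists_factor` with `x = mk (xu i)`: `g`. `R = {j | (g.map φ).eval (mk (xu j)) = 0}` contains `i`;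
`card R ≤ natDegree g`: distinct roots (`pd.x_inj`, `1/X0 ≠ 0`) of the monic `g.map φ`
(`Polynomial.card_roots'`, `Multiset.toFinset`).
Stability: for `σ`, `π0` as in `perm_R`: let `ξ j : PowerSeries AA` have the coefficients `xu j k`
(`xu_alg`); `g.map (ℚ⟦t⟧ → AA⟦u⟧)` vanishes at `ξ j` (`AA → ℂ` injective); apply `σ` coefficientwise:
`g.map φ` vanishes at `mk (xu (π0 j))` (`σ` is the identity on `ℚ`).
`RealRoot g`: `conj_R`: `yR i = ξ` is real, so `π i = i` (`y_injR`), so `(pd.x i).map conj = pd.x i`,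
all coefficients of `pd.x i` are real. The series `ξ' = rescale (1/q) (pd.x i)` is real and
`g(T^e, ξ') = 0` (from `(g.map φ).eval (mk (xu i)) = 0`: `mk (xu i) = rescale (1/X0) (pd.x i)`,
substitute `u = (X0/q) T`, so `u^e/N = T^e`, because `X0^e = q^e N`); the complex identity
gives the real one (`PowerSeries.map Complex.ofRealHom` injective). -/

namespace Pool.Agent.H87.SA2

open Finset Polynomial Pool.Agent.H72.ES Pool.Agent.H87.SA Pool.Agent.H97.GA

variable {f : ℤ[X][X]} {d m N : ℕ} {pd : PData f d} {X0 : ℝ}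

/-- the substitution `t ↦ u^e / N` -/
noncomputable def phiL (A : Type*) [Field A] [Algebra ℚ A] (e : ℕ) (he : e ≠ 0) (N : ℕ) :
    PowerSeries ℚ →+* PowerSeries A :=
  (exr A e he).comp ((PowerSeries.rescale (1 / (N : A))).comp
    (PowerSeries.map (algebraMap ℚ A)))

theorem coeff_phiL (A : Type*) [Field A] [Algebra ℚ A] (e : ℕ) (he : e ≠ 0) (N : ℕ)
    (a : PowerSeries ℚ) (n : ℕ) :
    PowerSeries.coeff n (phiL A e he N a) =
      if e ∣ n then (1 / (N : A)) ^ (n / e) * algebraMap ℚ A (PowerSeries.coeff (n / e) a)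
      else 0 := by
  rw [phiL, RingHom.comp_apply, RingHom.comp_apply, coeff_exr, PowerSeries.coeff_rescale,
    PowerSeries.coeff_map]

theorem map_phiL {A B : Type*} [Field A] [Algebra ℚ A] [Field B] [Algebra ℚ B] (τ : A →+* B)
    (e : ℕ) (he : e ≠ 0) (N : ℕ) :
    (PowerSeries.map τ).comp (phiL A e he N) = phiL B e he N := by
  refine RingHom.ext fun a => PowerSeries.ext fun n => ?_
  rw [RingHom.comp_apply, PowerSeries.coeff_map, coeff_phiL, coeff_phiL]
  split_ifs with h
  · have h1 : τ (algebraMap ℚ A (PowerSeries.coeff (n / e) a)) =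
        algebraMap ℚ B (PowerSeries.coeff (n / e) a) := by
      have h2 : τ.comp (algebraMap ℚ A) = algebraMap ℚ B := Subsingleton.elim _ _
      rw [← h2]
      rfl
    rw [map_mul, map_pow, map_div₀, map_one, map_natCast, h1]
  · rw [map_zero]

theorem phiL_X (A : Type*) [Field A] [Algebra ℚ A] (e : ℕ) (he : e ≠ 0) (N : ℕ) :
    phiL A e he N PowerSeries.X =
      PowerSeries.C (1 / (N : A)) * PowerSeries.X ^ e := by
  rw [phiL, RingHom.comp_apply, RingHom.comp_apply, PowerSeries.map_X, PowerSeries.rescale_X,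
    map_mul, exr_C, exr_X]

theorem fQ_phiL (f : ℤ[X][X]) (e : ℕ) (he : e ≠ 0) (N : ℕ) :
    (fQ f).map (phiL ℂ e he N) = f.map (eval₂RingHom (Int.castRingHom (PowerSeries ℂ))
      (PowerSeries.C (1 / (N : ℂ)) * PowerSeries.X ^ e)) := by
  rw [fQ, Polynomial.map_map]
  congr 1
  refine Polynomial.ringHom_ext' (Subsingleton.elim _ _) ?_
  rw [RingHom.comp_apply, coe_eval₂RingHom, eval₂_X, coe_eval₂RingHom, eval₂_X, phiL_X]

theorem mk_xu_inj (h0 : X0 ≠ 0) :
    Function.Injective (fun j => PowerSeries.mk (xu pd X0 j)) := by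
  intro j j' h
  apply pd.x_inj
  refine PowerSeries.ext fun k => ?_
  have h1 := congrArg (PowerSeries.coeff k) h
  simp only [PowerSeries.coeff_mk] at h1
  rw [xu, xu] at h1
  have h2 : (((1 / X0 : ℝ)) : ℂ) ^ k ≠ 0 := by
    apply pow_ne_zero
    rw [Complex.ofReal_ne_zero]
    exact one_div_ne_zero h0
  exact mul_left_cancel₀ h2 h1

/-- the factor vanishes at the image of a root -/
theorem loc_stab (H : RHyp f d m pd N X0) (he : pd.e ≠ 0) (g : (PowerSeries ℚ)[X])
    (σ : AA →+* ℂ) (π0 : Equiv.Perm (Fin d))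
    (hσ : ∀ (i : Fin d) (k : ℕ) (a : AA), (a : ℂ) = xu pd X0 i k → σ a = xu pd X0 (π0 i) k)
    (j : Fin d) (hj : (g.map (phiL ℂ pd.e he N)).eval (PowerSeries.mk (xu pd X0 j)) = 0) :
    (g.map (phiL ℂ pd.e he N)).eval (PowerSeries.mk (xu pd X0 (π0 j))) = 0 := by
  set ξ : PowerSeries AA := PowerSeries.mk (fun k => ⟨xu pd X0 j k, xu_alg H j k⟩) with hξ
  have hev : ∀ τ : AA →+* ℂ, PowerSeries.map τ ((g.map (phiL AA pd.e he N)).eval ξ) =
      (g.map (phiL ℂ pd.e he N)).eval (PowerSeries.map τ ξ) := by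
    intro τ
    rw [← map_phiL τ, ← Polynomial.map_map]
    exact (Polynomial.eval_map_apply (PowerSeries.map τ) _).symm
  have h1 : PowerSeries.map (algebraMap AA ℂ) ξ = PowerSeries.mk (xu pd X0 j) := by
    refine PowerSeries.ext fun k => ?_
    rw [PowerSeries.coeff_map, hξ, PowerSeries.coeff_mk, PowerSeries.coeff_mk]
    rfl
  have h2 : (g.map (phiL AA pd.e he N)).eval ξ = 0 := by
    have h3 : Function.Injective (PowerSeries.map (algebraMap AA ℂ)) :=
      PowerSeries.map_injective _ (algebraMap AA ℂ).injective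
    apply h3
    rw [hev, h1, hj, map_zero]
  have h4 : PowerSeries.map σ ξ = PowerSeries.mk (xu pd X0 (π0 j)) := by
    refine PowerSeries.ext fun k => ?_
    rw [PowerSeries.coeff_map, hξ, PowerSeries.coeff_mk, PowerSeries.coeff_mk]
    exact hσ j k _ rfl
  rw [← h4, ← hev, h2, map_zero]

/-- a real root -/
theorem loc_real (H : RHyp f d m pd N X0) (he : pd.e ≠ 0) (g : (PowerSeries ℚ)[X])
    (i : Fin d) (ξ : ℝ) (hξ : yR pd m N X0 i = ξ)
    (hi : (g.map (phiL ℂ pd.e he N)).eval (PowerSeries.mk (xu pd X0 i)) = 0) :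
    RealRoot g := by
  obtain ⟨π, h1, h2⟩ := conj_R H
  have h3 : π i = i := by
    apply y_injR H
    rw [← h2, hξ, Complex.conj_ofReal]
  have h4 : ∀ k, ((PowerSeries.coeff k (pd.x i)).re : ℂ) = PowerSeries.coeff k (pd.x i) := by
    intro k
    rw [← Complex.conj_eq_iff_re]
    have h5 := congrArg (PowerSeries.coeff k) (h1 i)
    rw [h3, PowerSeries.coeff_map] at h5
    exact h5
  have hX0 : X0 ≠ 0 := by
    have := H.X1
    linarith
  have hq : (pd.q : ℂ) ≠ 0 := by
    have := pd.q_pos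
    exact Nat.cast_ne_zero.mpr (by omega)
  have hN : (N : ℂ) ≠ 0 := by
    have := H.N1
    exact Nat.cast_ne_zero.mpr (by omega)
  have hpow : ((X0 : ℂ) / pd.q) ^ pd.e = N := by
    have h5 := H.pow
    have h6 : ((X0 ^ pd.e : ℝ) : ℂ) = ((((pd.q ^ pd.e * N : ℕ) : ℝ)) : ℂ) := by rw [h5]
    push_cast at h6
    rw [_root_.div_pow, h6]
    field_simp
  refine ⟨pd.e, he, PowerSeries.mk fun k =>
    (1 / (pd.q : ℝ)) ^ k * (PowerSeries.coeff k (pd.x i)).re, ?_⟩
  have hinj : Function.Injective (PowerSeries.map Complex.ofRealHom) :=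
    PowerSeries.map_injective _ Complex.ofRealHom.injective
  apply hinj
  rw [map_zero, ← Polynomial.eval_map_apply, Polynomial.map_map]
  have h7 : (PowerSeries.map Complex.ofRealHom).comp
      ((exr ℝ pd.e he).comp (PowerSeries.map (algebraMap ℚ ℝ))) =
      (PowerSeries.rescale ((X0 : ℂ) / pd.q)).comp (phiL ℂ pd.e he N) := by
    refine RingHom.ext fun a => PowerSeries.ext fun n => ?_
    rw [RingHom.comp_apply, RingHom.comp_apply, RingHom.comp_apply, PowerSeries.coeff_map,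
      coeff_exr, PowerSeries.coeff_rescale, coeff_phiL, PowerSeries.coeff_map]
    split_ifs with h
    · obtain ⟨k, rfl⟩ := h
      rw [Nat.mul_div_cancel_left _ (Nat.pos_of_ne_zero he), pow_mul, hpow, ← mul_assoc,
        ← mul_pow, mul_one_div_cancel hN, one_pow, one_mul]
      simp
    · rw [map_zero, mul_zero]
  have h8 : PowerSeries.map Complex.ofRealHom (PowerSeries.mk fun k =>
      (1 / (pd.q : ℝ)) ^ k * (PowerSeries.coeff k (pd.x i)).re) =
      PowerSeries.rescale ((X0 : ℂ) / pd.q) (PowerSeries.mk (xu pd X0 i)) := by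
    refine PowerSeries.ext fun k => ?_
    rw [PowerSeries.coeff_map, PowerSeries.coeff_mk, PowerSeries.coeff_rescale,
      PowerSeries.coeff_mk, xu, map_mul, map_pow, ← mul_assoc, ← mul_pow]
    congr 1
    · congr 1
      rw [Complex.ofRealHom_eq_coe]
      push_cast
      have : (X0 : ℂ) ≠ 0 := Complex.ofReal_ne_zero.mpr hX0
      field_simp
    · exact h4 k
  rw [h7, h8, ← Polynomial.map_map, Polynomial.eval_map_apply, hi, map_zero]

theorem loc_R (H : RHyp f d m pd N X0) (i : Fin d) (ξ : ℝ) (hξ : yR pd m N X0 i = ξ) :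
    ∃ (g : (PowerSeries ℚ)[X]) (R : Finset (Fin d)), g.Monic ∧ Irreducible g ∧ g ∣ fQ f ∧
      RealRoot g ∧ i ∈ R ∧ R.card ≤ g.natDegree ∧
      ∀ (σ : AA →+* ℂ) (π0 : Equiv.Perm (Fin d)),
        (∀ (i : Fin d) (k : ℕ) (a : AA), (a : ℂ) = xu pd X0 i k → σ a = xu pd X0 (π0 i) k) →
        ∀ j ∈ R, π0 j ∈ R := by
  classical
  have he : pd.e ≠ 0 := by
    have := pd.e_pos
    omega
  have hX0 : X0 ≠ 0 := by
    have := H.X1
    linarith
  have hx : ((fQ f).map (phiL ℂ pd.e he N)).eval (PowerSeries.mk (xu pd X0 i)) = 0 := by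
    rw [fQ_phiL, u_split H, eval_prod]
    refine Finset.prod_eq_zero (Finset.mem_univ i) ?_
    rw [eval_sub, eval_X, eval_C, sub_self]
  obtain ⟨g, hg1, hg2, hg3, hg4⟩ := exists_factor (fQ f) (H.monic.map _) (phiL ℂ pd.e he N) _ hx
  refine ⟨g, Finset.univ.filter
    (fun j => (g.map (phiL ℂ pd.e he N)).eval (PowerSeries.mk (xu pd X0 j)) = 0),
    hg1, hg2, hg3, loc_real H he g i ξ hξ hg4, ?_, ?_, ?_⟩
  · rw [Finset.mem_filter]
    exact ⟨Finset.mem_univ _, hg4⟩
  · rw [← Finset.card_image_of_injective _ (mk_xu_inj (pd := pd) hX0)]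
    have h1 : g.map (phiL ℂ pd.e he N) ≠ 0 := (hg1.map _).ne_zero
    calc (Finset.image (fun j => PowerSeries.mk (xu pd X0 j)) (Finset.univ.filter
          (fun j => (g.map (phiL ℂ pd.e he N)).eval (PowerSeries.mk (xu pd X0 j)) = 0))).card
        ≤ (g.map (phiL ℂ pd.e he N)).roots.toFinset.card := by
          apply Finset.card_le_card
          intro y hy
          obtain ⟨j, hj, rfl⟩ := Finset.mem_image.mp hy
          rw [Multiset.mem_toFinset, mem_roots h1]
          exact (Finset.mem_filter.mp hj).2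
      _ ≤ Multiset.card (g.map (phiL ℂ pd.e he N)).roots := Multiset.toFinset_card_le _
      _ ≤ (g.map (phiL ℂ pd.e he N)).natDegree := card_roots' _
      _ = g.natDegree := hg1.natDegree_map _
  · intro σ π0 hσ j hj
    rw [Finset.mem_filter] at hj ⊢
    exact ⟨Finset.mem_univ _, loc_stab H he g σ π0 hσ j hj.2⟩

end Pool.Agent.H87.SA2
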