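import Mathlib.RingTheory.PowerSeries.WeierstrassPreparation
import Mathlib.RingTheory.AdicCompletion.Completeness
import Mathlib.RingTheory.PowerSeries.Inverse
import Mathlib.Algebra.Polynomial.Splits
import Mathlib.Algebra.Polynomial.Taylor

/-! # [SA2-NPA] Lifting a factorization from the residue field (Weierstrass preparation)

`K` a field, `P` monic over `K⟦T⟧`, whose reduction modulo `T` has the root `a` and is not a power
of `X - a`. Then `P` is a product of two monic polynomials of smaller degree.

Proof. Replace `P` by `P1 = P.comp (X + C (C a))` (monic, same degree; the factorization is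
transported back by `comp (X - C (C a))`). The reduction `P1.map constantCoeff` is
`X ^ n * G`, `G(0) ≠ 0`, `1 ≤ n < d` (`n` the multiplicity of the root `0`). View `P1` as a power
series `g : (K⟦T⟧)⟦X⟧` (coercion). `K⟦T⟧` is a complete local ring
(`IsAdicComplete (.span {X}) K⟦X⟧`, `Mathlib/RingTheory/AdicCompletion/Completeness.lean` and
`PowerSeries.maximalIdeal_eq_span_X`). By `PowerSeries.exists_isWeierstrassFactorization` there are
`D` (distinguished, monic, of degree `n`: `natDegree_eq_toNat_order_map`) and a unit `h` with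
`g = D * h`. Divide the polynomial `P1` by the monic `D`: `P1 = D * Q + R`, `deg R < deg D`
(`Polynomial.modByMonic_add_div`). Then `g` has the two Weierstrass divisions by `D`:
`g = D * h + 0` and `g = D * Q + R`, so `R = 0` by uniqueness
(`PowerSeries.IsWeierstrassDivision.elim` or `IsWeierstrassDivisorAt.eq_of_mul_add_eq_mul_add`,
`Polynomial.IsDistinguishedAt.isWeierstrassDivisorAt`). So `P1 = D * Q`, and `Q` is monic
(`Polynomial.Monic.of_mul_monic_left`) of degree `d - n`. -/

namespace Pool.Agent.H87.SA2

open Polynomial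

theorem npa_complete (K : Type) [Field K] :
    IsAdicComplete (IsLocalRing.maximalIdeal (PowerSeries K)) (PowerSeries K) := by
  rw [PowerSeries.maximalIdeal_eq_span_X]
  infer_instance

theorem npa_mem {K : Type} [Field K] (x : PowerSeries K) :
    x ∈ IsLocalRing.maximalIdeal (PowerSeries K) ↔ PowerSeries.constantCoeff x = 0 := by
  rw [PowerSeries.maximalIdeal_eq_span_X, Ideal.mem_span_singleton, PowerSeries.X_dvd_iff]

/-- the case of the root `0` -/
theorem split_zero {K : Type} [Field K] (P : (PowerSeries K)[X]) (hP : P.Monic)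
    (ha : PowerSeries.constantCoeff (P.coeff 0) = 0)
    (hne : P.map PowerSeries.constantCoeff ≠ X ^ P.natDegree) :
    ∃ D Q : (PowerSeries K)[X], D.Monic ∧ Q.Monic ∧ P = D * Q ∧ 1 ≤ D.natDegree ∧
      1 ≤ Q.natDegree := by
  have := npa_complete K
  have hg : PowerSeries.map (IsLocalRing.residue (PowerSeries K)) (P : PowerSeries (PowerSeries K))
      ≠ 0 := by
    rw [← Polynomial.polynomial_map_coe]
    intro h0
    have h1 : P.map (IsLocalRing.residue (PowerSeries K)) = 0 := by
      exact_mod_cast h0
    exact (P.map_monic_ne_zero (f := IsLocalRing.residue (PowerSeries K)) hP) h1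
  obtain ⟨D, h, H⟩ := PowerSeries.exists_isWeierstrassFactorization hg
  have hD := H.isDistinguishedAt
  have hDm := hD.monic
  -- the division
  have hdiv : D * (P /ₘ D) + P %ₘ D = P := by
    rw [add_comm]
    exact Polynomial.modByMonic_add_div P D
  have hdeg : ((PowerSeries.map (Ideal.Quotient.mk (IsLocalRing.maximalIdeal (PowerSeries K))))
      (D : PowerSeries (PowerSeries K))).order.toNat = D.natDegree := by
    have h1 := hD.coe_natDegree_eq_order_map (D : PowerSeries (PowerSeries K)) 1
      (by
        rw [map_one]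
        exact (Ideal.ne_top_iff_one _).1 (Ideal.IsMaximal.ne_top inferInstance)) (by rw [mul_one])
    rw [← h1]
    rfl
  have hdD : D.degree = (D.natDegree : WithBot ℕ) := Polynomial.degree_eq_natDegree hDm.ne_zero
  have hR : P %ₘ D = 0 := by
    have h1 : (P %ₘ D).degree < (((PowerSeries.map
        (Ideal.Quotient.mk (IsLocalRing.maximalIdeal (PowerSeries K))))
      (D : PowerSeries (PowerSeries K))).order.toNat : WithBot ℕ) := by
      rw [hdeg, ← hdD]
      exact Polynomial.degree_modByMonic_lt P hDm
    have h0 : (0 : (PowerSeries K)[X]).degree < (((PowerSeries.map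
        (Ideal.Quotient.mk (IsLocalRing.maximalIdeal (PowerSeries K))))
      (D : PowerSeries (PowerSeries K))).order.toNat : WithBot ℕ) := by
      rw [Polynomial.degree_zero]
      exact WithBot.bot_lt_coe _
    have h2 : (D : PowerSeries (PowerSeries K)) * h + ((0 : (PowerSeries K)[X]) :
        PowerSeries (PowerSeries K)) = (D : PowerSeries (PowerSeries K)) *
          ((P /ₘ D : (PowerSeries K)[X]) : PowerSeries (PowerSeries K)) +
          ((P %ₘ D : (PowerSeries K)[X]) : PowerSeries (PowerSeries K)) := by
      rw [← Polynomial.coe_mul, ← Polynomial.coe_add, hdiv, Polynomial.coe_zero, add_zero]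
      exact H.eq_mul.symm
    exact ((hD.isWeierstrassDivisorAt'.eq_of_mul_add_eq_mul_add h0 h1 h2).2).symm
  rw [hR, add_zero] at hdiv
  have hQm : (P /ₘ D).Monic := by
    apply hDm.of_mul_monic_left
    rw [hdiv]
    exact hP
  refine ⟨D, P /ₘ D, hDm, hQm, hdiv.symm, ?_, ?_⟩
  · by_contra hlt
    have h0 : D.natDegree = 0 := by omega
    have h1 : D = 1 := hDm.natDegree_eq_zero.1 h0
    have h2 := H.eq_mul
    rw [h1, Polynomial.coe_one, one_mul] at h2
    have h3 := H.isUnit
    rw [← h2, PowerSeries.isUnit_iff_constantCoeff, Polynomial.constantCoeff_coe] at h3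
    rw [PowerSeries.isUnit_iff_constantCoeff, ha] at h3
    exact not_isUnit_zero h3
  · by_contra hlt
    have h0 : (P /ₘ D).natDegree = 0 := by omega
    have h1 : P /ₘ D = 1 := hQm.natDegree_eq_zero.1 h0
    rw [h1, mul_one] at hdiv
    apply hne
    ext i
    rw [Polynomial.coeff_map, Polynomial.coeff_X_pow]
    rcases lt_trichotomy i P.natDegree with hi | hi | hi
    · rw [if_neg (by omega)]
      rw [← hdiv] at hi ⊢
      exact (npa_mem _).1 (hD.mem hi)
    · rw [if_pos hi, hi, hP.coeff_natDegree, map_one]
    · rw [if_neg (by omega), Polynomial.coeff_eq_zero_of_natDegree_lt hi, map_zero]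

theorem split_off {K : Type} [Field K] (P : (PowerSeries K)[X]) (hP : P.Monic) (a : K)
    (ha : (P.map PowerSeries.constantCoeff).IsRoot a)
    (hne : P.map PowerSeries.constantCoeff ≠ (X - C a) ^ P.natDegree) :
    ∃ D Q : (PowerSeries K)[X], D.Monic ∧ Q.Monic ∧ P = D * Q ∧ 1 ≤ D.natDegree ∧
      1 ≤ Q.natDegree := by
  set b : PowerSeries K := PowerSeries.C a with hb
  have hcb : PowerSeries.constantCoeff b = a := by rw [hb, PowerSeries.constantCoeff_C]
  have hdeg : (P.comp (X + C b)).natDegree = P.natDegree := by
    rw [Polynomial.natDegree_comp, Polynomial.natDegree_X_add_C, mul_one]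
  have hmap : (P.comp (X + C b)).map PowerSeries.constantCoeff =
      (P.map PowerSeries.constantCoeff).comp (X + C a) := by
    rw [Polynomial.map_comp, Polynomial.map_add, Polynomial.map_X, Polynomial.map_C, hcb]
  obtain ⟨D, Q, hD, hQ, hDQ, h1, h2⟩ := split_zero (P.comp (X + C b)) (hP.comp_X_add_C b)
    (by
      have h3 : PowerSeries.constantCoeff ((P.comp (X + C b)).coeff 0) =
          ((P.comp (X + C b)).map PowerSeries.constantCoeff).coeff 0 := by
        rw [Polynomial.coeff_map]
      rw [h3, hmap, Polynomial.coeff_zero_eq_eval_zero, Polynomial.eval_comp]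
      simp only [Polynomial.eval_add, Polynomial.eval_X, Polynomial.eval_C, zero_add]
      exact ha)
    (by
      rw [hmap, hdeg]
      intro h3
      apply hne
      have h4 := congrArg (fun q : K[X] => q.comp (X - C a)) h3
      rw [Polynomial.comp_assoc, Polynomial.add_comp, Polynomial.X_comp, Polynomial.C_comp,
        sub_add_cancel, Polynomial.comp_X, Polynomial.pow_comp, Polynomial.X_comp] at h4
      exact h4)
  have hback : P = (P.comp (X + C b)).comp (X - C b) := by
    rw [Polynomial.comp_assoc, Polynomial.add_comp, Polynomial.X_comp, Polynomial.C_comp,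
        sub_add_cancel, Polynomial.comp_X]
  have hX : (X - C b : (PowerSeries K)[X]) = X + C (-b) := by
    rw [map_neg, sub_eq_add_neg]
  refine ⟨D.comp (X - C b), Q.comp (X - C b), ?_, ?_, ?_, ?_, ?_⟩
  · rw [hX]; exact hD.comp_X_add_C _
  · rw [hX]; exact hQ.comp_X_add_C _
  · rw [← Polynomial.mul_comp, ← hDQ]; exact hback
  · rw [Polynomial.natDegree_comp, Polynomial.natDegree_X_sub_C, mul_one]; exact h1
  · rw [Polynomial.natDegree_comp, Polynomial.natDegree_X_sub_C, mul_one]; exact h2

end Pool.Agent.H87.SA2
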