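import Pool.Agent.H87.SA2.SEPN
import Pool.Agent.H87.SA2.RDefs
import Mathlib.RingTheory.PowerSeries.Substitution

/-! # [SA2-SCAL] The substitution `t ↦ a t` -/

namespace Pool.Agent.H87.SA2

open Finset Polynomial Pool.Agent.H87.SA Pool.Agent.H97.GA

/-- the substitution `t ↦ a t` in `ℤ[t]` -/
noncomputable def sca (a : ℕ) : ℤ[X] →+* ℤ[X] := compRingHom (C (a : ℤ) * X)

/-- `f(a t, X)` -/
noncomputable def fsc (f : ℤ[X][X]) (a : ℕ) : ℤ[X][X] := f.map (sca a)

theorem sca_apply (a : ℕ) (p : ℤ[X]) : sca a p = p.comp (C (a : ℤ) * X) := rfl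

theorem fsc_monic {f : ℤ[X][X]} (hf : f.Monic) (a : ℕ) : (fsc f a).Monic := hf.map _

theorem fsc_deg {f : ℤ[X][X]} (hf : f.Monic) (a : ℕ) : (fsc f a).natDegree = f.natDegree :=
  hf.natDegree_map _

theorem fsc_mdeg {f : ℤ[X][X]} {m : ℕ} (hm : ∀ j, (f.coeff j).natDegree ≤ m) (a j : ℕ) :
    ((fsc f a).coeff j).natDegree ≤ m := by
  unfold fsc
  rw [coeff_map, sca_apply]
  refine natDegree_comp_le.trans ?_
  have h1 : (C (a : ℤ) * X : ℤ[X]).natDegree ≤ 1 :=
    (natDegree_C_mul_le _ _).trans natDegree_X_le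
  calc (f.coeff j).natDegree * (C (a : ℤ) * X : ℤ[X]).natDegree ≤ (f.coeff j).natDegree * 1 :=
        Nat.mul_le_mul_left _ h1
    _ ≤ m := by rw [mul_one]; exact hm j

theorem fsc_bez {f A B : ℤ[X][X]} {c : ℤ[X]} (h : A * f + B * derivative f = C c) (a : ℕ) :
    fsc A a * fsc f a + fsc B a * derivative (fsc f a) = C (sca a c) := by
  unfold fsc
  rw [Polynomial.derivative_map, ← Polynomial.map_mul, ← Polynomial.map_mul, ← Polynomial.map_add, h,
    Polynomial.map_C]

theorem fQ_fsc (f : ℤ[X][X]) (a : ℕ) : fQ (fsc f a) = (fQ f).map (PowerSeries.rescale (a : ℚ)) := by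
  unfold fQ fsc
  rw [Polynomial.map_map, Polynomial.map_map]
  congr 1
  refine Polynomial.ringHom_ext (fun z => ?_) ?_
  · rw [RingHom.comp_apply, RingHom.comp_apply, sca_apply]
    simp
  · rw [RingHom.comp_apply, RingHom.comp_apply, sca_apply, X_comp, coe_eval₂RingHom,
      eval₂_mul, eval₂_C, eval₂_X, PowerSeries.rescale_X]
    congr 1

theorem fsc_fib (f : ℤ[X][X]) (a N : ℕ) :
    (fsc f a).map ((aeval (1 / (N : ℚ)) : ℤ[X] →ₐ[ℤ] ℚ) : ℤ[X] →+* ℚ) =
      f.map ((aeval ((a : ℚ) / (N : ℚ)) : ℤ[X] →ₐ[ℤ] ℚ) : ℤ[X] →+* ℚ) := by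
  unfold fsc
  rw [Polynomial.map_map]
  congr 1
  refine Polynomial.ringHom_ext (fun z => ?_) ?_
  · rw [RingHom.comp_apply, sca_apply]
    simp
  · rw [RingHom.comp_apply, sca_apply, X_comp]
    simp
    ring

theorem rescale_inv {K : Type*} [Field K] {c : K} (hc : c ≠ 0) :
    (PowerSeries.rescale c).comp (PowerSeries.rescale c⁻¹) = RingHom.id (PowerSeries K) := by
  rw [← PowerSeries.rescale_mul, inv_mul_cancel₀ hc, PowerSeries.rescale_one]

theorem rescale_inv' {K : Type*} [Field K] {c : K} (hc : c ≠ 0) :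
    (PowerSeries.rescale c⁻¹).comp (PowerSeries.rescale c) = RingHom.id (PowerSeries K) := by
  rw [← PowerSeries.rescale_mul, mul_inv_cancel₀ hc, PowerSeries.rescale_one]

/-- `T ↦ c T` is an automorphism of `K⟦T⟧` -/
noncomputable def resE {K : Type*} [Field K] (c : K) (hc : c ≠ 0) :
    PowerSeries K ≃+* PowerSeries K :=
  RingEquiv.ofRingHom (PowerSeries.rescale c) (PowerSeries.rescale c⁻¹)
    (rescale_inv hc) (rescale_inv' hc)

theorem irr_rescale {K : Type*} [Field K] {c : K} (hc : c ≠ 0) {g : (PowerSeries K)[X]}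
    (hg : Irreducible g) : Irreducible (g.map (PowerSeries.rescale c)) := by
  have h1 : g.map (PowerSeries.rescale c) = Polynomial.mapEquiv (resE c hc) g := rfl
  rw [h1]
  exact (MulEquiv.irreducible_iff (Polynomial.mapEquiv (resE c hc))).2 hg

/-- the real root of the rescaled polynomial -/
theorem realRoot_rescale {g : (PowerSeries ℚ)[X]} {a : ℕ} (ha : 1 ≤ a) (h : RealRoot g) :
    RealRoot (g.map (PowerSeries.rescale ((a : ℚ)⁻¹))) := by
  obtain ⟨e, he, ξ, hξ⟩ := h
  obtain ⟨r, hr⟩ : ∃ r : ℝ, r ^ e = ((a : ℝ))⁻¹ :=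
    ⟨((a : ℝ))⁻¹ ^ ((e : ℝ)⁻¹), Real.rpow_inv_natCast_pow (by positivity) he⟩
  refine ⟨e, he, PowerSeries.rescale r ξ, ?_⟩
  have h1 : ((exr ℝ e he).comp (PowerSeries.map (algebraMap ℚ ℝ))).comp
      (PowerSeries.rescale ((a : ℚ)⁻¹)) =
      (PowerSeries.rescale r).comp ((exr ℝ e he).comp (PowerSeries.map (algebraMap ℚ ℝ))) := by
    refine RingHom.ext fun u => PowerSeries.ext fun k => ?_
    simp only [RingHom.comp_apply]
    rw [coeff_exr, PowerSeries.coeff_rescale, coeff_exr]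
    by_cases hk : e ∣ k
    · obtain ⟨j, rfl⟩ := hk
      rw [if_pos (Dvd.intro _ rfl), if_pos (Dvd.intro _ rfl),
        Nat.mul_div_cancel_left _ (Nat.pos_of_ne_zero he), PowerSeries.coeff_map,
        PowerSeries.coeff_map, PowerSeries.coeff_rescale, pow_mul, hr]
      simp
    · rw [if_neg hk, if_neg hk, mul_zero]
  rw [Polynomial.map_map, h1, ← Polynomial.map_map, Polynomial.eval_map,
    Polynomial.eval₂_at_apply, hξ, map_zero]

theorem hnu_fsc {f : ℤ[X][X]} {nu : ℕ}
    (hnu : ∀ g : (PowerSeries ℚ)[X], g.Monic → Irreducible g → g ∣ fQ f → RealRoot g →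
      3 * g.natDegree ≤ nu) {a : ℕ} (ha : 1 ≤ a) :
    ∀ g : (PowerSeries ℚ)[X], g.Monic → Irreducible g → g ∣ fQ (fsc f a) → RealRoot g →
      3 * g.natDegree ≤ nu := by
  intro g h1 h2 h3 h4
  have haQ : (a : ℚ) ≠ 0 := by
    have : 0 < a := ha
    positivity
  have h5 : (fQ (fsc f a)).map (PowerSeries.rescale ((a : ℚ)⁻¹)) = fQ f := by
    rw [fQ_fsc, Polynomial.map_map, rescale_inv' haQ, Polynomial.map_id]
  have h6 := hnu (g.map (PowerSeries.rescale ((a : ℚ)⁻¹))) (h1.map _)
    (irr_rescale (inv_ne_zero haQ) h2) (by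
      rw [← h5]
      obtain ⟨c, hc⟩ := h3
      exact ⟨c.map _, by rw [hc, Polynomial.map_mul]⟩) (realRoot_rescale ha h4)
  rwa [h1.natDegree_map] at h6

/-- the Puiseux expansions of the rescaled polynomial -/
theorem exists_scale {f : ℤ[X][X]} {d : ℕ} (pd : PData f d) {a : ℕ} (ha : 1 ≤ a) :
    ∃ pd' : PData (fsc f a) d, pd'.e = pd.e ∧ pd'.q = pd.q ∧ pd'.R = a * pd.R ∧
      ∀ s0 : ℕ, (∀ i j, (∀ k ≤ s0, PowerSeries.coeff k (pd.x i) = PowerSeries.coeff k (pd.x j)) →
        i = j) → ∀ i j, (∀ k ≤ s0, PowerSeries.coeff k (pd'.x i) =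
          PowerSeries.coeff k (pd'.x j)) → i = j := by
  have he : pd.e ≠ 0 := by
    have := pd.e_pos
    omega
  have haR : (1 : ℝ) ≤ a := by exact_mod_cast ha
  obtain ⟨r, hr0, hr⟩ : ∃ r : ℝ, 0 ≤ r ∧ r ^ pd.e = (a : ℝ) :=
    ⟨(a : ℝ) ^ ((pd.e : ℝ)⁻¹), by positivity, Real.rpow_inv_natCast_pow (by positivity) he⟩
  have hr1 : 1 ≤ r := by
    by_contra hc
    push Not at hc
    have h1 := pow_lt_one₀ hr0 hc he
    rw [hr] at h1
    linarith
  have hra : r ≤ a := by
    rw [← hr]
    exact le_self_pow₀ hr1 he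
  have hrC : (r : ℂ) ^ pd.e = (a : ℂ) := by exact_mod_cast hr
  have hrC0 : (r : ℂ) ≠ 0 := by
    have : r ≠ 0 := by linarith
    exact_mod_cast this
  have hrint : IsIntegral ℤ (r : ℂ) := by
    refine IsIntegral.of_pow (Nat.pos_of_ne_zero he) ?_
    rw [hrC]
    exact isIntegral_natCast a
  have htq : ∀ p : ℤ[X], tq pd.e pd.q (sca a p) =
      PowerSeries.rescale (r : ℂ) (tq pd.e pd.q p) := by
    intro p
    have h1 : (tq pd.e pd.q).comp (sca a) =
        (PowerSeries.rescale (r : ℂ)).comp (tq pd.e pd.q) := by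
      refine Polynomial.ringHom_ext (fun z => ?_) ?_
      · rw [RingHom.comp_apply, RingHom.comp_apply, sca_apply]
        unfold tq
        simp
      · rw [RingHom.comp_apply, RingHom.comp_apply, sca_apply, X_comp]
        unfold tq
        rw [coe_eval₂RingHom, eval₂_mul, eval₂_C, eval₂_X, map_pow, map_mul, PowerSeries.rescale_X]
        have h2 : PowerSeries.rescale (r : ℂ) (PowerSeries.C (pd.q : ℂ)) =
            PowerSeries.C (pd.q : ℂ) := by
          ext k
          rw [PowerSeries.coeff_rescale, PowerSeries.coeff_C]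
          split_ifs with hk
          · rw [hk, pow_zero, one_mul]
          · rw [mul_zero]
        have h3 : (Int.castRingHom (PowerSeries ℂ)) (a : ℤ) = PowerSeries.C (r : ℂ) ^ pd.e := by
          rw [← map_pow, hrC]
          simp
        rw [h2, h3]
        ring
    exact congrArg (fun φ : ℤ[X] →+* PowerSeries ℂ => φ p) h1
  refine ⟨{ e := pd.e
            q := pd.q
            e_pos := pd.e_pos
            q_pos := pd.q_pos
            x := fun i => PowerSeries.rescale (r : ℂ) (pd.x i)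
            x_inj := ?_
            split := ?_
            integral := ?_
            R := a * pd.R
            R_ge := ?_
            growth := ?_ }, rfl, rfl, rfl, ?_⟩
  · intro i j hij
    refine pd.x_inj (PowerSeries.ext fun k => ?_)
    have h1 := congrArg (PowerSeries.coeff k) hij
    simp only [PowerSeries.coeff_rescale] at h1
    exact mul_left_cancel₀ (pow_ne_zero k hrC0) h1
  · have h1 : (fsc f a).map (tq pd.e pd.q) =
        (f.map (tq pd.e pd.q)).map (PowerSeries.rescale (r : ℂ)) := by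
      unfold fsc
      rw [Polynomial.map_map, Polynomial.map_map]
      congr 1
      exact RingHom.ext htq
    rw [h1, pd.split, Polynomial.map_prod]
    refine Finset.prod_congr rfl fun i _ => ?_
    rw [Polynomial.map_sub, Polynomial.map_X, Polynomial.map_C]
  · intro i k
    rw [PowerSeries.coeff_rescale]
    exact (hrint.pow k).mul (pd.integral i k)
  · have := pd.R_ge
    nlinarith
  · intro i k
    have hR := pd.R_ge
    rw [PowerSeries.coeff_rescale, norm_mul, norm_pow, Complex.norm_real, Real.norm_of_nonneg hr0,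
      mul_pow]
    refine mul_le_mul ?_ (pd.growth i k) (norm_nonneg _) (by positivity)
    exact (pow_le_pow_left₀ hr0 hra k).trans (pow_le_pow_right₀ haR (Nat.le_succ k))
  · intro s0 hs0 i j hij
    refine hs0 i j fun k hk => ?_
    have h1 := hij k hk
    simp only [PowerSeries.coeff_rescale] at h1
    exact mul_left_cancel₀ (pow_ne_zero k hrC0) h1

end Pool.Agent.H87.SA2
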