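import Pool.Agent.H87.SA2.Sieg
import Pool.Agent.H87.SA2.TayW
import Pool.Agent.H87.SA.St1S
import Pool.Agent.H97.AN.Pt

/-! # [SA2-VAN] Vanishing of the Taylor coefficients at the anchor, ramified version -/

namespace Pool.Agent.H87.SA2

open Finset Polynomial Pool.Agent.H72.ES Pool.Agent.H8.KF Pool.Agent.H97.AN Pool.Agent.H87.SA

variable {n Q : ℕ} {f : ℤ[X]} {θ : ℝ}

/-- the anchor series converges at `1/X0` -/
theorem AnchR.cv {O : Ord ℝ n Q f θ} {D Dl m κ e M : ℕ} {X0 R G : ℝ}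
    (an : AnchR O D Dl m κ e M X0 R G) (hR : 0 ≤ R) (hRM : R < X0) : Cv (1 / X0) (an.Z.map an.ψ) := by
  refine Geo.cv (A := X0 ^ κ) (R := R) ?_ hR ?_
  · intro k
    rw [PowerSeries.coeff_map]
    exact (an.ψ_le _).trans (an.Z_le k)
  · rw [mul_one_div]
    exact (div_lt_one (lt_of_le_of_lt hR hRM)).2 hRM

theorem vanR (O : Ord ℝ n Q f θ) {F : ℕ → ℕ → ℤ} (hF : Norml n Q f F) (br : Branch O F)
    {D Dl m κ e M : ℕ} {X0 R G : ℝ} (hD : 1 ≤ D) (hDl : D ≤ Dl) (hκ : 1 ≤ κ) (he : 1 ≤ e)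
    (hM : X0 ^ e = (M : ℝ)) (hR : 2 ≤ R) (hG : 1 ≤ G)
    (an : AnchR O D Dl m κ e M X0 R G) (la : ℕ)
    (hRM : (16 * R) ^ (10 ^ 5 * n ^ 4 * KK Dl κ) ≤ X0)
    (hla : 10 ^ 6 * n ^ 6 * KK Dl κ ^ 2 ≤ la)
    (hGB : (G * bb n Q) ^ (10 ^ 6 * n ^ 3 * KK Dl κ) ≤ X0 ^ (la + 1))
    (A : ℕ → ℕ → ℕ → ℕ → ℤ) (hA : SuppA n D (3 * n * la) A)
    (hZ : ∀ s j p q, |((A s j p q : ℤ) : ℝ)| ≤ ZSR n Dl κ X0 R G (bb n Q) la)
    (hv : ∀ k l, k + la * l < TT n la →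
        sa n D (3 * n * la) A (fun s j => an.JE (zcR an.x0 e an.Z k s j))
          (fun p q => an.JO (bc O br (3 * n) p q l)) = 0)
    (x y : ℤ) (h2 : ev n F x y = 0) (hy : |(y : ℝ) / x - θ| ≤ 1 / bb n Q)
    (hxb : bb n Q ^ 5 ≤ |(x : ℝ)|) (hx1 : X0 ^ la ≤ |(x : ℝ)|)
    (hx2 : |(x : ℝ)| ≤ X0 ^ (la + 1)) (i : ℕ) (hi : 8 * (κ + 1) * i ≤ la) :
    PowerSeries.coeff i (tay (1 / X0)
      ((usR an.x0 e (3 * n * la) D (spec n A x y) an.Z).map an.ψ)) = 0 := by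
  have hn := hF.hn
  have hB1 := one_le_bb hn hF.hQ
  have hR1 : (1 : ℝ) ≤ R := by linarith
  have h16 : (1 : ℝ) ≤ 16 * R := by linarith
  have hDl1 : 1 ≤ Dl := hD.trans hDl
  have hKK : 1 ≤ KK Dl κ := by unfold KK; nlinarith
  have hn4 : 1 ≤ n ^ 4 := Nat.one_le_pow _ _ (by omega)
  have hMR : 16 * R ≤ X0 := by
    refine le_trans ?_ hRM
    refine le_self_pow₀ h16 ?_
    have : 1 ≤ 10 ^ 5 * n ^ 4 * KK Dl κ := by nlinarith
    omega
  have hX1 : (1 : ℝ) ≤ X0 := by linarith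
  have hX0 : (0 : ℝ) < X0 := by linarith
  have hMr : (1 : ℝ) ≤ M := by
    rw [← hM]
    exact one_le_pow₀ hX1
  have hMN : 1 ≤ M := by exact_mod_cast hMr
  have hMpos : (0 : ℝ) < M := by linarith
  have hla8 : 8 * n ≤ la := by
    have h6 : n ≤ n ^ 6 := Nat.le_self_pow (by norm_num) n
    have h7 : 1 ≤ KK Dl κ ^ 2 := Nat.one_le_pow _ _ hKK
    calc 8 * n ≤ 10 ^ 6 * n ^ 6 := by omega
      _ = 10 ^ 6 * n ^ 6 * 1 := (mul_one _).symm
      _ ≤ 10 ^ 6 * n ^ 6 * KK Dl κ ^ 2 := Nat.mul_le_mul_left _ h7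
      _ ≤ la := hla
  set Zr := an.Z.map an.ψ with hZr
  have hcv : Cv (1 / X0) Zr := an.cv (by linarith) (by linarith)
  rw [usR_map, an.ψ_x0]
  set ZB := ZSR n Dl κ X0 R G (bb n Q) la with hZB
  have hZB0 : 0 ≤ ZB := by unfold ZB ZSR; positivity
  set U := usR X0 e (3 * n * la) D (spec n A x y) Zr with hU
  set Y : ℝ := |(x : ℝ)| ^ (3 * n) * ((3 * n + 1) * ((3 * n * la + 1) * (D * (ZB *
    (X0 ^ (κ * Dl) * 2 ^ Dl)))) * bb n Q ^ (26 * n)) with hY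
  have hY0 : 0 ≤ Y := by positivity
  -- the coefficients
  have hzc : ∀ k s j, j < D → |zcR X0 e Zr k s j| ≤ (X0 ^ (κ * Dl) * 2 ^ Dl) * (2 * R) ^ k := by
    intro k s j hj
    have hmap : zcR X0 e Zr k s j = an.ψ (zcR an.x0 e an.Z k s j) := by
      rw [zcR_map, an.ψ_x0]
    rw [hmap]
    refine (an.ψ_le _).trans ?_
    have h := zcR_le an.sub (A := X0 ^ κ) (R := R) (one_le_pow₀ hX1) hR1 he an.ν_x0 an.Z_le hDl
      k s j hj
    rw [← pow_mul] at h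
    exact h
  have hcoef : ∀ k, |PowerSeries.coeff k U| * X0 ^ (TT n la - k) ≤ Y * (2 * R) ^ k := by
    intro k
    have h := st1S O hF br D la hla8 A hA ZB hZ (fun s j => zcR X0 e Zr k s j)
      ((X0 ^ (κ * Dl) * 2 ^ Dl) * (2 * R) ^ k) (fun s _ j hj => hzc k s j hj) (by positivity) k
      (fun l hl => by
        have h3 := congrArg an.φ (hv k l hl)
        rw [sa_map, map_zero] at h3
        rw [← h3]
        congr 1
        · funext s j
          rw [an.φ_JE, zcR_map, an.ψ_x0, hZr]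
        · funext p q
          rw [an.φ_JO]) x y h2 hy hxb X0 hX1 hx1
    have h4 : PowerSeries.coeff k U = ∑ s ∈ range (3 * n * la + 1), ∑ j ∈ range D,
        ((spec n A x y s j : ℤ) : ℝ) * zcR X0 e Zr k s j := by
      rw [hU, coeff_usR]
    rw [h4]
    refine h.trans (le_of_eq ?_)
    rw [hY]
    ring
  have hiT : i ≤ TT n la := by
    have h1 : i ≤ la := by
      have : i ≤ 8 * (κ + 1) * i := Nat.le_mul_of_pos_left _ (by positivity)
      omega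
    unfold TT
    have : la ≤ 6 * n * la := Nat.le_mul_of_pos_left _ (by omega)
    omega
  have hw := tay_coeff_leR (M := X0) (T := TT n la) (r := 2 * R) (by linarith) (by linarith) hY0 U
    hcoef i hiT
  obtain ⟨z, hz⟩ := dnr_usR hX0 he hM (3 * n * la) D (spec n A x y) hcv an.dn i
  rw [← hU] at hz
  set w := PowerSeries.coeff i (tay (1 / X0) U) with hwd
  have heR : (1 : ℝ) ≤ an.ce := by exact_mod_cast an.ce_pos
  have hΔR : (1 : ℝ) ≤ an.Δ := by exact_mod_cast an.Δ_pos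
  have hMJ : (M : ℝ) ^ (3 * n * la / e) ≤ X0 ^ (3 * n * la) := by
    rw [← hM, ← pow_mul]
    exact pow_le_pow_right₀ hX1 (Nat.mul_div_le _ _)
  have hh1 : (1 / X0) ^ i ≤ 1 := by
    refine pow_le_one₀ (by positivity) ?_
    rw [div_le_one hX0]
    exact hX1
  have hz1 : |(z : ℝ)| < 1 := by
    have h5 : |(z : ℝ)| ≤ (M : ℝ) ^ (3 * n * la / e) * (an.ce : ℝ) ^ D * (an.Δ : ℝ) ^ i * |w| := by
      rw [hz, abs_mul, abs_of_nonneg (by push_cast; positivity), abs_mul,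
        abs_of_nonneg (by positivity : (0 : ℝ) ≤ (1 / X0) ^ i)]
      push_cast
      have h51 : (1 / X0) ^ i * |w| ≤ 1 * |w| := mul_le_mul_of_nonneg_right hh1 (abs_nonneg _)
      rw [one_mul] at h51
      exact mul_le_mul_of_nonneg_left h51 (by positivity)
    have h6 : (M : ℝ) ^ (3 * n * la / e) * (an.ce : ℝ) ^ D * (an.Δ : ℝ) ^ i ≤
        X0 ^ (3 * n * la) * X0 ^ (κ * Dl) * X0 ^ (κ * i) := by
      rw [pow_mul X0 κ Dl, pow_mul X0 κ i]
      have e1 : (an.ce : ℝ) ^ D ≤ (X0 ^ κ) ^ Dl :=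
        (pow_le_pow_left₀ (by linarith) an.ce_le D).trans
          (pow_le_pow_right₀ (one_le_pow₀ hX1) hDl)
      have e2 : (an.Δ : ℝ) ^ i ≤ (X0 ^ κ) ^ i := pow_le_pow_left₀ (by linarith) an.Δ_le i
      gcongr
    have h7 := num_van (i := i) hn hDl1 hκ hR hG hB1 hRM hla hGB hi
    rw [← hZB] at h7
    have hxp : |(x : ℝ)| ^ (3 * n) ≤ X0 ^ (3 * n * (la + 1)) := by
      calc |(x : ℝ)| ^ (3 * n) ≤ (X0 ^ (la + 1)) ^ (3 * n) :=
            pow_le_pow_left₀ (abs_nonneg _) hx2 _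
        _ = X0 ^ (3 * n * (la + 1)) := by rw [← pow_mul]; congr 1; ring
    have hDDl : (D : ℝ) ≤ Dl := by exact_mod_cast hDl
    have h8 : |w| * X0 ^ TT n la ≤ X0 ^ (3 * n * (la + 1)) *
        (4 * ((3 * n + 1) * ((3 * n * la + 1) * (Dl * (ZB * (X0 ^ (κ * Dl) * 2 ^ Dl)))) *
        bb n Q ^ (26 * n)) * (4 * R) ^ (TT n la) * X0 ^ i) := by
      refine hw.trans ?_
      rw [hY, show 2 * (2 * R) = 4 * R by ring]
      calc 4 * (|(x : ℝ)| ^ (3 * n) * ((3 * n + 1) * ((3 * n * la + 1) * (D * (ZB *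
            (X0 ^ (κ * Dl) * 2 ^ Dl)))) * bb n Q ^ (26 * n))) * (4 * R) ^ TT n la * X0 ^ i
          = |(x : ℝ)| ^ (3 * n) * (4 * ((3 * n + 1) * ((3 * n * la + 1) * (D * (ZB *
            (X0 ^ (κ * Dl) * 2 ^ Dl)))) * bb n Q ^ (26 * n)) * (4 * R) ^ TT n la *
            X0 ^ i) := by ring
        _ ≤ |(x : ℝ)| ^ (3 * n) * (4 * ((3 * n + 1) * ((3 * n * la + 1) * (Dl * (ZB *
            (X0 ^ (κ * Dl) * 2 ^ Dl)))) * bb n Q ^ (26 * n)) * (4 * R) ^ TT n la *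
            X0 ^ i) := by gcongr
        _ ≤ _ := mul_le_mul_of_nonneg_right hxp (by positivity)
    have h9 : |(z : ℝ)| * X0 ^ TT n la < X0 ^ TT n la := by
      calc |(z : ℝ)| * X0 ^ TT n la
          ≤ ((M : ℝ) ^ (3 * n * la / e) * (an.ce : ℝ) ^ D * (an.Δ : ℝ) ^ i * |w|) *
              X0 ^ TT n la := mul_le_mul_of_nonneg_right h5 (by positivity)
        _ = (M : ℝ) ^ (3 * n * la / e) * (an.ce : ℝ) ^ D * (an.Δ : ℝ) ^ i *
              (|w| * X0 ^ TT n la) := by ring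
        _ ≤ (X0 ^ (3 * n * la) * X0 ^ (κ * Dl) * X0 ^ (κ * i)) *
            (X0 ^ (3 * n * (la + 1)) *
        (4 * ((3 * n + 1) * ((3 * n * la + 1) * (Dl * (ZB * (X0 ^ (κ * Dl) * 2 ^ Dl)))) *
        bb n Q ^ (26 * n)) * (4 * R) ^ (TT n la) * X0 ^ i)) := by gcongr
        _ = X0 ^ (3 * n * la + 3 * n * (la + 1)) *
          (4 * ((3 * n + 1) * ((3 * n * la + 1) * (Dl * (ZB * (X0 ^ (κ * Dl) * 2 ^ Dl)))) *
            bb n Q ^ (26 * n)) * (4 * R) ^ (TT n la) * X0 ^ (κ * Dl + κ * i + i)) := by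
            rw [pow_add, pow_add, pow_add]; ring
        _ < X0 ^ (3 * n * la + 3 * n * (la + 1)) * X0 ^ ee la :=
            mul_lt_mul_of_pos_left h7 (by positivity)
        _ = X0 ^ TT n la := by
            rw [← pow_add]
            congr 1
            unfold TT
            ring
    have hpos : (0 : ℝ) < X0 ^ TT n la := by positivity
    by_contra hcon
    push Not at hcon
    nlinarith
  have hz0 : z = 0 := by
    have : |z| < 1 := by exact_mod_cast hz1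
    exact Int.abs_lt_one_iff.1 this
  rw [hz0, Int.cast_zero] at hz
  have hne : (((M : ℤ) ^ (3 * n * la / e) * an.ce ^ D : ℤ) : ℝ) * (an.Δ : ℝ) ^ i ≠ 0 := by
    push_cast
    positivity
  have hne2 : (1 / X0) ^ i ≠ 0 := by positivity
  exact (mul_eq_zero.1 ((mul_eq_zero.1 hz.symm).resolve_left hne)).resolve_left hne2

end Pool.Agent.H87.SA2
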