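import Pool.Agent.H87.SA2.RDefs
import Pool.Agent.H97.GA.WEqA

/-! # [SA2-WEQE] The polynomial `N^(m d) f(t (1 + s)^e, X / N^m)`

Proof. Adapt `Pool.Agent.H97.GA.weqa_gen` (`Pool/Agent/H97/GA/WEqA.lean`, proved), where the
substitution is `t ↦ t (1 + M s)`: here it is `t ↦ t (1 + s)^e`, so `(1 + s)^(e i) =
1 + ∑_{l < e m} C(e i, l + 1) s^(l+1)` for `i ≤ m` (`weqa_binom (e * m) (e * i) _ s`). All other
steps are the same, with `M = 1`. -/

namespace Pool.Agent.H87.SA2

open Finset Polynomial Pool.Agent.H87.SA Pool.Agent.H97.GA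

theorem weqe_gen {S : Type*} [CommRing S] (d m e : ℕ) (a : ℕ → ℕ → ℤ) (N : ℕ) (t s w : S)
    (ht : (N : S) * t = 1) :
    ei (gN d m a N) ((N : S) ^ m * w) +
      ∑ l ∈ range (e * m), s ^ (l + 1) * ei (hNe d m e a N l) ((N : S) ^ m * w) =
    (N : S) ^ (m * d) * fv d m a (t * (1 + s) ^ e) w := by
  obtain ⟨A, hA⟩ : ∃ A : ℕ → ℕ → S, ∀ i j, A i j =
      (a i j : S) * (N : S) ^ (m * (d - j) - i) * ((N : S) ^ m * w) ^ j := ⟨_, fun _ _ => rfl⟩
  -- the terms of the right side
  have h1 : ∀ i ∈ range (m + 1), ∀ j ∈ range d,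
      (N : S) ^ (m * d) * ((a i j : S) * (t * (1 + s) ^ e) ^ i * w ^ j) =
      A i j + ∑ l ∈ range (e * m), A i j * ((e * i).choose (l + 1) : S) * s ^ (l + 1) := by
    intro i hi j hj
    rw [mem_range] at hi hj
    have hi' : i ≤ m := by omega
    have e1 : (N : S) ^ (m * d) * t ^ i = (N : S) ^ (m * (d - j) - i) * ((N : S) ^ m) ^ j := by
      have e2 : m * d = (m * (d - j) - i) + i + m * j := by
        have e3 : m * d = m * (d - j) + m * j := by
          rw [← Nat.mul_add]
          congr 1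
          omega
        have e4 : m ≤ m * (d - j) := Nat.le_mul_of_pos_right _ (by omega)
        omega
      have e5 : (N : S) ^ i * t ^ i = 1 := by
        rw [← mul_pow, ht, one_pow]
      rw [e2, pow_add, pow_add, ← pow_mul]
      calc (N : S) ^ (m * (d - j) - i) * (N : S) ^ i * (N : S) ^ (m * j) * t ^ i
          = (N : S) ^ (m * (d - j) - i) * (N : S) ^ (m * j) * ((N : S) ^ i * t ^ i) := by ring
        _ = _ := by rw [e5, mul_one]
    have e2 : (N : S) ^ (m * d) * ((a i j : S) * (t * (1 + s) ^ e) ^ i * w ^ j) =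
        A i j * (1 + s) ^ (e * i) := by
      rw [hA, mul_pow t, mul_pow _ w, ← pow_mul (1 + s) e i]
      calc (N : S) ^ (m * d) * ((a i j : S) * (t ^ i * (1 + s) ^ (e * i)) * w ^ j)
          = (a i j : S) * ((N : S) ^ (m * d) * t ^ i) * w ^ j * (1 + s) ^ (e * i) := by ring
        _ = _ := by
          rw [e1]
          ring
    rw [e2, weqa_binom (e * m) (e * i) (Nat.mul_le_mul_left e hi'), mul_add, mul_one, mul_sum]
    congr 1
    refine sum_congr rfl fun l _ => ?_
    ring
  have h2 : (N : S) ^ (m * d) * fv d m a (t * (1 + s) ^ e) w =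
      ((N : S) ^ m * w) ^ d + (∑ i ∈ range (m + 1), ∑ j ∈ range d, A i j +
        ∑ i ∈ range (m + 1), ∑ j ∈ range d, ∑ l ∈ range (e * m),
          A i j * ((e * i).choose (l + 1) : S) * s ^ (l + 1)) := by
    unfold fv
    rw [mul_add, mul_pow, ← pow_mul, ← sum_add_distrib]
    congr 1
    rw [mul_sum]
    refine sum_congr rfl fun i hi => ?_
    rw [mul_sum, ← sum_add_distrib]
    exact sum_congr rfl fun j hj => h1 i hi j hj
  have h3 : ei (gN d m a N) ((N : S) ^ m * w) = ((N : S) ^ m * w) ^ d +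
      ∑ i ∈ range (m + 1), ∑ j ∈ range d, A i j := by
    unfold gN
    rw [weqa_poly, sum_comm]
    congr 1
    refine sum_congr rfl fun j _ => ?_
    push_cast
    rw [sum_mul]
    refine sum_congr rfl fun i _ => ?_
    rw [hA]
  have h4 : ∑ l ∈ range (e * m), s ^ (l + 1) * ei (hNe d m e a N l) ((N : S) ^ m * w) =
      ∑ i ∈ range (m + 1), ∑ j ∈ range d, ∑ l ∈ range (e * m),
          A i j * ((e * i).choose (l + 1) : S) * s ^ (l + 1) := by
    have e1 : ∀ l ∈ range (e * m), s ^ (l + 1) * ei (hNe d m e a N l) ((N : S) ^ m * w) =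
        ∑ i ∈ range (m + 1), ∑ j ∈ range d,
          A i j * ((e * i).choose (l + 1) : S) * s ^ (l + 1) := by
      intro l _
      unfold hNe
      rw [weqa_sumC, mul_sum, sum_comm]
      refine sum_congr rfl fun j _ => ?_
      push_cast
      rw [sum_mul, mul_sum]
      refine sum_congr rfl fun i _ => ?_
      rw [hA]
      ring
    rw [sum_congr rfl e1, sum_comm]
    refine sum_congr rfl fun i _ => ?_
    rw [sum_comm]
  rw [h2, h3, h4]
  ring

/-- `f` as a double sum -/
theorem fv_af {S : Type*} [CommRing S] {f : ℤ[X][X]} {d m : ℕ} (hf : f.Monic)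
    (hd : f.natDegree = d) (hm : ∀ j, (f.coeff j).natDegree ≤ m) (t x : S) :
    fv d m (af f) t x = eval₂ (eval₂RingHom (Int.castRingHom S) t) x f := by
  unfold fv
  have h0 : f.coeff d = 1 := by
    rw [← hd]
    exact hf
  rw [eval₂_eq_sum_range, hd, sum_range_succ (n := d), h0, map_one, one_mul, add_comm (x ^ d),
    sum_comm]
  congr 1
  refine sum_congr rfl fun j _ => ?_
  have h1 := eval₂_eq_sum_range' (Int.castRingHom S) (p := f.coeff j) (n := m + 1)
    (Nat.lt_succ_of_le (hm j)) t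
  rw [coe_eval₂RingHom, h1, sum_mul]
  rfl

end Pool.Agent.H87.SA2
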