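import Pool.Agent.H87.SA2.YRA

/-! # [SA2-YR] The values at the rational point: the polynomial `gN` and the Taylor expansions

`h = 1 / X0`, `(q h)^e = 1/N` (`H.pow`: `X0^e = q^e N`).

`tay_split` (to be stated and proved first): the identity
`f((q (h + v))^e, C z) = ∏ (C z - tayC h (x i))` in `ℂ⟦v⟧` for `z ∈ ℂ`: evaluate
`pd.split` at `C z` (an identity in `ℂ⟦T⟧`) and apply `tayC h`, a ring homomorphism on the subring of
convergent series (`tayC_mul`, `tayC_add`, `tayC_C`, `tayC_X`, `CvC.mul` ..., `TCA.lean`; see the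
private subring `cvsC` and the proof of `tayC_pe` in `TCB.lean`, copy the subring).
`fx_root`: `pd.split` at `x i` gives `f((q T)^e, x i) = 0`, apply `tayC h`, then
`PowerSeries.rescale h` (`h + v ↦ h (1 + w)`), so `(q h (1 + w))^e = (1/N) (1 + w)^e`:
`fv d m (af f) (C (1/N) * (1 + X)^e) (rescale h (tayC h (x i))) = 0` (with `fv_af`).
`y_prodR`: constant coefficients in `tay_split`: for all `z ∈ ℂ`: `f(1/N, z) = ∏ (z - evC h (x i))`;
with `gN_val` (`Pool/Agent/H97/GA/WEqA.lean`) or `weqe_gen` (`s = 0`):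
`gN (N^m z) = N^(m d) f(1/N, z) = ∏ (N^m z - yR i)`; both sides
polynomials in `z`, equal for all `z` (`Polynomial.funext`; every complex number is `N^m z`).
`y_injR`: `H.sep` and `y_prodR` (`Polynomial.separable_prod_X_sub_C_iff`).
`W_eqR`: `weqe_gen` in `ℂ⟦w⟧` with `t = C (1/N)`, `s = X`, `w = rescale h (tayC h (x i))` and
`fx_root`; `pe` with constant `1`: `(C 1 * X)^(l+1) = X^(l+1)`. -/

namespace Pool.Agent.H87.SA2

open Finset Polynomial Pool.Agent.H72.ES Pool.Agent.H87.SA Pool.Agent.H97.GA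

variable {f : ℤ[X][X]} {d m N : ℕ} {pd : PData f d} {X0 : ℝ}

/-- the subring of convergent complex series -/
private def yrCv (h : ℝ) (hh : 0 ≤ h) : Subring (PowerSeries ℂ) where
  carrier := {a | CvC h a}
  mul_mem' := fun ha hb => CvC.mul hh ha hb
  one_mem' := by
    have := CvC.C h 1
    rwa [map_one] at this
  add_mem' := fun ha hb => CvC.add hh ha hb
  zero_mem' := by
    have := CvC.C h 0
    rwa [map_zero] at this
  neg_mem' := fun ha => CvC.neg ha

private noncomputable def yrTay (h : ℝ) (hh : 0 ≤ h) : yrCv h hh →+* PowerSeries ℂ where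
  toFun a := tayC h a.1
  map_one' := by
    have := tayC_C h 1
    rwa [map_one] at this
  map_mul' a b := tayC_mul hh a.2 b.2
  map_zero' := by
    have := tayC_C h 0
    rwa [map_zero] at this
  map_add' a b := tayC_add hh a.2 b.2

theorem yr_h0 (H : RHyp f d m pd N X0) : 0 ≤ 1 / X0 :=
  div_nonneg zero_le_one (le_trans zero_le_one H.X1)

/-- a substitution followed by a ring homomorphism -/
theorem yr_comp {A B : Type*} [CommRing A] [CommRing B] (φ : A →+* B) (t : A) :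
    φ.comp (eval₂RingHom (Int.castRingHom A) t) = eval₂RingHom (Int.castRingHom B) (φ t) := by
  refine Polynomial.ringHom_ext' ?_ ?_
  · exact RingHom.ext_int _ _
  · rw [RingHom.comp_apply, coe_eval₂RingHom, coe_eval₂RingHom, eval₂_X, eval₂_X]

/-- a factorisation mapped by a ring homomorphism -/
theorem yr_mapsplit {A B : Type*} [CommRing A] [CommRing B] (φ : A →+* B) (t : A) (x : Fin d → A)
    (hs : f.map (eval₂RingHom (Int.castRingHom A) t) = ∏ i, (X - C (x i))) :
    f.map (eval₂RingHom (Int.castRingHom B) (φ t)) = ∏ i, (X - C (φ (x i))) := by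
  have h1 := congrArg (Polynomial.map φ) hs
  rw [Polynomial.map_map, yr_comp, Polynomial.map_prod] at h1
  rw [h1]
  refine prod_congr rfl fun i _ => ?_
  rw [Polynomial.map_sub, Polynomial.map_X, Polynomial.map_C]

theorem tay_split (H : RHyp f d m pd N X0) :
    f.map (eval₂RingHom (Int.castRingHom (PowerSeries ℂ))
      ((PowerSeries.C (pd.q : ℂ) *
        (PowerSeries.C (((1 / X0 : ℝ)) : ℂ) + PowerSeries.X)) ^ pd.e)) =
      ∏ i, (X - C (tayC (1 / X0) (pd.x i))) := by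
  have hh := yr_h0 H
  let T : yrCv (1 / X0) hh := ⟨PowerSeries.X, CvC.X _⟩
  let c : yrCv (1 / X0) hh := ⟨PowerSeries.C (pd.q : ℂ), CvC.C _ _⟩
  let y : Fin d → yrCv (1 / X0) hh := fun i => ⟨pd.x i, cvC_R H i⟩
  have hinj : Function.Injective (yrCv (1 / X0) hh).subtype := Subtype.val_injective
  have h1 : f.map (eval₂RingHom (Int.castRingHom (yrCv (1 / X0) hh)) ((c * T) ^ pd.e)) =
      ∏ i, (X - C (y i)) := by
    apply Polynomial.map_injective _ hinj
    rw [Polynomial.map_map, yr_comp, Polynomial.map_prod]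
    refine Eq.trans ?_ (pd.split.trans ?_)
    · unfold tq
      congr 2
    · refine prod_congr rfl fun i _ => ?_
      rw [Polynomial.map_sub, Polynomial.map_X, Polynomial.map_C]
      rfl
  have h2 := yr_mapsplit (yrTay (1 / X0) hh) _ _ h1
  have hT : yrTay (1 / X0) hh T = PowerSeries.C (((1 / X0 : ℝ)) : ℂ) + PowerSeries.X :=
    tayC_X (1 / X0)
  have hc : yrTay (1 / X0) hh c = PowerSeries.C (pd.q : ℂ) := tayC_C (1 / X0) _
  rw [map_pow, map_mul, hT, hc] at h2
  exact h2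

theorem yr_pow (H : RHyp f d m pd N X0) :
    ((pd.q : ℂ) * (((1 / X0 : ℝ)) : ℂ)) ^ pd.e = 1 / (N : ℂ) := by
  have hX : (0 : ℝ) < X0 := lt_of_lt_of_le zero_lt_one H.X1
  have hq : (0 : ℝ) < (pd.q : ℝ) := by exact_mod_cast pd.q_pos
  have hN : (0 : ℝ) < (N : ℝ) := by exact_mod_cast H.N1
  have h1 := H.pow
  have h2 : ((pd.q : ℝ) * (1 / X0)) ^ pd.e = 1 / (N : ℝ) := by
    rw [mul_one_div, _root_.div_pow, h1]
    push_cast
    have : (pd.q : ℝ) ^ pd.e ≠ 0 := (pow_pos hq _).ne'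
    field_simp
  have h3 : (((((pd.q : ℝ) * (1 / X0)) ^ pd.e : ℝ)) : ℂ) = ((1 / (N : ℝ) : ℝ) : ℂ) := by rw [h2]
  push_cast at h3 ⊢
  exact h3

theorem yr_rC (a b : ℂ) : PowerSeries.rescale a (PowerSeries.C b) = PowerSeries.C b := by
  ext k
  rw [PowerSeries.coeff_rescale, PowerSeries.coeff_C]
  split_ifs with h
  · rw [h, pow_zero, one_mul]
  · rw [mul_zero]

theorem rs_split (H : RHyp f d m pd N X0) :
    f.map (eval₂RingHom (Int.castRingHom (PowerSeries ℂ))
      (PowerSeries.C (1 / (N : ℂ)) * (1 + PowerSeries.X) ^ pd.e)) =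
      ∏ i, (X - C (PowerSeries.rescale (((1 / X0 : ℝ)) : ℂ) (tayC (1 / X0) (pd.x i)))) := by
  have h1 := yr_mapsplit (PowerSeries.rescale (((1 / X0 : ℝ)) : ℂ)) _ _ (tay_split H)
  have h2 : PowerSeries.rescale (((1 / X0 : ℝ)) : ℂ) ((PowerSeries.C (pd.q : ℂ) *
      (PowerSeries.C (((1 / X0 : ℝ)) : ℂ) + PowerSeries.X)) ^ pd.e) =
      PowerSeries.C (1 / (N : ℂ)) * (1 + PowerSeries.X) ^ pd.e := by
    rw [map_pow, map_mul, map_add, PowerSeries.rescale_X, yr_rC,
      yr_rC, ← yr_pow H, map_pow, map_mul, ← mul_pow]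
    congr 1
    ring
  rw [h2] at h1
  exact h1

theorem fx_root (H : RHyp f d m pd N X0) (i : Fin d) :
    fv d m (af f) (PowerSeries.C (1 / (N : ℂ)) * (1 + PowerSeries.X) ^ pd.e)
      (PowerSeries.rescale (((1 / X0 : ℝ)) : ℂ) (tayC (1 / X0) (pd.x i))) = 0 := by
  rw [fv_af H.monic H.deg H.mdeg, ← eval_map, rs_split H, eval_prod]
  apply prod_eq_zero (mem_univ i)
  rw [eval_sub, eval_X, eval_C, sub_self]

theorem cst_split (H : RHyp f d m pd N X0) :
    f.map (eval₂RingHom (Int.castRingHom ℂ) (1 / (N : ℂ))) =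
      ∏ i, (X - C (evC (1 / X0) (pd.x i))) := by
  have h1 := yr_mapsplit (PowerSeries.constantCoeff (R := ℂ)) _ _ (rs_split H)
  have h2 : PowerSeries.constantCoeff (PowerSeries.C (1 / (N : ℂ)) *
      (1 + PowerSeries.X) ^ pd.e) = 1 / (N : ℂ) := by
    rw [map_mul, map_pow, map_add, map_one, PowerSeries.constantCoeff_X, PowerSeries.constantCoeff_C,
      add_zero, one_pow, mul_one]
  rw [h2] at h1
  rw [h1]
  refine prod_congr rfl fun i _ => ?_
  congr 2
  unfold evC
  rw [← PowerSeries.coeff_zero_eq_constantCoeff_apply, PowerSeries.coeff_rescale, pow_zero, one_mul,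
    PowerSeries.coeff_zero_eq_constantCoeff_apply]

theorem y_prodR (H : RHyp f d m pd N X0) :
    (gN d m (af f) N).map (Int.castRingHom ℂ) = ∏ i, (X - C (yR pd m N X0 i)) := by
  have hN : (N : ℂ) ≠ 0 := by
    have := H.N1
    exact_mod_cast (by omega : N ≠ 0)
  refine Polynomial.funext fun z => ?_
  obtain ⟨w, hw⟩ : ∃ w : ℂ, z = (N : ℂ) ^ m * w :=
    ⟨((N : ℂ) ^ m)⁻¹ * z, by rw [mul_inv_cancel_left₀ (pow_ne_zero _ hN)]⟩
  have h1 := weqe_gen d m pd.e (af f) N (1 / (N : ℂ)) 0 w (by rw [mul_one_div, div_self hN])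
  rw [sum_eq_zero (fun l _ => by rw [zero_pow (Nat.succ_ne_zero l), zero_mul]), add_zero, add_zero,
    one_pow, mul_one, fv_af H.monic H.deg H.mdeg, ← eval_map, cst_split H, eval_prod] at h1
  have h2 : ((gN d m (af f) N).map (Int.castRingHom ℂ)).eval z =
      ei (gN d m (af f) N) ((N : ℂ) ^ m * w) := by
    rw [hw]
    unfold ei
    rw [eval_map]
  rw [h2, h1, eval_prod, hw, pow_mul]
  have h3 : ((N : ℂ) ^ m) ^ d = ∏ _i : Fin d, (N : ℂ) ^ m := by
    rw [prod_const, card_univ, Fintype.card_fin]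
  rw [h3, ← prod_mul_distrib]
  refine prod_congr rfl fun i _ => ?_
  rw [eval_sub, eval_X, eval_C, eval_sub, eval_X, eval_C]
  unfold yR
  ring

theorem y_injR (H : RHyp f d m pd N X0) : Function.Injective (yR pd m N X0) := by
  have h1 := H.sep
  rw [y_prodR H] at h1
  exact (Polynomial.separable_prod_X_sub_C_iff).1 h1

theorem W_eqR (H : RHyp f d m pd N X0) (i : Fin d) :
    pe (gN d m (af f) N) (hNe d m pd.e (af f) N) (pd.e * m) 1 (WR pd m N X0 i) = 0 := by
  have hN : (N : ℂ) ≠ 0 := by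
    have := H.N1
    exact_mod_cast (by omega : N ≠ 0)
  have hC : ((N : ℕ) : PowerSeries ℂ) = PowerSeries.C (N : ℂ) := by
    rw [map_natCast]
  have ht : ((N : ℕ) : PowerSeries ℂ) * PowerSeries.C (1 / (N : ℂ)) = 1 := by
    rw [hC, ← map_mul, mul_one_div, div_self hN, map_one]
  obtain ⟨w, hw⟩ : ∃ w, w = PowerSeries.rescale (((1 / X0 : ℝ)) : ℂ) (tayC (1 / X0) (pd.x i)) :=
    ⟨_, rfl⟩
  have h0 := fx_root H i
  rw [← hw] at h0
  have h1 := weqe_gen d m pd.e (af f) N (PowerSeries.C (1 / (N : ℂ))) PowerSeries.X w ht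
  rw [h0, mul_zero] at h1
  have h2 : WR pd m N X0 i = ((N : ℕ) : PowerSeries ℂ) ^ m * w := by
    unfold WR
    rw [hC, ← map_pow, hw]
  rw [h2]
  clear h2 h0 hw
  have h3 : ∀ l, (PowerSeries.C (1 : ℂ) * PowerSeries.X) ^ (l + 1) = (PowerSeries.X : PowerSeries ℂ) ^ (l + 1) := by
    intro l
    rw [map_one, one_mul]
  unfold pe
  simp only [h3]
  exact h1

end Pool.Agent.H87.SA2
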