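import Pool.Agent.H87.SA2.WEQE
import Pool.Agent.H97.GA.TCB

/-! # [SA2-YRA] The values at the rational point: convergence, size, the variable `u`

`h = 1 / X0`, `R h ≤ 1/4` (`H.big`). `(q h)^e = 1/N` (`H.pow`: `X0^e = q^e N`).

`cvC_R`: `CvC_of` (`TCB.lean`) with `A = R` and `pd.growth` (`R^(k+1) = R * R^k`).
`y_leR`: `evC_near` (`TCB.lean`): `‖evC h a‖ ≤ ‖a_0‖ + 4 A R h ≤ R + R` with `A = R`, `4 R h ≤ 1`.
`W_constR`: `evC` is the constant coefficient of `tayC`; `rescale` does not change it.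
`u_split`: apply `Polynomial.map (PowerSeries.rescale (1/X0))` to `pd.split`:
`rescale (1/X0) (pd.x i) = mk (xu pd X0 i)` (`PowerSeries.coeff_rescale`) and
`(rescale (1/X0)).comp (tq e q)` maps `X : ℤ[X]` to
`(C q * (C (1/X0) * X))^e = C ((q/X0)^e) * X^e = C (1/N) * X^e` (`Polynomial.ringHom_ext'`). -/

namespace Pool.Agent.H87.SA2

open Finset Polynomial Pool.Agent.H72.ES Pool.Agent.H87.SA Pool.Agent.H97.GA

variable {f : ℤ[X][X]} {d m N : ℕ} {pd : PData f d} {X0 : ℝ}

theorem yra_Rh (H : RHyp f d m pd N X0) : pd.R * (1 / X0) ≤ 1 / 4 := by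
  have h1 := H.big
  have h2 : 0 < X0 := by linarith [H.X1]
  rw [mul_one_div, div_le_div_iff₀ h2 (by norm_num)]
  linarith

theorem cvC_R (H : RHyp f d m pd N X0) (i : Fin d) : CvC (1 / X0) (pd.x i) := by
  have h1 := pd.R_ge
  refine CvC_of (A := pd.R) (R := pd.R) (by linarith) ?_ ?_
  · linarith [yra_Rh H]
  · intro k
    have h2 := pd.growth i k
    rw [pow_succ'] at h2
    exact h2

theorem y_leR (H : RHyp f d m pd N X0) (i : Fin d) :
    ‖yR pd m N X0 i‖ ≤ 2 * pd.R * (N : ℝ) ^ m := by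
  have hR := pd.R_ge
  have hX : 0 < X0 := by linarith [H.X1]
  have hRh := yra_Rh H
  have h1 : ‖evC (1 / X0) (pd.x i) - PowerSeries.constantCoeff (pd.x i)‖ ≤
      4 * pd.R * pd.R * (1 / X0) := by
    refine evC_near (by positivity) (by linarith) (by linarith) ?_
    intro k
    have h2 := pd.growth i k
    rw [pow_succ'] at h2
    exact h2
  have h2 : ‖PowerSeries.constantCoeff (pd.x i)‖ ≤ pd.R := by
    have h3 := pd.growth i 0
    rw [zero_add, pow_one, PowerSeries.coeff_zero_eq_constantCoeff_apply] at h3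
    exact h3
  have h3 : 4 * pd.R * pd.R * (1 / X0) ≤ pd.R := by
    have h4 : 4 * pd.R * pd.R * (1 / X0) = 4 * pd.R * (pd.R * (1 / X0)) := by ring
    rw [h4]
    have h5 : 4 * pd.R * (pd.R * (1 / X0)) ≤ 4 * pd.R * (1 / 4) :=
      mul_le_mul_of_nonneg_left hRh (by linarith)
    linarith
  have h4 : ‖evC (1 / X0) (pd.x i)‖ ≤ 2 * pd.R := by
    have h5 : evC (1 / X0) (pd.x i) = (evC (1 / X0) (pd.x i) -
        PowerSeries.constantCoeff (pd.x i)) + PowerSeries.constantCoeff (pd.x i) := by ring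
    rw [h5]
    refine (norm_add_le _ _).trans ?_
    linarith
  unfold yR
  rw [norm_mul, norm_pow, Complex.norm_natCast, mul_comm]
  exact mul_le_mul_of_nonneg_right h4 (by positivity)

theorem W_constR (i : Fin d) :
    PowerSeries.constantCoeff (WR pd m N X0 i) = yR pd m N X0 i := by
  unfold WR yR evC
  rw [map_mul, PowerSeries.constantCoeff_C, ← PowerSeries.coeff_zero_eq_constantCoeff_apply,
    ← PowerSeries.coeff_zero_eq_constantCoeff_apply, PowerSeries.coeff_rescale, pow_zero, one_mul]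

/-- `1/N = (q/X0)^e`, so `f((u/X0 q)^e, X) = f(u^e/N, X)` has rational coefficients -/
theorem u_split (H : RHyp f d m pd N X0) :
    f.map (eval₂RingHom (Int.castRingHom (PowerSeries ℂ))
      (PowerSeries.C (1 / (N : ℂ)) * PowerSeries.X ^ pd.e)) =
      ∏ i, (X - C (PowerSeries.mk (xu pd X0 i))) := by
  obtain ⟨a, ha⟩ : ∃ a : ℂ, a = (((1 / X0 : ℝ)) : ℂ) := ⟨_, rfl⟩
  have hX : 0 < X0 := by linarith [H.X1]
  have hN : (N : ℂ) ≠ 0 := by
    have := H.N1
    exact_mod_cast (by omega : N ≠ 0)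
  have hq : ((pd.q : ℂ)) ≠ 0 := by
    have := pd.q_pos
    exact_mod_cast (by omega : pd.q ≠ 0)
  have hpow : ((pd.q : ℂ) * a) ^ pd.e = 1 / (N : ℂ) := by
    have h1 : ((X0 : ℂ)) ^ pd.e = (pd.q : ℂ) ^ pd.e * (N : ℂ) := by
      have h2 := H.pow
      have h3 : (((X0 ^ pd.e : ℝ)) : ℂ) = ((((pd.q ^ pd.e * N : ℕ) : ℝ)) : ℂ) := by rw [h2]
      push_cast at h3
      exact h3
    rw [ha, mul_pow]
    push_cast
    rw [one_div, inv_pow, h1]
    have h4 : (pd.q : ℂ) ^ pd.e ≠ 0 := pow_ne_zero _ hq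
    field_simp
  have hhom : (PowerSeries.rescale a).comp (tq pd.e pd.q) =
      eval₂RingHom (Int.castRingHom (PowerSeries ℂ))
        (PowerSeries.C (1 / (N : ℂ)) * PowerSeries.X ^ pd.e) := by
    refine Polynomial.ringHom_ext' (RingHom.ext_int _ _) ?_
    rw [RingHom.comp_apply]
    unfold tq
    rw [coe_eval₂RingHom, coe_eval₂RingHom, eval₂_X, eval₂_X, map_pow, map_mul,
      PowerSeries.rescale_X]
    have h5 : (PowerSeries.rescale a) (PowerSeries.C (pd.q : ℂ)) = PowerSeries.C (pd.q : ℂ) := by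
      ext k
      rw [PowerSeries.coeff_rescale, PowerSeries.coeff_C]
      split_ifs with hk
      · rw [hk, pow_zero, one_mul]
      · rw [mul_zero]
    rw [h5, ← mul_assoc, ← map_mul, mul_pow, ← map_pow, hpow]
  have h6 := congrArg (Polynomial.map (PowerSeries.rescale a)) pd.split
  rw [Polynomial.map_map, hhom, Polynomial.map_prod] at h6
  rw [h6]
  refine Finset.prod_congr rfl fun i _ => ?_
  rw [Polynomial.map_sub, Polynomial.map_X, Polynomial.map_C]
  congr 2
  ext k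
  rw [PowerSeries.coeff_rescale, PowerSeries.coeff_mk]
  unfold xu
  rw [← ha]

end Pool.Agent.H87.SA2
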