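import Pool.Agent.H87.SA2.Defs

/-! # [SA2-ZED] The two inequalities, real base -/

namespace Pool.Agent.H87.SA2

open Finset Pool.Agent.H72.ES Pool.Agent.H87.SA

theorem two_ineqR {E : Type} [CommRing E] (ψ : E →+* ℝ) {ν : E → ℝ} (hν : SubMul ν)
    (hψ : ∀ a, |ψ a| ≤ ν a) {D : ℕ} (liou : ∀ a, a ≠ 0 → 1 ≤ |ψ a| * ν a ^ D) {M A2 R2 : ℝ}
    (hA2 : 1 ≤ A2) (hR2 : 1 ≤ R2) (hM : 8 * R2 ≤ M) (W : PowerSeries E)
    (hW : ∀ k, ν (PowerSeries.coeff k W) ≤ A2 * R2 ^ k) {c Δ : ℝ} (hc : 1 ≤ c) (hΔ : 1 ≤ Δ)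
    (hdn : ∀ k, PowerSeries.coeff k (tay (1 / (M : ℝ)) (W.map ψ)) ≠ 0 →
      1 ≤ c * Δ ^ k * |PowerSeries.coeff k (tay (1 / (M : ℝ)) (W.map ψ))|) (hne : tay (1 / (M : ℝ)) (W.map ψ) ≠ 0) (K1 : ℕ)
    (hK1 : PowerSeries.X ^ K1 ∣ tay (1 / (M : ℝ)) (W.map ψ)) :
    ∃ k0 K' : ℕ, K1 ≤ K' ∧
      (M : ℝ) ^ K' ≤ (2 * R2) ^ K' * (A2 * R2 ^ k0) ^ (D + 1) ∧
      (M : ℝ) ^ k0 ≤ 2 * ((c : ℝ) * (Δ : ℝ) ^ K') * ((2 * R2) ^ K' * (A2 * R2 ^ k0)) := by
  have hR0 : (0 : ℝ) ≤ R2 := by linarith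
  have hM0 : (0 : ℝ) < M := by linarith
  set h : ℝ := 1 / (M : ℝ) with hhdef
  have hh : 0 < h := by positivity
  have hhM : h * M = 1 := by rw [hhdef]; field_simp
  have hRh : R2 * h ≤ 1 / 8 := by
    rw [hhdef, mul_one_div, div_le_iff₀ hM0]
    linarith
  have hga : Geo A2 R2 (W.map ψ) := fun k => by
    rw [PowerSeries.coeff_map]
    exact (hψ _).trans (hW k)
  have hcva : Cv h (W.map ψ) := hga.cv hR0 (by linarith)
  have hex : ∃ k, PowerSeries.coeff k (tay h (W.map ψ)) ≠ 0 := by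
    by_contra hcon
    push Not at hcon
    exact hne (PowerSeries.ext fun k => by rw [hcon k, map_zero])
  classical
  set K' := Nat.find hex with hK'
  have hKne : PowerSeries.coeff K' (tay h (W.map ψ)) ≠ 0 := Nat.find_spec hex
  have hKdvd : (PowerSeries.X : PowerSeries ℝ) ^ K' ∣ tay h (W.map ψ) := by
    rw [PowerSeries.X_pow_dvd_iff]
    intro m hm
    by_contra h0
    exact Nat.find_min hex hm h0
  have hKK : K1 ≤ K' := by
    by_contra hlt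
    push Not at hlt
    exact hKne ((PowerSeries.X_pow_dvd_iff.1 hK1) K' hlt)
  obtain ⟨V, hVcv, haV, htV, hgeo⟩ := div_pow hh.le hcva K' hKdvd
  have hgV : Geo ((2 * R2) ^ K' * A2) R2 V := hgeo A2 R2 hR0 (by linarith) hga
  have hcV : PowerSeries.coeff K' (tay h (W.map ψ)) = evl h V := by
    rw [htV, PowerSeries.coeff_X_pow_mul', if_pos le_rfl, Nat.sub_self, tay_coeff_zero]
  have hVne : ∃ k, PowerSeries.coeff k V ≠ 0 := by
    by_contra hcon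
    push Not at hcon
    apply hKne
    rw [hcV]
    unfold evl
    simp [hcon]
  set k0 := Nat.find hVne with hk0
  have hk0ne : PowerSeries.coeff k0 V ≠ 0 := Nat.find_spec hVne
  have hk0dvd : (PowerSeries.X : PowerSeries ℝ) ^ k0 ∣ V := by
    rw [PowerSeries.X_pow_dvd_iff]
    intro m hm
    by_contra h0
    exact Nat.find_min hVne hm h0
  obtain ⟨V1, hV1⟩ := hk0dvd
  have hcV1 : ∀ j, PowerSeries.coeff j V1 = PowerSeries.coeff (j + k0) V := by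
    intro j
    rw [hV1, PowerSeries.coeff_X_pow_mul]
  have hgV1 : Geo ((2 * R2) ^ K' * (A2 * R2 ^ k0)) R2 V1 := by
    intro j
    rw [hcV1]
    refine (hgV (j + k0)).trans (le_of_eq ?_)
    rw [pow_add]
    ring
  have hcvV1 : Cv h V1 := hgV1.cv hR0 (by linarith)
  have hXp : ∀ k : ℕ, Cv h ((PowerSeries.X : PowerSeries ℝ) ^ k) ∧
      evl h ((PowerSeries.X : PowerSeries ℝ) ^ k) = h ^ k := by
    intro k
    induction k with
    | zero =>
      have h1 : ((PowerSeries.X : PowerSeries ℝ) ^ 0) = PowerSeries.C 1 := by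
        rw [pow_zero, map_one]
      rw [h1]
      exact ⟨Cv.C h 1, by rw [evl_C, pow_zero]⟩
    | succ k ih =>
      rw [pow_succ]
      exact ⟨Cv.mul hh.le ih.1 (Cv.X h), by rw [evl_mul hh.le ih.1 (Cv.X h), ih.2, evl_X, pow_succ]⟩
  have hevl : evl h V = h ^ k0 * evl h V1 := by
    conv_lhs => rw [hV1]
    rw [evl_mul hh.le (hXp k0).1 hcvV1, (hXp k0).2]
  have hWk : ψ (PowerSeries.coeff k0 W) = (-h) ^ K' * PowerSeries.coeff k0 V := by
    rw [← PowerSeries.coeff_map, haV]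
    have h1 : (PowerSeries.X - PowerSeries.C h) ^ K' * V =
        PowerSeries.X ^ k0 * ((PowerSeries.X - PowerSeries.C h) ^ K' * V1) := by
      conv_lhs => rw [hV1]
      ring
    rw [h1, PowerSeries.coeff_X_pow_mul', if_pos le_rfl, Nat.sub_self,
      PowerSeries.coeff_zero_eq_constantCoeff_apply, map_mul, map_pow, map_sub,
      PowerSeries.constantCoeff_X, PowerSeries.constantCoeff_C, zero_sub,
      ← PowerSeries.coeff_zero_eq_constantCoeff_apply, hcV1, zero_add]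
  have hWne : PowerSeries.coeff k0 W ≠ 0 := by
    intro h0
    rw [h0, map_zero] at hWk
    have : (-h) ^ K' ≠ 0 := pow_ne_zero _ (by linarith)
    exact (mul_ne_zero this hk0ne) hWk.symm
  refine ⟨k0, K', hKK, ?_, ?_⟩
  · have h1 := liou _ hWne
    have hν0 : 0 ≤ ν (PowerSeries.coeff k0 W) := (abs_nonneg _).trans (hψ _)
    have h2 : |ψ (PowerSeries.coeff k0 W)| ≤ h ^ K' * ((2 * R2) ^ K' * (A2 * R2 ^ k0)) := by
      rw [hWk, abs_mul, abs_pow, abs_neg, abs_of_pos hh]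
      apply mul_le_mul_of_nonneg_left _ (by positivity)
      refine (hgV k0).trans (le_of_eq (by ring))
    have h3 : ν (PowerSeries.coeff k0 W) ^ D ≤ (A2 * R2 ^ k0) ^ D := pow_le_pow_left₀ hν0 (hW k0) _
    have h4 : 1 ≤ h ^ K' * ((2 * R2) ^ K' * (A2 * R2 ^ k0)) * (A2 * R2 ^ k0) ^ D :=
      h1.trans (mul_le_mul h2 h3 (pow_nonneg hν0 _) (by positivity))
    have h5 : (M : ℝ) ^ K' * 1 ≤ (M : ℝ) ^ K' *
        (h ^ K' * ((2 * R2) ^ K' * (A2 * R2 ^ k0)) * (A2 * R2 ^ k0) ^ D) :=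
      mul_le_mul_of_nonneg_left h4 (by positivity)
    have h6 : (M : ℝ) ^ K' *
        (h ^ K' * ((2 * R2) ^ K' * (A2 * R2 ^ k0)) * (A2 * R2 ^ k0) ^ D) =
        (h * M) ^ K' * ((2 * R2) ^ K' * (A2 * R2 ^ k0) ^ (D + 1)) := by
      rw [mul_pow h, pow_succ (A2 * R2 ^ k0)]
      ring
    rw [h6, hhM, one_pow, one_mul, mul_one] at h5
    exact h5
  · have hz1 := hdn K' hKne
    have hcΔ : 0 < (c : ℝ) * (Δ : ℝ) ^ K' := by positivity
    rw [hcV, hevl, abs_mul, abs_of_pos (pow_pos hh k0)] at hz1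
    have h2 : |evl h V1| ≤ 2 * ((2 * R2) ^ K' * (A2 * R2 ^ k0)) :=
      Geo.evl_le hh.le hR0 hgV1 (by linarith)
    have h3 : 1 ≤ (c : ℝ) * (Δ : ℝ) ^ K' * (h ^ k0 * (2 * ((2 * R2) ^ K' * (A2 * R2 ^ k0)))) := by
      refine hz1.trans ?_
      apply mul_le_mul_of_nonneg_left _ hcΔ.le
      exact mul_le_mul_of_nonneg_left h2 (by positivity)
    have h5 := mul_le_mul_of_nonneg_left h3 (pow_nonneg hM0.le k0)
    have h6 : (M : ℝ) ^ k0 * ((c : ℝ) * (Δ : ℝ) ^ K' *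
        (h ^ k0 * (2 * ((2 * R2) ^ K' * (A2 * R2 ^ k0))))) =
        (h * M) ^ k0 * (2 * ((c : ℝ) * (Δ : ℝ) ^ K') * ((2 * R2) ^ K' * (A2 * R2 ^ k0))) := by
      rw [mul_pow h]
      ring
    rw [h6, hhM, one_pow, one_mul, mul_one] at h5
    exact h5

end Pool.Agent.H87.SA2
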